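import Mathlib

/-!
# Thin coverings: the notions used in the statements
-/

set_option autoImplicit false

open MeasureTheory
open scoped Pointwise

namespace SC70

/-- `C` is a compact convex set covered by `k` closed unit balls with distinct centres. -/
def Covered {d : ℕ} (k : ℕ) (C : Set (EuclideanSpace ℝ (Fin d))) : Prop :=
  Convex ℝ C ∧ IsCompact C ∧ ∃ X : Finset (EuclideanSpace ℝ (Fin d)),
    X.card = k ∧ C ⊆ ⋃ x ∈ X, Metric.closedBall x (1 : ℝ)

/-- `C` is a compact convex set with interior points, covered by `k` closed unit balls with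
distinct and collinear centres. -/
def SausageBody {d : ℕ} (k : ℕ) (C : Set (EuclideanSpace ℝ (Fin d))) : Prop :=
  Convex ℝ C ∧ IsCompact C ∧ (interior C).Nonempty ∧
    ∃ Y : Finset (EuclideanSpace ℝ (Fin d)), Y.card = k ∧
      Collinear ℝ (Y : Set (EuclideanSpace ℝ (Fin d))) ∧
      C ⊆ ⋃ y ∈ Y, Metric.closedBall y (1 : ℝ)

/-- `C` lies within distance `√(c d)` of an affine subspace of dimension at most `c d`. -/
def NearFlat {d : ℕ} (c : ℝ) (C : Set (EuclideanSpace ℝ (Fin d))) : Prop :=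
  ∃ S : AffineSubspace ℝ (EuclideanSpace ℝ (Fin d)),
    (Module.finrank ℝ S.direction : ℝ) ≤ c * d ∧ ∀ x ∈ C, ∃ y ∈ S, ‖x - y‖ ^ 2 ≤ c * d

/-- `v` has length at least `1 / (c √d)`, and the translate `v + C` covers all of `C` except for
a part of volume at most `c vol C`. -/
def LongDir {d : ℕ} (c : ℝ) (C : Set (EuclideanSpace ℝ (Fin d)))
    (v : EuclideanSpace ℝ (Fin d)) : Prop :=
  1 / (c * √(d : ℝ)) ≤ ‖v‖ ∧ volume (C \ (v +ᵥ C)) ≤ ENNReal.ofReal c * volume C

end SC70
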