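import Pool.Agent.SC70.Round

/-!
# Thin coverings: bodies between two concentric balls
-/

set_option autoImplicit false

open MeasureTheory Measure Metric Set Module ENNReal Filter
open scoped RealInnerProductSpace Pointwise Topology

namespace SC70

variable {n : ℕ}

lemma Mn_ge (hn : 1 ≤ n) : 1 / √(Real.exp 1 * ((n : ℝ) + 1)) ≤ Mn n := by
  have hn' : (1 : ℝ) ≤ n := by exact_mod_cast hn
  have hM := Mn_pos hn
  have h1 : (1 / √(Real.exp 1 * ((n : ℝ) + 1))) ^ 2 ≤ Mn n ^ 2 := by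
    rw [Mn_sq hn, div_pow, Real.sq_sqrt (by positivity), one_pow]
    have h2 := exp_neg_one_le hn
    have e : 1 / (Real.exp 1 * ((n : ℝ) + 1)) = Real.exp (-1) * (1 / ((n : ℝ) + 1)) := by
      rw [Real.exp_neg]; field_simp
    rw [e]
    exact mul_le_mul_of_nonneg_right h2 (by positivity)
  exact abs_le_of_sq_le_sq' h1 (by positivity) |>.2

/-- **Bodies between two concentric balls.** -/
theorem round_sausage (hn : 1 ≤ n) (C : Set (EuclideanSpace ℝ (Fin (n + 1))))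
    (hconv : Convex ℝ C) (hCc : IsCompact C) (X : Finset (EuclideanSpace ℝ (Fin (n + 1))))
    (hcov : C ⊆ ⋃ x ∈ X, closedBall x 1) (p : EuclideanSpace ℝ (Fin (n + 1))) (r R : ℝ)
    (hr : 1 < r) (hrC : closedBall p r ⊆ C) (hRC : C ⊆ closedBall p R)
    (hR : R ≤ 2 * (1 - 1 / r) * √(((n : ℝ) + 1) / Real.exp 1)) :
    ∃ (C' : Set (EuclideanSpace ℝ (Fin (n + 1)))) (Y : Finset (EuclideanSpace ℝ (Fin (n + 1)))),
      Convex ℝ C' ∧ IsCompact C' ∧ (interior C').Nonempty ∧ Y.card = X.card ∧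
      Collinear ℝ (Y : Set (EuclideanSpace ℝ (Fin (n + 1)))) ∧
      C' ⊆ ⋃ y ∈ Y, closedBall y (1 : ℝ) ∧ volume C ≤ volume C' := by
  classical
  have hn' : (1 : ℝ) ≤ n := by exact_mod_cast hn
  have hkap := kap_nonneg n
  have hMn := Mn_ge hn
  have hr0 : 0 < r := by linarith
  have hpC : p ∈ C := hrC (mem_closedBall_self hr0.le)
  have hR0 : 0 < R := by
    have hne : ∃ x : EuclideanSpace ℝ (Fin (n + 1)), ‖x‖ = r := by
      refine ⟨EuclideanSpace.single 0 r, ?_⟩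
      rw [PiLp.norm_single, Real.norm_of_nonneg hr0.le]
    obtain ⟨x, hx⟩ := hne
    have h1 : p + x ∈ closedBall p r := by
      rw [mem_closedBall, dist_eq_norm, add_sub_cancel_left, hx]
    have h2 := hRC (hrC h1)
    rw [mem_closedBall, dist_eq_norm, add_sub_cancel_left, hx] at h2
    linarith
  have hk1 : 1 ≤ X.card := by
    have h1 := hcov hpC
    simp only [mem_iUnion] at h1
    obtain ⟨w, hw, _⟩ := h1
    exact Finset.card_pos.mpr ⟨w, hw⟩
  -- move the centres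
  obtain ⟨f, hf⟩ : ∃ f : EuclideanSpace ℝ (Fin (n + 1)) → EuclideanSpace ℝ (Fin (n + 1)),
      ∀ w, f w = if ‖w - p‖ ≤ R then w else p + (R / ‖w - p‖) • (w - p) := ⟨_, fun _ => rfl⟩
  have hf1 : ∀ w, ‖f w - p‖ ≤ R := by
    intro w
    rw [hf]
    split_ifs with h1
    · exact h1
    · push Not at h1
      have h2 : 0 < ‖w - p‖ := by linarith
      rw [add_sub_cancel_left, norm_smul, Real.norm_of_nonneg (by positivity),
        div_mul_cancel₀ _ h2.ne']
  have hf2 : ∀ w, ∀ x ∈ C, ‖x - f w‖ ≤ ‖x - w‖ := by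
    intro w x hx
    rw [hf]
    split_ifs with h1
    · exact le_refl _
    · push Not at h1
      have h2 := hRC hx
      rw [mem_closedBall, dist_eq_norm] at h2
      have h3 := move_centre_wide R (w - p) (x - p) hR0 h2 h1
      have e1 : x - (p + (R / ‖w - p‖) • (w - p)) = x - p - (R / ‖w - p‖) • (w - p) := by abel
      have e2 : x - w = x - p - (w - p) := by abel
      rw [e1, e2]
      exact h3
  have hcov' : C ⊆ ⋃ x ∈ X.image f, closedBall x 1 := by
    intro x hx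
    have h1 := hcov hx
    simp only [mem_iUnion] at h1 ⊢
    obtain ⟨w, hw, hxw⟩ := h1
    refine ⟨f w, Finset.mem_image_of_mem f hw, ?_⟩
    rw [mem_closedBall, dist_eq_norm] at hxw ⊢
    exact (hf2 w x hx).trans hxw
  have hb := round_bound C hconv hCc (X.image f) hcov' p r hr hrC
  have hsum : ∑ x ∈ X.image f, ‖x - p‖ ≤ (X.card : ℝ) * R := by
    calc ∑ x ∈ X.image f, ‖x - p‖ ≤ ∑ _x ∈ X.image f, R := by
          apply Finset.sum_le_sum
          intro x hx
          obtain ⟨w, _, rfl⟩ := Finset.mem_image.mp hx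
          exact hf1 w
      _ = ((X.image f).card : ℝ) * R := by rw [Finset.sum_const, nsmul_eq_mul]
      _ ≤ (X.card : ℝ) * R := by
          apply mul_le_mul_of_nonneg_right _ hR0.le
          exact_mod_cast Finset.card_image_le
  obtain ⟨C', Y, c1, c2, c3, c4, c5, c6, c7⟩ := sausage_exists hn X.card hk1
  refine ⟨C', Y, c1, c2, c3, c4, c5, c6, ?_⟩
  rw [c7]
  have hfin : volume C ≠ ⊤ := hCc.measure_lt_top.ne
  rw [← ENNReal.ofReal_toReal hfin]
  apply ENNReal.ofReal_le_ofReal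
  obtain ⟨V, hV⟩ : ∃ V : ℝ, V = (volume C).toReal := ⟨_, rfl⟩
  rw [← hV] at hb ⊢
  obtain ⟨k, hk⟩ : ∃ k : ℝ, k = (X.card : ℝ) := ⟨_, rfl⟩
  have hk0 : 0 ≤ k := by rw [hk]; exact Nat.cast_nonneg _
  rw [← hk] at hsum ⊢
  have hη : 0 < 1 - 1 / r := by
    rw [sub_pos, div_lt_one hr0]; exact hr
  have hN : (0 : ℝ) < (n : ℝ) + 1 := by positivity
  obtain ⟨s, hs⟩ : ∃ s : ℝ, s = √(Real.exp 1 * ((n : ℝ) + 1)) := ⟨_, rfl⟩
  have hs0 : 0 < s := by rw [hs]; exact Real.sqrt_pos.mpr (by positivity)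
  have hs2 : √(((n : ℝ) + 1) / Real.exp 1) = ((n : ℝ) + 1) * (1 / s) := by
    have h1 : ((n : ℝ) + 1) / Real.exp 1 = (((n : ℝ) + 1) * (1 / s)) ^ 2 := by
      rw [mul_pow, div_pow, hs, Real.sq_sqrt (by positivity)]
      field_simp
    rw [h1, Real.sqrt_sq (by positivity)]
  rw [hs2] at hR
  rw [← hs] at hMn
  have h1 : ((n : ℝ) + 1) * (1 - 1 / r) * V ≤
      ((n : ℝ) + 1) * (1 - 1 / r) * (2 * k * (kap n * (1 / s))) := by
    calc ((n : ℝ) + 1) * (1 - 1 / r) * V ≤ kap n * (k * R) :=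
          hb.trans (mul_le_mul_of_nonneg_left hsum hkap)
      _ ≤ kap n * (k * (2 * (1 - 1 / r) * (((n : ℝ) + 1) * (1 / s)))) := by gcongr
      _ = _ := by ring
  have h2 : V ≤ 2 * k * (kap n * (1 / s)) :=
    le_of_mul_le_mul_left h1 (mul_pos hN hη)
  refine h2.trans ?_
  gcongr

end SC70
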