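import Pool.Agent.SC70.TMain

/-!
# Thin coverings: bodies which are long in two directions, final statement
-/

set_option autoImplicit false

open MeasureTheory Measure Metric Set Module ENNReal
open scoped RealInnerProductSpace Pointwise

namespace SC70

/-- a convex body with a long chord nearly contains a translate of itself -/
lemma chord_shift {N : ℕ} (C : Set (EuclideanSpace ℝ (Fin N))) (hconv : Convex ℝ C)
    (hCc : IsCompact C) (a b : EuclideanSpace ℝ (Fin N)) (ha : a ∈ C) (hb : b ∈ C) (t : ℝ)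
    (ht0 : 0 ≤ t) (ht1 : t ≤ 1) :
    volume (C \ ((t • (b - a)) +ᵥ C)) ≤ ENNReal.ofReal (N * t) * volume C := by
  have hsub : AffineMap.homothety b (1 - t) '' C ⊆ (t • (b - a)) +ᵥ C := by
    rintro _ ⟨x, hx, rfl⟩
    refine ⟨(1 - t) • x + t • a, hconv hx ha (by linarith) ht0 (by ring), ?_⟩
    simp only [vadd_eq_add, AffineMap.homothety_apply, vsub_eq_sub]
    module
  have hsub2 : AffineMap.homothety b (1 - t) '' C ⊆ C := by
    rintro _ ⟨x, hx, rfl⟩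
    have h1 := hconv hx hb (by linarith : 0 ≤ 1 - t) ht0 (by ring)
    have e : (AffineMap.homothety b (1 - t)) x = (1 - t) • x + t • b := by
      simp only [AffineMap.homothety_apply, vsub_eq_sub, vadd_eq_add]
      module
    rw [e]; exact h1
  have hcomp : IsCompact (AffineMap.homothety b (1 - t) '' C) :=
    hCc.image (AffineMap.homothety_continuous b (1 - t))
  have hfin : volume C ≠ ⊤ := hCc.measure_lt_top.ne
  have hvol : volume (AffineMap.homothety b (1 - t) '' C) =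
      ENNReal.ofReal ((1 - t) ^ N) * volume C := by
    rw [addHaar_image_homothety, finrank_euclideanSpace_fin, abs_of_nonneg (by
      have : 0 ≤ 1 - t := by linarith
      positivity)]
  calc volume (C \ ((t • (b - a)) +ᵥ C))
      ≤ volume (C \ (AffineMap.homothety b (1 - t) '' C)) :=
        measure_mono (sdiff_subset_sdiff_right hsub)
    _ = volume C - volume (AffineMap.homothety b (1 - t) '' C) :=
        measure_sdiff hsub2 hcomp.measurableSet.nullMeasurableSet hcomp.measure_lt_top.ne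
    _ ≤ ENNReal.ofReal (N * t) * volume C := by
        rw [hvol, tsub_le_iff_right, ← add_mul, ← ENNReal.ofReal_add (by positivity)
          (pow_nonneg (by linarith) _)]
        have hb1 : 1 ≤ (N : ℝ) * t + (1 - t) ^ N := by
          have := one_add_mul_le_pow (a := -t) (by linarith) N
          have e : (1 + -t) ^ N = (1 - t) ^ N := by ring
          rw [e] at this
          linarith
        calc volume C = 1 * volume C := by rw [one_mul]
          _ ≤ _ := by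
            apply mul_le_mul' _ le_rfl
            rw [← ENNReal.ofReal_one]
            exact ENNReal.ofReal_le_ofReal hb1

/-- the finite form, with explicit conditions -/
theorem tfinal {n : ℕ} (hn : 25000 ≤ n) (c : ℝ) (hc : c = 1 / 1000000000000)
    (h3 : 200 ≤ 1 / 1000000000 * ((n : ℝ) + 2))
    (C : Set (EuclideanSpace ℝ (Fin (n + 1 + 1))))
    (X : Finset (EuclideanSpace ℝ (Fin (n + 1 + 1))))
    (hconv : Convex ℝ C) (hCc : IsCompact C) (hcov : C ⊆ ⋃ x ∈ X, closedBall x 1)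
    (hflat : (X.card : ℝ) ≤ Real.exp (c * (n + 1 + 1 : ℕ)) ∨
      ∃ S : AffineSubspace ℝ (EuclideanSpace ℝ (Fin (n + 1 + 1))),
        (finrank ℝ S.direction : ℝ) ≤ c * (n + 1 + 1 : ℕ) ∧
        ∀ x ∈ C, ∃ y ∈ S, ‖x - y‖ ^ 2 ≤ c * (n + 1 + 1 : ℕ))
    (hlong : (∃ v₁ v₂ : EuclideanSpace ℝ (Fin (n + 1 + 1)), ⟪v₁, v₂⟫ = 0 ∧
        1 / (c * √((n + 1 + 1 : ℕ) : ℝ)) ≤ ‖v₁‖ ∧ 1 / (c * √((n + 1 + 1 : ℕ) : ℝ)) ≤ ‖v₂‖ ∧
        volume (C \ (v₁ +ᵥ C)) ≤ ENNReal.ofReal c * volume C ∧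
        volume (C \ (v₂ +ᵥ C)) ≤ ENNReal.ofReal c * volume C) ∨
      (∃ x₁ ∈ C, ∃ y₁ ∈ C, ∃ x₂ ∈ C, ∃ y₂ ∈ C, ⟪x₁ - y₁, x₂ - y₂⟫ = 0 ∧
        √((n + 1 + 1 : ℕ) : ℝ) / c ≤ ‖x₁ - y₁‖ ∧ √((n + 1 + 1 : ℕ) : ℝ) / c ≤ ‖x₂ - y₂‖))
    (hk1 : 1 ≤ X.card) :
    ∃ (C' : Set (EuclideanSpace ℝ (Fin (n + 1 + 1))))
      (Y : Finset (EuclideanSpace ℝ (Fin (n + 1 + 1)))),
      Convex ℝ C' ∧ IsCompact C' ∧ (interior C').Nonempty ∧ Y.card = X.card ∧
      Collinear ℝ (Y : Set (EuclideanSpace ℝ (Fin (n + 1 + 1)))) ∧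
      C' ⊆ ⋃ y ∈ Y, closedBall y (1 : ℝ) ∧
      volume C ≤ ENNReal.ofReal (4 / 5) * volume C' := by
  have hn' : (25000 : ℝ) ≤ n := by exact_mod_cast hn
  have hcast : ((n + 1 + 1 : ℕ) : ℝ) = (n : ℝ) + 2 := by push_cast; ring
  have hcast2 : (((n + 1 : ℕ) : ℝ)) + 1 = (n : ℝ) + 2 := by push_cast; ring
  rw [hcast] at hflat hlong
  have hc0 : 0 < c := by rw [hc]; norm_num
  have hsN : 0 < √((n : ℝ) + 2) := Real.sqrt_pos.mpr (by positivity)
  obtain ⟨C', Y, c1, c2, c3, c4, c5, c6, c7⟩ := sausage_exists (n := n + 1) (by omega) X.card hk1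
  refine ⟨C', Y, c1, c2, c3, c4, c5, c6, ?_⟩
  rw [c7, ← ENNReal.ofReal_mul (by norm_num)]
  rcases C.eq_empty_or_nonempty with hCe | hCne
  · rw [hCe]; simp
  obtain ⟨x₀, hx₀⟩ := hCne
  -- a flat
  obtain ⟨c₁, hc₁def⟩ : ∃ c₁ : ℝ, c₁ = 1 / 1000000000 := ⟨_, rfl⟩
  have hc₁0 : 0 < c₁ := by rw [hc₁def]; norm_num
  have hcc : c ≤ c₁ := by rw [hc, hc₁def]; norm_num
  obtain ⟨V, hVm, hthin⟩ : ∃ V : Submodule ℝ (EuclideanSpace ℝ (Fin (n + 1 + 1))),
      (finrank ℝ V : ℝ) ≤ c₁ * ((n : ℝ) + 2) ∧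
      ∀ x ∈ C, ∀ y ∈ C, ∃ v ∈ V, ‖x - y - v‖ ≤ 2 * √(c₁ * ((n : ℝ) + 2)) := by
    rcases hflat with h | ⟨S, hS, hCS⟩
    · have h' : (X.card : ℝ) ≤ Real.exp (c₁ / 400 * (((n + 1 : ℕ) : ℝ) + 1)) := by
        rw [hcast2]
        refine h.trans (Real.exp_le_exp.mpr ?_)
        apply mul_le_mul_of_nonneg_right _ (by positivity)
        rw [hc, hc₁def]; norm_num
      obtain ⟨V, hV1, hV2⟩ := flat_of_exp (n := n + 1) c₁ hc₁0
        (by rw [hcast2, hc₁def]; exact h3) C X hconv x₀ hx₀ hcov h'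
      rw [hcast2] at hV1
      refine ⟨V, hV1, ?_⟩
      intro x hx y hy
      obtain ⟨x', hx', hxx⟩ := hV2 x hx
      obtain ⟨y', hy', hyy⟩ := hV2 y hy
      rw [hcast2] at hxx hyy
      refine ⟨x' - y', V.sub_mem hx' hy', ?_⟩
      have e : x - y - (x' - y') = (x - x₀ - x') - (y - x₀ - y') := by abel
      rw [e]
      refine (norm_sub_le _ _).trans ?_
      linarith
    · refine ⟨S.direction, hS.trans ?_, ?_⟩
      · apply mul_le_mul_of_nonneg_right hcc (by positivity)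
      intro x hx y hy
      obtain ⟨x', hx', hxx⟩ := hCS x hx
      obtain ⟨y', hy', hyy⟩ := hCS y hy
      refine ⟨x' - y', AffineSubspace.vsub_mem_direction hx' hy', ?_⟩
      have hle : c * ((n : ℝ) + 2) ≤ c₁ * ((n : ℝ) + 2) := by
        apply mul_le_mul_of_nonneg_right hcc (by positivity)
      have h4 : ‖x - x'‖ ≤ √(c₁ * ((n : ℝ) + 2)) := Real.le_sqrt_of_sq_le (hxx.trans hle)
      have h5 : ‖y - y'‖ ≤ √(c₁ * ((n : ℝ) + 2)) := Real.le_sqrt_of_sq_le (hyy.trans hle)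
      have e : x - y - (x' - y') = (x - x') - (y - y') := by abel
      rw [e]
      refine (norm_sub_le _ _).trans ?_
      linarith
  have hρ0 : 0 ≤ 2 * √(c₁ * ((n : ℝ) + 2)) := by positivity
  have hρ2 : 2 * √(c₁ * ((n : ℝ) + 2)) ≤ √(1 / 10 * n) / 100 := by
    have h4 : √(c₁ * ((n : ℝ) + 2)) ≤ √(1 / 10 * n) / 200 := by
      rw [Real.sqrt_le_left (by positivity), div_pow, Real.sq_sqrt (by positivity), hc₁def]
      linarith
    linarith
  have hm' : (finrank ℝ V : ℝ) ≤ (1 / 10) ^ 2 / 20000 * n := by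
    refine hVm.trans ?_
    rw [hc₁def]
    linarith
  -- two translations
  obtain ⟨u₁, u₂, h12, hu₁, hu₂, hs₁, hs₂⟩ : ∃ u₁ u₂ : EuclideanSpace ℝ (Fin (n + 1 + 1)),
      ⟪u₁, u₂⟫ = 0 ∧ 1000 / √((n : ℝ) + 2) ≤ ‖u₁‖ ∧ 1000 / √((n : ℝ) + 2) ≤ ‖u₂‖ ∧
      volume (C \ (u₁ +ᵥ C)) ≤ ENNReal.ofReal (1 / 300) * volume C ∧
      volume (C \ (u₂ +ᵥ C)) ≤ ENNReal.ofReal (1 / 300) * volume C := by
    rcases hlong with ⟨v₁, v₂, h12, h1, h2, h4, h5⟩ | ⟨x₁, hx₁, y₁, hy₁, x₂, hx₂, y₂, hy₂, h12, h1, h2⟩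
    · have h6 : 1000 / √((n : ℝ) + 2) ≤ 1 / (c * √((n : ℝ) + 2)) := by
        rw [hc, div_le_div_iff₀ hsN (by positivity)]
        nlinarith
      have h7 : ENNReal.ofReal c * volume C ≤ ENNReal.ofReal (1 / 300) * volume C := by
        apply mul_le_mul' _ le_rfl
        apply ENNReal.ofReal_le_ofReal
        rw [hc]; norm_num
      exact ⟨v₁, v₂, h12, h6.trans h1, h6.trans h2, h4.trans h7, h5.trans h7⟩
    · obtain ⟨t, ht⟩ : ∃ t : ℝ, t = 1 / (300 * ((n : ℝ) + 2)) := ⟨_, rfl⟩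
      have ht0 : 0 < t := by rw [ht]; positivity
      have ht1 : t ≤ 1 := by
        rw [ht, div_le_one (by positivity)]; linarith
      have hNt : ((n + 1 + 1 : ℕ) : ℝ) * t = 1 / 300 := by
        rw [hcast, ht]; field_simp
      have hs1 := chord_shift C hconv hCc y₁ x₁ hy₁ hx₁ t ht0.le ht1
      have hs2 := chord_shift C hconv hCc y₂ x₂ hy₂ hx₂ t ht0.le ht1
      rw [hNt] at hs1 hs2
      have hsq : √((n : ℝ) + 2) * √((n : ℝ) + 2) = (n : ℝ) + 2 :=
        Real.mul_self_sqrt (by positivity)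
      have hlen : 1000 / √((n : ℝ) + 2) ≤ t * (√((n : ℝ) + 2) / c) := by
        have e : t * (√((n : ℝ) + 2) / c) = 1000000000000 / 300 / √((n : ℝ) + 2) := by
          rw [ht, hc]
          field_simp
          rw [pow_two, hsq]
        rw [e]
        apply div_le_div_of_nonneg_right _ hsN.le
        norm_num
      refine ⟨t • (x₁ - y₁), t • (x₂ - y₂), ?_, ?_, ?_, hs1, hs2⟩
      · rw [inner_smul_left, inner_smul_right, h12]; simp
      · rw [norm_smul, Real.norm_of_nonneg ht0.le]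
        exact hlen.trans (mul_le_mul_of_nonneg_left h1 ht0.le)
      · rw [norm_smul, Real.norm_of_nonneg ht0.le]
        exact hlen.trans (mul_le_mul_of_nonneg_left h2 ht0.le)
  exact tmain_bound hn (finrank ℝ V) hm' _ hρ0 hρ2 V le_rfl C hconv hCc hthin u₁ u₂ h12 hu₁ hu₂
    hs₁ hs₂ X hcov

end SC70
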