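import Pool.Agent.SC70.Core

/-!
# Thin coverings: centres far from the axis
-/

set_option autoImplicit false

open MeasureTheory Measure Metric Set Module ENNReal
open scoped RealInnerProductSpace

namespace SC70

section general

variable {G : Type*} [NormedAddCommGroup G] [InnerProductSpace ℝ G]

/-- the value of the ray bound -/
noncomputable def Psi (n : ℕ) (w θ : G) : ℝ :=
  (⟪w, θ⟫ + √(1 - ‖w‖ ^ 2 + ⟪w, θ⟫ ^ 2)) ^ n *
      (1 + (⟪w, θ⟫ + √(1 - ‖w‖ ^ 2 + ⟪w, θ⟫ ^ 2)) * √(1 - ‖w‖ ^ 2 + ⟪w, θ⟫ ^ 2)) / 2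

/-- the frustum between the origin and the ball -/
def Fr (w : G) : Set G := {x | ‖x‖ ^ 2 ≤ ‖w‖ ^ 2 - 1 ∧ ‖x‖ * √(‖w‖ ^ 2 - 1) ≤ ⟪w, x⟫}

/-- facts about a ray meeting the ball -/
lemma ray_facts (w θ : G) (hθ : ‖θ‖ = 1) {r : ℝ} (hr : 0 < r) (hT : 0 < 1 - ‖r • θ - w‖ ^ 2) :
    0 < √(1 - ‖w‖ ^ 2 + ⟪w, θ⟫ ^ 2) ∧
    √(1 - ‖w‖ ^ 2 + ⟪w, θ⟫ ^ 2) ^ 2 = 1 - ‖w‖ ^ 2 + ⟪w, θ⟫ ^ 2 ∧
    0 < ⟪w, θ⟫ + √(1 - ‖w‖ ^ 2 + ⟪w, θ⟫ ^ 2) := by
  have h1 := norm_smul_sub_sq θ w hθ r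
  rw [h1] at hT
  have hpos : 0 < 1 - ‖w‖ ^ 2 + ⟪w, θ⟫ ^ 2 := by nlinarith [sq_nonneg (r - ⟪w, θ⟫)]
  have hsq := Real.sq_sqrt hpos.le
  have hD := Real.sqrt_pos.mpr hpos
  refine ⟨hD, hsq, ?_⟩
  have h2 : |r - ⟪w, θ⟫| < √(1 - ‖w‖ ^ 2 + ⟪w, θ⟫ ^ 2) := by
    apply abs_lt_of_sq_lt_sq _ hD.le
    linarith
  have := (abs_lt.mp h2).2
  linarith

lemma Psi_nonneg_of_ray (n : ℕ) (w θ : G) (hθ : ‖θ‖ = 1) {r : ℝ} (hr : 0 < r)
    (hT : 0 < 1 - ‖r • θ - w‖ ^ 2) : 0 ≤ Psi n w θ := by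
  obtain ⟨h1, _, h3⟩ := ray_facts w θ hθ hr hT
  unfold Psi
  positivity

/-- the estimate on a ray -/
lemma ray_le_Psi (n : ℕ) (hn : 1 ≤ n) (w θ : G) (hθ : ‖θ‖ = 1) {r : ℝ} (hr : 0 < r)
    (hT : 0 < 1 - ‖r • θ - w‖ ^ 2) :
    r ^ n * √(1 - ‖r • θ - w‖ ^ 2) ≤ (1 / √(n * Real.exp 1)) * Psi n w θ := by
  obtain ⟨h1, h2, h3⟩ := ray_facts w θ hθ hr hT
  have e := norm_smul_sub_sq θ w hθ r
  rw [← h2] at e
  rw [e] at hT ⊢
  exact ray_bound n hn _ _ r h1.le hr hT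

/-- lower bound for the radial integral of the comparison density -/
lemma radial_lower_wide (n : ℕ) (hn : 1 ≤ n) (w θ : G) (hθ : ‖θ‖ = 1) {r₀ : ℝ} (hr₀ : 0 < r₀)
    (hT : 0 < 1 - ‖r₀ • θ - w‖ ^ 2) :
    ENNReal.ofReal (Psi n w θ / n) ≤
    ∫⁻ r : ℝ in Ioi (0 : ℝ), ENNReal.ofReal (r ^ (n - 1)) *
      (closedBall w 1 ∪ Fr w).indicator (fun x => ENNReal.ofReal (Fw n w x)) (r • θ) := by
  obtain ⟨hDpos, hD2, hρ0⟩ := ray_facts w θ hθ hr₀ hT
  unfold Psi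
  set p := ⟪w, θ⟫ with hp
  set D := √(1 - ‖w‖ ^ 2 + p ^ 2) with hD
  set ρ := p + D with hρdef
  have hn' : (0 : ℝ) < n := by exact_mod_cast hn
  have hρ : 0 ≤ ρ := hρ0.le
  have hmem : ∀ r ∈ Ioc 0 ρ, r • θ ∈ closedBall w 1 ∪ Fr w := by
    intro r hr
    by_cases hcase : p - D ≤ r
    · left
      rw [mem_closedBall, dist_eq_norm]
      have h1 := norm_smul_sub_sq θ w hθ r
      rw [← hp, ← hD2] at h1
      have h2 : (r - p) ^ 2 ≤ D ^ 2 := by
        apply sq_le_sq'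
        · linarith
        · linarith [hr.2]
      have h3 : ‖r • θ - w‖ ^ 2 ≤ 1 := by linarith
      nlinarith [norm_nonneg (r • θ - w)]
    · right
      push Not at hcase
      have hr0 := hr.1
      have hprod : (p - D) * (p + D) = ‖w‖ ^ 2 - 1 := by nlinarith
      have hnr : ‖r • θ‖ = r := by rw [norm_smul, hθ, mul_one, Real.norm_of_nonneg hr0.le]
      have hp0 : 0 < p := by linarith
      constructor
      · rw [hnr]
        nlinarith
      · rw [hnr, inner_smul_right, ← hp]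
        apply mul_le_mul_of_nonneg_left _ hr0.le
        rw [Real.sqrt_le_left hp0.le]
        nlinarith
  have hFr : ∀ r : ℝ, Fw n w (r • θ) = (1 + (((n : ℝ) + 2) / n) * r ^ 2 -
      (((n : ℝ) + 1) / n) * (r * p)) / 2 := by
    intro r
    unfold Fw
    rw [norm_smul, hθ, inner_smul_right, ← hp, mul_one, Real.norm_eq_abs, sq_abs]
  have hint : ∫ r in (0 : ℝ)..ρ, r ^ (n - 1) * Fw n w (r • θ) =
      (ρ ^ n * (1 + ρ * D) / 2) / n := by
    have hder : ∀ r ∈ uIcc (0 : ℝ) ρ, HasDerivAt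
        (fun r : ℝ => (r ^ n + r ^ (n + 2) - p * r ^ (n + 1)) / 2 / n)
        (r ^ (n - 1) * Fw n w (r • θ)) r := by
      intro r _
      have h := (((hasDerivAt_pow n r).add (hasDerivAt_pow (n + 2) r)).sub
        ((hasDerivAt_pow (n + 1) r).const_mul p)).div_const 2 |>.div_const (n : ℝ)
      refine HasDerivAt.congr_deriv h ?_
      rw [hFr]
      obtain ⟨m, rfl⟩ : ∃ m, n = m + 1 := ⟨n - 1, by omega⟩
      simp only [Nat.add_sub_cancel]
      have e1 : m + 1 + 2 - 1 = m + 2 := by omega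
      rw [e1]
      push_cast
      field_simp
      ring
    rw [intervalIntegral.integral_eq_sub_of_hasDerivAt hder]
    · have : (0 : ℝ) ^ n = 0 := zero_pow (by omega)
      simp only [this, zero_pow (show n + 2 ≠ 0 by omega), zero_pow (show n + 1 ≠ 0 by omega)]
      rw [hρdef]; ring
    · apply Continuous.intervalIntegrable
      have : Continuous (fun r : ℝ => Fw n w (r • θ)) := (Fw_continuous n w).comp (by fun_prop)
      fun_prop
  have hc : Continuous (fun r : ℝ => r ^ (n - 1) * Fw n w (r • θ)) := by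
    have : Continuous (fun r : ℝ => Fw n w (r • θ)) := (Fw_continuous n w).comp (by fun_prop)
    fun_prop
  have hi : IntegrableOn (fun r : ℝ => r ^ (n - 1) * Fw n w (r • θ)) (Ioc 0 ρ) :=
    (hc.integrableOn_Icc).mono_set Ioc_subset_Icc_self
  have hi' : IntegrableOn (fun r : ℝ => max (r ^ (n - 1) * Fw n w (r • θ)) 0) (Ioc 0 ρ) :=
    ((hc.max continuous_const).integrableOn_Icc).mono_set Ioc_subset_Icc_self
  calc ENNReal.ofReal ((ρ ^ n * (1 + ρ * D) / 2) / n)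
      = ENNReal.ofReal (∫ r in Ioc (0 : ℝ) ρ, r ^ (n - 1) * Fw n w (r • θ)) := by
        rw [← hint, intervalIntegral.integral_of_le hρ]
    _ ≤ ENNReal.ofReal (∫ r in Ioc (0 : ℝ) ρ, max (r ^ (n - 1) * Fw n w (r • θ)) 0) := by
        apply ENNReal.ofReal_le_ofReal
        apply setIntegral_mono hi hi'
        intro r
        exact le_max_left _ _
    _ = ∫⁻ r in Ioc (0 : ℝ) ρ, ENNReal.ofReal (max (r ^ (n - 1) * Fw n w (r • θ)) 0) := by
        apply ofReal_integral_eq_lintegral_ofReal hi'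
        exact Filter.Eventually.of_forall fun r => le_max_right _ _
    _ = ∫⁻ r in Ioc (0 : ℝ) ρ, ENNReal.ofReal (r ^ (n - 1)) *
      (closedBall w 1 ∪ Fr w).indicator (fun x => ENNReal.ofReal (Fw n w x)) (r • θ) := by
        apply setLIntegral_congr_fun measurableSet_Ioc
        intro r hr
        simp only
        rw [indicator_of_mem (hmem r hr), ← ENNReal.ofReal_mul (pow_nonneg hr.1.le _),
          ENNReal.ofReal_max, ENNReal.ofReal_zero]
        simp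
    _ ≤ _ := lintegral_mono_set Ioc_subset_Ioi_self

/-- moving a far centre to the sphere of radius `R` does not hurt inside the ball -/
lemma move_centre_wide (R : ℝ) (w y : G) (hR : 0 < R) (hy : ‖y‖ ≤ R) (hw : R < ‖w‖) :
    ‖y - (R / ‖w‖) • w‖ ≤ ‖y - w‖ := by
  have hw0 : 0 < ‖w‖ := by linarith
  have h1 : ‖y - (R / ‖w‖) • w‖ ^ 2 ≤ ‖y - w‖ ^ 2 := by
    rw [norm_sub_sq_real, norm_sub_sq_real, norm_smul, inner_smul_right,
      Real.norm_of_nonneg (by positivity : 0 ≤ R / ‖w‖)]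
    have h2 : ⟪y, w⟫ ≤ R * ‖w‖ := (real_inner_le_norm y w).trans (by nlinarith)
    have h3 : R / ‖w‖ * ‖w‖ = R := by field_simp
    rw [h3]
    have h5 : 2 * (⟪y, w⟫ * (1 - R / ‖w‖)) ≤ ‖w‖ ^ 2 - R ^ 2 := by
      have h6 : 0 ≤ 1 - R / ‖w‖ := by
        rw [sub_nonneg, div_le_one hw0]; exact hw.le
      have h7 : ⟪y, w⟫ * (1 - R / ‖w‖) ≤ R * ‖w‖ * (1 - R / ‖w‖) :=
        mul_le_mul_of_nonneg_right h2 h6
      have h8 : R * ‖w‖ * (1 - R / ‖w‖) = R * (‖w‖ - R) := by field_simp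
      nlinarith
    nlinarith
  exact abs_le_of_sq_le_sq' h1 (norm_nonneg _) |>.2

end general

variable {n : ℕ}


lemma volume_ball_le (x : (EuclideanSpace ℝ (Fin n))) {s : ℝ} (hs : 0 ≤ s) :
    volume (closedBall x s) = ENNReal.ofReal (kap n * s ^ n) := by
  rw [Measure.addHaar_closedBall' _ _ hs, finrank_euclideanSpace_fin, ← ofReal_kap,
    ← ENNReal.ofReal_mul (by positivity)]
  congr 1; ring

/-- the frustum is small -/
lemma volume_Fr_le (w : (EuclideanSpace ℝ (Fin n))) (hw : 1 < ‖w‖) :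
    volume (Fr w) ≤ ENNReal.ofReal ((2 * ‖w‖ ^ 2) * (kap n * √(1 - 1 / (2 * ‖w‖ ^ 2)) ^ n)) := by
  set ω := ‖w‖ with hω
  have hω0 : 0 < ω := by linarith
  set b : ℝ := 1 / (√2 * ω) with hb
  have hs2 : √2 ^ 2 = (2 : ℝ) := Real.sq_sqrt (by norm_num)
  have hs2p : 0 < √(2 : ℝ) := by positivity
  have hbpos : 0 < b := by positivity
  have hb2 : b ^ 2 = 1 / (2 * ω ^ 2) := by
    rw [hb, div_pow, mul_pow, hs2]; norm_num
  set N : ℕ := ⌈ω ^ 2⌉₊ with hN
  have hNle : (N : ℝ) ≤ 2 * ω ^ 2 := by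
    have := (Nat.ceil_lt_add_one (by positivity : 0 ≤ ω ^ 2)).le
    nlinarith
  have hNge : ω ^ 2 ≤ N := Nat.le_ceil _
  have hs : 0 ≤ 1 - 1 / (2 * ω ^ 2) := by
    rw [sub_nonneg, div_le_one (by positivity)]; nlinarith
  have hcov : Fr w ⊆ ⋃ j ∈ Finset.range N,
      closedBall (((2 * (j : ℝ) + 1) * b / ω) • w) (√(1 - 1 / (2 * ω ^ 2))) := by
    intro x hx
    obtain ⟨hx1, hx2⟩ := hx
    rw [← hω] at hx1 hx2
    set t : ℝ := ⟪w, x⟫ / ω with ht
    have hwx : ⟪w, x⟫ = t * ω := by rw [ht]; field_simp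
    have hω1 : 0 ≤ ω ^ 2 - 1 := by nlinarith
    have ht0 : 0 ≤ t := by
      rw [ht]; apply div_nonneg _ hω0.le
      exact le_trans (by positivity) hx2
    have htx : t ≤ ‖x‖ := by
      rw [ht, div_le_iff₀ hω0, mul_comm]
      exact (real_inner_le_norm w x)
    have htω : t < ω := by
      have : ‖x‖ < ω := by nlinarith [norm_nonneg x]
      linarith
    have hperp : ‖x‖ ^ 2 - t ^ 2 ≤ 1 - 1 / ω ^ 2 := by
      have h1 : ‖x‖ ^ 2 * (ω ^ 2 - 1) ≤ t ^ 2 * ω ^ 2 := by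
        have h2 : (‖x‖ * √(ω ^ 2 - 1)) ^ 2 ≤ (⟪w, x⟫) ^ 2 :=
          pow_le_pow_left₀ (by positivity) hx2 2
        rw [mul_pow, Real.sq_sqrt hω1, hwx, mul_pow] at h2
        exact h2
      have h3 : (‖x‖ ^ 2 - t ^ 2) * ω ^ 2 ≤ ω ^ 2 - 1 := by nlinarith
      have h4 : ‖x‖ ^ 2 - t ^ 2 ≤ (ω ^ 2 - 1) / ω ^ 2 := by
        rw [le_div_iff₀ (by positivity)]; exact h3
      have h5 : (ω ^ 2 - 1) / ω ^ 2 = 1 - 1 / ω ^ 2 := by field_simp
      linarith
    set j : ℕ := ⌊t / (2 * b)⌋₊ with hj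
    have hj1 : (j : ℝ) ≤ t / (2 * b) := Nat.floor_le (by positivity)
    have hj2 : t / (2 * b) < j + 1 := Nat.lt_floor_add_one _
    rw [le_div_iff₀ (by positivity)] at hj1
    rw [div_lt_iff₀ (by positivity)] at hj2
    have hjN : j < N := by
      have h1 : (j : ℝ) < N := by
        have h2 : (j : ℝ) * (2 * b) < ω := by linarith
        have h3 : b * (√2 * ω) = 1 := by rw [hb]; field_simp
        have h4 : (j : ℝ) < ω ^ 2 := by
          have h5 : √2 ≤ 2 := by nlinarith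
          have h6 : (j : ℝ) * 2 * (b * (√2 * ω)) < ω * (√2 * ω) := by
            have := mul_lt_mul_of_pos_right h2 (by positivity : 0 < √2 * ω)
            nlinarith
          rw [h3] at h6
          nlinarith
        linarith
      exact_mod_cast h1
    simp only [mem_iUnion, Finset.mem_range]
    refine ⟨j, hjN, ?_⟩
    rw [mem_closedBall, dist_eq_norm]
    apply Real.le_sqrt_of_sq_le
    rw [norm_sub_sq_real, norm_smul, inner_smul_right, real_inner_comm, hwx, ← hω,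
      Real.norm_of_nonneg (by positivity)]
    have e1 : (2 * (j : ℝ) + 1) * b / ω * ω = (2 * j + 1) * b := by field_simp
    have e2 : (2 * (j : ℝ) + 1) * b / ω * (t * ω) = (2 * j + 1) * b * t := by field_simp
    rw [e1, e2]
    have h7 : (t - (2 * j + 1) * b) ^ 2 ≤ b ^ 2 := by
      apply sq_le_sq'
      · linarith
      · linarith
    have h8 : 1 / (2 * ω ^ 2) + 1 / (2 * ω ^ 2) = 1 / ω ^ 2 := by field_simp; norm_num
    nlinarith
  calc volume (Fr w) ≤ volume (⋃ j ∈ Finset.range N,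
      closedBall (((2 * (j : ℝ) + 1) * b / ω) • w) (√(1 - 1 / (2 * ω ^ 2)))) := measure_mono hcov
    _ ≤ ∑ j ∈ Finset.range N,
        volume (closedBall (((2 * (j : ℝ) + 1) * b / ω) • w) (√(1 - 1 / (2 * ω ^ 2)))) :=
        measure_biUnion_finset_le _ _
    _ = N * ENNReal.ofReal (kap n * √(1 - 1 / (2 * ω ^ 2)) ^ n) := by
        simp only [volume_ball_le _ (Real.sqrt_nonneg _), Finset.sum_const, Finset.card_range,
          nsmul_eq_mul]
    _ ≤ ENNReal.ofReal (2 * ω ^ 2) * ENNReal.ofReal (kap n * √(1 - 1 / (2 * ω ^ 2)) ^ n) := by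
        gcongr
        rw [← ENNReal.ofReal_natCast]
        exact ENNReal.ofReal_le_ofReal hNle
    _ = _ := by rw [← ENNReal.ofReal_mul (by positivity)]

end SC70
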