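import Pool.Agent.SC70.Frame
import Pool.Agent.SC70.Wide

/-!
# Thin coverings: the sausage body
-/

set_option autoImplicit false

open MeasureTheory Measure Metric Set Module ENNReal
open scoped RealInnerProductSpace Pointwise

namespace SC70

variable {n : ℕ}


/-- relative volume of the sausage cylinder per ball -/
noncomputable def Mn (n : ℕ) : ℝ := √((n : ℝ) / (n + 1)) ^ n * (1 / √((n : ℝ) + 1))

theorem sausage_exists (hn : 1 ≤ n) (k : ℕ) (hk : 1 ≤ k) :
    ∃ (C' : Set (EuclideanSpace ℝ (Fin (n + 1)))) (Y : Finset (EuclideanSpace ℝ (Fin (n + 1)))),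
      Convex ℝ C' ∧ IsCompact C' ∧ (interior C').Nonempty ∧ Y.card = k ∧
      Collinear ℝ (Y : Set (EuclideanSpace ℝ (Fin (n + 1)))) ∧
      C' ⊆ ⋃ y ∈ Y, closedBall y (1 : ℝ) ∧
      volume C' = ENNReal.ofReal (2 * k * (kap n * Mn n)) := by
  classical
  have hn' : (1 : ℝ) ≤ n := by exact_mod_cast hn
  have hk' : (1 : ℝ) ≤ k := by exact_mod_cast hk
  set e : EuclideanSpace ℝ (Fin (n + 1)) := EuclideanSpace.single 0 1 with he'
  have he : ‖e‖ = 1 := by simp [he']
  have he0 : e ≠ 0 := by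
    intro h; rw [h, norm_zero] at he; norm_num at he
  obtain ⟨L, hL, hmp, hsurj⟩ := exists_frame e he
  set χ : ℝ × EuclideanSpace ℝ (Fin n) → EuclideanSpace ℝ (Fin (n + 1)) :=
    fun z => z.1 • e + L z.2 with hχ
  have hmp' : MeasurePreserving χ volume volume := hmp
  have hLc : Continuous L := L.continuous
  have hχc : Continuous χ := by simp only [hχ]; fun_prop
  have hnorm : ∀ z, ‖χ z‖ ^ 2 = z.1 ^ 2 + ‖z.2‖ ^ 2 := fun z => frame_norm he L hL z.1 z.2
  have hlin : IsLinearMap ℝ χ := by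
    constructor
    · intro x y
      simp only [hχ, Prod.fst_add, Prod.snd_add, map_add, add_smul]; abel
    · intro c x
      simp only [hχ, Prod.smul_fst, Prod.smul_snd, map_smul, smul_eq_mul, mul_smul, smul_add]
  have hinj : Function.Injective χ := by
    intro z z' h
    have h1 : χ (z - z') = 0 := by
      have := hlin.map_sub z z'
      rw [this, h, sub_self]
    have h2 := hnorm (z - z')
    rw [h1, norm_zero] at h2
    have h3 : (z - z').1 = 0 := by nlinarith [sq_nonneg (z - z').1, sq_nonneg ‖(z - z').2‖]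
    have h4 : ‖(z - z').2‖ = 0 := by nlinarith [sq_nonneg (z - z').1, sq_nonneg ‖(z - z').2‖]
    ext1
    · have : z.1 - z'.1 = 0 := h3
      linarith
    · have : z.2 - z'.2 = 0 := norm_eq_zero.mp h4
      exact sub_eq_zero.mp this
  set a : ℝ := 1 / √((n : ℝ) + 1) with ha
  set s : ℝ := √((n : ℝ) / (n + 1)) with hs
  have ha0 : 0 < a := by positivity
  have hs0 : 0 < s := by positivity
  have has : a ^ 2 + s ^ 2 = 1 := by
    rw [ha, hs, div_pow, Real.sq_sqrt (by positivity), Real.sq_sqrt (by positivity)]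
    field_simp
    ring
  set Cyl : Set (ℝ × EuclideanSpace ℝ (Fin n)) := Icc (-(k * a)) (k * a) ×ˢ closedBall 0 s with hCyl
  have hCylc : IsCompact Cyl := isCompact_Icc.prod (isCompact_closedBall _ _)
  have hCylconv : Convex ℝ Cyl := (convex_Icc _ _).prod (convex_closedBall _ _)
  set ctr : ℕ → EuclideanSpace ℝ (Fin (n + 1)) := fun j => ((2 * (j : ℝ) + 1 - k) * a) • e with hctr
  have hctrinj : Function.Injective ctr := by
    intro i j hij
    simp only [hctr] at hij
    have h1 := smul_left_injective ℝ he0 hij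
    have h2 := mul_right_cancel₀ ha0.ne' h1
    have h3 : (i : ℝ) = j := by linarith
    exact_mod_cast h3
  refine ⟨χ '' Cyl, (Finset.range k).image ctr, ?_, ?_, ?_, ?_, ?_, ?_, ?_⟩
  · exact hCylconv.is_linear_image hlin
  · exact hCylc.image hχc
  · have hr : 0 < min (k * a) s := lt_min (by positivity) hs0
    refine ⟨0, ?_⟩
    rw [mem_interior]
    refine ⟨ball 0 (min (k * a) s), ?_, isOpen_ball, mem_ball_self hr⟩
    intro x hx
    rw [mem_ball_zero_iff] at hx
    obtain ⟨z, rfl⟩ := hsurj x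
    refine ⟨z, ?_, rfl⟩
    have h1 := hnorm z
    have hx' : ‖χ z‖ < min (k * a) s := hx
    have h2 : ‖χ z‖ < k * a := lt_of_lt_of_le hx' (min_le_left _ _)
    have h3 : ‖χ z‖ < s := lt_of_lt_of_le hx' (min_le_right _ _)
    constructor
    · have h4 : |z.1| ≤ ‖χ z‖ := by
        apply abs_le_of_sq_le_sq _ (norm_nonneg _)
        nlinarith [sq_nonneg ‖z.2‖]
      have h5 := abs_le.mp h4
      constructor <;> linarith [h5.1, h5.2]
    · rw [mem_closedBall_zero_iff]
      have h4 : ‖z.2‖ ^ 2 ≤ ‖χ z‖ ^ 2 := by nlinarith [sq_nonneg z.1]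
      have h5 := abs_le_of_sq_le_sq' h4 (norm_nonneg _) |>.2
      linarith
  · rw [Finset.card_image_of_injective _ hctrinj, Finset.card_range]
  · rw [collinear_iff_exists_forall_eq_smul_vadd]
    refine ⟨0, e, ?_⟩
    intro p hp
    simp only [Finset.coe_image, Finset.coe_range, mem_image] at hp
    obtain ⟨j, _, rfl⟩ := hp
    exact ⟨(2 * (j : ℝ) + 1 - k) * a, by simp [hctr]⟩
  · rintro x ⟨z, hz, rfl⟩
    obtain ⟨hz1, hz2⟩ := hz
    rw [mem_closedBall_zero_iff] at hz2
    obtain ⟨h1, h2⟩ := hz1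
    -- choice of the ball
    set j0 : ℕ := ⌊(z.1 / a + k) / 2⌋₊ with hj0
    set j : ℕ := min j0 (k - 1) with hj
    have hq0 : 0 ≤ (z.1 / a + k) / 2 := by
      have : -(k : ℝ) ≤ z.1 / a := by rw [le_div_iff₀ ha0]; linarith
      linarith
    have hq1 : (z.1 / a + k) / 2 ≤ k := by
      have : z.1 / a ≤ k := by rw [div_le_iff₀ ha0]; linarith
      linarith
    have hja : (j0 : ℝ) ≤ (z.1 / a + k) / 2 := Nat.floor_le hq0
    have hjb : (z.1 / a + k) / 2 < j0 + 1 := Nat.lt_floor_add_one _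
    have hjk : j < k := by omega
    have key : |z.1 / a - (2 * (j : ℝ) + 1 - k)| ≤ 1 := by
      rw [abs_le]
      rcases le_or_gt j0 (k - 1) with hc | hc
      · have : j = j0 := min_eq_left hc
        rw [this]; constructor <;> linarith
      · have hjj : j = k - 1 := min_eq_right hc.le
        have h3 : (j : ℝ) = k - 1 := by
          rw [hjj, Nat.cast_sub hk]; simp
        have h4 : (k : ℝ) ≤ j0 := by
          have : k ≤ j0 := by omega
          exact_mod_cast this
        rw [h3]; constructor <;> linarith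
    have key2 : (z.1 - (2 * (j : ℝ) + 1 - k) * a) ^ 2 ≤ a ^ 2 := by
      have h3 : z.1 - (2 * (j : ℝ) + 1 - k) * a = (z.1 / a - (2 * (j : ℝ) + 1 - k)) * a := by
        field_simp
      rw [h3, mul_pow]
      have h4 : (z.1 / a - (2 * (j : ℝ) + 1 - k)) ^ 2 ≤ 1 := by
        rw [← sq_abs]; nlinarith [abs_nonneg (z.1 / a - (2 * (j : ℝ) + 1 - k))]
      nlinarith [sq_nonneg a]
    simp only [mem_iUnion]
    refine ⟨ctr j, Finset.mem_image.mpr ⟨j, Finset.mem_range.mpr hjk, rfl⟩, ?_⟩
    rw [mem_closedBall, dist_eq_norm]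
    have h3 : χ z - ctr j = (z.1 - (2 * (j : ℝ) + 1 - k) * a) • e + L z.2 := by
      simp only [hχ, hctr, sub_smul]; abel
    have h4 := frame_norm he L hL (z.1 - (2 * (j : ℝ) + 1 - k) * a) z.2
    rw [← h3] at h4
    have h5 : ‖z.2‖ ^ 2 ≤ s ^ 2 := pow_le_pow_left₀ (norm_nonneg _) hz2 2
    have h6 : ‖χ z - ctr j‖ ^ 2 ≤ 1 := by linarith
    nlinarith [norm_nonneg (χ z - ctr j)]
  · have h1 : χ ⁻¹' (χ '' Cyl) = Cyl := preimage_image_eq _ hinj
    have h2 := hmp'.measure_preimage (hCylc.image hχc).measurableSet.nullMeasurableSet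
    rw [h1] at h2
    have hpos : 0 ≤ (k : ℝ) * a - -(k * a) := by
      have : 0 ≤ (k : ℝ) * a := by positivity
      linarith
    have h3 : volume Cyl = ENNReal.ofReal (2 * k * (kap n * Mn n)) := by
      rw [hCyl, Measure.volume_eq_prod, Measure.prod_prod, Real.volume_Icc,
        volume_ball_le _ hs0.le, ← ENNReal.ofReal_mul hpos]
      congr 1
      unfold Mn
      rw [← ha, ← hs]
      ring
    rw [← h2, h3]

end SC70
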