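import Pool.Agent.SC70.Polar
import Mathlib

/-!
# Thin coverings: Gaussian expansion of a ball
-/

set_option autoImplicit false

open MeasureTheory Measure Metric Set Module ENNReal

namespace SC70

lemma lintegral_gauss (N a : ℝ) (hN : 0 < N) :
    ∫⁻ s : ℝ, ENNReal.ofReal (Real.exp (-(N / 2 * (s - a) ^ 2))) =
      ENNReal.ofReal (√(2 * Real.pi / N)) := by
  have h1 := lintegral_sub_right_eq_self (μ := (volume : Measure ℝ))
    (fun s : ℝ => ENNReal.ofReal (Real.exp (-(N / 2 * s ^ 2)))) a
  rw [h1]
  have h2 := integral_gaussian (N / 2)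
  have h3 : Integrable (fun s : ℝ => Real.exp (-(N / 2) * s ^ 2)) :=
    integrable_exp_neg_mul_sq (by linarith)
  rw [← ofReal_integral_eq_lintegral_ofReal]
  · congr 1
    have e : (fun s : ℝ => Real.exp (-(N / 2 * s ^ 2))) = fun s : ℝ => Real.exp (-(N / 2) * s ^ 2) := by
      funext s; congr 1; ring
    rw [e, h2]
    congr 1; field_simp
  · refine h3.congr (Filter.Eventually.of_forall fun s => ?_)
    simp only; congr 1; ring
  · exact Filter.Eventually.of_forall fun s => (Real.exp_pos _).le

/-- the constant -/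
noncomputable def gam (N : ℝ) (q : ℕ) (R : ℝ) : ℝ :=
  1 + q / R * (√(2 * Real.pi / N) * Real.exp (q ^ 2 / (2 * N * R ^ 2)))

lemma pointwise_gauss (N R s : ℝ) (hN : 0 < N) (hR : 0 < R) (q : ℕ) (hq : 1 ≤ q) (hs : R < s) :
    s ^ (q - 1) * Real.exp (-(N * (s - R) ^ 2 / 2)) ≤
      R ^ (q - 1) * Real.exp (q ^ 2 / (2 * N * R ^ 2)) *
        Real.exp (-(N / 2 * (s - (R + q / (N * R))) ^ 2)) := by
  have h1 : s / R ≤ Real.exp ((s - R) / R) := by
    have := Real.add_one_le_exp ((s - R) / R)
    have e : s / R = (s - R) / R + 1 := by field_simp; ring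
    rw [e]; exact this
  have h2 : (s / R) ^ (q - 1) ≤ Real.exp (q * ((s - R) / R)) := by
    calc (s / R) ^ (q - 1) ≤ (Real.exp ((s - R) / R)) ^ (q - 1) :=
          pow_le_pow_left₀ (div_nonneg (by linarith) hR.le) h1 _
      _ ≤ (Real.exp ((s - R) / R)) ^ q := by
          apply pow_le_pow_right₀ _ (by omega)
          rw [← Real.exp_zero]
          apply Real.exp_le_exp.mpr
          exact div_nonneg (by linarith) hR.le
      _ = Real.exp (q * ((s - R) / R)) := by rw [← Real.exp_nat_mul]
  have h3 : s ^ (q - 1) = R ^ (q - 1) * (s / R) ^ (q - 1) := by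
    rw [← mul_pow]; congr 1; field_simp
  rw [h3]
  calc R ^ (q - 1) * (s / R) ^ (q - 1) * Real.exp (-(N * (s - R) ^ 2 / 2))
      ≤ R ^ (q - 1) * Real.exp (q * ((s - R) / R)) * Real.exp (-(N * (s - R) ^ 2 / 2)) := by
        gcongr
    _ = R ^ (q - 1) * Real.exp (q ^ 2 / (2 * N * R ^ 2)) *
        Real.exp (-(N / 2 * (s - (R + q / (N * R))) ^ 2)) := by
        rw [mul_assoc, mul_assoc, ← Real.exp_add, ← Real.exp_add]
        congr 2
        field_simp
        ring

/-- Gaussian expansion of a ball of dimension `q` -/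
lemma gauss_ball (N R : ℝ) (hN : 0 < N) (hR : 0 < R) (q : ℕ) :
    ∫⁻ z : EuclideanSpace ℝ (Fin q), ENNReal.ofReal (Real.exp (-(N * (max (‖z‖ - R) 0) ^ 2 / 2))) ≤
      ENNReal.ofReal (gam N q R) * volume (closedBall (0 : EuclideanSpace ℝ (Fin q)) R) := by
  rcases Nat.eq_zero_or_pos q with hq | hq
  · subst hq
    have h1 : ∀ z : EuclideanSpace ℝ (Fin 0), z = 0 := fun z => Subsingleton.elim _ _
    have h2 : closedBall (0 : EuclideanSpace ℝ (Fin 0)) R = univ := by
      ext z; simp [h1 z, hR.le]
    have h3 : ∀ z : EuclideanSpace ℝ (Fin 0),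
        ENNReal.ofReal (Real.exp (-(N * (max (‖z‖ - R) 0) ^ 2 / 2))) = 1 := by
      intro z
      rw [h1 z, norm_zero, max_eq_right (by linarith)]
      simp
    rw [h2]
    simp only [h3, lintegral_const, one_mul, gam]
    simp
  · have hne : Nonempty (Fin q) := ⟨⟨0, hq⟩⟩
    have hq' : (0 : ℝ) < q := by exact_mod_cast hq
    set γ : ℝ := gam N q R with hγ
    have hγ0 : 0 ≤ γ := by rw [hγ]; unfold gam; positivity
    set v : EuclideanSpace ℝ (Fin q) → ℝ≥0∞ :=
      (closedBall (0 : EuclideanSpace ℝ (Fin q)) R).indicator (fun _ => ENNReal.ofReal γ) with hv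
    have hvint : ∫⁻ z, v z = ENNReal.ofReal γ *
        volume (closedBall (0 : EuclideanSpace ℝ (Fin q)) R) := by
      rw [hv, lintegral_indicator measurableSet_closedBall, setLIntegral_const]
    rw [← hvint]
    apply polar_le volume _ v
    · have : Continuous (fun z : EuclideanSpace ℝ (Fin q) =>
          Real.exp (-(N * (max (‖z‖ - R) 0) ^ 2 / 2))) := by fun_prop
      exact this.measurable.ennreal_ofReal
    · exact measurable_const.indicator measurableSet_closedBall
    intro θ hθ
    rw [finrank_euclideanSpace_fin]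
    set E0 : ℝ := R ^ (q - 1) * Real.exp (q ^ 2 / (2 * N * R ^ 2)) with hE0
    have hE00 : 0 ≤ E0 := by positivity
    have hcpow : Continuous (fun s : ℝ => s ^ (q - 1)) := by fun_prop
    have hball : ∫⁻ s in Ioc (0 : ℝ) R, ENNReal.ofReal (s ^ (q - 1)) = ENNReal.ofReal (R ^ q / q) := by
      rw [← ofReal_integral_eq_lintegral_ofReal
          ((hcpow.integrableOn_Icc).mono_set Ioc_subset_Icc_self)]
      · rw [← intervalIntegral.integral_of_le hR.le, integral_pow]
        obtain ⟨m, rfl⟩ : ∃ m, q = m + 1 := ⟨q - 1, by omega⟩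
        simp only [Nat.add_sub_cancel]
        rw [zero_pow (by omega), sub_zero]
        push_cast; rfl
      · filter_upwards [ae_restrict_mem measurableSet_Ioc] with s hs
        exact pow_nonneg hs.1.le _
    have hL : ∫⁻ s : ℝ in Ioi (0 : ℝ), ENNReal.ofReal (s ^ (q - 1)) *
        ENNReal.ofReal (Real.exp (-(N * (max (‖s • θ‖ - R) 0) ^ 2 / 2))) ≤
        ENNReal.ofReal (R ^ q / q) + ENNReal.ofReal (E0 * √(2 * Real.pi / N)) := by
      calc ∫⁻ s : ℝ in Ioi (0 : ℝ), ENNReal.ofReal (s ^ (q - 1)) *
            ENNReal.ofReal (Real.exp (-(N * (max (‖s • θ‖ - R) 0) ^ 2 / 2)))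
          ≤ ∫⁻ s : ℝ in Ioi (0 : ℝ), ((Ioc (0 : ℝ) R).indicator
              (fun s => ENNReal.ofReal (s ^ (q - 1))) s +
              ENNReal.ofReal E0 *
                ENNReal.ofReal (Real.exp (-(N / 2 * (s - (R + q / (N * R))) ^ 2)))) := by
            apply setLIntegral_mono' measurableSet_Ioi
            intro s hs
            have hs0 : (0 : ℝ) < s := hs
            rw [norm_smul, hθ, mul_one, Real.norm_of_nonneg hs0.le]
            by_cases hsR : s ≤ R
            · rw [max_eq_right (by linarith), indicator_of_mem (show s ∈ Ioc 0 R from ⟨hs0, hsR⟩)]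
              simp
            · push Not at hsR
              rw [max_eq_left (by linarith), indicator_of_notMem
                (show s ∉ Ioc 0 R from fun h => absurd h.2 (not_le.mpr hsR)), zero_add,
                ← ENNReal.ofReal_mul (by positivity), ← ENNReal.ofReal_mul hE00]
              exact ENNReal.ofReal_le_ofReal (pointwise_gauss N R s hN hR q hq hsR)
        _ = (∫⁻ s : ℝ in Ioi (0 : ℝ), (Ioc (0 : ℝ) R).indicator
              (fun s => ENNReal.ofReal (s ^ (q - 1))) s) +
            ∫⁻ s : ℝ in Ioi (0 : ℝ), ENNReal.ofReal E0 *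
                ENNReal.ofReal (Real.exp (-(N / 2 * (s - (R + q / (N * R))) ^ 2))) := by
            apply lintegral_add_left
            exact (hcpow.measurable.ennreal_ofReal).indicator measurableSet_Ioc
        _ ≤ ENNReal.ofReal (R ^ q / q) + ENNReal.ofReal (E0 * √(2 * Real.pi / N)) := by
            apply add_le_add
            · rw [← hball, ← lintegral_indicator measurableSet_Ioc]
              exact setLIntegral_le_lintegral _ _
            · rw [lintegral_const_mul _ (by fun_prop), ENNReal.ofReal_mul hE00,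
                ← lintegral_gauss N (R + q / (N * R)) hN]
              exact mul_le_mul' le_rfl (setLIntegral_le_lintegral _ _)
    refine hL.trans ?_
    have hRv : ∫⁻ s : ℝ in Ioi (0 : ℝ), ENNReal.ofReal (s ^ (q - 1)) * v (s • θ) =
        ENNReal.ofReal (R ^ q / q) * ENNReal.ofReal γ := by
      rw [← hball, ← lintegral_mul_const _ hcpow.measurable.ennreal_ofReal,
        ← lintegral_indicator measurableSet_Ioc, ← lintegral_indicator measurableSet_Ioi]
      apply lintegral_congr
      intro s
      by_cases hs0 : 0 < s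
      · rw [indicator_of_mem (show s ∈ Ioi (0 : ℝ) from hs0)]
        by_cases hsR : s ≤ R
        · rw [indicator_of_mem (show s ∈ Ioc 0 R from ⟨hs0, hsR⟩), hv, indicator_of_mem]
          rw [mem_closedBall_zero_iff, norm_smul, hθ, mul_one, Real.norm_of_nonneg hs0.le]
          exact hsR
        · rw [indicator_of_notMem (show s ∉ Ioc 0 R from fun h => hsR h.2), hv,
            indicator_of_notMem, mul_zero]
          rw [mem_closedBall_zero_iff, norm_smul, hθ, mul_one, Real.norm_of_nonneg hs0.le]
          exact hsR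
      · rw [indicator_of_notMem (show s ∉ Ioi (0 : ℝ) from hs0),
          indicator_of_notMem (show s ∉ Ioc 0 R from fun h => hs0 h.1)]
    rw [hRv, ← ENNReal.ofReal_mul (by positivity), ← ENNReal.ofReal_add (by positivity)
      (by positivity)]
    apply le_of_eq
    congr 1
    rw [hγ, hE0]
    unfold gam
    have e : R ^ q = R ^ (q - 1) * R := by
      obtain ⟨m, rfl⟩ : ∃ m, q = m + 1 := ⟨q - 1, by omega⟩
      simp only [Nat.add_sub_cancel]; ring
    rw [e]
    field_simp

end SC70
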