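import Pool.Agent.SC70.WCore
import Pool.Agent.SC70.WGauss

/-!
# Thin coverings: averaging over ball windows in a subspace
-/

set_option autoImplicit false

open MeasureTheory Measure Metric Set Module ENNReal
open scoped RealInnerProductSpace

namespace SC70

variable {n q : ℕ}

/-- the coordinate map of an isometric embedding -/
noncomputable def adjP (J : EuclideanSpace ℝ (Fin q) →ₗᵢ[ℝ] EuclideanSpace ℝ (Fin n)) :
    EuclideanSpace ℝ (Fin n) →L[ℝ] EuclideanSpace ℝ (Fin q) :=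
  ContinuousLinearMap.adjoint J.toContinuousLinearMap

lemma adjP_inner (J : EuclideanSpace ℝ (Fin q) →ₗᵢ[ℝ] EuclideanSpace ℝ (Fin n))
    (y : EuclideanSpace ℝ (Fin n)) (z : EuclideanSpace ℝ (Fin q)) :
    ⟪adjP J y, z⟫ = ⟪y, J z⟫ := by
  unfold adjP
  rw [ContinuousLinearMap.adjoint_inner_left]
  rfl

lemma adjP_J (J : EuclideanSpace ℝ (Fin q) →ₗᵢ[ℝ] EuclideanSpace ℝ (Fin n))
    (z : EuclideanSpace ℝ (Fin q)) : adjP J (J z) = z := by
  apply ext_inner_right ℝ
  intro v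
  rw [adjP_inner, J.inner_map_map]

lemma adjP_orth (J : EuclideanSpace ℝ (Fin q) →ₗᵢ[ℝ] EuclideanSpace ℝ (Fin n))
    (y : EuclideanSpace ℝ (Fin n)) (z : EuclideanSpace ℝ (Fin q)) :
    ⟪y - J (adjP J y), J z⟫ = 0 := by
  rw [inner_sub_left, J.inner_map_map, adjP_inner, sub_self]

lemma adjP_pyth (J : EuclideanSpace ℝ (Fin q) →ₗᵢ[ℝ] EuclideanSpace ℝ (Fin n))
    (y : EuclideanSpace ℝ (Fin n)) :
    ‖y‖ ^ 2 = ‖adjP J y‖ ^ 2 + ‖y - J (adjP J y)‖ ^ 2 := by
  have h : y = J (adjP J y) + (y - J (adjP J y)) := by abel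
  nth_rewrite 1 [h]
  rw [norm_add_sq_real, real_inner_comm, adjP_orth, J.norm_map]
  ring

lemma adjP_dist (J : EuclideanSpace ℝ (Fin q) →ₗᵢ[ℝ] EuclideanSpace ℝ (Fin n))
    (y : EuclideanSpace ℝ (Fin n)) (z : EuclideanSpace ℝ (Fin q)) :
    ‖y - J (adjP J y)‖ ≤ ‖y - J z‖ := by
  have h : y - J z = (y - J (adjP J y)) + J (adjP J y - z) := by rw [map_sub]; abel
  have h1 : ‖y - J z‖ ^ 2 = ‖y - J (adjP J y)‖ ^ 2 + ‖J (adjP J y - z)‖ ^ 2 := by
    rw [h, norm_add_sq_real, adjP_orth]; ring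
  have h2 : ‖y - J (adjP J y)‖ ^ 2 ≤ ‖y - J z‖ ^ 2 := by
    rw [h1]; nlinarith [sq_nonneg ‖J (adjP J y - z)‖]
  exact abs_le_of_sq_le_sq' h2 (norm_nonneg _) |>.2

/-- projection onto a ball -/
lemma ball_proj {H : Type*} [NormedAddCommGroup H] [InnerProductSpace ℝ H] (a b : H) (R : ℝ)
    (hR : 0 ≤ R) (hb : ‖b‖ ≤ R) (ha : R < ‖a‖) :
    (‖a‖ - R) ^ 2 + ‖b - (R / ‖a‖) • a‖ ^ 2 ≤ ‖b - a‖ ^ 2 := by
  have ha0 : 0 < ‖a‖ := by linarith
  rw [norm_sub_sq_real, norm_sub_sq_real, norm_smul, inner_smul_right,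
    Real.norm_of_nonneg (by positivity : 0 ≤ R / ‖a‖)]
  have h1 : R / ‖a‖ * ‖a‖ = R := by field_simp
  rw [h1]
  have h2 : ⟪b, a⟫ ≤ R * ‖a‖ := (real_inner_le_norm b a).trans (by nlinarith)
  have h3 : ⟪b, a⟫ * (1 - R / ‖a‖) ≤ R * ‖a‖ * (1 - R / ‖a‖) := by
    apply mul_le_mul_of_nonneg_right h2
    rw [sub_nonneg, div_le_one ha0]; exact ha.le
  have h4 : R * ‖a‖ * (1 - R / ‖a‖) = R * ‖a‖ - R ^ 2 := by field_simp
  nlinarith

/-- the moved centre -/
noncomputable def mvc (J : EuclideanSpace ℝ (Fin q) →ₗᵢ[ℝ] EuclideanSpace ℝ (Fin n)) (R : ℝ)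
    (w : EuclideanSpace ℝ (Fin n)) (z : EuclideanSpace ℝ (Fin q)) : EuclideanSpace ℝ (Fin n) :=
  if ‖adjP J w - z‖ ≤ R then w else
    w - J ((1 - R / ‖adjP J w - z‖) • (adjP J w - z))

lemma mvc_spec (J : EuclideanSpace ℝ (Fin q) →ₗᵢ[ℝ] EuclideanSpace ℝ (Fin n)) (R : ℝ) (hR : 0 ≤ R)
    (w : EuclideanSpace ℝ (Fin n)) (z : EuclideanSpace ℝ (Fin q)) (y : EuclideanSpace ℝ (Fin n))
    (hy : ‖adjP J y - z‖ ≤ R) :
    (max (‖adjP J w - z‖ - R) 0) ^ 2 + ‖y - mvc J R w z‖ ^ 2 ≤ ‖y - w‖ ^ 2 := by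
  unfold mvc
  by_cases h : ‖adjP J w - z‖ ≤ R
  · rw [if_pos h, max_eq_right (by linarith)]
    simp
  · rw [if_neg h]
    push Not at h
    rw [max_eq_left (by linarith)]
    set a := adjP J w - z with ha
    set b := adjP J y - z with hb
    have h1 := ball_proj a b R hR hy h
    have h2 := adjP_pyth J (y - w)
    have h3 := adjP_pyth J (y - (w - J ((1 - R / ‖a‖) • a)))
    have e1 : adjP J (y - w) = b - a := by rw [map_sub, ha, hb]; abel
    have e2 : adjP J (y - (w - J ((1 - R / ‖a‖) • a))) = b - (R / ‖a‖) • a := by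
      rw [map_sub, map_sub, adjP_J, ha, hb, sub_smul, one_smul]; abel
    have e3 : y - (w - J ((1 - R / ‖a‖) • a)) - J (b - (R / ‖a‖) • a) =
        y - w - J (b - a) := by
      have e4 : b - (R / ‖a‖) • a = (b - a) + (1 - R / ‖a‖) • a := by
        rw [sub_smul, one_smul]; abel
      rw [e4, map_add]; abel
    rw [e1] at h2
    rw [e2, e3] at h3
    rw [h2, h3]
    linarith

/-- **Averaging over ball windows.** -/
theorem avg_bound {R'' A : ℝ} (hA0 : 0 ≤ A) (hW : WBound n R'' A)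
    (J : EuclideanSpace ℝ (Fin q) →ₗᵢ[ℝ] EuclideanSpace ℝ (Fin n)) (R' : ℝ) (hR' : 0 < R')
    (ι : Type) (S : Finset ι) (w : ι → EuclideanSpace ℝ (Fin n)) (x : ι → ℝ)
    (K : Set (EuclideanSpace ℝ (Fin n))) (hKm : MeasurableSet K) (hx : ∀ i, 0 ≤ x i)
    (hthin : ∀ y ∈ K, ∀ y' ∈ K, ‖adjP J (y - y')‖ ≤ 2 * R' → ‖y - y'‖ ≤ R'')
    (c : ℝ) (hc : 0 < c) (h : ∀ y ∈ K, c ≤ ∑ i ∈ S, √(1 - x i - ‖y - w i‖ ^ 2)) :
    ENNReal.ofReal c * volume K ≤ ENNReal.ofReal (A * gam (n + 1) q R') *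
      ∑ i ∈ S, ENNReal.ofReal (Real.exp (-((n + 1) * x i / 2))) := by
  classical
  set N : ℝ := (n : ℝ) + 1 with hN
  have hN0 : 0 < N := by positivity
  set B : ℝ≥0∞ := volume (closedBall (0 : EuclideanSpace ℝ (Fin q)) R') with hB
  have hB0 : B ≠ 0 := (measure_closedBall_pos _ _ hR').ne'
  have hBt : B ≠ ⊤ := (isCompact_closedBall _ _).measure_lt_top.ne
  set Kz : EuclideanSpace ℝ (Fin q) → Set (EuclideanSpace ℝ (Fin n)) := fun z =>
    K ∩ {y | ‖adjP J y - z‖ ≤ R'} with hKz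
  set δ : ι → EuclideanSpace ℝ (Fin q) → ℝ := fun i z => max (‖adjP J (w i) - z‖ - R') 0 with hδ
  -- the estimate for one window
  have hone : ∀ z, ENNReal.ofReal c * volume (Kz z) ≤ ENNReal.ofReal A *
      ∑ i ∈ S, ENNReal.ofReal (Real.exp (-(N * x i / 2))) *
        ENNReal.ofReal (Real.exp (-(N * (δ i z) ^ 2 / 2))) := by
    intro z
    rcases (Kz z).eq_empty_or_nonempty with hKe | ⟨y₀, hy₀⟩
    · rw [hKe]; simp
    have hm : MeasurableSet (Kz z) := by
      apply hKm.inter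
      exact (isClosed_le (by fun_prop) (by fun_prop)).measurableSet
    have h1 := hW ι S (fun i => mvc J R' (w i) z) (fun i => x i + (δ i z) ^ 2) (Kz z) hm y₀ (by
      intro y hy
      rw [mem_closedBall, dist_eq_norm]
      apply hthin y hy.1 y₀ hy₀.1
      have e : adjP J (y - y₀) = (adjP J y - z) - (adjP J y₀ - z) := by rw [map_sub]; abel
      rw [e]
      have h2 : ‖adjP J y - z‖ ≤ R' := hy.2
      have h3 : ‖adjP J y₀ - z‖ ≤ R' := hy₀.2
      calc _ ≤ ‖adjP J y - z‖ + ‖adjP J y₀ - z‖ := norm_sub_le _ _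
        _ ≤ 2 * R' := by linarith) (fun i => by have := hx i; positivity) c hc (by
      intro y hy
      refine (h y hy.1).trans (Finset.sum_le_sum fun i _ => Real.sqrt_le_sqrt ?_)
      have h2 := mvc_spec J R' hR'.le (w i) z y hy.2
      simp only [hδ]
      linarith)
    refine h1.trans (le_of_eq ?_)
    congr 1
    refine Finset.sum_congr rfl fun i _ => ?_
    rw [← ENNReal.ofReal_mul (Real.exp_pos _).le, ← Real.exp_add]
    congr 2
    ring
  -- Tonelli
  have hTon : ∫⁻ z, volume (Kz z) = volume K * B := by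
    set 𝒦 : Set (EuclideanSpace ℝ (Fin q) × EuclideanSpace ℝ (Fin n)) :=
      {p | p.2 ∈ K ∧ ‖adjP J p.2 - p.1‖ ≤ R'} with h𝒦
    have h𝒦m : MeasurableSet 𝒦 := by
      have h1 : MeasurableSet {p : EuclideanSpace ℝ (Fin q) × EuclideanSpace ℝ (Fin n) |
          ‖adjP J p.2 - p.1‖ ≤ R'} :=
        (isClosed_le (by fun_prop) (by fun_prop)).measurableSet
      exact (measurable_snd hKm).inter h1
    have e1 : (volume.prod volume) 𝒦 = ∫⁻ z, volume (Kz z) := by
      rw [Measure.prod_apply h𝒦m]; rfl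
    have e2 : (volume.prod volume) 𝒦 = volume K * B := by
      rw [Measure.prod_apply_symm h𝒦m]
      have e3 : ∀ y, volume ((fun z => (z, y)) ⁻¹' 𝒦) = K.indicator (fun _ => B) y := by
        intro y
        by_cases hy : y ∈ K
        · rw [indicator_of_mem hy]
          have e4 : (fun z => (z, y)) ⁻¹' 𝒦 = closedBall (adjP J y) R' := by
            ext z
            simp only [h𝒦, mem_preimage, mem_closedBall, dist_eq_norm]
            rw [norm_sub_rev]
            exact ⟨fun h => h.2, fun h => ⟨hy, h⟩⟩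
          rw [e4, hB, Measure.addHaar_closedBall_center]
        · rw [indicator_of_notMem hy]
          have e4 : (fun z => (z, y)) ⁻¹' 𝒦 = ∅ := by
            ext z
            simp only [h𝒦, mem_preimage, mem_empty_iff_false, iff_false]
            exact fun h => hy h.1
          rw [e4, measure_empty]
      simp only [e3]
      rw [lintegral_indicator hKm, setLIntegral_const, mul_comm]
    rw [← e1, e2]
  have hgm : ∀ i, Measurable (fun z => ENNReal.ofReal (Real.exp (-(N * (δ i z) ^ 2 / 2)))) := by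
    intro i
    have : Continuous (fun z => Real.exp (-(N * (δ i z) ^ 2 / 2))) := by
      simp only [hδ]; fun_prop
    exact this.measurable.ennreal_ofReal
  have hgauss : ∀ i, ∫⁻ z, ENNReal.ofReal (Real.exp (-(N * (δ i z) ^ 2 / 2))) ≤
      ENNReal.ofReal (gam N q R') * B := by
    intro i
    have h1 := lintegral_sub_left_eq_self (μ := (volume : Measure (EuclideanSpace ℝ (Fin q))))
      (fun z => ENNReal.ofReal (Real.exp (-(N * (max (‖z‖ - R') 0) ^ 2 / 2)))) (adjP J (w i))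
    have h2 : ∫⁻ z, ENNReal.ofReal (Real.exp (-(N * (δ i z) ^ 2 / 2))) =
        ∫⁻ z, (fun z => ENNReal.ofReal (Real.exp (-(N * (max (‖z‖ - R') 0) ^ 2 / 2))))
          (adjP J (w i) - z) := rfl
    rw [h2, h1]
    exact gauss_ball N R' hN0 hR' q
  have hfinal : ENNReal.ofReal c * volume K * B ≤ (ENNReal.ofReal (A * gam N q R') *
      ∑ i ∈ S, ENNReal.ofReal (Real.exp (-(N * x i / 2)))) * B := by
    have hKzm : Measurable (fun z => volume (Kz z)) := by
      have h1 : MeasurableSet {p : EuclideanSpace ℝ (Fin q) × EuclideanSpace ℝ (Fin n) |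
          p.2 ∈ K ∧ ‖adjP J p.2 - p.1‖ ≤ R'} := by
        have h1 : MeasurableSet {p : EuclideanSpace ℝ (Fin q) × EuclideanSpace ℝ (Fin n) |
            ‖adjP J p.2 - p.1‖ ≤ R'} :=
          (isClosed_le (by fun_prop) (by fun_prop)).measurableSet
        exact (measurable_snd hKm).inter h1
      exact measurable_measure_prodMk_left h1
    calc ENNReal.ofReal c * volume K * B = ENNReal.ofReal c * (volume K * B) := by ring
      _ = ∫⁻ z, ENNReal.ofReal c * volume (Kz z) := by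
          rw [← hTon, lintegral_const_mul _ hKzm]
      _ ≤ ∫⁻ z, ENNReal.ofReal A * ∑ i ∈ S, ENNReal.ofReal (Real.exp (-(N * x i / 2))) *
            ENNReal.ofReal (Real.exp (-(N * (δ i z) ^ 2 / 2))) := lintegral_mono hone
      _ = ENNReal.ofReal A * ∑ i ∈ S, ENNReal.ofReal (Real.exp (-(N * x i / 2))) *
            ∫⁻ z, ENNReal.ofReal (Real.exp (-(N * (δ i z) ^ 2 / 2))) := by
          rw [lintegral_const_mul _ (Finset.measurable_fun_sum S fun i _ => (hgm i).const_mul _),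
            lintegral_finsetSum _ fun i _ => (hgm i).const_mul _]
          congr 1
          refine Finset.sum_congr rfl fun i _ => ?_
          rw [lintegral_const_mul _ (hgm i)]
      _ ≤ ENNReal.ofReal A * ∑ i ∈ S, ENNReal.ofReal (Real.exp (-(N * x i / 2))) *
            (ENNReal.ofReal (gam N q R') * B) :=
          mul_le_mul' le_rfl (Finset.sum_le_sum fun i _ => mul_le_mul' le_rfl (hgauss i))
      _ = _ := by
          rw [← Finset.sum_mul, ENNReal.ofReal_mul hA0]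
          ring
  exact (ENNReal.mul_le_mul_iff_left hB0 hBt).mp hfinal

end SC70
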