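import Mathlib

/-!
# Thin coverings: coordinates along a line
-/

set_option autoImplicit false

open MeasureTheory Measure Metric Set Module ENNReal
open scoped RealInnerProductSpace

namespace SC70

variable {n : ℕ}


/-- the coordinate map -/
noncomputable def consMap (n : ℕ) (z : ℝ × EuclideanSpace ℝ (Fin n)) :
    EuclideanSpace ℝ (Fin (n + 1)) :=
  WithLp.toLp 2 (Fin.cons z.1 z.2.ofLp : Fin (n + 1) → ℝ)

lemma consMap_mp : MeasurePreserving (consMap n) volume volume := by
  have h1 : MeasurePreserving (Prod.map (id : ℝ → ℝ) (MeasurableEquiv.toLp 2 (Fin n → ℝ)).symm)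
      ((volume : Measure ℝ).prod (volume : Measure (EuclideanSpace ℝ (Fin n)))) ((volume : Measure ℝ).prod volume) :=
    (MeasurePreserving.id _).prod (EuclideanSpace.volume_preserving_symm_measurableEquiv_toLp _)
  have h2 := (volume_preserving_piFinSuccAbove (fun _ : Fin (n + 1) => ℝ) 0).symm
  have h3 := (EuclideanSpace.volume_preserving_symm_measurableEquiv_toLp (Fin (n + 1))).symm
  have h4 := h3.comp (h2.comp h1)
  have e : consMap n = (MeasurableEquiv.toLp 2 (Fin (n + 1) → ℝ)).symm.symm ∘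
      ((MeasurableEquiv.piFinSuccAbove (fun _ : Fin (n + 1) => ℝ) 0).symm ∘
        (Prod.map (id : ℝ → ℝ) (MeasurableEquiv.toLp 2 (Fin n → ℝ)).symm)) := by
    funext z
    apply PiLp.ext
    intro i
    simp only [consMap, Function.comp]
    refine Fin.cases ?_ (fun j => ?_) i
    · rfl
    · rfl
  rw [e]
  exact h4

lemma consMap_norm (z : ℝ × EuclideanSpace ℝ (Fin n)) :
    ‖consMap n z‖ ^ 2 = z.1 ^ 2 + ‖z.2‖ ^ 2 := by
  rw [EuclideanSpace.real_norm_sq_eq, EuclideanSpace.real_norm_sq_eq, Fin.sum_univ_succ]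
  simp [consMap]

lemma consMap_surj : Function.Surjective (consMap n) := by
  intro x
  refine ⟨(x 0, WithLp.toLp 2 (fun i => x i.succ)), ?_⟩
  apply PiLp.ext
  intro i
  simp only [consMap]
  refine Fin.cases ?_ (fun j => ?_) i
  · simp
  · simp

lemma consMap_linear (z z' : ℝ × EuclideanSpace ℝ (Fin n)) (a b : ℝ) :
    consMap n (a • z + b • z') = a • consMap n z + b • consMap n z' := by
  apply PiLp.ext
  intro i
  simp only [consMap]
  refine Fin.cases ?_ (fun j => ?_) i
  · simp
  · simp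

/-- the embedding of the orthogonal complement -/
noncomputable def embG (n : ℕ) : EuclideanSpace ℝ (Fin n) →ₗᵢ[ℝ] EuclideanSpace ℝ (Fin (n + 1)) where
  toFun y := consMap n (0, y)
  map_add' y y' := by
    have := consMap_linear (n := n) (0, y) (0, y') 1 1
    simpa using this
  map_smul' c y := by
    have := consMap_linear (n := n) (0, y) (0, 0) c 0
    simpa using this
  norm_map' y := by
    have h := consMap_norm (n := n) (0, y)
    simp only [ne_eq, OfNat.ofNat_ne_zero, not_false_eq_true, zero_pow, zero_add] at h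
    have h1 : ‖consMap n (0, y)‖ = ‖y‖ := by
      rw [← Real.sqrt_sq (norm_nonneg (consMap n (0, y))), h, Real.sqrt_sq (norm_nonneg _)]
    exact h1

theorem exists_frame (e : (EuclideanSpace ℝ (Fin (n + 1)))) (he : ‖e‖ = 1) :
    ∃ L : EuclideanSpace ℝ (Fin n) →ₗᵢ[ℝ] (EuclideanSpace ℝ (Fin (n + 1))), (∀ y, ⟪e, L y⟫ = 0) ∧
      MeasurePreserving (fun z : ℝ × EuclideanSpace ℝ (Fin n) => z.1 • e + L z.2) volume volume ∧
      Function.Surjective (fun z : ℝ × EuclideanSpace ℝ (Fin n) => z.1 • e + L z.2) := by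
  obtain ⟨b, hb⟩ := Orthonormal.exists_orthonormalBasis_extension_of_card_eq (𝕜 := ℝ)
    (ι := Fin (n + 1)) (by simp : finrank ℝ (EuclideanSpace ℝ (Fin (n + 1))) = _)
    (v := fun _ => e) (s := {0}) (by
      rw [orthonormal_iff_ite]
      intro i j
      have hij : i = j := Subsingleton.elim _ _
      simp [hij, he])
  have hb0 : b 0 = e := hb 0 (by simp)
  set L : EuclideanSpace ℝ (Fin n) →ₗᵢ[ℝ] (EuclideanSpace ℝ (Fin (n + 1))) := b.repr.symm.toLinearIsometry.comp (embG n) with hL
  have hLy : ∀ y, L y = b.repr.symm (consMap n (0, y)) := fun y => rfl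
  have hform : (fun z : ℝ × EuclideanSpace ℝ (Fin n) => z.1 • e + L z.2) =
      fun z => b.repr.symm (consMap n z) := by
    funext z
    rw [hLy, ← hb0, ← b.repr_symm_single, ← map_smul, ← map_add]
    congr 1
    apply PiLp.ext
    intro i
    simp only [consMap]
    refine Fin.cases ?_ (fun j => ?_) i
    · simp
    · simp
  refine ⟨L, ?_, ?_, ?_⟩
  · intro y
    rw [hLy, ← hb0, ← b.repr_symm_single, LinearIsometryEquiv.inner_map_map,
      EuclideanSpace.inner_single_left]
    simp [consMap]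
  · rw [hform]
    exact (b.measurePreserving_repr_symm).comp consMap_mp
  · rw [hform]
    intro x
    obtain ⟨z, hz⟩ := consMap_surj (b.repr x)
    exact ⟨z, by simp [hz]⟩

lemma frame_norm {e : (EuclideanSpace ℝ (Fin (n + 1)))} (he : ‖e‖ = 1) (L : EuclideanSpace ℝ (Fin n) →ₗᵢ[ℝ] (EuclideanSpace ℝ (Fin (n + 1))))
    (hL : ∀ y, ⟪e, L y⟫ = 0) (t : ℝ) (y : EuclideanSpace ℝ (Fin n)) :
    ‖t • e + L y‖ ^ 2 = t ^ 2 + ‖y‖ ^ 2 := by
  rw [norm_add_sq_real, norm_smul, he, inner_smul_left, hL, L.norm_map, Real.norm_eq_abs, mul_one,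
    sq_abs]
  simp

end SC70
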