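import Pool.Agent.SC70.Flat
import Pool.Agent.SC70.Frame

/-!
# Thin coverings: long bodies
-/

set_option autoImplicit false

open MeasureTheory Measure Metric Set Module ENNReal
open scoped RealInnerProductSpace Pointwise

namespace SC70

variable {n : ℕ}


lemma exp_neg_one_le (hn : 1 ≤ n) : Real.exp (-1) ≤ ((n : ℝ) / (n + 1)) ^ n := by
  have hn' : (1 : ℝ) ≤ n := by exact_mod_cast hn
  have h1 : ((n : ℝ) + 1) / n ≤ Real.exp (1 / n) := by
    have := Real.add_one_le_exp (1 / (n : ℝ))
    have e : ((n : ℝ) + 1) / n = 1 / n + 1 := by field_simp; ring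
    rw [e]; exact this
  have h2 : (((n : ℝ) + 1) / n) ^ n ≤ Real.exp 1 := by
    calc (((n : ℝ) + 1) / n) ^ n ≤ (Real.exp (1 / n)) ^ n := pow_le_pow_left₀ (by positivity) h1 n
      _ = Real.exp 1 := by rw [← Real.exp_nat_mul]; congr 1; field_simp
  have h3 : ((n : ℝ) / (n + 1)) ^ n = ((((n : ℝ) + 1) / n) ^ n)⁻¹ := by
    rw [← inv_pow, inv_div]
  rw [h3, Real.exp_neg]
  exact inv_anti₀ (by positivity) h2

/-- a body with a long chord is large compared with its projection -/
lemma long_chord (hn : 1 ≤ n) (C : Set (ℝ × EuclideanSpace ℝ (Fin n))) (hm : MeasurableSet C)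
    (hconv : Convex ℝ C) (D : Set (EuclideanSpace ℝ (Fin n))) (hDm : MeasurableSet D)
    (hD : ∀ y ∈ D, ∃ t, (t, y) ∈ C) (Len : ℝ) (hLen : 0 < Len)
    (h0 : ((0 : ℝ), (0 : EuclideanSpace ℝ (Fin n))) ∈ C)
    (h1 : (Len, (0 : EuclideanSpace ℝ (Fin n))) ∈ C) :
    volume D ≤ ENNReal.ofReal (Real.exp 1 * (n + 1) / Len) * volume C := by
  have hn' : (1 : ℝ) ≤ n := by exact_mod_cast hn
  set lam : ℝ := n / (n + 1) with hlam
  have hlam0 : 0 < lam := by positivity
  have hlam1 : 1 - lam = 1 / (n + 1) := by rw [hlam]; field_simp; ring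
  have hlamD : MeasurableSet (lam • D) := hDm.const_smul₀ lam
  have hline : ∀ y ∈ lam • D, ENNReal.ofReal ((1 - lam) * Len) ≤ volume {t : ℝ | (t, y) ∈ C} := by
    intro y' hy'
    obtain ⟨y, hy, rfl⟩ := hy'
    obtain ⟨t, ht⟩ := hD y hy
    have hsub : Icc (lam * t) (lam * t + (1 - lam) * Len) ⊆ {τ : ℝ | (τ, lam • y) ∈ C} := by
      intro τ hτ
      set s : ℝ := (τ - lam * t) / (1 - lam) with hs
      have hpos : 0 < 1 - lam := by rw [hlam1]; positivity
      have hs0 : 0 ≤ s := div_nonneg (by linarith [hτ.1]) hpos.le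
      have hs1 : s ≤ Len := by
        rw [hs, div_le_iff₀ hpos]; linarith [hτ.2]
      have hsC : (s, (0 : EuclideanSpace ℝ (Fin n))) ∈ C := by
        have := hconv h0 h1 (a := 1 - s / Len) (b := s / Len)
          (by rw [sub_nonneg, div_le_one hLen]; exact hs1) (by positivity) (by ring)
        simp only [Prod.smul_mk, smul_zero, Prod.mk_add_mk, add_zero, smul_eq_mul, mul_zero,
          zero_add] at this
        rwa [div_mul_cancel₀ _ hLen.ne'] at this
      have := hconv hsC ht (a := 1 - lam) (b := lam) hpos.le hlam0.le (by ring)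
      simp only [Prod.smul_mk, smul_zero, Prod.mk_add_mk, smul_eq_mul, zero_add] at this
      have e : (1 - lam) * s + lam * t = τ := by rw [hs]; field_simp; ring
      rw [e] at this
      exact this
    calc ENNReal.ofReal ((1 - lam) * Len) = volume (Icc (lam * t) (lam * t + (1 - lam) * Len)) := by
          rw [Real.volume_Icc]; congr 1; ring
      _ ≤ _ := measure_mono hsub
  have hvolC : volume C = ∫⁻ y : (EuclideanSpace ℝ (Fin n)), volume {t : ℝ | (t, y) ∈ C} := by
    rw [Measure.volume_eq_prod, Measure.prod_apply_symm hm]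
    rfl
  have hlow : ENNReal.ofReal ((1 - lam) * Len) * (ENNReal.ofReal (lam ^ n) * volume D) ≤
      volume C := by
    rw [hvolC]
    calc ENNReal.ofReal ((1 - lam) * Len) * (ENNReal.ofReal (lam ^ n) * volume D)
        = ENNReal.ofReal ((1 - lam) * Len) * volume (lam • D) := by
          rw [Measure.addHaar_smul, finrank_euclideanSpace_fin, abs_of_nonneg (by positivity)]
      _ = ∫⁻ y in lam • D, ENNReal.ofReal ((1 - lam) * Len) := by rw [setLIntegral_const]
      _ ≤ ∫⁻ y in lam • D, volume {t : ℝ | (t, y) ∈ C} := setLIntegral_mono' hlamD hline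
      _ ≤ _ := setLIntegral_le_lintegral _ _
  have hexp := exp_neg_one_le hn
  have h2 : (1 : ℝ) ≤ (Real.exp 1 * (n + 1) / Len) * ((1 - lam) * Len * lam ^ n) := by
    rw [hlam1]
    have e : (Real.exp 1 * (n + 1) / Len) * (1 / (n + 1) * Len * lam ^ n) =
        Real.exp 1 * lam ^ n := by field_simp
    rw [e]
    calc (1 : ℝ) = Real.exp 1 * Real.exp (-1) := by rw [← Real.exp_add]; simp
      _ ≤ Real.exp 1 * lam ^ n := mul_le_mul_of_nonneg_left hexp (Real.exp_pos _).le
  have hpos : 0 ≤ 1 - lam := by rw [hlam1]; positivity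
  calc volume D ≤ ENNReal.ofReal ((Real.exp 1 * (n + 1) / Len) * ((1 - lam) * Len * lam ^ n)) *
        volume D := by
        nth_rewrite 1 [← one_mul (volume D)]
        gcongr
        rw [← ENNReal.ofReal_one]
        exact ENNReal.ofReal_le_ofReal h2
    _ = ENNReal.ofReal (Real.exp 1 * (n + 1) / Len) *
        (ENNReal.ofReal ((1 - lam) * Len) * (ENNReal.ofReal (lam ^ n) * volume D)) := by
        rw [ENNReal.ofReal_mul (by positivity), ENNReal.ofReal_mul (by positivity)]
        ring
    _ ≤ _ := by gcongr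

end SC70
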