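import Pool.Agent.SC70.WWin
import Pool.Agent.SC70.Long

/-!
# Thin coverings: bodies close to a flat, geometric form without logarithms
-/

set_option autoImplicit false

open MeasureTheory Measure Metric Set Module ENNReal
open scoped RealInnerProductSpace Pointwise

namespace SC70

variable {n : ℕ}

lemma gam_mono (N R : ℝ) (hN : 0 < N) (hR : 0 < R) {q m : ℕ} (h : q ≤ m) :
    gam N q R ≤ gam N m R := by
  have h' : (q : ℝ) ≤ m := by exact_mod_cast h
  unfold gam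
  gcongr

/-- an isometric embedding with range a given subspace -/
lemma exists_embedding (U : Submodule ℝ (EuclideanSpace ℝ (Fin n))) :
    ∃ J : EuclideanSpace ℝ (Fin (finrank ℝ U)) →ₗᵢ[ℝ] EuclideanSpace ℝ (Fin n),
      ∀ u ∈ U, ∃ z, J z = u := by
  refine ⟨U.subtypeₗᵢ.comp (stdOrthonormalBasis ℝ U).repr.symm.toLinearIsometry, ?_⟩
  intro u hu
  refine ⟨(stdOrthonormalBasis ℝ U).repr ⟨u, hu⟩, ?_⟩
  simp

lemma adjP_norm_le {q : ℕ} (J : EuclideanSpace ℝ (Fin q) →ₗᵢ[ℝ] EuclideanSpace ℝ (Fin n))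
    (y : EuclideanSpace ℝ (Fin n)) : ‖adjP J y‖ ≤ ‖y‖ := by
  have h := adjP_pyth J y
  have h2 : ‖adjP J y‖ ^ 2 ≤ ‖y‖ ^ 2 := by nlinarith [sq_nonneg ‖y - J (adjP J y)‖]
  exact abs_le_of_sq_le_sq' h2 (norm_nonneg _) |>.2

/-- **Bodies close to a flat.** -/
theorem wgeo (hn : 1 ≤ n) {R'' A : ℝ} (hA0 : 0 ≤ A) (hW : WBound n R'' A) (R' ρ : ℝ)
    (hR' : 0 < R') (hρ : 0 ≤ ρ) (hR'' : 2 * R' + ρ ≤ R'') (m : ℕ)
    (V : Submodule ℝ (EuclideanSpace ℝ (Fin (n + 1)))) (hV : finrank ℝ V ≤ m)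
    (C : Set (EuclideanSpace ℝ (Fin (n + 1)))) (hconv : Convex ℝ C)
    (hCc : IsCompact C) (hthin : ∀ x ∈ C, ∀ y ∈ C, ∃ v ∈ V, ‖x - y - v‖ ≤ ρ)
    (a b : EuclideanSpace ℝ (Fin (n + 1))) (ha : a ∈ C) (hb : b ∈ C)
    (hab : ∀ x ∈ C, ∀ y ∈ C, ‖x - y‖ ≤ ‖b - a‖) (hlen : 0 < ‖b - a‖)
    (X : Finset (EuclideanSpace ℝ (Fin (n + 1)))) (hcov : C ⊆ ⋃ x ∈ X, closedBall x 1)
    (ℓ : ℝ) (hℓ : 0 < ℓ) :
    ENNReal.ofReal (ℓ / 2) * volume C ≤
      ENNReal.ofReal (A * gam (n + 1) m R') *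
        (X.card * ENNReal.ofReal (ℓ + 2 * √(2 * Real.pi / (n + 1)))) +
      ENNReal.ofReal (ℓ / 2) * (ENNReal.ofReal ℓ *
        (ENNReal.ofReal (Real.exp 1 * (n + 1) / ‖b - a‖) * volume C)) := by
  set Len : ℝ := ‖b - a‖ with hLen
  set e : EuclideanSpace ℝ (Fin (n + 1)) := (1 / Len) • (b - a) with he'
  have he : ‖e‖ = 1 := by
    rw [he', norm_smul, Real.norm_of_nonneg (by positivity), ← hLen]; field_simp
  have hLe : Len • e = b - a := by
    rw [he', smul_smul]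
    have : Len * (1 / Len) = 1 := by field_simp
    rw [this, one_smul]
  obtain ⟨L, hL, hmp0, hsurj⟩ := exists_frame e he
  set χ : ℝ × EuclideanSpace ℝ (Fin n) → EuclideanSpace ℝ (Fin (n + 1)) :=
    fun z => a + (z.1 • e + L z.2) with hχ
  have hmp : MeasurePreserving χ volume volume :=
    (measurePreserving_add_left volume a).comp hmp0
  have hLc : Continuous L := L.continuous
  have hχc : Continuous χ := by
    simp only [hχ]
    fun_prop
  have hdist : ∀ z z', ‖χ z - χ z'‖ ^ 2 = (z.1 - z'.1) ^ 2 + ‖z.2 - z'.2‖ ^ 2 := by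
    intro z z'
    rw [← frame_norm he L hL]
    congr 2
    simp only [hχ, sub_smul, map_sub]
    abel
  have hχsurj : ∀ x, ∃ z, χ z = x := by
    intro x
    obtain ⟨z, hz⟩ := hsurj (x - a)
    refine ⟨z, ?_⟩
    simp only [hχ]
    simp only at hz
    rw [hz]; abel
  choose ζ hζ using hχsurj
  set C1 : Set (ℝ × EuclideanSpace ℝ (Fin n)) := χ ⁻¹' C with hC1
  have hC1m : MeasurableSet C1 := hχc.measurable hCc.measurableSet
  have hvol : volume C1 = volume C := hmp.measure_preimage hCc.measurableSet.nullMeasurableSet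
  have hC1conv : Convex ℝ C1 := by
    intro z hz z' hz' α β hα hβ hαβ
    have h1 := hconv hz hz' hα hβ hαβ
    have h2 : χ (α • z + β • z') = α • χ z + β • χ z' := by
      simp only [hχ, Prod.fst_add, Prod.smul_fst, Prod.snd_add, Prod.smul_snd, smul_eq_mul,
        map_add, map_smul, add_smul, mul_smul, smul_add]
      have : a = α • a + β • a := by rw [← add_smul, hαβ, one_smul]
      nth_rewrite 1 [this]
      abel
    rw [hC1, mem_preimage, h2]
    exact h1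
  have h0 : χ (0, 0) = a := by simp [hχ]
  have h1 : χ (Len, 0) = b := by simp [hχ, hLe]
  have h0C : ((0 : ℝ), (0 : EuclideanSpace ℝ (Fin n))) ∈ C1 := by
    rw [hC1, mem_preimage, h0]; exact ha
  have h1C : (Len, (0 : EuclideanSpace ℝ (Fin n))) ∈ C1 := by
    rw [hC1, mem_preimage, h1]; exact hb
  have hC1c : IsCompact C1 := by
    apply Metric.isCompact_of_isClosed_isBounded (hCc.isClosed.preimage hχc)
    rw [isBounded_iff_forall_norm_le]
    refine ⟨Len, fun z hz => ?_⟩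
    have h2 := hdist z (0, 0)
    rw [h0] at h2
    have h3 : ‖χ z - a‖ ≤ Len := hab _ hz _ ha
    have h4 : ‖χ z - a‖ ^ 2 ≤ Len ^ 2 := pow_le_pow_left₀ (norm_nonneg _) h3 2
    simp only [sub_zero] at h2
    rw [Prod.norm_def]
    apply max_le
    · rw [Real.norm_eq_abs]
      apply abs_le_of_sq_le_sq _ hlen.le
      nlinarith [sq_nonneg ‖z.2‖]
    · have : ‖z.2‖ ^ 2 ≤ Len ^ 2 := by nlinarith [sq_nonneg z.1]
      exact abs_le_of_sq_le_sq' this hlen.le |>.2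
  set D : Set (EuclideanSpace ℝ (Fin n)) := Prod.snd '' C1 with hD
  have hDm : MeasurableSet D := (hC1c.image continuous_snd).measurableSet
  have hDv : volume D ≤ ENNReal.ofReal (Real.exp 1 * (n + 1) / Len) * volume C := by
    rw [← hvol]
    apply long_chord hn C1 hC1m hC1conv D hDm _ Len hlen h0C h1C
    rintro y ⟨z, hz, rfl⟩
    exact ⟨z.1, hz⟩
  -- the subspace
  set U : Submodule ℝ (EuclideanSpace ℝ (Fin n)) :=
    V.map ((adjP L : EuclideanSpace ℝ (Fin (n + 1)) →L[ℝ] EuclideanSpace ℝ (Fin n)) :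
      EuclideanSpace ℝ (Fin (n + 1)) →ₗ[ℝ] EuclideanSpace ℝ (Fin n)) with hU
  have hUm : finrank ℝ U ≤ m := (Submodule.finrank_map_le _ V).trans hV
  obtain ⟨J, hJ⟩ := exists_embedding U
  have hadj : ∀ z z', adjP L (χ z - χ z') = z.2 - z'.2 := by
    intro z z'
    have e1 : χ z - χ z' = (z.1 - z'.1) • e + L (z.2 - z'.2) := by
      simp only [hχ, sub_smul, map_sub]; abel
    rw [e1, map_add, map_smul, adjP_J]
    have e2 : adjP L e = 0 := by
      apply ext_inner_right ℝ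
      intro v
      rw [adjP_inner, hL, inner_zero_left]
    rw [e2, smul_zero, zero_add]
  have hthin1 : ∀ z ∈ C1, ∀ z' ∈ C1, ‖adjP J (z.2 - z'.2)‖ ≤ 2 * R' → ‖z.2 - z'.2‖ ≤ R'' := by
    intro z hz z' hz' hP
    obtain ⟨v, hv, hv'⟩ := hthin (χ z) hz (χ z') hz'
    have hu : adjP L v ∈ U := Submodule.mem_map_of_mem hv
    obtain ⟨u0, hu0⟩ := hJ _ hu
    have h2 : ‖(z.2 - z'.2) - J u0‖ ≤ ρ := by
      rw [hu0, ← hadj z z', ← map_sub]
      exact (adjP_norm_le L _).trans hv'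
    have h3 := (adjP_dist J (z.2 - z'.2) u0).trans h2
    have h4 := adjP_pyth J (z.2 - z'.2)
    have h5 : ‖z.2 - z'.2‖ ^ 2 ≤ (2 * R' + ρ) ^ 2 := by
      rw [h4]
      have h6 : ‖adjP J (z.2 - z'.2)‖ ^ 2 ≤ (2 * R') ^ 2 := pow_le_pow_left₀ (norm_nonneg _) hP 2
      have h7 : ‖(z.2 - z'.2) - J (adjP J (z.2 - z'.2))‖ ^ 2 ≤ ρ ^ 2 :=
        pow_le_pow_left₀ (norm_nonneg _) h3 2
      nlinarith [mul_nonneg hR'.le hρ]
    exact (abs_le_of_sq_le_sq' h5 (by positivity) |>.2).trans hR''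
  have hcov1 : ∀ z ∈ C1, ∃ x ∈ X, (z.1 - (ζ x).1) ^ 2 + ‖z.2 - (ζ x).2‖ ^ 2 ≤ 1 := by
    intro z hz
    have h2 := hcov hz
    simp only [mem_iUnion] at h2
    obtain ⟨x, hx, h3⟩ := h2
    refine ⟨x, hx, ?_⟩
    rw [mem_closedBall, dist_eq_norm] at h3
    rw [← hdist, hζ]
    nlinarith [norm_nonneg (χ z - x)]
  have hmain := win_bound hA0 hW J R' hR' (EuclideanSpace ℝ (Fin (n + 1))) X
    (fun x => (ζ x).1) (fun x => (ζ x).2) C1 hC1m hC1conv D hDm (fun z hz => ⟨z, hz, rfl⟩)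
    hthin1 hcov1 ℓ hℓ
  rw [hvol] at hmain
  refine hmain.trans (add_le_add ?_ ?_)
  · apply mul_le_mul' _ le_rfl
    apply ENNReal.ofReal_le_ofReal
    exact mul_le_mul_of_nonneg_left (gam_mono _ _ (by positivity) hR' hUm) hA0
  · exact mul_le_mul' le_rfl (mul_le_mul' le_rfl hDv)

end SC70
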