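import Pool.Agent.SC70.RoundFin
import Pool.Agent.SC70.WAvg
import Pool.Agent.SC70.WGeo

/-!
# Thin coverings: a first variation inequality
-/

set_option autoImplicit false

open MeasureTheory Measure Metric Set Module ENNReal Filter
open scoped RealInnerProductSpace Pointwise Topology

namespace SC70

variable {N n : ℕ}

/-- the part of a convex body in a ball which leaves the body after a translation -/
lemma ball_exit_r (C : Set (EuclideanSpace ℝ (Fin (N + 1)))) (hconv : Convex ℝ C)
    (hCc : IsCompact C) (w v : EuclideanSpace ℝ (Fin (N + 1))) (τ ϱ : ℝ) (hτ : 0 ≤ τ)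
    (hϱ : 0 ≤ ϱ) :
    volume {x | x ∈ C ∧ x ∈ closedBall w ϱ ∧ x + τ • v ∉ C} ≤
      ENNReal.ofReal (τ * ‖v‖ * (kap N * ϱ ^ N)) := by
  have hkap := kap_nonneg N
  rcases eq_or_ne v 0 with hv | hv
  · have : {x | x ∈ C ∧ x ∈ closedBall w ϱ ∧ x + τ • v ∉ C} = ∅ := by
      ext x
      simp only [hv, smul_zero, add_zero, Set.mem_ofPred_eq, mem_empty_iff_false, iff_false]
      rintro ⟨h1, _, h3⟩
      exact h3 h1
    rw [this, measure_empty]
    exact zero_le
  have hv0 : 0 < ‖v‖ := norm_pos_iff.mpr hv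
  obtain ⟨e, hedef⟩ : ∃ e : EuclideanSpace ℝ (Fin (N + 1)), e = (1 / ‖v‖) • v := ⟨_, rfl⟩
  have he : ‖e‖ = 1 := by
    rw [hedef, norm_smul, Real.norm_of_nonneg (by positivity)]
    field_simp
  have hve : τ • v = (τ * ‖v‖) • e := by
    rw [hedef, smul_smul]
    congr 1
    field_simp
  obtain ⟨ℓ, hℓ⟩ : ∃ ℓ : ℝ, ℓ = τ * ‖v‖ := ⟨_, rfl⟩
  have hℓ0 : 0 ≤ ℓ := by rw [hℓ]; positivity
  rw [hve, ← hℓ]
  obtain ⟨L, hL, hmp, hsurj⟩ := exists_frame e he
  set χ : ℝ × EuclideanSpace ℝ (Fin N) → EuclideanSpace ℝ (Fin (N + 1)) :=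
    fun z => z.1 • e + L z.2 with hχ
  have hLc : Continuous L := L.continuous
  have hχc : Continuous χ := by
    simp only [hχ]
    fun_prop
  obtain ⟨ω, hω⟩ := hsurj w
  have hω' : χ ω = w := hω
  set A : Set (EuclideanSpace ℝ (Fin (N + 1))) := {x | x ∈ C ∧ x ∈ closedBall w ϱ ∧ x + ℓ • e ∉ C}
    with hA
  have hshift : Continuous (fun x : EuclideanSpace ℝ (Fin (N + 1)) => x + ℓ • e) := by fun_prop
  have hAm : MeasurableSet A :=
    hCc.measurableSet.inter (measurableSet_closedBall.inter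
      (hshift.measurable hCc.measurableSet).compl)
  rw [← hmp.measure_preimage hAm.nullMeasurableSet, Measure.volume_eq_prod,
    Measure.prod_apply_symm (hχc.measurable hAm)]
  calc ∫⁻ y : EuclideanSpace ℝ (Fin N), volume ((fun t : ℝ => (t, y)) ⁻¹' (χ ⁻¹' A))
      ≤ ∫⁻ y, (closedBall ω.2 ϱ).indicator (fun _ => ENNReal.ofReal ℓ) y := by
        apply lintegral_mono
        intro y
        by_cases hy : y ∈ closedBall ω.2 ϱ
        · simp only
          rw [indicator_of_mem hy]
          have hc : Convex ℝ {t : ℝ | χ (t, y) ∈ C} := by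
            intro s hs t ht a b ha hb hab
            have h1 := hconv hs ht ha hb hab
            have h2 : a • χ (s, y) + b • χ (t, y) = χ (a • s + b • t, y) := by
              simp only [hχ, smul_add, smul_smul, add_smul, smul_eq_mul]
              have : L y = (a + b) • L y := by rw [hab, one_smul]
              nth_rewrite 3 [this]
              rw [add_smul]; abel
            rw [h2] at h1
            exact h1
          refine (measure_mono ?_).trans (interval_exit _ hc.ordConnected ℓ hℓ0)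
          intro t ht
          simp only [mem_preimage] at ht
          obtain ⟨h1, _, h3⟩ := ht
          refine ⟨h1, ?_⟩
          simp only [Set.mem_ofPred_eq]
          have h4 : χ (t + ℓ, y) = χ (t, y) + ℓ • e := by
            simp only [hχ, add_smul]; abel
          rw [h4]; exact h3
        · simp only
          rw [indicator_of_notMem hy]
          have : (fun t : ℝ => (t, y)) ⁻¹' (χ ⁻¹' A) = ∅ := by
            ext t
            simp only [mem_preimage, mem_empty_iff_false, iff_false]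
            rintro ⟨_, h2, _⟩
            apply hy
            rw [mem_closedBall, dist_eq_norm] at h2 ⊢
            have h5 : ‖χ (t, y) - χ ω‖ ^ 2 = (t - ω.1) ^ 2 + ‖y - ω.2‖ ^ 2 := by
              rw [← frame_norm he L hL]
              congr 2
              simp only [hχ, sub_smul, map_sub]
              abel
            rw [hω'] at h5
            have h6 : ‖χ (t, y) - w‖ ^ 2 ≤ ϱ ^ 2 := pow_le_pow_left₀ (norm_nonneg _) h2 2
            have h7 : ‖y - ω.2‖ ^ 2 ≤ ϱ ^ 2 := by nlinarith [sq_nonneg (t - ω.1)]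
            exact abs_le_of_sq_le_sq' h7 hϱ |>.2
          rw [this, measure_empty]
    _ = ENNReal.ofReal (ℓ * (kap N * ϱ ^ N)) := by
        rw [lintegral_indicator measurableSet_closedBall, setLIntegral_const,
          volume_ball_le _ hϱ, ← ENNReal.ofReal_mul hℓ0]

/-- the determinant of a partial dilation -/
lemma det_stretch (J : EuclideanSpace ℝ (Fin n) →ₗᵢ[ℝ] EuclideanSpace ℝ (Fin N)) (s : ℝ) :
    LinearMap.det (LinearMap.id + s • (J.toLinearMap ∘ₗ
      ((adjP J : EuclideanSpace ℝ (Fin N) →L[ℝ] EuclideanSpace ℝ (Fin n)) :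
        EuclideanSpace ℝ (Fin N) →ₗ[ℝ] EuclideanSpace ℝ (Fin n)))) = (1 + s) ^ n := by
  set bN := (EuclideanSpace.basisFun (Fin N) ℝ).toBasis with hbN
  set bn := (EuclideanSpace.basisFun (Fin n) ℝ).toBasis with hbn
  set A : EuclideanSpace ℝ (Fin N) →ₗ[ℝ] EuclideanSpace ℝ (Fin n) :=
    ((adjP J : EuclideanSpace ℝ (Fin N) →L[ℝ] EuclideanSpace ℝ (Fin n)) :
        EuclideanSpace ℝ (Fin N) →ₗ[ℝ] EuclideanSpace ℝ (Fin n)) with hA
  rw [← LinearMap.det_toMatrix bN, map_add, map_smul, LinearMap.toMatrix_comp bN bn bN,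
    LinearMap.toMatrix_id, ← Matrix.mul_smul, Matrix.det_one_add_mul_comm]
  have h1 : A ∘ₗ J.toLinearMap = LinearMap.id := by
    ext1 z
    exact adjP_J J z
  rw [Matrix.smul_mul, ← LinearMap.toMatrix_comp bn bN bn, h1, LinearMap.toMatrix_id]
  have h2 : (1 : Matrix (Fin n) (Fin n) ℝ) + s • 1 = (1 + s) • 1 := by
    rw [add_smul, one_smul]
  rw [h2, Matrix.det_smul, Matrix.det_one, Fintype.card_fin, mul_one]

lemma stretch_vol (J : EuclideanSpace ℝ (Fin n) →ₗᵢ[ℝ] EuclideanSpace ℝ (Fin N)) (s : ℝ)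
    (hs : 0 < s) (b : EuclideanSpace ℝ (Fin N)) (A : Set (EuclideanSpace ℝ (Fin N))) :
    volume ((fun x => x + s • (J (adjP J x) - b)) ⁻¹' A) =
      ENNReal.ofReal (((1 + s) ^ n)⁻¹) * volume A := by
  set f : EuclideanSpace ℝ (Fin N) →ₗ[ℝ] EuclideanSpace ℝ (Fin N) :=
    LinearMap.id + s • (J.toLinearMap ∘ₗ
      ((adjP J : EuclideanSpace ℝ (Fin N) →L[ℝ] EuclideanSpace ℝ (Fin n)) :
        EuclideanSpace ℝ (Fin N) →ₗ[ℝ] EuclideanSpace ℝ (Fin n))) with hf
  have hdet : LinearMap.det f = (1 + s) ^ n := det_stretch J s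
  have hpos : 0 < (1 + s) ^ n := by positivity
  have e : (fun x => x + s • (J (adjP J x) - b)) ⁻¹' A =
      f ⁻¹' ((fun x => -(s • b) + x) ⁻¹' A) := by
    ext x
    simp only [mem_preimage]
    have : x + s • (J (adjP J x) - b) = -(s • b) + f x := by
      have h1 : f x = x + s • J (adjP J x) := rfl
      rw [h1, smul_sub]; abel
    rw [this]
  rw [e, addHaar_preimage_linearMap volume (by rw [hdet]; exact hpos.ne') _, hdet,
    measure_preimage_add, abs_of_pos (by positivity)]

/-- one step -/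
theorem var_step (C : Set (EuclideanSpace ℝ (Fin (N + 1)))) (hconv : Convex ℝ C)
    (hCc : IsCompact C) (X : Finset (EuclideanSpace ℝ (Fin (N + 1))))
    (hcov : C ⊆ ⋃ x ∈ X, closedBall x 1)
    (J : EuclideanSpace ℝ (Fin n) →ₗᵢ[ℝ] EuclideanSpace ℝ (Fin (N + 1)))
    (z : EuclideanSpace ℝ (Fin n)) (s : ℝ) (hs : 0 < s) :
    volume {x | closedBall x s ⊆ C} ≤ ENNReal.ofReal (((1 + s) ^ n)⁻¹) * volume C +
      ENNReal.ofReal (s * (1 + s) ^ N * (kap N * ∑ w ∈ X, ‖adjP J w - z‖)) := by
  have hkap := kap_nonneg N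
  have hinv1 : ENNReal.ofReal (((1 + s) ^ n)⁻¹) ≤ 1 := by
    rw [← ENNReal.ofReal_one]
    apply ENNReal.ofReal_le_ofReal
    apply inv_le_one_of_one_le₀
    exact one_le_pow₀ (by linarith)
  have hsub : {x | closedBall x s ⊆ C} ⊆
      ((fun x => x + s • (J (adjP J x) - J z)) ⁻¹' C) ∪
      ⋃ w ∈ X, ((fun x => x + s • (J (adjP J x) - J (adjP J w))) ⁻¹'
        {y | y ∈ C ∧ y ∈ closedBall w (1 + s) ∧ y + s • (J (adjP J w) - J z) ∉ C}) := by
    intro x hx
    have hx' : closedBall x s ⊆ C := hx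
    have hxC : x ∈ C := hx' (mem_closedBall_self hs.le)
    by_cases hA : x + s • (J (adjP J x) - J z) ∈ C
    · exact Or.inl hA
    · right
      have h1 := hcov hxC
      simp only [mem_iUnion] at h1
      obtain ⟨w, hw, hxw⟩ := h1
      rw [mem_closedBall, dist_eq_norm] at hxw
      simp only [mem_iUnion]
      refine ⟨w, hw, ?_⟩
      have hmove : ‖s • (J (adjP J x) - J (adjP J w))‖ ≤ s := by
        rw [norm_smul, Real.norm_of_nonneg hs.le, ← map_sub, J.norm_map, ← map_sub]
        have h2 := (adjP_norm_le J (x - w)).trans hxw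
        nlinarith
      refine ⟨?_, ?_, ?_⟩
      · apply hx'
        rw [mem_closedBall, dist_eq_norm, add_sub_cancel_left]
        exact hmove
      · rw [mem_closedBall, dist_eq_norm]
        have e : x + s • (J (adjP J x) - J (adjP J w)) - w =
            (x - w) + s • (J (adjP J x) - J (adjP J w)) := by abel
        rw [e]
        refine (norm_add_le _ _).trans ?_
        linarith
      · have e : x + s • (J (adjP J x) - J (adjP J w)) + s • (J (adjP J w) - J z) =
            x + s • (J (adjP J x) - J z) := by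
          rw [add_assoc, ← smul_add]
          congr 2
          abel
        simp only
        rw [e]; exact hA
  refine (measure_mono hsub).trans ((measure_union_le _ _).trans (add_le_add ?_ ?_))
  · rw [stretch_vol J s hs]
  · refine (measure_biUnion_finset_le X _).trans ?_
    calc ∑ w ∈ X, volume ((fun x => x + s • (J (adjP J x) - J (adjP J w))) ⁻¹'
        {y | y ∈ C ∧ y ∈ closedBall w (1 + s) ∧ y + s • (J (adjP J w) - J z) ∉ C})
        ≤ ∑ w ∈ X, ENNReal.ofReal (s * ‖adjP J w - z‖ * (kap N * (1 + s) ^ N)) := by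
          apply Finset.sum_le_sum
          intro w _
          rw [stretch_vol J s hs]
          refine (mul_le_mul' hinv1 le_rfl).trans ?_
          rw [one_mul]
          have h1 := ball_exit_r C hconv hCc w (J (adjP J w) - J z) s (1 + s) hs.le (by linarith)
          rwa [← map_sub, J.norm_map, map_sub] at h1
      _ = _ := by
          rw [← ENNReal.ofReal_sum_of_nonneg (fun w _ => by positivity)]
          congr 1
          rw [Finset.mul_sum, Finset.mul_sum]
          apply Finset.sum_congr rfl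
          intro w _
          ring

/-- **The first variation inequality.** -/
theorem first_variation (C : Set (EuclideanSpace ℝ (Fin (N + 1)))) (hconv : Convex ℝ C)
    (hCc : IsCompact C) (X : Finset (EuclideanSpace ℝ (Fin (N + 1))))
    (hcov : C ⊆ ⋃ x ∈ X, closedBall x 1)
    (J : EuclideanSpace ℝ (Fin n) →ₗᵢ[ℝ] EuclideanSpace ℝ (Fin (N + 1)))
    (z : EuclideanSpace ℝ (Fin n)) (S : ℝ) (hS0 : 0 ≤ S)
    (hS : ∀ ρ : ℝ, 0 < ρ → volume (C \ {x | closedBall x ρ ⊆ C}) ≤ ENNReal.ofReal (ρ * S)) :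
    (n : ℝ) * (volume C).toReal ≤ S + kap N * ∑ w ∈ X, ‖adjP J w - z‖ := by
  have hkap := kap_nonneg N
  have hfin : volume C ≠ ⊤ := hCc.measure_lt_top.ne
  obtain ⟨V, hV⟩ : ∃ V : ℝ, V = (volume C).toReal := ⟨_, rfl⟩
  have hV0 : 0 ≤ V := by rw [hV]; exact ENNReal.toReal_nonneg
  have hVV : volume C = ENNReal.ofReal V := by rw [hV, ENNReal.ofReal_toReal hfin]
  obtain ⟨A, hA⟩ : ∃ A : ℝ, A = kap N * ∑ w ∈ X, ‖adjP J w - z‖ := ⟨_, rfl⟩
  have hA0 : 0 ≤ A := by
    rw [hA]; exact mul_nonneg hkap (Finset.sum_nonneg fun w _ => norm_nonneg _)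
  rw [← hV, ← hA]
  have key : ∀ s : ℝ, 0 < s → (n : ℝ) * V - n ^ 2 * s * V - (1 + s) ^ N * A ≤ S := by
    intro s hs
    have h1 := var_step C hconv hCc X hcov J z s hs
    rw [← hA] at h1
    have h2 : volume C ≤ ENNReal.ofReal (s * S) + (ENNReal.ofReal (((1 + s) ^ n)⁻¹) * volume C +
      ENNReal.ofReal (s * (1 + s) ^ N * A)) := by
      calc volume C ≤ volume ((C \ {x | closedBall x s ⊆ C}) ∪ {x | closedBall x s ⊆ C}) := by
            apply measure_mono
            intro x hx
            by_cases h : x ∈ {x | closedBall x s ⊆ C}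
            · exact Or.inr h
            · exact Or.inl ⟨hx, h⟩
        _ ≤ volume (C \ {x | closedBall x s ⊆ C}) + volume {x | closedBall x s ⊆ C} :=
            measure_union_le _ _
        _ ≤ _ := add_le_add (hS s hs) h1
    have hinv0 : 0 ≤ ((1 + s) ^ n)⁻¹ := by positivity
    have h3 : V ≤ s * S + (((1 + s) ^ n)⁻¹ * V + s * (1 + s) ^ N * A) := by
      have p1 : 0 ≤ s * S := by positivity
      have p2 : 0 ≤ ((1 + s) ^ n)⁻¹ * V := by positivity
      have p3 : 0 ≤ s * (1 + s) ^ N * A := by positivity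
      rw [hVV, ← ENNReal.ofReal_mul hinv0, ← ENNReal.ofReal_add p2 p3,
        ← ENNReal.ofReal_add p1 (add_nonneg p2 p3)] at h2
      exact (ENNReal.ofReal_le_ofReal_iff (add_nonneg p1 (add_nonneg p2 p3))).mp h2
    have h4 : ((1 + s) ^ n)⁻¹ ≤ 1 - n * s + (n * s) ^ 2 := by
      have hb := one_add_mul_le_pow (a := s) (by linarith) n
      have hns : 0 ≤ (n : ℝ) * s := by positivity
      have h5 : ((1 + s) ^ n)⁻¹ ≤ (1 + n * s)⁻¹ := inv_anti₀ (by linarith) hb
      have h6 : (1 + (n : ℝ) * s)⁻¹ ≤ 1 - n * s + (n * s) ^ 2 := by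
        rw [← one_div, div_le_iff₀ (by linarith)]
        have : 0 ≤ ((n : ℝ) * s) ^ 3 := by positivity
        nlinarith
      exact h5.trans h6
    have h7 : V ≤ s * S + ((1 - n * s + (n * s) ^ 2) * V + s * (1 + s) ^ N * A) := by
      have := mul_le_mul_of_nonneg_right h4 hV0
      linarith
    have h8 : s * ((n : ℝ) * V - n ^ 2 * s * V - (1 + s) ^ N * A) ≤ s * S := by nlinarith
    exact le_of_mul_le_mul_left h8 hs
  have hcont : Continuous (fun s : ℝ => (n : ℝ) * V - n ^ 2 * s * V - (1 + s) ^ N * A) := by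
    fun_prop
  have htend : Tendsto (fun s : ℝ => (n : ℝ) * V - n ^ 2 * s * V - (1 + s) ^ N * A) (𝓝[>] 0)
      (𝓝 ((n : ℝ) * V - n ^ 2 * 0 * V - (1 + 0) ^ N * A)) :=
    (hcont.tendsto 0).mono_left nhdsWithin_le_nhds
  have hlim := le_of_tendsto htend (b := S) (by
    filter_upwards [self_mem_nhdsWithin] with s hs
    exact key s hs)
  simp at hlim
  linarith

end SC70
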