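import Mathlib

/-!
# Thin coverings: comparison in polar coordinates
-/

set_option autoImplicit false

open MeasureTheory Measure Metric Set Module ENNReal

namespace SC70

variable {G : Type*} [NormedAddCommGroup G] [NormedSpace ℝ G] [MeasurableSpace G] [BorelSpace G]
  [FiniteDimensional ℝ G]

lemma lintegral_volumeIoiPow (m : ℕ) (f : ℝ → ℝ≥0∞) (hf : Measurable f) :
    ∫⁻ r : Ioi (0 : ℝ), f r ∂(volumeIoiPow m) =
      ∫⁻ r in Ioi (0 : ℝ), ENNReal.ofReal (r ^ m) * f r := by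
  have hf' : Measurable (fun r : Ioi (0 : ℝ) => f r) := hf.comp measurable_subtype_coe
  have hg : Measurable (fun r : Ioi (0 : ℝ) => ENNReal.ofReal ((r : ℝ) ^ m)) := by fun_prop
  rw [volumeIoiPow, lintegral_withDensity_eq_lintegral_mul _ hg hf']
  simp only [Pi.mul_apply]
  rw [lintegral_subtype_comap measurableSet_Ioi (fun r : ℝ => ENNReal.ofReal (r ^ m) * f r)]

lemma polar [Nontrivial G] (μ : Measure G) [μ.IsAddHaarMeasure] (F : G → ℝ≥0∞)
    (hF : Measurable F) :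
    ∫⁻ x, F x ∂μ = ∫⁻ θ : sphere (0 : G) 1, (∫⁻ r : ℝ in Ioi (0 : ℝ),
      ENNReal.ofReal (r ^ (finrank ℝ G - 1)) * F (r • (θ : G)) ∂volume) ∂μ.toSphere := by
  have h1 : ∫⁻ x, F x ∂μ = ∫⁻ x : ({(0)}ᶜ : Set G), F x.1 ∂(μ.comap (↑)) := by
    rw [lintegral_subtype_comap (measurableSet_singleton _).compl F, restrict_compl_singleton]
  have h2 := (μ.measurePreserving_homeomorphUnitSphereProd).lintegral_comp_emb
    (Homeomorph.measurableEmbedding _)
    (fun z : sphere (0 : G) 1 × Ioi (0 : ℝ) => F (z.2.1 • (z.1 : G)))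
  have h3 : ∀ x : ({(0)}ᶜ : Set G), F x.1 =
      (fun z : sphere (0 : G) 1 × Ioi (0 : ℝ) => F (z.2.1 • (z.1 : G)))
        (homeomorphUnitSphereProd G x) := by
    intro x
    have hx : (x : G) ≠ 0 := x.2
    simp only [homeomorphUnitSphereProd_apply_snd_coe, homeomorphUnitSphereProd_apply_fst_coe]
    congr 1
    rw [smul_smul, mul_inv_cancel₀ (norm_ne_zero_iff.mpr hx), one_smul]
  rw [h1, lintegral_congr h3, h2]
  have hm : Measurable (fun z : sphere (0 : G) 1 × Ioi (0 : ℝ) => F (z.2.1 • (z.1 : G))) := by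
    apply hF.comp
    exact Measurable.smul (measurable_subtype_coe.comp measurable_snd)
      (measurable_subtype_coe.comp measurable_fst)
  rw [lintegral_prod _ hm.aemeasurable]
  apply lintegral_congr
  intro θ
  have := lintegral_volumeIoiPow (finrank ℝ G - 1) (fun r => F (r • (θ : G)))
    (hF.comp (by fun_prop))
  exact this

/-- comparison along rays -/
lemma polar_le [Nontrivial G] (μ : Measure G) [μ.IsAddHaarMeasure] (u v : G → ℝ≥0∞)
    (hu : Measurable u) (hv : Measurable v)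
    (h : ∀ θ : G, ‖θ‖ = 1 →
      (∫⁻ r : ℝ in Ioi (0 : ℝ), ENNReal.ofReal (r ^ (finrank ℝ G - 1)) * u (r • θ))
      ≤ ∫⁻ r : ℝ in Ioi (0 : ℝ), ENNReal.ofReal (r ^ (finrank ℝ G - 1)) * v (r • θ)) :
    ∫⁻ x, u x ∂μ ≤ ∫⁻ x, v x ∂μ := by
  rw [polar μ u hu, polar μ v hv]
  apply lintegral_mono
  intro θ
  exact h θ (by simp)

end SC70
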