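import Pool.Agent.SC70.WNum
import Pool.Agent.SC70.RoundFin

/-!
# Thin coverings: numerical estimates for two long directions
-/

set_option autoImplicit false

open MeasureTheory Measure Metric Set Module ENNReal

namespace SC70

variable {n : ℕ}

lemma kap_formula (hn : 1 ≤ n) : kap n = √Real.pi ^ n / Real.Gamma ((n : ℝ) / 2 + 1) := by
  have : Nonempty (Fin n) := ⟨⟨0, by omega⟩⟩
  unfold kap
  rw [measureReal_def, EuclideanSpace.volume_closedBall, Fintype.card_fin, ENNReal.ofReal_one,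
    one_pow, one_mul, ENNReal.toReal_ofReal]
  have h1 : 0 < Real.Gamma ((n : ℝ) / 2 + 1) := Real.Gamma_pos_of_pos (by positivity)
  positivity

lemma gamma_half_le (a : ℝ) (ha : 0 < a) :
    Real.Gamma (a + 1 / 2) ≤ √a * Real.Gamma a := by
  have h := Real.Gamma_mul_add_mul_le_rpow_Gamma_mul_rpow_Gamma (s := a) (t := a + 1)
    (a := 1 / 2) (b := 1 / 2) ha (by linarith) (by norm_num) (by norm_num) (by norm_num)
  have e1 : 1 / 2 * a + 1 / 2 * (a + 1) = a + 1 / 2 := by ring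
  rw [e1, Real.Gamma_add_one ha.ne', ← Real.sqrt_eq_rpow, ← Real.sqrt_eq_rpow,
    Real.sqrt_mul ha.le] at h
  have hG : 0 < Real.Gamma a := Real.Gamma_pos_of_pos ha
  have e2 : √(Real.Gamma a) * (√a * √(Real.Gamma a)) = √a * Real.Gamma a := by
    have := Real.mul_self_sqrt hG.le
    calc √(Real.Gamma a) * (√a * √(Real.Gamma a)) =
          √a * (√(Real.Gamma a) * √(Real.Gamma a)) := by ring
      _ = _ := by rw [this]
  rwa [e2] at h

lemma kap_succ_ge (hn : 1 ≤ n) : kap n * √(2 * Real.pi / ((n : ℝ) + 2)) ≤ kap (n + 1) := by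
  rw [kap_formula hn, kap_formula (n := n + 1) (by omega)]
  have ha : (0 : ℝ) < (n : ℝ) / 2 + 1 := by positivity
  have h := gamma_half_le ((n : ℝ) / 2 + 1) ha
  have hG : 0 < Real.Gamma ((n : ℝ) / 2 + 1) := Real.Gamma_pos_of_pos ha
  have e1 : (((n + 1 : ℕ) : ℝ)) / 2 + 1 = (n : ℝ) / 2 + 1 + 1 / 2 := by push_cast; ring
  rw [e1]
  have hG2 : 0 < Real.Gamma ((n : ℝ) / 2 + 1 + 1 / 2) := Real.Gamma_pos_of_pos (by positivity)
  have e2 : √(2 * Real.pi / ((n : ℝ) + 2)) = √Real.pi / √((n : ℝ) / 2 + 1) := by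
    rw [← Real.sqrt_div Real.pi_pos.le]
    congr 1
    field_simp
  rw [e2, pow_succ, div_mul_div_comm, div_le_div_iff₀ (by positivity) hG2]
  have hp : 0 ≤ √Real.pi ^ n * √Real.pi := by positivity
  calc √Real.pi ^ n * √Real.pi * Real.Gamma ((n : ℝ) / 2 + 1 + 1 / 2)
      ≤ √Real.pi ^ n * √Real.pi * (√((n : ℝ) / 2 + 1) * Real.Gamma ((n : ℝ) / 2 + 1)) :=
        mul_le_mul_of_nonneg_left h hp
    _ = _ := by ring

lemma gam_le_two (hn : 3 ≤ n) (ε : ℝ) (hε0 : 0 < ε) (hε1 : ε ≤ 1) (m : ℕ)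
    (hm : (m : ℝ) ≤ ε ^ 2 / 20000 * n) :
    gam (n + 2) m (√(ε * n) / 200) ≤ 1 + ε / 16 := by
  have hn' : (3 : ℝ) ≤ n := by exact_mod_cast hn
  have hs : 0 < √(ε * n) := Real.sqrt_pos.mpr (by positivity)
  refine le_trans ?_ (gam_le hn ε hε0 hε1 m hm)
  unfold gam
  gcongr
  · norm_num
  · norm_num

/-- the final numerical comparison -/
lemma tnum (hn : 25000 ≤ n) (er γ A v k ℓ τ : ℝ) (her0 : 0 ≤ er) (her : er ≤ 1 / 1000)
    (hγ0 : 0 ≤ γ) (hγ : γ ≤ 1 + 1 / 160)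
    (hA : A = (2 / (n * Real.exp 1)) * (kap n * (1 + er))) (_hv0 : 0 ≤ v) (hk0 : 0 ≤ k)
    (hℓ0 : 0 < ℓ) (hτ0 : 0 ≤ τ) (hτ : τ ≤ ℓ * (6 / 1000))
    (hreal : ℓ ^ 2 / Real.pi * v ≤ A * γ * (k * (ℓ + τ) ^ 2) +
      ℓ ^ 2 / Real.pi * (1 / 100 * v)) :
    v ≤ 4 / 5 * (2 * k * (kap (n + 1) * Mn (n + 1))) := by
  have hn1 : 1 ≤ n := by omega
  have hn' : (25000 : ℝ) ≤ n := by exact_mod_cast hn
  have hn0 : (0 : ℝ) < n := by linarith
  have hkap := kap_pos n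
  have hπ := Real.pi_pos
  have he := Real.exp_pos 1
  have hA0 : 0 ≤ A := by rw [hA]; positivity
  -- step 1
  have h1 : 99 / 100 * v ≤ Real.pi * (A * γ * (k * (1006 / 1000) ^ 2)) := by
    have h2 : (ℓ + τ) ^ 2 ≤ (ℓ * (1006 / 1000)) ^ 2 :=
      pow_le_pow_left₀ (by linarith) (by linarith) 2
    have h3 : A * γ * (k * (ℓ + τ) ^ 2) ≤ A * γ * (k * (ℓ * (1006 / 1000)) ^ 2) := by
      gcongr
    have h4 : ℓ ^ 2 / Real.pi * (99 / 100 * v) ≤
        ℓ ^ 2 / Real.pi * (Real.pi * (A * γ * (k * (1006 / 1000) ^ 2))) := by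
      have e1 : ℓ ^ 2 / Real.pi * (Real.pi * (A * γ * (k * (1006 / 1000) ^ 2))) =
          A * γ * (k * (ℓ * (1006 / 1000)) ^ 2) := by field_simp
      rw [e1]
      linarith
    exact le_of_mul_le_mul_left h4 (by positivity)
  -- step 2
  obtain ⟨G, hG⟩ : ∃ G : ℝ, G = √(2 * Real.pi / ((n : ℝ) + 2)) *
      (1 / √(Real.exp 1 * ((n : ℝ) + 2))) := ⟨_, rfl⟩
  have hG0 : 0 < G := by rw [hG]; positivity
  have hG2 : G ^ 2 = 2 * Real.pi / (Real.exp 1 * ((n : ℝ) + 2) ^ 2) := by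
    rw [hG, mul_pow, div_pow, Real.sq_sqrt (by positivity), Real.sq_sqrt (by positivity)]
    field_simp
  have hlow : kap n * G ≤ kap (n + 1) * Mn (n + 1) := by
    have h2 := kap_succ_ge hn1
    have h3 := Mn_ge (n := n + 1) (by omega)
    have e1 : (((n + 1 : ℕ) : ℝ)) + 1 = (n : ℝ) + 2 := by push_cast; ring
    rw [e1] at h3
    calc kap n * G = (kap n * √(2 * Real.pi / ((n : ℝ) + 2))) *
          (1 / √(Real.exp 1 * ((n : ℝ) + 2))) := by rw [hG]; ring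
      _ ≤ kap (n + 1) * Mn (n + 1) :=
          mul_le_mul h2 h3 (by positivity) (kap_nonneg _)
  -- step 3
  have hgn : G * ((n : ℝ) + 2) ≤ 1521 / 1000 := by
    have h2 : (G * ((n : ℝ) + 2)) ^ 2 ≤ (1521 / 1000) ^ 2 := by
      rw [mul_pow, hG2]
      have e1 : 2 * Real.pi / (Real.exp 1 * ((n : ℝ) + 2) ^ 2) * ((n : ℝ) + 2) ^ 2 =
          2 * Real.pi / Real.exp 1 := by field_simp
      rw [e1, div_le_iff₀ he]
      have h3 := Real.pi_lt_d4
      have h4 := Real.exp_one_gt_d9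
      nlinarith
    exact abs_le_of_sq_le_sq' h2 (by positivity) |>.2
  have hAG : Real.pi * A = (kap n * G) * ((G * ((n : ℝ) + 2)) * (((n : ℝ) + 2) / n)) *
      (1 + er) := by
    have e1 : (kap n * G) * ((G * ((n : ℝ) + 2)) * (((n : ℝ) + 2) / n)) * (1 + er) =
        kap n * (G ^ 2 * ((n : ℝ) + 2) ^ 2 / n) * (1 + er) := by ring
    rw [e1, hG2, hA]
    field_simp
  have hn2 : ((n : ℝ) + 2) / n ≤ 1 + 1 / 10000 := by
    rw [div_le_iff₀ hn0]; linarith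
  have hfac : (G * ((n : ℝ) + 2)) * (((n : ℝ) + 2) / n) * (1 + er) * γ * (1006 / 1000) ^ 2 ≤
      99 / 100 * (8 / 5) := by
    calc (G * ((n : ℝ) + 2)) * (((n : ℝ) + 2) / n) * (1 + er) * γ * (1006 / 1000) ^ 2
        ≤ (1521 / 1000) * (1 + 1 / 10000) * (1 + 1 / 1000) * (1 + 1 / 160) *
          (1006 / 1000) ^ 2 := by gcongr
      _ ≤ _ := by norm_num
  have h5 : 99 / 100 * v ≤ 99 / 100 * (8 / 5 * (k * (kap n * G))) := by
    calc 99 / 100 * v ≤ Real.pi * (A * γ * (k * (1006 / 1000) ^ 2)) := h1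
      _ = (Real.pi * A) * γ * (k * (1006 / 1000) ^ 2) := by ring
      _ = (k * (kap n * G)) * ((G * ((n : ℝ) + 2)) * (((n : ℝ) + 2) / n) * (1 + er) * γ *
          (1006 / 1000) ^ 2) := by rw [hAG]; ring
      _ ≤ (k * (kap n * G)) * (99 / 100 * (8 / 5)) :=
          mul_le_mul_of_nonneg_left hfac (by positivity)
      _ = _ := by ring
  have h6 : v ≤ 8 / 5 * (k * (kap n * G)) := by linarith
  have h7 : k * (kap n * G) ≤ k * (kap (n + 1) * Mn (n + 1)) :=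
    mul_le_mul_of_nonneg_left hlow hk0
  linarith

end SC70
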