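import Pool.Agent.SC70.Num

/-!
# Thin coverings: bodies containing a ball of radius larger than one
-/

set_option autoImplicit false

open MeasureTheory Measure Metric Set Module ENNReal Filter
open scoped RealInnerProductSpace Pointwise Topology

namespace SC70

variable {n : ℕ}

/-- the part of an interval which leaves it after a shift -/
lemma interval_exit (I : Set ℝ) (hI : I.OrdConnected) (ℓ : ℝ) (h0 : 0 ≤ ℓ) :
    volume {t : ℝ | t ∈ I ∧ t + ℓ ∉ I} ≤ ENNReal.ofReal ℓ := by
  refine (Real.volume_le_diam _).trans ?_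
  apply Metric.ediam_le
  intro t ht t' ht'
  rw [edist_dist]
  apply ENNReal.ofReal_le_ofReal
  rw [Real.dist_eq, abs_le]
  constructor
  · by_contra hcon
    push Not at hcon
    exact ht.2 (hI.out ht.1 ht'.1 ⟨by linarith, by linarith⟩)
  · by_contra hcon
    push Not at hcon
    exact ht'.2 (hI.out ht'.1 ht.1 ⟨by linarith, by linarith⟩)

/-- the part of a convex body in a ball which leaves the body after a translation -/
lemma ball_exit (C : Set (EuclideanSpace ℝ (Fin (n + 1)))) (hconv : Convex ℝ C)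
    (hCc : IsCompact C) (w v : EuclideanSpace ℝ (Fin (n + 1))) (τ : ℝ) (hτ : 0 ≤ τ) :
    volume {x | x ∈ C ∧ x ∈ closedBall w 1 ∧ x + τ • v ∉ C} ≤
      ENNReal.ofReal (τ * ‖v‖ * kap n) := by
  have hkap := kap_nonneg n
  rcases eq_or_ne v 0 with hv | hv
  · have : {x | x ∈ C ∧ x ∈ closedBall w 1 ∧ x + τ • v ∉ C} = ∅ := by
      ext x
      simp only [hv, smul_zero, add_zero, Set.mem_ofPred_eq, mem_empty_iff_false, iff_false]
      rintro ⟨h1, _, h3⟩
      exact h3 h1
    rw [this, measure_empty]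
    exact zero_le
  have hv0 : 0 < ‖v‖ := norm_pos_iff.mpr hv
  obtain ⟨e, hedef⟩ : ∃ e : EuclideanSpace ℝ (Fin (n + 1)), e = (1 / ‖v‖) • v := ⟨_, rfl⟩
  have he : ‖e‖ = 1 := by
    rw [hedef, norm_smul, Real.norm_of_nonneg (by positivity)]
    field_simp
  have hve : τ • v = (τ * ‖v‖) • e := by
    rw [hedef, smul_smul]
    congr 1
    field_simp
  obtain ⟨ℓ, hℓ⟩ : ∃ ℓ : ℝ, ℓ = τ * ‖v‖ := ⟨_, rfl⟩
  have hℓ0 : 0 ≤ ℓ := by rw [hℓ]; positivity
  rw [hve, ← hℓ]
  obtain ⟨L, hL, hmp, hsurj⟩ := exists_frame e he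
  set χ : ℝ × EuclideanSpace ℝ (Fin n) → EuclideanSpace ℝ (Fin (n + 1)) :=
    fun z => z.1 • e + L z.2 with hχ
  have hLc : Continuous L := L.continuous
  have hχc : Continuous χ := by
    simp only [hχ]
    fun_prop
  obtain ⟨ω, hω⟩ := hsurj w
  have hω' : χ ω = w := hω
  set A : Set (EuclideanSpace ℝ (Fin (n + 1))) := {x | x ∈ C ∧ x ∈ closedBall w 1 ∧ x + ℓ • e ∉ C}
    with hA
  have hshift : Continuous (fun x : EuclideanSpace ℝ (Fin (n + 1)) => x + ℓ • e) := by fun_prop
  have hAm : MeasurableSet A :=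
    hCc.measurableSet.inter (measurableSet_closedBall.inter
      (hshift.measurable hCc.measurableSet).compl)
  rw [← hmp.measure_preimage hAm.nullMeasurableSet, Measure.volume_eq_prod,
    Measure.prod_apply_symm (hχc.measurable hAm)]
  calc ∫⁻ y : EuclideanSpace ℝ (Fin n), volume ((fun t : ℝ => (t, y)) ⁻¹' (χ ⁻¹' A))
      ≤ ∫⁻ y, (closedBall ω.2 1).indicator (fun _ => ENNReal.ofReal ℓ) y := by
        apply lintegral_mono
        intro y
        by_cases hy : y ∈ closedBall ω.2 1
        · simp only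
          rw [indicator_of_mem hy]
          have hc : Convex ℝ {t : ℝ | χ (t, y) ∈ C} := by
            intro s hs t ht a b ha hb hab
            have h1 := hconv hs ht ha hb hab
            have h2 : a • χ (s, y) + b • χ (t, y) = χ (a • s + b • t, y) := by
              simp only [hχ, smul_add, smul_smul, add_smul, smul_eq_mul]
              have : L y = (a + b) • L y := by rw [hab, one_smul]
              nth_rewrite 3 [this]
              rw [add_smul]; abel
            rw [h2] at h1
            exact h1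
          refine (measure_mono ?_).trans (interval_exit _ hc.ordConnected ℓ hℓ0)
          intro t ht
          simp only [mem_preimage] at ht
          obtain ⟨h1, _, h3⟩ := ht
          refine ⟨h1, ?_⟩
          simp only [Set.mem_ofPred_eq]
          have h4 : χ (t + ℓ, y) = χ (t, y) + ℓ • e := by
            simp only [hχ, add_smul]; abel
          rw [h4]; exact h3
        · simp only
          rw [indicator_of_notMem hy]
          have : (fun t : ℝ => (t, y)) ⁻¹' (χ ⁻¹' A) = ∅ := by
            ext t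
            simp only [mem_preimage, mem_empty_iff_false, iff_false]
            rintro ⟨_, h2, _⟩
            apply hy
            rw [mem_closedBall, dist_eq_norm] at h2 ⊢
            have h5 : ‖χ (t, y) - χ ω‖ ^ 2 = (t - ω.1) ^ 2 + ‖y - ω.2‖ ^ 2 := by
              rw [← frame_norm he L hL]
              congr 2
              simp only [hχ, sub_smul, map_sub]
              abel
            rw [hω'] at h5
            have h6 : ‖χ (t, y) - w‖ ^ 2 ≤ 1 := by nlinarith [norm_nonneg (χ (t, y) - w)]
            have h7 : ‖y - ω.2‖ ^ 2 ≤ 1 := by nlinarith [sq_nonneg (t - ω.1)]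
            nlinarith [norm_nonneg (y - ω.2)]
          rw [this, measure_empty]
    _ = ENNReal.ofReal (ℓ * kap n) := by
        rw [lintegral_indicator measurableSet_closedBall, setLIntegral_const,
          volume_ball_le _ zero_le_one, one_pow, mul_one, ← ENNReal.ofReal_mul hℓ0]

/-- points close to the boundary leave the body -/
lemma shell_exit (C : Set (EuclideanSpace ℝ (Fin (n + 1)))) (hconv : Convex ℝ C)
    (p w x : EuclideanSpace ℝ (Fin (n + 1))) (r s : ℝ) (hr : 1 < r) (hs0 : 0 < s)
    (hs : s < 1 - 1 / r) (hb : closedBall p r ⊆ C) (hxw : ‖x - w‖ ≤ 1)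
    (hz : x + (s / (1 - s - 1 / r)) • (w - p) ∈ C) :
    x ∈ AffineMap.homothety p (1 - s) '' C := by
  have hr0 : 0 < r := by linarith
  have hr1 : 0 < 1 / r := by positivity
  obtain ⟨D, hD⟩ : ∃ D : ℝ, D = 1 - s - 1 / r := ⟨_, rfl⟩
  have hD0 : 0 < D := by rw [hD]; linarith
  have h1s : 0 < 1 - s := by linarith
  obtain ⟨τ, hτ⟩ : ∃ τ : ℝ, τ = s / (1 - s - 1 / r) := ⟨_, rfl⟩
  have hτ0 : 0 < τ := by rw [hτ, ← hD]; positivity
  rw [← hτ] at hz
  have hτD : τ * (1 - s - 1 / r) = s := by
    rw [hτ]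
    have : 1 - s - 1 / r ≠ 0 := by rw [← hD]; exact hD0.ne'
    exact div_mul_cancel₀ s this
  have hb' : p + r • (x - w) ∈ C := by
    apply hb
    rw [mem_closedBall, dist_eq_norm, add_sub_cancel_left, norm_smul, Real.norm_of_nonneg hr0.le]
    nlinarith
  obtain ⟨α, hα⟩ : ∃ α : ℝ, α = 1 / ((1 + τ) * (1 - s)) := ⟨_, rfl⟩
  obtain ⟨β, hβ⟩ : ∃ β : ℝ, β = τ / (r * ((1 + τ) * (1 - s))) := ⟨_, rfl⟩
  have hα0 : 0 ≤ α := by rw [hα]; positivity
  have hβ0 : 0 ≤ β := by rw [hβ]; positivity
  have hαβ : α + β = 1 := by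
    have h3 : (1 + τ) * (1 - s) = 1 + τ / r := by
      have e : (1 + τ) * (1 - s) = 1 + τ / r + (τ * (1 - s - 1 / r) - s) := by ring
      rw [e, hτD]; ring
    rw [hα, hβ, h3]
    have h4 : 1 + τ / r ≠ 0 := by positivity
    field_simp
  refine ⟨α • (x + τ • (w - p)) + β • (p + r • (x - w)), hconv hz hb' hα0 hβ0 hαβ, ?_⟩
  rw [AffineMap.homothety_apply, vsub_eq_sub, vadd_eq_add]
  have hα1 : (1 - s) * α * (1 + τ) = 1 := by
    rw [hα]; field_simp
  have hβ1 : (1 - s) * β * r = (1 - s) * α * τ := by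
    rw [hα, hβ]; field_simp
  have hsum : (1 - s) * α + (1 - s) * β = 1 - s := by
    rw [← mul_add, hαβ, mul_one]
  -- coefficients of `x`, `w`, `p`
  have e1 : (1 - s) • (α • (x + τ • (w - p)) + β • (p + r • (x - w)) - p) + p =
      ((1 - s) * α + (1 - s) * β * r) • x + ((1 - s) * α * τ - (1 - s) * β * r) • w +
      (1 - (1 - s) * α * τ + (1 - s) * β - (1 - s)) • p := by
    module
  have e2 : (1 - s) * α + (1 - s) * β * r = 1 := by rw [hβ1]; linarith
  have e3 : (1 - s) * α * τ - (1 - s) * β * r = 0 := by rw [hβ1]; ring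
  have e4 : 1 - (1 - s) * α * τ + (1 - s) * β - (1 - s) = 0 := by linarith
  rw [e1, e2, e3, e4]
  simp

/-- **Volume bound for bodies containing a ball of radius larger than one.** -/
theorem round_bound (C : Set (EuclideanSpace ℝ (Fin (n + 1)))) (hconv : Convex ℝ C)
    (hCc : IsCompact C) (X : Finset (EuclideanSpace ℝ (Fin (n + 1))))
    (hcov : C ⊆ ⋃ x ∈ X, closedBall x 1) (p : EuclideanSpace ℝ (Fin (n + 1))) (r : ℝ)
    (hr : 1 < r) (hb : closedBall p r ⊆ C) :
    ((n : ℝ) + 1) * (1 - 1 / r) * (volume C).toReal ≤ kap n * ∑ x ∈ X, ‖x - p‖ := by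
  classical
  have hkap := kap_nonneg n
  have hr0 : 0 < r := by linarith
  have hr1 : 1 / r < 1 := by rw [div_lt_one hr0]; exact hr
  have hfin : volume C ≠ ⊤ := hCc.measure_lt_top.ne
  obtain ⟨V, hV⟩ : ∃ V : ℝ, V = (volume C).toReal := ⟨_, rfl⟩
  have hV0 : 0 ≤ V := by rw [hV]; exact ENNReal.toReal_nonneg
  have hVV : volume C = ENNReal.ofReal V := by rw [hV, ENNReal.ofReal_toReal hfin]
  rw [← hV]
  obtain ⟨A, hA⟩ : ∃ A : ℝ, A = kap n * ∑ x ∈ X, ‖x - p‖ := ⟨_, rfl⟩
  have hA0 : 0 ≤ A := by
    rw [hA]; exact mul_nonneg hkap (Finset.sum_nonneg fun x _ => norm_nonneg _)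
  rw [← hA]
  obtain ⟨N, hN⟩ : ∃ N : ℝ, N = (n : ℝ) + 1 := ⟨_, rfl⟩
  have hN1 : 1 ≤ N := by
    have : (0 : ℝ) ≤ n := Nat.cast_nonneg _
    rw [hN]; linarith
  rw [← hN]
  have key : ∀ s : ℝ, 0 < s → s < 1 - 1 / r →
      N * (1 - N * s) * (1 - s - 1 / r) * V ≤ A := by
    intro s hs0 hs
    obtain ⟨D, hD⟩ : ∃ D : ℝ, D = 1 - s - 1 / r := ⟨_, rfl⟩
    have hD0 : 0 < D := by rw [hD]; linarith
    have hs1 : s < 1 := by
      have : 0 < 1 / r := by positivity
      linarith
    -- covering of the shell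
    have hsub : C ⊆ (AffineMap.homothety p (1 - s) '' C) ∪
        ⋃ w ∈ X, {x | x ∈ C ∧ x ∈ closedBall w 1 ∧ x + (s / (1 - s - 1 / r)) • (w - p) ∉ C} := by
      intro x hx
      by_cases hxs : x ∈ AffineMap.homothety p (1 - s) '' C
      · exact Or.inl hxs
      · right
        have h1 := hcov hx
        simp only [mem_iUnion] at h1
        obtain ⟨w, hw, hxw⟩ := h1
        simp only [mem_iUnion]
        refine ⟨w, hw, hx, hxw, ?_⟩
        intro hz
        rw [mem_closedBall, dist_eq_norm] at hxw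
        exact hxs (shell_exit C hconv p w x r s hr hs0 hs hb hxw hz)
    have hvol : volume C ≤ ENNReal.ofReal ((1 - s) ^ (n + 1)) * volume C +
        ENNReal.ofReal (s / D * A) := by
      refine (measure_mono hsub).trans ((measure_union_le _ _).trans (add_le_add ?_ ?_))
      · rw [addHaar_image_homothety, finrank_euclideanSpace_fin, abs_of_nonneg (by
          have : 0 ≤ 1 - s := by linarith
          positivity)]
      · refine (measure_biUnion_finset_le X _).trans ?_
        calc ∑ w ∈ X, volume {x | x ∈ C ∧ x ∈ closedBall w 1 ∧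
              x + (s / (1 - s - 1 / r)) • (w - p) ∉ C}
            ≤ ∑ w ∈ X, ENNReal.ofReal (s / D * ‖w - p‖ * kap n) := by
              apply Finset.sum_le_sum
              intro w _
              rw [hD]
              exact ball_exit C hconv hCc w (w - p) _ (by rw [← hD]; positivity)
          _ = ENNReal.ofReal (s / D * A) := by
              rw [← ENNReal.ofReal_sum_of_nonneg (fun w _ => by positivity)]
              congr 1
              rw [hA, Finset.mul_sum, Finset.mul_sum]
              apply Finset.sum_congr rfl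
              intro w _
              ring
    have hpow0 : 0 ≤ (1 - s) ^ (n + 1) := pow_nonneg (by linarith) _
    have hreal : V ≤ (1 - s) ^ (n + 1) * V + s / D * A := by
      rw [hVV, ← ENNReal.ofReal_mul hpow0, ← ENNReal.ofReal_add (by positivity) (by positivity)]
        at hvol
      exact (ENNReal.ofReal_le_ofReal_iff (by positivity)).mp hvol
    have hpow : (1 - s) ^ (n + 1) ≤ 1 - N * s + (N * s) ^ 2 := by
      have h1 : 1 - s ≤ Real.exp (-s) := by
        have := Real.add_one_le_exp (-s); linarith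
      have h2 : (1 - s) ^ (n + 1) ≤ Real.exp (-(N * s)) := by
        calc (1 - s) ^ (n + 1) ≤ (Real.exp (-s)) ^ (n + 1) :=
              pow_le_pow_left₀ (by linarith) h1 _
          _ = Real.exp (-(N * s)) := by
              rw [← Real.exp_nat_mul]
              congr 1
              rw [hN]; push_cast; ring
      have h3 : Real.exp (-(N * s)) ≤ 1 / (1 + N * s) := by
        rw [Real.exp_neg, one_div]
        apply inv_anti₀ (by positivity)
        have := Real.add_one_le_exp (N * s); linarith
      have h4 : 1 / (1 + N * s) ≤ 1 - N * s + (N * s) ^ 2 := by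
        rw [div_le_iff₀ (by positivity)]
        have : 0 ≤ (N * s) ^ 3 := by positivity
        nlinarith
      linarith
    have h5 : N * s * (1 - N * s) * V ≤ s / D * A := by
      have h6 := mul_le_mul_of_nonneg_right hpow hV0
      nlinarith
    have h7 : s / D * A * D = s * A := by field_simp
    have h8 : N * s * (1 - N * s) * V * D ≤ s * A := by
      rw [← h7]
      exact mul_le_mul_of_nonneg_right h5 hD0.le
    rw [← hD]
    have h9 : s * (N * (1 - N * s) * D * V) ≤ s * A := by
      calc s * (N * (1 - N * s) * D * V) = N * s * (1 - N * s) * V * D := by ring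
        _ ≤ s * A := h8
    exact le_of_mul_le_mul_left h9 hs0
  -- the limit
  have hcont : Continuous (fun s : ℝ => N * (1 - N * s) * (1 - s - 1 / r) * V) := by fun_prop
  have htend : Tendsto (fun s : ℝ => N * (1 - N * s) * (1 - s - 1 / r) * V) (𝓝[>] 0)
      (𝓝 (N * (1 - N * 0) * (1 - 0 - 1 / r) * V)) :=
    (hcont.tendsto 0).mono_left nhdsWithin_le_nhds
  have hlim := le_of_tendsto htend (b := A) (by
    have hmem : Ioo 0 (1 - 1 / r) ∈ 𝓝[>] (0 : ℝ) := Ioo_mem_nhdsGT (by linarith)
    filter_upwards [hmem] with s hs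
    exact key s hs.1 hs.2)
  simpa using hlim

end SC70
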