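import Pool.Agent.SC70.Core

/-!
# Thin coverings: cutting a thin body into cylinders
-/

set_option autoImplicit false

open MeasureTheory Measure Metric Set Module ENNReal

namespace SC70

variable {n : ℕ}


/-- the estimate for cylinders with base in a ball of radius `R` -/
def CoreBound (n : ℕ) (R A : ℝ) : Prop :=
  ∀ (ι : Type) (S : Finset ι) (w : ι → EuclideanSpace ℝ (Fin n))
    (K : Set (EuclideanSpace ℝ (Fin n))), MeasurableSet K → K ⊆ closedBall 0 R →
    ∀ c : ℝ, 0 < c → (∀ y ∈ K, c ≤ ∑ i ∈ S, √(1 - ‖y - w i‖ ^ 2)) →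
      ENNReal.ofReal c * volume K ≤ S.card * ENNReal.ofReal A

lemma CoreBound.translate {R A : ℝ} (hA : CoreBound n R A) {ι : Type} (S : Finset ι)
    (w : ι → (EuclideanSpace ℝ (Fin n))) (K : Set (EuclideanSpace ℝ (Fin n))) (hKm : MeasurableSet K) (y₀ : (EuclideanSpace ℝ (Fin n))) (hK : K ⊆ closedBall y₀ R)
    (c : ℝ) (hc : 0 < c) (h : ∀ y ∈ K, c ≤ ∑ i ∈ S, √(1 - ‖y - w i‖ ^ 2)) :
    ENNReal.ofReal c * volume K ≤ S.card * ENNReal.ofReal A := by
  have h1 := hA ι S (fun i => w i - y₀) ((fun y => y₀ + y) ⁻¹' K)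
    ((measurable_const_add y₀) hKm) (by
      intro y hy
      have := hK hy
      simpa using this) c hc (by
      intro y hy
      have := h _ hy
      refine this.trans (le_of_eq ?_)
      refine Finset.sum_congr rfl fun i _ => ?_
      have e : (y₀ + y) - w i = y - (w i - y₀) := by abel
      simp only [e])
  rwa [measure_preimage_add] at h1

/-- length of a chord -/
lemma chord_volume (τ T : ℝ) : volume {t : ℝ | (t - τ) ^ 2 ≤ T} ≤ ENNReal.ofReal (2 * √T) := by
  have : {t : ℝ | (t - τ) ^ 2 ≤ T} ⊆ Icc (τ - √T) (τ + √T) := by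
    intro t ht
    have := abs_le.mp (Real.abs_le_sqrt ht)
    constructor <;> linarith [this.1, this.2]
  refine (measure_mono this).trans ?_
  rw [Real.volume_Icc]
  apply ENNReal.ofReal_le_ofReal; linarith

/-- if an interval is covered by chords -/
lemma interval_le_chords {ι : Type*} (S : Finset ι) (τ T : ι → ℝ) (a ℓ : ℝ)
    (h : ∀ t ∈ Ioo a (a + ℓ), ∃ i ∈ S, (t - τ i) ^ 2 ≤ T i) :
    ℓ / 2 ≤ ∑ i ∈ S, √(T i) := by
  have h1 : ENNReal.ofReal ℓ ≤ ENNReal.ofReal (∑ i ∈ S, 2 * √(T i)) := by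
    calc ENNReal.ofReal ℓ = volume (Ioo a (a + ℓ)) := by rw [Real.volume_Ioo]; congr 1; ring
      _ ≤ volume (⋃ i ∈ S, {t : ℝ | (t - τ i) ^ 2 ≤ T i}) := by
          apply measure_mono
          intro t ht
          obtain ⟨i, hi, hti⟩ := h t ht
          simp only [mem_iUnion]
          exact ⟨i, hi, hti⟩
      _ ≤ ∑ i ∈ S, volume {t : ℝ | (t - τ i) ^ 2 ≤ T i} := measure_biUnion_finset_le _ _
      _ ≤ ∑ i ∈ S, ENNReal.ofReal (2 * √(T i)) := Finset.sum_le_sum fun i _ => chord_volume _ _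
      _ = ENNReal.ofReal (∑ i ∈ S, 2 * √(T i)) := by
          rw [ENNReal.ofReal_sum_of_nonneg]; intro i _; positivity
  have h2 : 0 ≤ ∑ i ∈ S, 2 * √(T i) := Finset.sum_nonneg fun i _ => by positivity
  have h3 := (ENNReal.ofReal_le_ofReal_iff h2).mp h1
  rw [← Finset.mul_sum] at h3
  linarith

/-- cylinders -/
theorem cylinder_bound {R A : ℝ} (hA : CoreBound n R A) {ι : Type} (S : Finset ι) (τ : ι → ℝ)
    (w : ι → (EuclideanSpace ℝ (Fin n))) (K : Set (EuclideanSpace ℝ (Fin n))) (hKm : MeasurableSet K) (y₀ : (EuclideanSpace ℝ (Fin n))) (hK : K ⊆ closedBall y₀ R) (a ℓ : ℝ)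
    (hℓ : 0 < ℓ)
    (h : ∀ y ∈ K, ∀ t ∈ Ioo a (a + ℓ), ∃ i ∈ S, (t - τ i) ^ 2 + ‖y - w i‖ ^ 2 ≤ 1) :
    ENNReal.ofReal (ℓ / 2) * volume K ≤ S.card * ENNReal.ofReal A := by
  apply hA.translate S w K hKm y₀ hK (ℓ / 2) (by linarith)
  intro y hy
  apply interval_le_chords S τ (fun i => 1 - ‖y - w i‖ ^ 2) a ℓ
  intro t ht
  obtain ⟨i, hi, h1⟩ := h y hy t ht
  exact ⟨i, hi, by linarith⟩

open scoped Classical in
/-- number of cells met by an interval -/
lemma line_bound (I : Set ℝ) (hI : I.OrdConnected) (P ℓ : ℝ) (hP : 0 < P) (hℓP : ℓ ≤ P)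
    (hℓ : 0 ≤ ℓ) (N : ℕ) (hN : ∀ t ∈ I, |t| ≤ N * P) :
    volume I ≤ ENNReal.ofReal P *
      (((Finset.Icc (-(N : ℤ) - 1) (N + 1)).filter
        (fun j : ℤ => (j : ℝ) * P ∈ I ∧ (j : ℝ) * P + ℓ ∈ I)).card + 2) := by
  set J : Finset ℤ := (Finset.Icc (-(N : ℤ) - 1) (N + 1)).filter
    (fun j : ℤ => (I ∩ Ico ((j : ℝ) * P) ((j : ℝ) * P + P)).Nonempty) with hJ
  set J' : Finset ℤ := (Finset.Icc (-(N : ℤ) - 1) (N + 1)).filter
    (fun j : ℤ => (j : ℝ) * P ∈ I ∧ (j : ℝ) * P + ℓ ∈ I) with hJ'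
  have hcov : I ⊆ ⋃ j ∈ J, Ico ((j : ℝ) * P) ((j : ℝ) * P + P) := by
    intro t ht
    have h1 := hN t ht
    rw [abs_le] at h1
    set j : ℤ := ⌊t / P⌋ with hj
    have h2 : (j : ℝ) ≤ t / P := Int.floor_le _
    have h3 : t / P < j + 1 := Int.lt_floor_add_one _
    have h2' : (j : ℝ) * P ≤ t := by rwa [le_div_iff₀ hP] at h2
    have h3' : t < (j : ℝ) * P + P := by
      rw [div_lt_iff₀ hP] at h3; linarith
    have h4 : -(N : ℤ) - 1 ≤ j := by
      have h5 : (-(N : ℝ) - 1) ≤ j := by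
        have : -(N : ℝ) * P < (j + 1) * P := by nlinarith
        have := lt_of_mul_lt_mul_right this hP.le
        linarith
      exact_mod_cast h5
    have h6 : j ≤ N + 1 := by
      have h5 : (j : ℝ) ≤ N := by
        have : (j : ℝ) * P ≤ N * P := by linarith
        exact le_of_mul_le_mul_right this hP
      have : j ≤ N := by exact_mod_cast h5
      omega
    simp only [mem_iUnion]
    refine ⟨j, ?_, h2', h3'⟩
    rw [hJ, Finset.mem_filter, Finset.mem_Icc]
    exact ⟨⟨h4, h6⟩, t, ht, h2', h3'⟩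
  have hcard : J.card ≤ J'.card + 2 := by
    by_cases hne : J.Nonempty
    · set a := J.min' hne
      set b := J.max' hne
      have hsub : (J.erase a).erase b ⊆ J' := by
        intro j hj
        rw [Finset.mem_erase, Finset.mem_erase] at hj
        obtain ⟨hjb, hja, hjJ⟩ := hj
        have ha : a ∈ J := J.min'_mem hne
        have hb : b ∈ J := J.max'_mem hne
        have haj : a < j := lt_of_le_of_ne (J.min'_le j hjJ) (Ne.symm hja)
        have hjb' : j < b := lt_of_le_of_ne (J.le_max' j hjJ) hjb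
        rw [hJ, Finset.mem_filter] at ha hb hjJ
        obtain ⟨s, hsI, hs⟩ := ha.2
        obtain ⟨t, htI, ht⟩ := hb.2
        have h1 : ((a : ℝ) + 1) ≤ j := by exact_mod_cast haj
        have h2 : ((j : ℝ) + 1) ≤ b := by exact_mod_cast hjb'
        have h3 : (a : ℝ) * P + P ≤ (j : ℝ) * P := by nlinarith
        have h4 : (j : ℝ) * P + P ≤ (b : ℝ) * P := by nlinarith
        rw [hJ', Finset.mem_filter]
        refine ⟨hjJ.1, ?_, ?_⟩
        · exact hI.out hsI htI ⟨by linarith [hs.2], by linarith [ht.1]⟩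
        · exact hI.out hsI htI ⟨by linarith [hs.2], by linarith [ht.1]⟩
      have h5 := Finset.card_le_card hsub
      have h6 := Finset.pred_card_le_card_erase (s := J.erase a) (a := b)
      have h7 := Finset.pred_card_le_card_erase (s := J) (a := a)
      omega
    · rw [Finset.not_nonempty_iff_eq_empty] at hne
      rw [hne]; simp
  calc volume I ≤ volume (⋃ j ∈ J, Ico ((j : ℝ) * P) ((j : ℝ) * P + P)) := measure_mono hcov
    _ ≤ ∑ j ∈ J, volume (Ico ((j : ℝ) * P) ((j : ℝ) * P + P)) := measure_biUnion_finset_le _ _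
    _ = ∑ j ∈ J, ENNReal.ofReal P := by
        refine Finset.sum_congr rfl fun j _ => ?_
        rw [Real.volume_Ico]; congr 1; ring
    _ = ENNReal.ofReal P * J.card := by
        rw [Finset.sum_const, nsmul_eq_mul, mul_comm]
    _ ≤ ENNReal.ofReal P * (J'.card + 2) := by
        gcongr
        exact_mod_cast hcard

/-- **Thin bodies.** -/
theorem thin_bound {R A : ℝ} (hA : CoreBound n R A) {ι : Type} (S : Finset ι)
    (τ : ι → ℝ) (w : ι → (EuclideanSpace ℝ (Fin n))) (C : Set (ℝ × (EuclideanSpace ℝ (Fin n)))) (hCm : MeasurableSet C) (hconv : Convex ℝ C)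
    (D : Set (EuclideanSpace ℝ (Fin n))) (hDm : MeasurableSet D) (hCD : ∀ z ∈ C, z.2 ∈ D)
    (y₀ : (EuclideanSpace ℝ (Fin n))) (hR : ∀ z ∈ C, ‖z.2 - y₀‖ ≤ R)
    (hcov : ∀ z ∈ C, ∃ i ∈ S, (z.1 - τ i) ^ 2 + ‖z.2 - w i‖ ^ 2 ≤ 1) (ℓ : ℝ) (hℓ : 0 < ℓ) :
    volume C ≤ ENNReal.ofReal (ℓ + 2) * (ENNReal.ofReal (2 * A / ℓ) * S.card +
      2 * volume D) := by
  classical
  set P : ℝ := ℓ + 2 with hP
  have hPpos : 0 < P := by linarith
  -- bound on the first coordinate
  obtain ⟨N, hN⟩ : ∃ N : ℕ, ∀ z ∈ C, |z.1| ≤ N * P := by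
    set b : ℝ := (∑ i ∈ S, |τ i|) + 1 with hb
    obtain ⟨N, hN⟩ := exists_nat_ge (b / P)
    refine ⟨N, fun z hz => ?_⟩
    obtain ⟨i, hi, h1⟩ := hcov z hz
    have h2 : (z.1 - τ i) ^ 2 ≤ 1 := by nlinarith [sq_nonneg ‖z.2 - w i‖]
    have h3 : |z.1 - τ i| ≤ 1 := by
      rw [← sq_le_one_iff_abs_le_one]; exact h2
    have h4 : |τ i| ≤ ∑ i ∈ S, |τ i| := Finset.single_le_sum (f := fun i => |τ i|)
      (fun i _ => abs_nonneg _) hi
    have h5 : |z.1| ≤ |z.1 - τ i| + |τ i| := by
      have := abs_add_le (z.1 - τ i) (τ i); simpa using this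
    have h6 : b ≤ N * P := by rwa [div_le_iff₀ hPpos] at hN
    linarith
  set J : Finset ℤ := Finset.Icc (-(N : ℤ) - 1) (N + 1) with hJ
  set K : ℤ → Set (EuclideanSpace ℝ (Fin n)) := fun j => {y | ((j : ℝ) * P, y) ∈ C ∧ ((j : ℝ) * P + ℓ, y) ∈ C} with hK
  have hKm : ∀ j, MeasurableSet (K j) := by
    intro j
    have h1 : Measurable (fun y : (EuclideanSpace ℝ (Fin n)) => ((j : ℝ) * P, y)) := measurable_prodMk_left
    have h2 : Measurable (fun y : (EuclideanSpace ℝ (Fin n)) => ((j : ℝ) * P + ℓ, y)) := measurable_prodMk_left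
    exact (h1 hCm).inter (h2 hCm)
  have hKR : ∀ j, K j ⊆ closedBall y₀ R := by
    intro j y hy
    have := hR _ hy.1
    rwa [mem_closedBall, dist_eq_norm]
  -- the lines
  have hline : ∀ y : (EuclideanSpace ℝ (Fin n)), volume {t : ℝ | (t, y) ∈ C} ≤
      D.indicator (fun y => ENNReal.ofReal P *
        (∑ j ∈ J, (K j).indicator (fun _ => (1 : ℝ≥0∞)) y + 2)) y := by
    intro y
    by_cases hy : y ∈ D
    · rw [indicator_of_mem hy]
      have hI : ({t : ℝ | (t, y) ∈ C}).OrdConnected := by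
        have hc : Convex ℝ {t : ℝ | (t, y) ∈ C} := by
          intro s hs t ht a b ha hb hab
          have := hconv hs ht ha hb hab
          simp only [Prod.smul_mk, Prod.mk_add_mk, ← add_smul, hab, one_smul] at this
          exact this
        exact hc.ordConnected
      have h1 := line_bound {t : ℝ | (t, y) ∈ C} hI P ℓ hPpos (by linarith) hℓ.le N
        (fun t ht => hN (t, y) ht)
      refine h1.trans (le_of_eq ?_)
      congr 2
      rw [Finset.card_filter]
      push_cast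
      refine Finset.sum_congr rfl fun j _ => ?_
      by_cases hj : y ∈ K j
      · rw [indicator_of_mem hj, if_pos]; exact hj
      · rw [indicator_of_notMem hj, if_neg]; exact hj
    · have : {t : ℝ | (t, y) ∈ C} = ∅ := by
        ext t
        simp only [Set.mem_ofPred_eq, mem_empty_iff_false, iff_false]
        intro h
        exact hy (hCD _ h)
      rw [this]; simp
  -- the cylinders
  set Sj : ℤ → Finset ι := fun j => S.filter
    (fun i => (j : ℝ) * P - 1 < τ i ∧ τ i < (j : ℝ) * P + ℓ + 1) with hSj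
  have hcyl : ∀ j, volume (K j) ≤ ENNReal.ofReal (2 * A / ℓ) * (Sj j).card := by
    intro j
    have h1 : ENNReal.ofReal (ℓ / 2) * volume (K j) ≤ (Sj j).card * ENNReal.ofReal A := by
      apply cylinder_bound hA (Sj j) τ w (K j) (hKm j) y₀ (hKR j) ((j : ℝ) * P) ℓ hℓ
      intro y hy t ht
      have hmem : (t, y) ∈ C := by
        have hseg := hconv.segment_subset hy.1 hy.2
        apply hseg
        refine ⟨1 - (t - j * P) / ℓ, (t - j * P) / ℓ, ?_, ?_, by ring, ?_⟩
        · rw [sub_nonneg, div_le_one hℓ]; linarith [ht.2]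
        · exact div_nonneg (by linarith [ht.1]) hℓ.le
        · ext
          · simp only [Prod.fst_add, Prod.smul_fst, smul_eq_mul]
            field_simp; ring
          · simp [← add_smul]
      obtain ⟨i, hi, h2⟩ := hcov _ hmem
      refine ⟨i, ?_, h2⟩
      rw [hSj, Finset.mem_filter]
      have h3 : (t - τ i) ^ 2 ≤ 1 := by
        have := sq_nonneg ‖y - w i‖; simp only at h2; linarith
      have h4 : |t - τ i| ≤ 1 := by rw [← sq_le_one_iff_abs_le_one]; exact h3
      have h5 := abs_le.mp h4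
      exact ⟨hi, by linarith [ht.1, h5.1, h5.2], by linarith [ht.2, h5.1, h5.2]⟩
    have h2 : ENNReal.ofReal (2 * A / ℓ) = (ENNReal.ofReal (ℓ / 2))⁻¹ * ENNReal.ofReal A := by
      rw [← ENNReal.ofReal_inv_of_pos (by linarith), ← ENNReal.ofReal_mul (by positivity)]
      congr 1; field_simp
    have h3 : ENNReal.ofReal (ℓ / 2) ≠ 0 := by
      rw [Ne, ENNReal.ofReal_eq_zero]; push Not; linarith
    have h4 : ENNReal.ofReal (ℓ / 2) ≠ ⊤ := ENNReal.ofReal_ne_top
    calc volume (K j) = (ENNReal.ofReal (ℓ / 2))⁻¹ * (ENNReal.ofReal (ℓ / 2) * volume (K j)) := by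
          rw [← mul_assoc, ENNReal.inv_mul_cancel h3 h4, one_mul]
      _ ≤ (ENNReal.ofReal (ℓ / 2))⁻¹ * ((Sj j).card * ENNReal.ofReal A) := by gcongr
      _ = ENNReal.ofReal (2 * A / ℓ) * (Sj j).card := by rw [h2]; ring
  have hsum : ∑ j ∈ J, (Sj j).card ≤ S.card := by
    rw [← Finset.card_biUnion]
    · apply Finset.card_le_card
      intro i hi
      rw [Finset.mem_biUnion] at hi
      obtain ⟨j, _, hj⟩ := hi
      exact (Finset.mem_filter.mp hj).1
    · intro j _ j' _ hne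
      show Disjoint (Sj j) (Sj j')
      rw [Finset.disjoint_left]
      intro i hi hi'
      rw [hSj, Finset.mem_filter] at hi hi'
      obtain ⟨_, h1, h2⟩ := hi
      obtain ⟨_, h3, h4⟩ := hi'
      have h5 : (j : ℝ) * P + ℓ + 1 = (j + 1) * P - 1 := by rw [hP]; ring
      have h6 : (j' : ℝ) * P + ℓ + 1 = (j' + 1) * P - 1 := by rw [hP]; ring
      rw [h5] at h2
      rw [h6] at h4
      rcases lt_or_gt_of_ne hne with h | h
      · have : (j : ℝ) + 1 ≤ j' := by exact_mod_cast h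
        nlinarith
      · have : (j' : ℝ) + 1 ≤ j := by exact_mod_cast h
        nlinarith
  have hvolC : volume C = ∫⁻ y : (EuclideanSpace ℝ (Fin n)), volume {t : ℝ | (t, y) ∈ C} := by
    rw [Measure.volume_eq_prod, Measure.prod_apply_symm hCm]
    rfl
  calc volume C = ∫⁻ y : (EuclideanSpace ℝ (Fin n)), volume {t : ℝ | (t, y) ∈ C} := hvolC
    _ ≤ ∫⁻ y : (EuclideanSpace ℝ (Fin n)), D.indicator (fun y => ENNReal.ofReal P *
        (∑ j ∈ J, (K j).indicator (fun _ => (1 : ℝ≥0∞)) y + 2)) y := lintegral_mono hline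
    _ = ∫⁻ y in D, ENNReal.ofReal P *
        (∑ j ∈ J, (K j).indicator (fun _ => (1 : ℝ≥0∞)) y + 2) := by
        rw [lintegral_indicator hDm]
    _ = ENNReal.ofReal P * (∑ j ∈ J, volume (K j ∩ D) +
          2 * volume D) := by
        rw [lintegral_const_mul' _ _ ENNReal.ofReal_ne_top, lintegral_add_right _ measurable_const,
          lintegral_finsetSum _ fun j _ => measurable_const.indicator (hKm j)]
        congr 2
        · refine Finset.sum_congr rfl fun j _ => ?_
          rw [lintegral_indicator (hKm j), setLIntegral_const, one_mul,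
            Measure.restrict_apply (hKm j)]
        · rw [setLIntegral_const]
    _ ≤ ENNReal.ofReal P * (ENNReal.ofReal (2 * A / ℓ) * S.card +
          2 * volume D) := by
        gcongr
        calc ∑ j ∈ J, volume (K j ∩ D)
            ≤ ∑ j ∈ J, ENNReal.ofReal (2 * A / ℓ) * (Sj j).card := by
              apply Finset.sum_le_sum
              intro j _
              exact (measure_mono inter_subset_left).trans (hcyl j)
          _ = ENNReal.ofReal (2 * A / ℓ) * ((∑ j ∈ J, (Sj j).card : ℕ) : ℝ≥0∞) := by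
              rw [← Finset.mul_sum]; push_cast; rfl
          _ ≤ ENNReal.ofReal (2 * A / ℓ) * S.card := by
              gcongr

end SC70
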