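import Pool.Agent.SC70.Wide
import Pool.Agent.SC70.Window

/-!
# Thin coverings: cylinders over a base in a ball of any radius
-/

set_option autoImplicit false

open MeasureTheory Measure Metric Set Module ENNReal
open scoped RealInnerProductSpace

namespace SC70

variable {n : ℕ}


lemma Fw_shift (hn : 1 ≤ n) (w u : (EuclideanSpace ℝ (Fin n))) : Fw n w (u + w) = (1 / 2 + ‖w‖ ^ 2 / (2 * n)) +
    ((n + 2) / (2 * n)) * ‖u‖ ^ 2 + ((n + 3) / (2 * n)) * ⟪w, u⟫ := by
  have hn' : (0 : ℝ) < n := by exact_mod_cast hn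
  unfold Fw
  rw [norm_add_sq_real, inner_add_right, real_inner_self_eq_norm_sq, real_inner_comm w u]
  field_simp
  ring

/-- the error term -/
noncomputable def err (n : ℕ) (R : ℝ) : ℝ :=
  R ^ 2 / (2 * n) + R * √(1 - 1 / (4 * R ^ 2)) ^ n + 2 * R ^ 2 * √(1 - 1 / (2 * R ^ 2)) ^ n

lemma ball_part (hn : 3 ≤ n) (w : (EuclideanSpace ℝ (Fin n))) (hw : 1 < ‖w‖) :
    ∫⁻ x in closedBall w 1, ENNReal.ofReal (Fw n w x) ≤
      ENNReal.ofReal (kap n * (1 + ‖w‖ ^ 2 / (2 * n) + ‖w‖ * √(1 - 1 / (4 * ‖w‖ ^ 2)) ^ n)) := by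
  have hn1 : 1 ≤ n := by omega
  have hn' : (3 : ℝ) ≤ n := by exact_mod_cast hn
  set ω := ‖w‖ with hω
  have hω0 : 0 < ω := by linarith
  set s : ℝ := √(1 - 1 / (4 * ω ^ 2)) with hs
  have hs0 : 0 ≤ 1 - 1 / (4 * ω ^ 2) := by
    rw [sub_nonneg, div_le_one (by positivity)]; nlinarith
  set B2 : Set (EuclideanSpace ℝ (Fin n)) := closedBall ((1 - 1 / (2 * ω ^ 2)) • w) s with hB2
  have hpt : ∀ x ∈ closedBall w 1, max (Fw n w x) 0 ≤ Fw n w x + B2.indicator (fun _ => ω) x := by
    intro x hx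
    obtain ⟨u, rfl⟩ : ∃ u : (EuclideanSpace ℝ (Fin n)), x = u + w := ⟨x - w, by simp⟩
    have hu : ‖u‖ ≤ 1 := by simpa using hx
    have hin : ω * -1 ≤ ⟪w, u⟫ := by
      have h1 := abs_real_inner_le_norm w u
      have h2 := (abs_le.mp h1).1
      nlinarith [norm_nonneg u]
    by_cases hB : u + w ∈ B2
    · rw [indicator_of_mem hB]
      have h1 : -ω ≤ Fw n w (u + w) := by
        rw [Fw_shift hn1, ← hω]
        have h2 : ((n : ℝ) + 3) / (2 * n) ≤ 1 := by
          rw [div_le_one (by linarith)]; linarith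
        have h3 : 0 ≤ ω ^ 2 / (2 * n) := by positivity
        have h4 : 0 ≤ (((n : ℝ) + 2) / (2 * n)) * ‖u‖ ^ 2 := by positivity
        have h5 : (((n : ℝ) + 3) / (2 * n)) * (-ω) ≤ (((n : ℝ) + 3) / (2 * n)) * ⟪w, u⟫ := by
          apply mul_le_mul_of_nonneg_left _ (by positivity); linarith
        have h6 : -ω ≤ (((n : ℝ) + 3) / (2 * n)) * (-ω) := by nlinarith
        linarith
      rcases le_total (Fw n w (u + w)) 0 with h | h
      · rw [max_eq_right h]; linarith
      · rw [max_eq_left h]; linarith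
    · rw [indicator_of_notMem hB, add_zero]
      have h1 : 0 ≤ Fw n w (u + w) := by
        have h2 : 1 - 1 / (4 * ω ^ 2) < ‖u + (1 / (2 * ω ^ 2)) • w‖ ^ 2 := by
          rw [hB2, mem_closedBall, dist_eq_norm] at hB
          push Not at hB
          have e1 : u + w - (1 - 1 / (2 * ω ^ 2)) • w = u + (1 / (2 * ω ^ 2)) • w := by
            rw [sub_smul, one_smul]; abel
          rw [e1] at hB
          have h3 : s ^ 2 < ‖u + (1 / (2 * ω ^ 2)) • w‖ ^ 2 :=
            pow_lt_pow_left₀ hB (Real.sqrt_nonneg _) (by norm_num)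
          rwa [hs, Real.sq_sqrt hs0] at h3
        rw [norm_add_sq_real, inner_smul_right, norm_smul,
          Real.norm_of_nonneg (by positivity : (0 : ℝ) ≤ 1 / (2 * ω ^ 2)), ← hω,
          real_inner_comm] at h2
        have e2 : (1 / (2 * ω ^ 2) * ω) ^ 2 = 1 / (4 * ω ^ 2) := by field_simp; norm_num
        rw [e2] at h2
        have h4 : ‖u‖ ^ 2 ≤ 1 := by nlinarith [norm_nonneg u]
        have h5 : -(1 / (2 * ω ^ 2)) < 1 / ω ^ 2 * ⟪w, u⟫ := by
          have e3 : 2 * (1 / (2 * ω ^ 2) * ⟪w, u⟫) = 1 / ω ^ 2 * ⟪w, u⟫ := by field_simp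
          have e4 : 1 / (4 * ω ^ 2) + 1 / (4 * ω ^ 2) = 1 / (2 * ω ^ 2) := by
            field_simp; norm_num
          linarith
        have h6 : -(1 / 2) < ⟪w, u⟫ := by
          have := mul_lt_mul_of_pos_left h5 (by positivity : 0 < ω ^ 2)
          have e5 : ω ^ 2 * -(1 / (2 * ω ^ 2)) = -(1 / 2) := by field_simp
          have e6 : ω ^ 2 * (1 / ω ^ 2 * ⟪w, u⟫) = ⟪w, u⟫ := by field_simp
          rwa [e5, e6] at this
        rw [Fw_shift hn1, ← hω]
        have h7 : 0 ≤ ω ^ 2 / (2 * n) := by positivity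
        have h8 : 0 ≤ (((n : ℝ) + 2) / (2 * n)) * ‖u‖ ^ 2 := by positivity
        have h9 : (((n : ℝ) + 3) / (2 * n)) * (-(1 / 2)) ≤ (((n : ℝ) + 3) / (2 * n)) * ⟪w, u⟫ := by
          apply mul_le_mul_of_nonneg_left h6.le (by positivity)
        have h10 : (((n : ℝ) + 3) / (2 * n)) ≤ 1 := by
          rw [div_le_one (by linarith)]; linarith
        nlinarith
      rw [max_eq_left h1]
  have hFi : IntegrableOn (Fw n w) (closedBall w 1) :=
    ((Fw_continuous n w).continuousOn).integrableOn_compact (isCompact_closedBall _ _)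
  have hFi' : IntegrableOn (fun x => max (Fw n w x) 0) (closedBall w 1) :=
    (((Fw_continuous n w).max continuous_const).continuousOn).integrableOn_compact
      (isCompact_closedBall _ _)
  have hIi : IntegrableOn (B2.indicator (fun _ : (EuclideanSpace ℝ (Fin n)) => ω)) (closedBall w 1) := by
    apply Integrable.indicator _ measurableSet_closedBall
    exact (continuous_const.continuousOn).integrableOn_compact (isCompact_closedBall _ _)
  have hIv : ∫ x in closedBall w 1, B2.indicator (fun _ : (EuclideanSpace ℝ (Fin n)) => ω) x ≤ ω * (kap n * s ^ n) := by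
    rw [setIntegral_indicator measurableSet_closedBall, setIntegral_const, smul_eq_mul, mul_comm]
    apply mul_le_mul_of_nonneg_left _ hω0.le
    rw [measureReal_def]
    apply ENNReal.toReal_le_of_le_ofReal
    · have := kap_nonneg n; positivity
    · rw [← volume_ball_le ((1 - 1 / (2 * ω ^ 2)) • w) (Real.sqrt_nonneg _)]
      exact measure_mono inter_subset_right
  calc ∫⁻ x in closedBall w 1, ENNReal.ofReal (Fw n w x)
      = ∫⁻ x in closedBall w 1, ENNReal.ofReal (max (Fw n w x) 0) := by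
        apply lintegral_congr
        intro x
        rw [ENNReal.ofReal_max, ENNReal.ofReal_zero]
        simp
    _ = ENNReal.ofReal (∫ x in closedBall w 1, max (Fw n w x) 0) := by
        rw [ofReal_integral_eq_lintegral_ofReal hFi']
        exact Filter.Eventually.of_forall fun x => le_max_right _ _
    _ ≤ ENNReal.ofReal (∫ x in closedBall w 1, (Fw n w x + B2.indicator (fun _ => ω) x)) := by
        apply ENNReal.ofReal_le_ofReal
        exact setIntegral_mono_on hFi' (hFi.add hIi) measurableSet_closedBall hpt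
    _ = ENNReal.ofReal ((∫ x in closedBall w 1, Fw n w x) +
          ∫ x in closedBall w 1, B2.indicator (fun _ => ω) x) := by
        rw [integral_add hFi hIi]
    _ ≤ _ := by
        apply ENNReal.ofReal_le_ofReal
        rw [integral_Fw hn1, ← hω]
        linarith

lemma Fr_meas (w : (EuclideanSpace ℝ (Fin n))) : MeasurableSet (Fr w) := by
  apply IsClosed.measurableSet
  have h1 : IsClosed {x : (EuclideanSpace ℝ (Fin n)) | ‖x‖ ^ 2 ≤ ‖w‖ ^ 2 - 1} := isClosed_le (by fun_prop) (by fun_prop)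
  have h2 : IsClosed {x : (EuclideanSpace ℝ (Fin n)) | ‖x‖ * √(‖w‖ ^ 2 - 1) ≤ ⟪w, x⟫} :=
    isClosed_le (by fun_prop) (by fun_prop)
  exact h1.inter h2

lemma Fr_part (hn : 1 ≤ n) (w : (EuclideanSpace ℝ (Fin n))) (hw : 1 < ‖w‖) (hwn : ‖w‖ ^ 2 ≤ n) :
    ∫⁻ x in Fr w, ENNReal.ofReal (Fw n w x) ≤
      ENNReal.ofReal (kap n * ((2 * ‖w‖ ^ 2) * √(1 - 1 / (2 * ‖w‖ ^ 2)) ^ n)) := by
  have hn' : (1 : ℝ) ≤ n := by exact_mod_cast hn
  have hmeas : MeasurableSet (Fr w) := Fr_meas w
  calc ∫⁻ x in Fr w, ENNReal.ofReal (Fw n w x) ≤ ∫⁻ x in Fr w, 1 := by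
        apply setLIntegral_mono' hmeas
        intro x hx
        obtain ⟨hx1, hx2⟩ := hx
        rw [← ENNReal.ofReal_one]
        apply ENNReal.ofReal_le_ofReal
        have h1 : ‖x‖ ≤ √(‖w‖ ^ 2 - 1) := Real.le_sqrt_of_sq_le hx1
        have h2 : ‖x‖ ^ 2 ≤ ⟪w, x⟫ := by nlinarith [norm_nonneg x]
        unfold Fw
        have h3 : (((n : ℝ) + 1) / n) * ‖x‖ ^ 2 ≤ (((n : ℝ) + 1) / n) * ⟪w, x⟫ :=
          mul_le_mul_of_nonneg_left h2 (by positivity)
        have h4 : (((n : ℝ) + 2) / n) * ‖x‖ ^ 2 - (((n : ℝ) + 1) / n) * ‖x‖ ^ 2 = ‖x‖ ^ 2 / n := by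
          field_simp; ring
        have h5 : ‖x‖ ^ 2 / n ≤ 1 := by
          rw [div_le_one (by linarith)]; linarith
        linarith
    _ = volume (Fr w) := by rw [setLIntegral_one]
    _ ≤ _ := by
        refine (volume_Fr_le w hw).trans (le_of_eq ?_)
        congr 1; ring

lemma sqrt_mono_aux {a x y : ℝ} (ha : 0 < a) (hx : 0 < x) (hxy : x ≤ y) (m : ℕ) :
    √(1 - 1 / (a * x ^ 2)) ^ m ≤ √(1 - 1 / (a * y ^ 2)) ^ m := by
  apply pow_le_pow_left₀ (Real.sqrt_nonneg _)
  apply Real.sqrt_le_sqrt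
  have : 1 / (a * y ^ 2) ≤ 1 / (a * x ^ 2) := by
    apply one_div_le_one_div_of_le (by positivity)
    gcongr
  linarith

lemma Hw_meas (w : (EuclideanSpace ℝ (Fin n))) : MeasurableSet (closedBall w 1 ∪ Fr w) :=
  measurableSet_closedBall.union (Fr_meas w)

/-- existence of a majorant -/
lemma exists_majorant (hn : 3 ≤ n) (R : ℝ) (hR1 : 1 ≤ R) (hRn : R ^ 2 ≤ n) (w : (EuclideanSpace ℝ (Fin n)))
    (hw : ‖w‖ ≤ R) :
    ∃ v : (EuclideanSpace ℝ (Fin n)) → ℝ≥0∞, Measurable v ∧
      (∀ θ : (EuclideanSpace ℝ (Fin n)), ‖θ‖ = 1 → ∀ r : ℝ, 0 < r → 0 < 1 - ‖r • θ - w‖ ^ 2 →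
        ENNReal.ofReal (Psi n w θ / n) ≤
          ∫⁻ r : ℝ in Ioi (0 : ℝ), ENNReal.ofReal (r ^ (n - 1)) * v (r • θ)) ∧
      ∫⁻ x, v x ≤ ENNReal.ofReal (kap n * (1 + err n R)) := by
  have hn1 : 1 ≤ n := by omega
  have hn' : (3 : ℝ) ≤ n := by exact_mod_cast hn
  have hkap := kap_nonneg n
  by_cases hw1 : ‖w‖ ≤ 1
  · refine ⟨(closedBall w 1).indicator (fun x => ENNReal.ofReal (Fw n w x)),
      ((Fw_continuous n w).measurable.ennreal_ofReal).indicator measurableSet_closedBall, ?_, ?_⟩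
    · intro θ hθ r _ _
      exact radial_lower n hn1 w θ hw1 hθ
    · refine (lintegral_Fw_le hn1 w hw1).trans (ENNReal.ofReal_le_ofReal ?_)
      apply mul_le_mul_of_nonneg_left _ hkap
      unfold err
      have h1 : (1 : ℝ) / (2 * n) ≤ R ^ 2 / (2 * n) := by
        gcongr; nlinarith
      have h2 : 0 ≤ R * √(1 - 1 / (4 * R ^ 2)) ^ n := by positivity
      have h3 : 0 ≤ 2 * R ^ 2 * √(1 - 1 / (2 * R ^ 2)) ^ n := by positivity
      linarith
  · push Not at hw1
    refine ⟨(closedBall w 1 ∪ Fr w).indicator (fun x => ENNReal.ofReal (Fw n w x)),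
      ((Fw_continuous n w).measurable.ennreal_ofReal).indicator (Hw_meas w), ?_, ?_⟩
    · intro θ hθ r hr hT
      exact radial_lower_wide n hn1 w θ hθ hr hT
    · have hω0 : 0 < ‖w‖ := by linarith
      have hwn : ‖w‖ ^ 2 ≤ n := le_trans (pow_le_pow_left₀ (norm_nonneg _) hw 2) hRn
      calc ∫⁻ x, (closedBall w 1 ∪ Fr w).indicator (fun x => ENNReal.ofReal (Fw n w x)) x
          = ∫⁻ x in closedBall w 1 ∪ Fr w, ENNReal.ofReal (Fw n w x) := by
            rw [lintegral_indicator (Hw_meas w)]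
        _ ≤ (∫⁻ x in closedBall w 1, ENNReal.ofReal (Fw n w x)) +
            ∫⁻ x in Fr w, ENNReal.ofReal (Fw n w x) := lintegral_union_le _ _ _
        _ ≤ ENNReal.ofReal (kap n * (1 + ‖w‖ ^ 2 / (2 * n) +
              ‖w‖ * √(1 - 1 / (4 * ‖w‖ ^ 2)) ^ n)) +
            ENNReal.ofReal (kap n * ((2 * ‖w‖ ^ 2) * √(1 - 1 / (2 * ‖w‖ ^ 2)) ^ n)) :=
            add_le_add (ball_part hn w hw1) (Fr_part hn1 w hw1 hwn)
        _ = ENNReal.ofReal (kap n * (1 + ‖w‖ ^ 2 / (2 * n) +
              ‖w‖ * √(1 - 1 / (4 * ‖w‖ ^ 2)) ^ n +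
              (2 * ‖w‖ ^ 2) * √(1 - 1 / (2 * ‖w‖ ^ 2)) ^ n)) := by
            rw [← ENNReal.ofReal_add (by positivity) (by positivity)]
            congr 1; ring
        _ ≤ _ := by
            apply ENNReal.ofReal_le_ofReal
            apply mul_le_mul_of_nonneg_left _ hkap
            unfold err
            have h1 : ‖w‖ ^ 2 ≤ R ^ 2 := pow_le_pow_left₀ (norm_nonneg _) hw 2
            have h2 : ‖w‖ ^ 2 / (2 * n) ≤ R ^ 2 / (2 * n) := by gcongr
            have h3 : ‖w‖ * √(1 - 1 / (4 * ‖w‖ ^ 2)) ^ n ≤ R * √(1 - 1 / (4 * R ^ 2)) ^ n :=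
              mul_le_mul hw (sqrt_mono_aux (by norm_num) hω0 hw n) (by positivity) (by linarith)
            have h4 : (2 * ‖w‖ ^ 2) * √(1 - 1 / (2 * ‖w‖ ^ 2)) ^ n ≤
                (2 * R ^ 2) * √(1 - 1 / (2 * R ^ 2)) ^ n :=
              mul_le_mul (by linarith) (sqrt_mono_aux (by norm_num) hω0 hw n) (by positivity)
                (by positivity)
            linarith

/-- **Core estimate, wide version.** -/
theorem core_wide (hn : 3 ≤ n) (R : ℝ) (hR1 : 1 ≤ R) (hRn : R ^ 2 ≤ n) :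
    CoreBound n R ((1 / √(n * Real.exp 1)) * (kap n * (1 + err n R))) := by
  classical
  intro ι S w K hKm hK c hc h
  have hn1 : 1 ≤ n := by omega
  have hn' : (0 : ℝ) < n := by exact_mod_cast hn1
  have : Nonempty (Fin n) := ⟨⟨0, by omega⟩⟩
  set c0 : ℝ := 1 / √(n * Real.exp 1) with hc0
  have hc0pos : 0 ≤ c0 := by positivity
  set w' : ι → (EuclideanSpace ℝ (Fin n)) := fun i => if ‖w i‖ ≤ R then w i else (R / ‖w i‖) • w i with hw'
  have hw'1 : ∀ i, ‖w' i‖ ≤ R := by
    intro i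
    simp only [hw']
    split_ifs with h1
    · exact h1
    · push Not at h1
      have h2 : 0 < ‖w i‖ := by linarith
      rw [norm_smul, Real.norm_of_nonneg (by positivity), div_mul_cancel₀ _ h2.ne']
  have h' : ∀ y ∈ K, c ≤ ∑ i ∈ S, √(1 - ‖y - w' i‖ ^ 2) := by
    intro y hy
    refine (h y hy).trans (Finset.sum_le_sum fun i _ => ?_)
    apply Real.sqrt_le_sqrt
    have hy1 : ‖y‖ ≤ R := by simpa using hK hy
    simp only [hw']
    split_ifs with h1
    · exact le_refl _
    · push Not at h1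
      have h2 := move_centre_wide R (w i) y (by linarith) hy1 h1
      have h3 : ‖y - (R / ‖w i‖) • w i‖ ^ 2 ≤ ‖y - w i‖ ^ 2 :=
        pow_le_pow_left₀ (norm_nonneg _) h2 2
      linarith
  choose V hVm hVl hVi using fun i => exists_majorant hn R hR1 hRn (w' i) (hw'1 i)
  set u : (EuclideanSpace ℝ (Fin n)) → ℝ≥0∞ := K.indicator (fun _ => ENNReal.ofReal c) with hu
  set v : (EuclideanSpace ℝ (Fin n)) → ℝ≥0∞ := fun x => ∑ i ∈ S, ENNReal.ofReal c0 * V i x with hv
  have hum : Measurable u := measurable_const.indicator hKm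
  have hvm : Measurable v := Finset.measurable_fun_sum S fun i _ => (hVm i).const_mul _
  have hmain : ∫⁻ x, u x ≤ ∫⁻ x, v x := by
    apply polar_le volume u v hum hvm
    intro θ hθ
    rw [finrank_euclideanSpace_fin]
    set Ψ : ι → ℝ := fun i => if ∃ r : ℝ, 0 < r ∧ 0 < 1 - ‖r • θ - w' i‖ ^ 2 then
      Psi n (w' i) θ else 0 with hΨ
    have hΨ0 : ∀ i, 0 ≤ Ψ i := by
      intro i
      simp only [hΨ]
      split_ifs with h1
      · obtain ⟨r, hr, hT⟩ := h1
        exact Psi_nonneg_of_ray n (w' i) θ hθ hr hT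
      · exact le_refl _
    set Λ : ℝ := ∑ i ∈ S, c0 * Ψ i with hΛ
    have hΛ0 : 0 ≤ Λ := Finset.sum_nonneg fun i _ => mul_nonneg hc0pos (hΨ0 i)
    have hup := radial_upper n hn1 K θ c Λ hc hΛ0 (by
      intro r hr hrK
      calc c * r ^ n ≤ (∑ i ∈ S, √(1 - ‖r • θ - w' i‖ ^ 2)) * r ^ n :=
            mul_le_mul_of_nonneg_right (h' _ hrK) (by positivity)
        _ = ∑ i ∈ S, r ^ n * √(1 - ‖r • θ - w' i‖ ^ 2) := by
            rw [Finset.sum_mul]; exact Finset.sum_congr rfl fun i _ => mul_comm _ _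
        _ ≤ Λ := by
            apply Finset.sum_le_sum
            intro i _
            by_cases hT : 0 < 1 - ‖r • θ - w' i‖ ^ 2
            · have h1 : Ψ i = Psi n (w' i) θ := by
                simp only [hΨ]; rw [if_pos ⟨r, hr, hT⟩]
              rw [h1]
              exact ray_le_Psi n hn1 (w' i) θ hθ hr hT
            · rw [Real.sqrt_eq_zero_of_nonpos (by linarith), mul_zero]
              exact mul_nonneg hc0pos (hΨ0 i))
    refine hup.trans ?_
    have hlow : ∀ i, ENNReal.ofReal (Ψ i / n) ≤ ∫⁻ r : ℝ in Ioi (0 : ℝ),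
        ENNReal.ofReal (r ^ (n - 1)) * V i (r • θ) := by
      intro i
      simp only [hΨ]
      split_ifs with h1
      · obtain ⟨r, hr, hT⟩ := h1
        exact hVl i θ hθ r hr hT
      · simp
    calc ENNReal.ofReal (Λ / n) = ∑ i ∈ S, ENNReal.ofReal c0 * ENNReal.ofReal (Ψ i / n) := by
          rw [hΛ, Finset.sum_div, ENNReal.ofReal_sum_of_nonneg]
          · refine Finset.sum_congr rfl fun i _ => ?_
            rw [← ENNReal.ofReal_mul hc0pos]; congr 1; ring
          · intro i _; have := hΨ0 i; positivity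
      _ ≤ ∑ i ∈ S, ENNReal.ofReal c0 * ∫⁻ r : ℝ in Ioi (0 : ℝ),
        ENNReal.ofReal (r ^ (n - 1)) * V i (r • θ) := by
          gcongr with i _; exact hlow i
      _ = ∫⁻ r : ℝ in Ioi (0 : ℝ), ENNReal.ofReal (r ^ (n - 1)) * v (r • θ) := by
          simp only [hv, Finset.mul_sum]
          have hmr : ∀ i, Measurable (fun r : ℝ => ENNReal.ofReal (r ^ (n - 1)) *
              V i (r • θ)) :=
            fun i => (by fun_prop : Measurable (fun r : ℝ => ENNReal.ofReal (r ^ (n - 1)))).mul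
              ((hVm i).comp (by fun_prop : Measurable (fun r : ℝ => r • θ)))
          rw [lintegral_finsetSum]
          · refine Finset.sum_congr rfl fun i _ => ?_
            rw [← lintegral_const_mul _ (hmr i)]
            apply lintegral_congr
            intro r; ring
          · intro i _
            exact (by fun_prop : Measurable (fun r : ℝ => ENNReal.ofReal (r ^ (n - 1)))).mul
              (((hVm i).const_mul _).comp (by fun_prop : Measurable (fun r : ℝ => r • θ)))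
  have hL : ∫⁻ x, u x = ENNReal.ofReal c * volume K := by
    rw [hu, lintegral_indicator hKm, setLIntegral_const]
  have hR : ∫⁻ x, v x ≤ S.card * ENNReal.ofReal (c0 * (kap n * (1 + err n R))) := by
    simp only [hv]
    rw [lintegral_finsetSum _ fun i _ => (hVm i).const_mul _]
    calc ∑ i ∈ S, ∫⁻ x, ENNReal.ofReal c0 * V i x
        ≤ ∑ i ∈ S, ENNReal.ofReal (c0 * (kap n * (1 + err n R))) := by
          apply Finset.sum_le_sum
          intro i _
          rw [lintegral_const_mul _ (hVm i), ENNReal.ofReal_mul hc0pos]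
          gcongr
          exact hVi i
      _ = _ := by rw [Finset.sum_const, nsmul_eq_mul]
  rw [← hL]
  exact hmain.trans hR

end SC70
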