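import Pool.Agent.SC70.WRay
import Pool.Agent.SC70.WideCore

/-!
# Thin coverings: the comparison density, version without logarithms
-/

set_option autoImplicit false

open MeasureTheory Measure Metric Set Module ENNReal
open scoped RealInnerProductSpace

namespace SC70

variable {n : ℕ}

lemma inner_sq_ball_eq (e e' : EuclideanSpace ℝ (Fin n)) (h : ‖e‖ = ‖e'‖) :
    ∫ u in closedBall (0 : EuclideanSpace ℝ (Fin n)) 1, ⟪e, u⟫ ^ 2 =
      ∫ u in closedBall (0 : EuclideanSpace ℝ (Fin n)) 1, ⟪e', u⟫ ^ 2 := by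
  set f := Submodule.reflection (ℝ ∙ (e - e'))ᗮ with hf
  have hfe : f e = e' := Submodule.reflection_sub h
  have hmp : MeasurePreserving f volume volume := f.measurePreserving
  have h1 := hmp.setIntegral_preimage_emb f.toHomeomorph.measurableEmbedding
    (fun u => ⟪e', u⟫ ^ 2) (closedBall 0 1)
  have h2 : f ⁻¹' closedBall (0 : EuclideanSpace ℝ (Fin n)) 1 = closedBall 0 1 := by
    ext u; simp
  rw [h2] at h1
  rw [← h1]
  refine setIntegral_congr_fun measurableSet_closedBall fun u _ => ?_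
  rw [← hfe, f.inner_map_map]

lemma integral_inner_sq_ball (hn : 1 ≤ n) (w : EuclideanSpace ℝ (Fin n)) :
    ∫ u in closedBall (0 : EuclideanSpace ℝ (Fin n)) 1, ⟪w, u⟫ ^ 2 =
      kap n * (‖w‖ ^ 2 / (n + 2)) := by
  have hn' : (0 : ℝ) < n := by exact_mod_cast hn
  set i0 : Fin n := ⟨0, by omega⟩ with hi0
  set I : ℝ := ∫ u in closedBall (0 : EuclideanSpace ℝ (Fin n)) 1,
    ⟪(EuclideanSpace.single i0 (1 : ℝ) : EuclideanSpace ℝ (Fin n)), u⟫ ^ 2 with hI
  have hint : ∀ v : EuclideanSpace ℝ (Fin n), IntegrableOn (fun u => ⟪v, u⟫ ^ 2)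
      (closedBall (0 : EuclideanSpace ℝ (Fin n)) 1) := fun v =>
    ((by fun_prop : Continuous (fun u : EuclideanSpace ℝ (Fin n) => ⟪v, u⟫ ^ 2)).continuousOn).integrableOn_compact
      (isCompact_closedBall _ _)
  have hsum : (n : ℝ) * I = kap n * (n / (n + 2)) := by
    rw [← integral_norm_sq_ball hn]
    have h1 : ∀ u : EuclideanSpace ℝ (Fin n), ‖u‖ ^ 2 = ∑ j : Fin n,
        ⟪(EuclideanSpace.single j (1 : ℝ) : EuclideanSpace ℝ (Fin n)), u⟫ ^ 2 := by
      intro u
      rw [EuclideanSpace.real_norm_sq_eq]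
      refine Finset.sum_congr rfl fun j _ => ?_
      rw [EuclideanSpace.inner_single_left]
      simp
    simp only [h1]
    rw [integral_finsetSum _ fun j _ => hint _]
    have h2 : ∀ j : Fin n, ∫ u in closedBall (0 : EuclideanSpace ℝ (Fin n)) 1,
        ⟪(EuclideanSpace.single j (1 : ℝ) : EuclideanSpace ℝ (Fin n)), u⟫ ^ 2 = I := by
      intro j
      apply inner_sq_ball_eq
      simp
    simp only [h2, Finset.sum_const, Finset.card_univ, Fintype.card_fin, nsmul_eq_mul]
  have hI' : I = kap n * (1 / (n + 2)) := by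
    have h3 : (n : ℝ) * I = n * (kap n * (1 / (n + 2))) := by rw [hsum]; ring
    exact mul_left_cancel₀ hn'.ne' h3
  have h4 : ∫ u in closedBall (0 : EuclideanSpace ℝ (Fin n)) 1, ⟪w, u⟫ ^ 2 =
      ∫ u in closedBall (0 : EuclideanSpace ℝ (Fin n)) 1,
        ⟪‖w‖ • (EuclideanSpace.single i0 (1 : ℝ) : EuclideanSpace ℝ (Fin n)), u⟫ ^ 2 := by
    apply inner_sq_ball_eq
    rw [norm_smul, norm_norm]; simp
  rw [h4]
  simp only [inner_smul_left, mul_pow, conj_trivial]
  rw [integral_const_mul, ← hI, hI']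
  ring

/-- integral of the positive part over the ball -/
lemma ball_part_sq (hn : 3 ≤ n) (w : EuclideanSpace ℝ (Fin n)) :
    ∫⁻ x in closedBall w 1, ENNReal.ofReal (Fw n w x) ≤
      ENNReal.ofReal (kap n * (1 + ‖w‖ ^ 2 / n)) := by
  have hn1 : 1 ≤ n := by omega
  have hn' : (3 : ℝ) ≤ n := by exact_mod_cast hn
  have hkap := kap_nonneg n
  have hFi : IntegrableOn (Fw n w) (closedBall w 1) :=
    ((Fw_continuous n w).continuousOn).integrableOn_compact (isCompact_closedBall _ _)
  have hFi' : IntegrableOn (fun x => max (Fw n w x) 0) (closedBall w 1) :=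
    (((Fw_continuous n w).max continuous_const).continuousOn).integrableOn_compact
      (isCompact_closedBall _ _)
  have hsqc : Continuous (fun x : EuclideanSpace ℝ (Fin n) => ⟪w, x - w⟫ ^ 2 / 2) := by fun_prop
  have hsq : IntegrableOn (fun x => ⟪w, x - w⟫ ^ 2 / 2) (closedBall w 1) :=
    (hsqc.continuousOn).integrableOn_compact (isCompact_closedBall _ _)
  have hpt : ∀ x ∈ closedBall w 1, max (Fw n w x) 0 ≤ Fw n w x + ⟪w, x - w⟫ ^ 2 / 2 := by
    intro x hx
    obtain ⟨u, rfl⟩ : ∃ u : EuclideanSpace ℝ (Fin n), x = u + w := ⟨x - w, by simp⟩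
    rw [add_sub_cancel_right]
    apply max_le
    · have := sq_nonneg ⟪w, u⟫; linarith
    · rw [Fw_shift hn1]
      have h1 : 0 ≤ ‖w‖ ^ 2 / (2 * n) := by positivity
      have h2 : 0 ≤ (((n : ℝ) + 2) / (2 * n)) * ‖u‖ ^ 2 := by positivity
      set c : ℝ := ((n : ℝ) + 3) / (2 * n) with hc
      have hc1 : c ≤ 1 := by rw [hc, div_le_one (by linarith)]; linarith
      have hc0 : 0 ≤ c := by rw [hc]; positivity
      have h3 : 0 ≤ 1 / 2 + c * ⟪w, u⟫ + ⟪w, u⟫ ^ 2 / 2 := by
        have h4 : c ^ 2 ≤ 1 := by nlinarith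
        nlinarith [sq_nonneg (⟪w, u⟫ + c)]
      linarith
  have hsqv : ∫ x in closedBall w 1, ⟪w, x - w⟫ ^ 2 / 2 = kap n * (‖w‖ ^ 2 / (n + 2)) / 2 := by
    rw [integral_div, ← integral_inner_sq_ball hn1 w,
      ← integral_indicator measurableSet_closedBall, ← integral_indicator measurableSet_closedBall,
      ← integral_add_right_eq_self _ w]
    congr 2
    funext x
    by_cases hx : x ∈ closedBall (0 : EuclideanSpace ℝ (Fin n)) 1
    · rw [indicator_of_mem hx, indicator_of_mem (by simpa using hx), add_sub_cancel_right]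
    · rw [indicator_of_notMem hx, indicator_of_notMem (by simpa using hx)]
  calc ∫⁻ x in closedBall w 1, ENNReal.ofReal (Fw n w x)
      = ∫⁻ x in closedBall w 1, ENNReal.ofReal (max (Fw n w x) 0) := by
        apply lintegral_congr
        intro x
        rw [ENNReal.ofReal_max, ENNReal.ofReal_zero]
        simp
    _ = ENNReal.ofReal (∫ x in closedBall w 1, max (Fw n w x) 0) := by
        rw [ofReal_integral_eq_lintegral_ofReal hFi']
        exact Filter.Eventually.of_forall fun x => le_max_right _ _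
    _ ≤ ENNReal.ofReal (∫ x in closedBall w 1, (Fw n w x + ⟪w, x - w⟫ ^ 2 / 2)) := by
        apply ENNReal.ofReal_le_ofReal
        exact setIntegral_mono_on hFi' (hFi.add hsq) measurableSet_closedBall hpt
    _ = ENNReal.ofReal ((∫ x in closedBall w 1, Fw n w x) +
          ∫ x in closedBall w 1, ⟪w, x - w⟫ ^ 2 / 2) := by
        rw [integral_add hFi hsq]
    _ ≤ _ := by
        apply ENNReal.ofReal_le_ofReal
        rw [integral_Fw hn1, hsqv]
        have h1 : ‖w‖ ^ 2 / ((n : ℝ) + 2) ≤ ‖w‖ ^ 2 / n := by gcongr; linarith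
        have h2 : kap n * (‖w‖ ^ 2 / (n + 2)) / 2 ≤ kap n * (‖w‖ ^ 2 / n) / 2 := by gcongr
        have e : kap n * (1 + ‖w‖ ^ 2 / (2 * n)) + kap n * (‖w‖ ^ 2 / n) / 2 =
          kap n * (1 + ‖w‖ ^ 2 / n) := by field_simp; ring
        linarith

/-- the cap -/
def capS (w : EuclideanSpace ℝ (Fin n)) : Set (EuclideanSpace ℝ (Fin n)) :=
  {x | ⟪w, x - w⟫ ≤ -(1 / 2)} ∩ closedBall w 1

lemma capS_meas (w : EuclideanSpace ℝ (Fin n)) : MeasurableSet (capS w) := by
  have h1 : MeasurableSet {x : EuclideanSpace ℝ (Fin n) | ⟪w, x - w⟫ ≤ -(1 / 2)} :=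
    (isClosed_le (by fun_prop) (by fun_prop)).measurableSet
  exact h1.inter measurableSet_closedBall

lemma volume_capS_le (hn : 1 ≤ n) (w : EuclideanSpace ℝ (Fin n)) :
    volume (capS w) ≤ ENNReal.ofReal (kap n * (4 * ‖w‖ ^ 2 / n)) := by
  have hn' : (0 : ℝ) < n := by exact_mod_cast hn
  have hkap := kap_nonneg n
  have hsqc : Continuous (fun x : EuclideanSpace ℝ (Fin n) => 4 * ⟪w, x - w⟫ ^ 2) := by fun_prop
  have hsq : IntegrableOn (fun x => 4 * ⟪w, x - w⟫ ^ 2) (closedBall w 1) :=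
    (hsqc.continuousOn).integrableOn_compact (isCompact_closedBall _ _)
  have hsqv : ∫ x in closedBall w 1, 4 * ⟪w, x - w⟫ ^ 2 = 4 * (kap n * (‖w‖ ^ 2 / (n + 2))) := by
    rw [integral_const_mul, ← integral_inner_sq_ball hn w,
      ← integral_indicator measurableSet_closedBall, ← integral_indicator measurableSet_closedBall,
      ← integral_add_right_eq_self _ w]
    congr 2
    funext x
    by_cases hx : x ∈ closedBall (0 : EuclideanSpace ℝ (Fin n)) 1
    · rw [indicator_of_mem hx, indicator_of_mem (by simpa using hx), add_sub_cancel_right]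
    · rw [indicator_of_notMem hx, indicator_of_notMem (by simpa using hx)]
  calc volume (capS w) = ∫⁻ x in closedBall w 1,
        ({x | ⟪w, x - w⟫ ≤ -(1 / 2)} : Set (EuclideanSpace ℝ (Fin n))).indicator 1 x := by
        have h1 : MeasurableSet {x : EuclideanSpace ℝ (Fin n) | ⟪w, x - w⟫ ≤ -(1 / 2)} :=
          (isClosed_le (by fun_prop) (by fun_prop)).measurableSet
        rw [lintegral_indicator_one h1, Measure.restrict_apply h1]
        rfl
    _ ≤ ∫⁻ x in closedBall w 1, ENNReal.ofReal (4 * ⟪w, x - w⟫ ^ 2) := by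
        apply lintegral_mono
        intro x
        by_cases hx : x ∈ ({x | ⟪w, x - w⟫ ≤ -(1 / 2)} : Set (EuclideanSpace ℝ (Fin n)))
        · rw [indicator_of_mem hx, Pi.one_apply, ← ENNReal.ofReal_one]
          apply ENNReal.ofReal_le_ofReal
          have h2 : ⟪w, x - w⟫ ≤ -(1 / 2) := hx
          nlinarith
        · rw [indicator_of_notMem hx]; exact zero_le
    _ = ENNReal.ofReal (∫ x in closedBall w 1, 4 * ⟪w, x - w⟫ ^ 2) := by
        rw [ofReal_integral_eq_lintegral_ofReal hsq]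
        exact Filter.Eventually.of_forall fun x => by positivity
    _ ≤ _ := by
        apply ENNReal.ofReal_le_ofReal
        rw [hsqv]
        have h1 : ‖w‖ ^ 2 / ((n : ℝ) + 2) ≤ ‖w‖ ^ 2 / n := by gcongr; linarith
        have h2 : 4 * (kap n * (‖w‖ ^ 2 / (n + 2))) ≤ 4 * (kap n * (‖w‖ ^ 2 / n)) := by gcongr
        have e : 4 * (kap n * (‖w‖ ^ 2 / n)) = kap n * (4 * ‖w‖ ^ 2 / n) := by ring
        linarith

end SC70
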