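import Pool.Agent.SC70.Radial

/-!
# Thin coverings: cylinders
-/

set_option autoImplicit false

open MeasureTheory Measure Metric Set Module ENNReal
open scoped RealInnerProductSpace

namespace SC70

variable {n : ℕ}


/-- real volume of the unit ball -/
noncomputable def kap (n : ℕ) : ℝ := (volume : Measure (EuclideanSpace ℝ (Fin n))).real (closedBall 0 1)

lemma kap_nonneg (n : ℕ) : 0 ≤ kap n := measureReal_nonneg

lemma kap_pos (n : ℕ) : 0 < kap n := by
  unfold kap
  rw [measureReal_def, ENNReal.toReal_pos_iff]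
  exact ⟨(measure_closedBall_pos _ _ one_pos), (isCompact_closedBall _ _).measure_lt_top⟩

lemma ofReal_kap (n : ℕ) : ENNReal.ofReal (kap n) =
    volume (closedBall (0 : EuclideanSpace ℝ (Fin n)) 1) := by
  unfold kap
  rw [measureReal_def, ENNReal.ofReal_toReal]
  exact (isCompact_closedBall _ _).measure_lt_top.ne

lemma kap_eq_ball (n : ℕ) (hn : 1 ≤ n) :
    (volume : Measure (EuclideanSpace ℝ (Fin n))).real (ball 0 1) = kap n := by
  have : Nonempty (Fin n) := ⟨⟨0, by omega⟩⟩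
  unfold kap
  rw [measureReal_def, measureReal_def, addHaar_closedBall_eq_addHaar_ball]

lemma integral_norm_sq_ball (hn : 1 ≤ n) :
    ∫ x in closedBall (0 : (EuclideanSpace ℝ (Fin n))) 1, ‖x‖ ^ 2 = kap n * (n / (n + 2)) := by
  have : Nonempty (Fin n) := ⟨⟨0, by omega⟩⟩
  have h := integral_fun_norm_addHaar (volume : Measure (EuclideanSpace ℝ (Fin n)))
    (fun r : ℝ => (Iic (1 : ℝ)).indicator (fun r => r ^ 2) r)
  rw [kap_eq_ball n hn] at h
  have h1 : ∫ x : (EuclideanSpace ℝ (Fin n)), (Iic (1 : ℝ)).indicator (fun r => r ^ 2) ‖x‖ =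
      ∫ x in closedBall (0 : (EuclideanSpace ℝ (Fin n))) 1, ‖x‖ ^ 2 := by
    rw [← integral_indicator measurableSet_closedBall]
    congr 1
    funext x
    by_cases hx : ‖x‖ ≤ 1
    · rw [indicator_of_mem (show ‖x‖ ∈ Iic (1 : ℝ) from hx), indicator_of_mem (by simpa using hx)]
    · rw [indicator_of_notMem (show ‖x‖ ∉ Iic (1 : ℝ) from hx), indicator_of_notMem (by simpa using hx)]
  have h2 : ∫ y in Ioi (0 : ℝ), y ^ (finrank ℝ (EuclideanSpace ℝ (Fin n)) - 1) • (Iic (1 : ℝ)).indicator (fun r => r ^ 2) y =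
      1 / (n + 2) := by
    have h3 : ∫ y in Ioi (0 : ℝ), y ^ (finrank ℝ (EuclideanSpace ℝ (Fin n)) - 1) • (Iic (1 : ℝ)).indicator (fun r => r ^ 2) y
        = ∫ y in Ioc (0 : ℝ) 1, y ^ (n + 1) := by
      rw [← integral_indicator measurableSet_Ioc, ← integral_indicator measurableSet_Ioi]
      congr 1
      funext y
      by_cases hy : 0 < y
      · rw [indicator_of_mem (show y ∈ Ioi (0 : ℝ) from hy)]
        by_cases hy1 : y ≤ 1
        · rw [indicator_of_mem (show y ∈ Iic (1 : ℝ) from hy1),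
            indicator_of_mem (show y ∈ Ioc (0 : ℝ) 1 from ⟨hy, hy1⟩)]
          simp only [finrank_euclideanSpace_fin, smul_eq_mul]
          rw [← pow_add]; congr 1; omega
        · rw [indicator_of_notMem (show y ∉ Iic (1 : ℝ) from hy1),
            indicator_of_notMem (show y ∉ Ioc (0 : ℝ) 1 from fun h => hy1 h.2)]
          simp
      · rw [indicator_of_notMem (show y ∉ Ioi (0 : ℝ) from hy),
            indicator_of_notMem (show y ∉ Ioc (0 : ℝ) 1 from fun h => hy h.1)]
    rw [h3, ← intervalIntegral.integral_of_le zero_le_one, integral_pow]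
    push_cast
    rw [one_pow, zero_pow (by omega)]
    ring
  rw [← h1, h, h2]
  simp only [finrank_euclideanSpace_fin, nsmul_eq_mul, smul_eq_mul]
  ring

lemma integral_inner_ball (w : (EuclideanSpace ℝ (Fin n))) : ∫ x in closedBall (0 : (EuclideanSpace ℝ (Fin n))) 1, ⟪w, x⟫ = 0 := by
  have h : ∫ x in closedBall (0 : (EuclideanSpace ℝ (Fin n))) 1, ⟪w, x⟫ = ∫ x in closedBall (0 : (EuclideanSpace ℝ (Fin n))) 1, ⟪w, -x⟫ := by
    rw [← integral_indicator measurableSet_closedBall, ← integral_indicator measurableSet_closedBall,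
      ← integral_neg_eq_self]
    congr 1
    funext x
    by_cases hx : x ∈ closedBall (0 : (EuclideanSpace ℝ (Fin n))) 1
    · rw [indicator_of_mem hx, indicator_of_mem (by simpa using hx)]
    · rw [indicator_of_notMem hx, indicator_of_notMem (by simpa using hx)]
  simp only [inner_neg_right, integral_neg] at h
  linarith

lemma integral_Fw (hn : 1 ≤ n) (w : (EuclideanSpace ℝ (Fin n))) :
    ∫ x in closedBall w 1, Fw n w x = kap n * (1 + ‖w‖ ^ 2 / (2 * n)) := by
  have hn' : (0 : ℝ) < n := by exact_mod_cast hn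
  have h1 : ∫ x in closedBall w 1, Fw n w x = ∫ x in closedBall (0 : (EuclideanSpace ℝ (Fin n))) 1, Fw n w (x + w) := by
    rw [← integral_indicator measurableSet_closedBall, ← integral_indicator measurableSet_closedBall,
      ← integral_add_right_eq_self _ w]
    congr 1
    funext x
    by_cases hx : x ∈ closedBall (0 : (EuclideanSpace ℝ (Fin n))) 1
    · rw [indicator_of_mem hx, indicator_of_mem (by simpa using hx)]
    · rw [indicator_of_notMem hx, indicator_of_notMem (by simpa using hx)]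
  have h2 : ∀ x : (EuclideanSpace ℝ (Fin n)), Fw n w (x + w) = (1 / 2 + ‖w‖ ^ 2 / (2 * n)) + ((n + 2) / (2 * n)) * ‖x‖ ^ 2
      + ((n + 3) / (2 * n)) * ⟪w, x⟫ := by
    intro x
    unfold Fw
    rw [norm_add_sq_real, inner_add_right, real_inner_self_eq_norm_sq, real_inner_comm w x]
    field_simp
    ring
  rw [h1]
  simp only [h2]
  have i1 : IntegrableOn (fun x : (EuclideanSpace ℝ (Fin n)) => ‖x‖ ^ 2) (closedBall 0 1) :=
    ((by fun_prop : Continuous (fun x : (EuclideanSpace ℝ (Fin n)) => ‖x‖ ^ 2)).continuousOn).integrableOn_compact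
      (isCompact_closedBall _ _)
  have i2 : IntegrableOn (fun x : (EuclideanSpace ℝ (Fin n)) => ⟪w, x⟫) (closedBall 0 1) :=
    ((by fun_prop : Continuous (fun x : (EuclideanSpace ℝ (Fin n)) => ⟪w, x⟫)).continuousOn).integrableOn_compact
      (isCompact_closedBall _ _)
  have i0 : IntegrableOn (fun _ : (EuclideanSpace ℝ (Fin n)) => (1 / 2 + ‖w‖ ^ 2 / (2 * n) : ℝ)) (closedBall 0 1) :=
    (continuous_const.continuousOn).integrableOn_compact (isCompact_closedBall _ _)
  have e1 := integral_add (μ := volume.restrict (closedBall (0 : (EuclideanSpace ℝ (Fin n))) 1))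
    (i0.add (i1.const_mul (((n : ℝ) + 2) / (2 * n)))) (i2.const_mul (((n : ℝ) + 3) / (2 * n)))
  have e2 := integral_add (μ := volume.restrict (closedBall (0 : (EuclideanSpace ℝ (Fin n))) 1)) i0
    (i1.const_mul (((n : ℝ) + 2) / (2 * n)))
  simp only [Pi.add_apply] at e1
  rw [e1, e2, integral_const_mul, integral_const_mul, integral_norm_sq_ball hn,
    integral_inner_ball, setIntegral_const]
  have : (volume : Measure (EuclideanSpace ℝ (Fin n))).real (closedBall 0 1) = kap n := rfl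
  rw [this, smul_eq_mul]
  field_simp
  ring

lemma lintegral_Fw_le (hn : 1 ≤ n) (w : (EuclideanSpace ℝ (Fin n))) (hw : ‖w‖ ≤ 1) :
    ∫⁻ x, (closedBall w 1).indicator (fun x => ENNReal.ofReal (Fw n w x)) x ≤
      ENNReal.ofReal (kap n * (1 + 1 / (2 * n))) := by
  have hn' : (0 : ℝ) < n := by exact_mod_cast hn
  rw [lintegral_indicator measurableSet_closedBall, ← ofReal_integral_eq_lintegral_ofReal]
  · apply ENNReal.ofReal_le_ofReal
    rw [integral_Fw hn]
    have h1 : ‖w‖ ^ 2 ≤ 1 := by nlinarith [norm_nonneg w]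
    have := kap_nonneg n
    gcongr
  · exact ((Fw_continuous n w).continuousOn).integrableOn_compact (isCompact_closedBall _ _)
  · exact Filter.Eventually.of_forall fun x => Fw_nonneg n hn hw x

/-- moving a far centre to the unit sphere does not hurt inside the unit ball -/
lemma move_centre (w y : (EuclideanSpace ℝ (Fin n))) (hy : ‖y‖ ≤ 1) (hw : 1 < ‖w‖) :
    ‖y - ‖w‖⁻¹ • w‖ ≤ ‖y - w‖ := by
  have hw0 : 0 < ‖w‖ := by linarith
  have h1 : ‖y - ‖w‖⁻¹ • w‖ ^ 2 ≤ ‖y - w‖ ^ 2 := by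
    rw [norm_sub_sq_real, norm_sub_sq_real, norm_smul, inner_smul_right]
    have h2 : ⟪y, w⟫ ≤ ‖w‖ := (real_inner_le_norm y w).trans (by nlinarith)
    have h3 : ‖(‖w‖⁻¹ : ℝ)‖ * ‖w‖ = 1 := by
      rw [norm_inv, norm_norm, inv_mul_cancel₀ hw0.ne']
    rw [h3]
    have h4 : ‖w‖⁻¹ * ⟪y, w⟫ = ⟪y, w⟫ / ‖w‖ := by ring
    rw [h4]
    have h5 : 2 * (⟪y, w⟫ - ⟪y, w⟫ / ‖w‖) ≤ ‖w‖ ^ 2 - 1 := by
      have h6 : ⟪y, w⟫ - ⟪y, w⟫ / ‖w‖ = ⟪y, w⟫ * ((‖w‖ - 1) / ‖w‖) := by field_simp
      rw [h6]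
      have h7 : ⟪y, w⟫ * ((‖w‖ - 1) / ‖w‖) ≤ ‖w‖ * ((‖w‖ - 1) / ‖w‖) :=
        mul_le_mul_of_nonneg_right h2 (div_nonneg (by linarith) hw0.le)
      have h8 : ‖w‖ * ((‖w‖ - 1) / ‖w‖) = ‖w‖ - 1 := by field_simp
      nlinarith
    linarith
  exact le_of_sq_le_sq h1 (norm_nonneg _)
where
  le_of_sq_le_sq {a b : ℝ} (h : a ^ 2 ≤ b ^ 2) (hb : 0 ≤ b) : a ≤ b := abs_le_of_sq_le_sq' h hb |>.2

/-- **Core estimate.** If every point of `K` (in the unit ball) sees a total half chord of at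
least `c`, then `c` times the volume of `K` is small. -/
theorem core (hn : 1 ≤ n) {ι : Type*} (S : Finset ι) (w : ι → (EuclideanSpace ℝ (Fin n))) (K : Set (EuclideanSpace ℝ (Fin n)))
    (hKm : MeasurableSet K) (hK : K ⊆ closedBall 0 1) (c : ℝ) (hc : 0 < c)
    (h : ∀ y ∈ K, c ≤ ∑ i ∈ S, √(1 - ‖y - w i‖ ^ 2)) :
    ENNReal.ofReal c * volume K ≤
      S.card * ENNReal.ofReal ((1 / √(n * Real.exp 1)) * (kap n * (1 + 1 / (2 * n)))) := by
  classical
  have hn' : (0 : ℝ) < n := by exact_mod_cast hn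
  have : Nonempty (Fin n) := ⟨⟨0, by omega⟩⟩
  set c0 : ℝ := 1 / √(n * Real.exp 1) with hc0
  have hc0pos : 0 ≤ c0 := by positivity
  set w' : ι → (EuclideanSpace ℝ (Fin n)) := fun i => if ‖w i‖ ≤ 1 then w i else ‖w i‖⁻¹ • w i with hw'
  have hw'1 : ∀ i, ‖w' i‖ ≤ 1 := by
    intro i
    simp only [hw']
    split_ifs with h1
    · exact h1
    · push Not at h1
      rw [norm_smul, norm_inv, norm_norm, inv_mul_cancel₀ (by linarith)]
  have h' : ∀ y ∈ K, c ≤ ∑ i ∈ S, √(1 - ‖y - w' i‖ ^ 2) := by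
    intro y hy
    refine (h y hy).trans (Finset.sum_le_sum fun i _ => ?_)
    apply Real.sqrt_le_sqrt
    have hy1 : ‖y‖ ≤ 1 := by simpa using hK hy
    simp only [hw']
    split_ifs with h1
    · exact le_refl _
    · push Not at h1
      have h2 := move_centre (w i) y hy1 h1
      have h3 : ‖y - ‖w i‖⁻¹ • w i‖ ^ 2 ≤ ‖y - w i‖ ^ 2 := pow_le_pow_left₀ (norm_nonneg _) h2 2
      linarith
  set u : (EuclideanSpace ℝ (Fin n)) → ℝ≥0∞ := K.indicator (fun _ => ENNReal.ofReal c) with hu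
  set v : (EuclideanSpace ℝ (Fin n)) → ℝ≥0∞ := fun x => ∑ i ∈ S, ENNReal.ofReal c0 *
    (closedBall (w' i) 1).indicator (fun x => ENNReal.ofReal (Fw n (w' i) x)) x with hv
  have hmi : ∀ i, Measurable ((closedBall (w' i) 1).indicator
      (fun x => ENNReal.ofReal (Fw n (w' i) x))) := fun i =>
    ((Fw_continuous n (w' i)).measurable.ennreal_ofReal).indicator measurableSet_closedBall
  have hum : Measurable u := measurable_const.indicator hKm
  have hvm : Measurable v := Finset.measurable_fun_sum S fun i _ => (hmi i).const_mul _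
  have hmain : ∫⁻ x, u x ≤ ∫⁻ x, v x := by
    apply polar_le volume u v hum hvm
    intro θ hθ
    rw [finrank_euclideanSpace_fin]
    set Ψ : ι → ℝ := fun i => (⟪w' i, θ⟫ + √(1 - ‖w' i‖ ^ 2 + ⟪w' i, θ⟫ ^ 2)) ^ n *
      (1 + (⟪w' i, θ⟫ + √(1 - ‖w' i‖ ^ 2 + ⟪w' i, θ⟫ ^ 2)) *
        √(1 - ‖w' i‖ ^ 2 + ⟪w' i, θ⟫ ^ 2)) / 2 with hΨ
    have hΨ0 : ∀ i, 0 ≤ Ψ i := by
      intro i
      have hw2 : ‖w' i‖ ^ 2 ≤ 1 := by nlinarith [norm_nonneg (w' i), hw'1 i]
      have hDp : |⟪w' i, θ⟫| ≤ √(1 - ‖w' i‖ ^ 2 + ⟪w' i, θ⟫ ^ 2) :=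
        Real.abs_le_sqrt (by linarith)
      have hρ : 0 ≤ ⟪w' i, θ⟫ + √(1 - ‖w' i‖ ^ 2 + ⟪w' i, θ⟫ ^ 2) := by
        have := neg_abs_le ⟪w' i, θ⟫; linarith
      simp only [hΨ]
      positivity
    set Λ : ℝ := ∑ i ∈ S, c0 * Ψ i with hΛ
    have hΛ0 : 0 ≤ Λ := Finset.sum_nonneg fun i _ => mul_nonneg hc0pos (hΨ0 i)
    have hup := radial_upper n hn K θ c Λ hc hΛ0 (by
      intro r hr hrK
      calc c * r ^ n ≤ (∑ i ∈ S, √(1 - ‖r • θ - w' i‖ ^ 2)) * r ^ n :=
            mul_le_mul_of_nonneg_right (h' _ hrK) (by positivity)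
        _ = ∑ i ∈ S, r ^ n * √(1 - ‖r • θ - w' i‖ ^ 2) := by
            rw [Finset.sum_mul]; exact Finset.sum_congr rfl fun i _ => mul_comm _ _
        _ ≤ Λ := by
            apply Finset.sum_le_sum
            intro i _
            by_cases hT : 0 < 1 - ‖r • θ - w' i‖ ^ 2
            · have hw2 : ‖w' i‖ ^ 2 ≤ 1 := by nlinarith [norm_nonneg (w' i), hw'1 i]
              have hD2 : √(1 - ‖w' i‖ ^ 2 + ⟪w' i, θ⟫ ^ 2) ^ 2 = 1 - ‖w' i‖ ^ 2 + ⟪w' i, θ⟫ ^ 2 :=
                Real.sq_sqrt (by nlinarith [sq_nonneg ⟪w' i, θ⟫])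
              have e := norm_smul_sub_sq θ (w' i) hθ r
              rw [← hD2] at e
              rw [e] at hT ⊢
              exact ray_bound n hn _ _ r (Real.sqrt_nonneg _) hr hT
            · rw [Real.sqrt_eq_zero_of_nonpos (by linarith), mul_zero]
              exact mul_nonneg hc0pos (hΨ0 i))
    refine hup.trans ?_
    have hlow : ∀ i, ENNReal.ofReal (Ψ i / n) ≤ ∫⁻ r : ℝ in Ioi (0 : ℝ),
        ENNReal.ofReal (r ^ (n - 1)) *
        (closedBall (w' i) 1).indicator (fun x => ENNReal.ofReal (Fw n (w' i) x)) (r • θ) :=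
      fun i => radial_lower n hn (w' i) θ (hw'1 i) hθ
    calc ENNReal.ofReal (Λ / n) = ∑ i ∈ S, ENNReal.ofReal c0 * ENNReal.ofReal (Ψ i / n) := by
          rw [hΛ, Finset.sum_div, ENNReal.ofReal_sum_of_nonneg]
          · refine Finset.sum_congr rfl fun i _ => ?_
            rw [← ENNReal.ofReal_mul hc0pos]; congr 1; ring
          · intro i _; have := hΨ0 i; positivity
      _ ≤ ∑ i ∈ S, ENNReal.ofReal c0 * ∫⁻ r : ℝ in Ioi (0 : ℝ),
        ENNReal.ofReal (r ^ (n - 1)) *
        (closedBall (w' i) 1).indicator (fun x => ENNReal.ofReal (Fw n (w' i) x)) (r • θ) := by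
          gcongr with i _; exact hlow i
      _ = ∫⁻ r : ℝ in Ioi (0 : ℝ), ENNReal.ofReal (r ^ (n - 1)) * v (r • θ) := by
          simp only [hv, Finset.mul_sum]
          have hmr : ∀ i, Measurable (fun r : ℝ => ENNReal.ofReal (r ^ (n - 1)) *
              (closedBall (w' i) 1).indicator (fun x => ENNReal.ofReal (Fw n (w' i) x)) (r • θ)) :=
            fun i => (by fun_prop : Measurable (fun r : ℝ => ENNReal.ofReal (r ^ (n - 1)))).mul
              ((hmi i).comp (by fun_prop : Measurable (fun r : ℝ => r • θ)))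
          rw [lintegral_finsetSum]
          · refine Finset.sum_congr rfl fun i _ => ?_
            rw [← lintegral_const_mul _ (hmr i)]
            apply lintegral_congr
            intro r; ring
          · intro i _
            exact (by fun_prop : Measurable (fun r : ℝ => ENNReal.ofReal (r ^ (n - 1)))).mul
              (((hmi i).const_mul _).comp (by fun_prop : Measurable (fun r : ℝ => r • θ)))
  have hL : ∫⁻ x, u x = ENNReal.ofReal c * volume K := by
    rw [hu, lintegral_indicator hKm, setLIntegral_const]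
  have hR : ∫⁻ x, v x ≤ S.card * ENNReal.ofReal (c0 * (kap n * (1 + 1 / (2 * n)))) := by
    simp only [hv]
    rw [lintegral_finsetSum _ fun i _ => (hmi i).const_mul _]
    calc ∑ i ∈ S, ∫⁻ x, ENNReal.ofReal c0 *
          (closedBall (w' i) 1).indicator (fun x => ENNReal.ofReal (Fw n (w' i) x)) x
        ≤ ∑ i ∈ S, ENNReal.ofReal (c0 * (kap n * (1 + 1 / (2 * n)))) := by
          apply Finset.sum_le_sum
          intro i _
          rw [lintegral_const_mul _ (hmi i), ENNReal.ofReal_mul hc0pos]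
          gcongr
          exact lintegral_Fw_le hn (w' i) (hw'1 i)
      _ = _ := by rw [Finset.sum_const, nsmul_eq_mul]
  rw [← hL]
  exact hmain.trans hR

end SC70
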