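import Pool.Agent.SC70.Main

/-!
# Thin coverings: the final form
-/

set_option autoImplicit false

open MeasureTheory Measure Metric Set Module ENNReal

namespace SC70

lemma kap_succ_le (n : ℕ) : kap (n + 1) ≤ 2 * kap n := by
  have he : ‖(EuclideanSpace.single 0 1 : EuclideanSpace ℝ (Fin (n + 1)))‖ = 1 := by simp
  obtain ⟨L, hL, hmp, hsurj⟩ := exists_frame (EuclideanSpace.single 0 1) he
  set e : EuclideanSpace ℝ (Fin (n + 1)) := EuclideanSpace.single 0 1 with he'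
  have h1 := hmp.measure_preimage
    (measurableSet_closedBall (x := (0 : EuclideanSpace ℝ (Fin (n + 1)))) (ε := 1)).nullMeasurableSet
  have h2 : (fun z : ℝ × EuclideanSpace ℝ (Fin n) => z.1 • e + L z.2) ⁻¹' closedBall 0 1 ⊆
      Icc (-1) 1 ×ˢ closedBall 0 1 := by
    intro z hz
    rw [mem_preimage, mem_closedBall_zero_iff] at hz
    have h3 := frame_norm he L hL z.1 z.2
    have h4 : ‖z.1 • e + L z.2‖ ^ 2 ≤ 1 := by nlinarith [norm_nonneg (z.1 • e + L z.2)]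
    constructor
    · have h5 : z.1 ^ 2 ≤ 1 := by nlinarith [sq_nonneg ‖z.2‖]
      have h6 := abs_le.mp ((sq_le_one_iff_abs_le_one _).mp h5)
      exact ⟨h6.1, h6.2⟩
    · rw [mem_closedBall_zero_iff]
      have h5 : ‖z.2‖ ^ 2 ≤ 1 := by nlinarith [sq_nonneg z.1]
      nlinarith [norm_nonneg z.2]
  have h3 : volume (closedBall (0 : EuclideanSpace ℝ (Fin (n + 1))) 1) ≤
      ENNReal.ofReal (2 * kap n) := by
    rw [← h1]
    refine (measure_mono h2).trans ?_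
    rw [Measure.volume_eq_prod, Measure.prod_prod, Real.volume_Icc, ← ofReal_kap,
      ← ENNReal.ofReal_mul (by norm_num)]
    norm_num
  unfold kap at h3 ⊢
  rw [measureReal_def]
  exact ENNReal.toReal_le_of_le_ofReal (by have := kap_nonneg n; unfold kap at this; linarith) h3

/-- short bodies covered by very many balls -/
lemma short_body {n : ℕ} (hn : 3 ≤ n) (ε : ℝ) (hε0 : 0 < ε)
    (C : Set (EuclideanSpace ℝ (Fin (n + 1)))) (a : EuclideanSpace ℝ (Fin (n + 1)))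
    (hC : ∀ x ∈ C, ‖x - a‖ ≤ 3000 * (n + 1) / ε ^ 2) (k : ℝ)
    (hk : (400000 * ((n : ℝ) + 1) / ε ^ 2) ^ (n + 1) ≤ k) :
    volume C ≤ ENNReal.ofReal (2 * k * (kap n * Mn n)) := by
  have hn1 : 1 ≤ n := by omega
  have hkap := kap_pos n
  have hMn := Mn_pos hn1
  set T : ℝ := 3000 * ((n : ℝ) + 1) / ε ^ 2 with hT
  have hT0 : 0 ≤ T := by positivity
  have h1 : volume C ≤ volume (closedBall a T) := by
    apply measure_mono
    intro x hx
    rw [mem_closedBall, dist_eq_norm]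
    exact hC x hx
  refine h1.trans ?_
  rw [volume_ball_le a hT0]
  apply ENNReal.ofReal_le_ofReal
  have h2 : (1 : ℝ) ≤ 100 ^ (n + 1) * Mn n := by
    have h3 := Mn_lower hn1
    have h4 : √((n : ℝ) + 1) ≤ n + 1 := by
      rw [Real.sqrt_le_left (by positivity)]
      nlinarith
    have h5 : (2 : ℝ) * (n + 1) ≤ 100 ^ (n + 1) := by
      have h6 : n + 1 < 2 ^ (n + 1) := Nat.lt_two_pow_self
      have h7 : ((n + 1 : ℕ) : ℝ) < ((2 ^ (n + 1) : ℕ) : ℝ) := by exact_mod_cast h6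
      push_cast at h7
      have h8 : (2 : ℝ) ≤ 2 ^ (n + 1) := by
        calc (2 : ℝ) = 2 ^ 1 := by norm_num
          _ ≤ 2 ^ (n + 1) := pow_le_pow_right₀ (by norm_num) (by omega)
      calc (2 : ℝ) * (n + 1) ≤ 2 ^ (n + 1) * 2 ^ (n + 1) := by
            apply mul_le_mul h8 h7.le (by positivity) (by positivity)
        _ = 4 ^ (n + 1) := by rw [← mul_pow]; norm_num
        _ ≤ 100 ^ (n + 1) := pow_le_pow_left₀ (by norm_num) (by norm_num) _
    calc (1 : ℝ) ≤ 2 * √((n : ℝ) + 1) * Mn n := h3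
      _ ≤ 100 ^ (n + 1) * Mn n := by
          apply mul_le_mul_of_nonneg_right _ hMn.le
          linarith
  have h3 : (100 * T) ^ (n + 1) ≤ k := by
    refine le_trans ?_ hk
    apply pow_le_pow_left₀ (by positivity)
    rw [hT]
    have e : 100 * (3000 * ((n : ℝ) + 1) / ε ^ 2) = 300000 * ((n : ℝ) + 1) / ε ^ 2 := by ring
    rw [e]
    gcongr
    norm_num
  calc kap (n + 1) * T ^ (n + 1) ≤ (2 * kap n) * T ^ (n + 1) :=
        mul_le_mul_of_nonneg_right (kap_succ_le n) (by positivity)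
    _ ≤ (2 * kap n) * (T ^ (n + 1) * (100 ^ (n + 1) * Mn n)) := by
        apply mul_le_mul_of_nonneg_left _ (by positivity)
        nlinarith [pow_nonneg hT0 (n + 1)]
    _ = 2 * (100 * T) ^ (n + 1) * (kap n * Mn n) := by rw [mul_pow]; ring
    _ ≤ 2 * k * (kap n * Mn n) := by gcongr

/-- the scale of the slices -/
lemma exists_scale {n : ℕ} (hn : 3 ≤ n) (ε : ℝ) (hε0 : 0 < ε) (hε1 : ε ≤ 1)
    (h1 : 1 / ε ≤ Real.log n) (h3 : Real.log n ≤ ε ^ 2 / 200000 * n) (m : ℕ)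
    (hm : (m : ℝ) ^ 3 ≤ ε ^ 2 / 400000 * ((n + 1 : ℕ) / Real.log (n + 1 : ℕ))) :
    ∃ q : ℝ, 1 ≤ q ∧
      16 * (3 * (32 * m / ε + 2) * √m + 4 * (2 * q) + 1) ^ 2 * Real.log n ≤ n ∧
      ∀ t : ℝ, t ^ 2 ≤ ε ^ 2 / 400000 * ((n + 1 : ℕ) / Real.log (n + 1 : ℕ)) → t ≤ q := by
  have hn' : (3 : ℝ) ≤ n := by exact_mod_cast hn
  have hlogpos : 0 < Real.log n := lt_of_lt_of_le (by positivity) h1
  -- the quantity Q
  set Q : ℝ := ε ^ 2 / 200000 * (n / Real.log n) with hQ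
  have hQ1 : 1 ≤ Q := by
    rw [hQ, mul_div_assoc', le_div_iff₀ hlogpos]; linarith
  have hdQ : ε ^ 2 / 400000 * ((n + 1 : ℕ) / Real.log (n + 1 : ℕ)) ≤ Q := by
    have h4 : ((n + 1 : ℕ) : ℝ) / Real.log (n + 1 : ℕ) ≤ (2 * n) / Real.log n := by
      apply div_le_div₀ (by positivity) (by push_cast; linarith) hlogpos
      apply Real.log_le_log (by linarith)
      push_cast; linarith
    calc ε ^ 2 / 400000 * ((n + 1 : ℕ) / Real.log (n + 1 : ℕ)) ≤
          ε ^ 2 / 400000 * ((2 * n) / Real.log n) := by gcongr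
      _ = Q := by rw [hQ]; ring
  have hq2 : √Q ^ 2 = Q := Real.sq_sqrt (by linarith)
  have hq1 : 1 ≤ √Q := Real.one_le_sqrt.mpr hQ1
  have hmq : (m : ℝ) * √m ≤ √Q := by
    apply Real.le_sqrt_of_sq_le
    rw [mul_pow, Real.sq_sqrt (Nat.cast_nonneg _)]
    calc (m : ℝ) ^ 2 * m = (m : ℝ) ^ 3 := by ring
      _ ≤ _ := hm.trans hdQ
  have hsmq : √(m : ℝ) ≤ √Q := by
    rcases Nat.eq_zero_or_pos m with h | h
    · rw [h]; simp
    · have h4 : (1 : ℝ) ≤ m := by exact_mod_cast h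
      have h5 : 0 ≤ √(m : ℝ) := Real.sqrt_nonneg _
      nlinarith
  refine ⟨√Q, hq1, ?_, fun t ht => Real.le_sqrt_of_sq_le (ht.trans hdQ)⟩
  generalize √Q = q at *
  have h4 : 3 * (32 * m / ε + 2) * √m + 4 * (2 * q) + 1 ≤ 111 / ε * q := by
    have e1 : 3 * (32 * m / ε + 2) * √m = 96 / ε * (m * √m) + 6 * √m := by ring
    have h5 : 96 / ε * (m * √m) ≤ 96 / ε * q := by gcongr
    have h6 : (15 : ℝ) ≤ 15 / ε := by
      rw [le_div_iff₀ hε0]; linarith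
    have h7 : 15 * q ≤ 15 / ε * q := by gcongr
    have e2 : 111 / ε * q = 96 / ε * q + 15 / ε * q := by ring
    rw [e1, e2]
    linarith
  have h5 : 0 ≤ 3 * (32 * m / ε + 2) * √m + 4 * (2 * q) + 1 := by positivity
  have h6 : 16 * (3 * (32 * m / ε + 2) * √m + 4 * (2 * q) + 1) ^ 2 * Real.log n ≤
      16 * (111 / ε * q) ^ 2 * Real.log n := by gcongr
  have h7 : 16 * (111 / ε * q) ^ 2 * Real.log n = 16 * 12321 / 200000 * (n : ℝ) := by
    rw [mul_pow, hq2, hQ]; field_simp; ring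
  have h8 : (16 : ℝ) * 12321 / 200000 * n ≤ n := by
    have : (16 : ℝ) * 12321 / 200000 ≤ 1 := by norm_num
    nlinarith
  linarith

/-- the finite form, with explicit conditions -/
theorem flat_sausage_finite {n : ℕ} (hn : 3 ≤ n) (ε : ℝ) (hε0 : 0 < ε) (hε1 : ε ≤ 1)
    (h1 : 1 / ε ≤ Real.log n) (h2 : 32 / ε ≤ n)
    (h3 : Real.log n ≤ ε ^ 2 / 200000 * n) (m : ℕ)
    (hm : (m : ℝ) ^ 3 ≤ ε ^ 2 / 400000 * ((n + 1 : ℕ) / Real.log (n + 1 : ℕ)))
    (C : Set (EuclideanSpace ℝ (Fin (n + 1)))) (X : Finset (EuclideanSpace ℝ (Fin (n + 1))))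
    (hconv : Convex ℝ C) (hCc : IsCompact C) (hcov : C ⊆ ⋃ x ∈ X, closedBall x 1)
    (S : AffineSubspace ℝ (EuclideanSpace ℝ (Fin (n + 1)))) (hS : finrank ℝ S.direction ≤ m)
    (hCS : ∀ x ∈ C, ∃ y ∈ S, ‖x - y‖ ^ 2 ≤
      ε ^ 2 / 400000 * ((n + 1 : ℕ) / Real.log (n + 1 : ℕ)))
    (hlong : (∃ x ∈ C, ∃ y ∈ C, (n + 1 : ℕ) / (ε ^ 2 / 400000) ≤ ‖x - y‖) ∨
      (((n + 1 : ℕ) : ℝ) / (ε ^ 2 / 400000)) ^ (n + 1) ≤ X.card) :
    ∃ (C' : Set (EuclideanSpace ℝ (Fin (n + 1)))) (Y : Finset (EuclideanSpace ℝ (Fin (n + 1)))),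
      Convex ℝ C' ∧ IsCompact C' ∧ (interior C').Nonempty ∧ Y.card = X.card ∧
      Collinear ℝ (Y : Set (EuclideanSpace ℝ (Fin (n + 1)))) ∧
      C' ⊆ ⋃ y ∈ Y, closedBall y (1 : ℝ) ∧
      volume C ≤ ENNReal.ofReal (1 + ε) * volume C' := by
  have hn1 : 1 ≤ n := by omega
  have hkap := kap_pos n
  have hMn := Mn_pos hn1
  obtain ⟨q, hq1, hbound, hqt⟩ := exists_scale hn ε hε0 hε1 h1 h3 m hm
  -- number of balls
  have hk1 : 1 ≤ X.card := by
    rcases hlong with ⟨x, hx, _⟩ | h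
    · have h4 := hcov hx
      simp only [mem_iUnion] at h4
      obtain ⟨y, hy, _⟩ := h4
      exact Finset.card_pos.mpr ⟨y, hy⟩
    · have h4 : (0 : ℝ) < (((n + 1 : ℕ) : ℝ) / (ε ^ 2 / 400000)) ^ (n + 1) := by positivity
      have h5 : (0 : ℝ) < X.card := lt_of_lt_of_le h4 h
      have : 0 < X.card := by exact_mod_cast h5
      omega
  obtain ⟨C', Y, c1, c2, c3, c4, c5, c6, c7⟩ := sausage_exists hn1 X.card hk1
  refine ⟨C', Y, c1, c2, c3, c4, c5, c6, ?_⟩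
  rw [c7, ← ENNReal.ofReal_mul (by linarith)]
  rcases C.eq_empty_or_nonempty with hCe | hCne
  · rw [hCe]; simp
  -- the diameter
  obtain ⟨⟨b, a⟩, ⟨hb, ha⟩, hmax⟩ := (hCc.prod hCc).exists_isMaxOn (hCne.prod hCne)
    (f := fun z : EuclideanSpace ℝ (Fin (n + 1)) × EuclideanSpace ℝ (Fin (n + 1)) =>
      ‖z.1 - z.2‖) (by fun_prop)
  have hab : ∀ x ∈ C, ∀ y ∈ C, ‖x - y‖ ≤ ‖b - a‖ := by
    intro x hx y hy
    exact isMaxOn_iff.mp hmax (x, y) ⟨hx, hy⟩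
  by_cases hlen : 3000 * ((n : ℝ) + 1) / ε ^ 2 ≤ ‖b - a‖
  · have hthin : ∀ x ∈ C, ∀ y ∈ C, ∃ v ∈ S.direction, ‖x - y - v‖ ≤ 2 * q := by
      intro x hx y hy
      obtain ⟨x', hx', hxx⟩ := hCS x hx
      obtain ⟨y', hy', hyy⟩ := hCS y hy
      refine ⟨x' - y', AffineSubspace.vsub_mem_direction hx' hy', ?_⟩
      have h4 : ‖x - x'‖ ≤ q := hqt _ hxx
      have h5 : ‖y - y'‖ ≤ q := hqt _ hyy
      have e : x - y - (x' - y') = (x - x') - (y - y') := by abel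
      rw [e]
      calc ‖(x - x') - (y - y')‖ ≤ ‖x - x'‖ + ‖y - y'‖ := norm_sub_le _ _
        _ ≤ 2 * q := by linarith
    have h2q : 0 ≤ 2 * q := by linarith
    exact main_bound hn ε hε0 hε1 h1 h2 m (2 * q) h2q hbound S.direction hS C hconv hCc
      hthin a b ha hb hab hlen X hcov
  · push Not at hlen
    have e4 : (((n + 1 : ℕ) : ℝ) / (ε ^ 2 / 400000)) = 400000 * ((n : ℝ) + 1) / ε ^ 2 := by
      push_cast; field_simp
    have hk : (400000 * ((n : ℝ) + 1) / ε ^ 2) ^ (n + 1) ≤ X.card := by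
      rcases hlong with ⟨x, hx, y, hy, hxy⟩ | h
      · exfalso
        rw [e4] at hxy
        have h4 := hab x hx y hy
        have h5 : 3000 * ((n : ℝ) + 1) / ε ^ 2 ≤ 400000 * ((n : ℝ) + 1) / ε ^ 2 := by
          gcongr; norm_num
        linarith
      · rwa [e4] at h
    refine (short_body hn ε hε0 C a (fun x hx => (hab x hx a ha).trans hlen.le) X.card hk).trans ?_
    apply ENNReal.ofReal_le_ofReal
    have hσ : 0 ≤ 2 * (X.card : ℝ) * (kap n * Mn n) := by positivity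
    nlinarith

end SC70
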