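import Pool.Agent.SC70.Slice

/-!
# Thin coverings: bodies close to a flat
-/

set_option autoImplicit false

open MeasureTheory Measure Metric Set Module ENNReal
open scoped RealInnerProductSpace

namespace SC70

variable {n : ℕ}


/-- the slab -/
def slab (g : EuclideanSpace ℝ (Fin n)) (s : ℝ) (M : ℕ) (j : ℤ) : Set (EuclideanSpace ℝ (Fin n)) :=
  {y | s + 3 * M * j ≤ ⟪g, y⟫ ∧ ⟪g, y⟫ < s + 3 * M * (j + 1)}

lemma slab_meas (g : (EuclideanSpace ℝ (Fin n))) (s : ℝ) (M : ℕ) (j : ℤ) : MeasurableSet (slab g s M j) := by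
  have h1 : MeasurableSet {y : (EuclideanSpace ℝ (Fin n)) | s + 3 * M * j ≤ ⟪g, y⟫} :=
    (isClosed_le (by fun_prop) (by fun_prop)).measurableSet
  have h2 : MeasurableSet {y : (EuclideanSpace ℝ (Fin n)) | ⟪g, y⟫ < s + 3 * M * (j + 1)} :=
    (isOpen_lt (by fun_prop) (by fun_prop)).measurableSet
  exact h1.inter h2

lemma slab_convex (g : (EuclideanSpace ℝ (Fin n))) (s : ℝ) (M : ℕ) (j : ℤ) : Convex ℝ (slab g s M j) := by
  have hl : IsLinearMap ℝ (fun y : (EuclideanSpace ℝ (Fin n)) => ⟪g, y⟫) :=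
    ⟨fun x y => inner_add_right _ _ _, fun c x => by rw [inner_smul_right]; rfl⟩
  have h1 : Convex ℝ {y : (EuclideanSpace ℝ (Fin n)) | s + 3 * M * j ≤ ⟪g, y⟫} := convex_halfSpace_ge hl _
  have h2 : Convex ℝ {y : (EuclideanSpace ℝ (Fin n)) | ⟪g, y⟫ < s + 3 * M * (j + 1)} := convex_halfSpace_lt hl _
  exact h1.inter h2

lemma mem_slab_floor (g : (EuclideanSpace ℝ (Fin n))) (s : ℝ) (M : ℕ) (hM : 1 ≤ M) (y : (EuclideanSpace ℝ (Fin n))) :
    y ∈ slab g s M ⌊(⟪g, y⟫ - s) / (3 * M)⌋ := by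
  have hM' : (1 : ℝ) ≤ M := by exact_mod_cast hM
  have ha : ((⌊(⟪g, y⟫ - s) / (3 * M)⌋ : ℤ) : ℝ) ≤ (⟪g, y⟫ - s) / (3 * M) := Int.floor_le _
  have hb : (⟪g, y⟫ - s) / (3 * M) < ((⌊(⟪g, y⟫ - s) / (3 * M)⌋ : ℤ) : ℝ) + 1 :=
    Int.lt_floor_add_one _
  rw [le_div_iff₀ (by positivity)] at ha
  rw [div_lt_iff₀ (by positivity)] at hb
  constructor <;> nlinarith

lemma slab_disjoint (g : (EuclideanSpace ℝ (Fin n))) (s : ℝ) (M : ℕ) (hM : 1 ≤ M) {j j' : ℤ} (h : j ≠ j') :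
    Disjoint (slab g s M j) (slab g s M j') := by
  have hM' : (1 : ℝ) ≤ M := by exact_mod_cast hM
  rw [Set.disjoint_left]
  rintro y ⟨h1, h2⟩ ⟨h3, h4⟩
  rcases lt_or_gt_of_ne h with h | h
  · have : (j : ℝ) + 1 ≤ j' := by exact_mod_cast h
    nlinarith
  · have : (j' : ℝ) + 1 ≤ j := by exact_mod_cast h
    nlinarith

theorem slice_bound {R A : ℝ} (hA0 : 0 ≤ A) (hA : CoreBound n R A) (ℓ : ℝ) (hℓ : 0 < ℓ) (M : ℕ)
    (hM : 1 ≤ M) : ∀ (q : ℕ) (f : Fin q → (EuclideanSpace ℝ (Fin n))), (∀ i, ‖f i‖ = 1) →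
    ∀ (ι : Type) (S : Finset ι) (τ : ι → ℝ) (w : ι → (EuclideanSpace ℝ (Fin n))) (C : Set (ℝ × (EuclideanSpace ℝ (Fin n)))), MeasurableSet C →
    Convex ℝ C → ∀ (D : Set (EuclideanSpace ℝ (Fin n))), MeasurableSet D → (∀ z ∈ C, z.2 ∈ D) →
    (∀ z ∈ C, ∃ i ∈ S, (z.1 - τ i) ^ 2 + ‖z.2 - w i‖ ^ 2 ≤ 1) →
    (∀ z ∈ C, ∀ z' ∈ C, (∀ i, |⟪f i, z.2 - z'.2⟫| < 3 * M) → ‖z.2 - z'.2‖ ≤ R) →
    volume C ≤ ENNReal.ofReal (ℓ + 2) *
      (ENNReal.ofReal (2 * A / ℓ * (1 + 2 / M) ^ q * S.card) + 2 * volume D) := by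
  intro q
  induction q with
  | zero =>
    intro f _ ι S τ w C hCm hconv D hDm hCD hcov hthin
    rcases C.eq_empty_or_nonempty with hC | ⟨z₀, hz₀⟩
    · rw [hC]; simp
    · have h := thin_bound hA S τ w C hCm hconv D hDm hCD z₀.2
        (fun z hz => hthin z hz z₀ hz₀ (fun i => i.elim0)) hcov ℓ hℓ
      refine h.trans (le_of_eq ?_)
      rw [pow_zero, mul_one, ENNReal.ofReal_mul (by positivity), ENNReal.ofReal_natCast]
  | succ q ih =>
    intro f hf ι S τ w C hCm hconv D hDm hCD hcov hthin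
    classical
    have hM' : (1 : ℝ) ≤ M := by exact_mod_cast hM
    set g := f 0 with hg
    obtain ⟨s, B, hBS, hMB, hB⟩ := exists_shift S (fun i => ⟪g, w i⟫) M hM
    set Sj : ℤ → Finset ι := fun j => S.filter (fun i => s + 3 * M * j - 1 ≤ ⟪g, w i⟫ ∧
      ⟪g, w i⟫ < s + 3 * M * (j + 1) + 1) with hSj
    set j0 : ι → ℤ := fun i => ⌊(⟪g, w i⟫ - s) / (3 * M)⌋ with hj0
    set J : Finset ℤ := S.biUnion (fun i => {j0 i - 1, j0 i, j0 i + 1}) with hJ
    set Cj : ℤ → Set (ℝ × (EuclideanSpace ℝ (Fin n))) := fun j => C ∩ Prod.snd ⁻¹' (slab g s M j) with hCj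
    set Dj : ℤ → Set (EuclideanSpace ℝ (Fin n)) := fun j => D ∩ slab g s M j with hDj
    have hcovj : ∀ j, ∀ z ∈ Cj j, ∃ i ∈ Sj j, (z.1 - τ i) ^ 2 + ‖z.2 - w i‖ ^ 2 ≤ 1 := by
      intro j z hz
      obtain ⟨i, hi, h1⟩ := hcov z hz.1
      refine ⟨i, ?_, h1⟩
      have h2 : ‖z.2 - w i‖ ≤ 1 := by
        have : ‖z.2 - w i‖ ^ 2 ≤ 1 := by nlinarith [sq_nonneg (z.1 - τ i)]
        nlinarith [norm_nonneg (z.2 - w i)]
      have h3 : |⟪g, z.2 - w i⟫| ≤ 1 := by
        refine (abs_real_inner_le_norm _ _).trans ?_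
        rw [hg, hf 0, one_mul]; exact h2
      rw [inner_sub_right, abs_le] at h3
      obtain ⟨h4, h5⟩ := hz.2
      rw [hSj, Finset.mem_filter]
      exact ⟨hi, by linarith [h3.2], by linarith [h3.1]⟩
    have hCcov : C ⊆ ⋃ j ∈ J, Cj j := by
      intro z hz
      set j : ℤ := ⌊(⟪g, z.2⟫ - s) / (3 * M)⌋ with hj
      have hzj : z ∈ Cj j := ⟨hz, mem_slab_floor g s M hM z.2⟩
      obtain ⟨i, hi, _⟩ := hcovj j z hzj
      simp only [mem_iUnion]
      refine ⟨j, ?_, hzj⟩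
      rw [hJ, Finset.mem_biUnion]
      rw [hSj, Finset.mem_filter] at hi
      obtain ⟨hiS, h3, h4⟩ := hi
      refine ⟨i, hiS, ?_⟩
      have ha : (j0 i : ℝ) ≤ (⟪g, w i⟫ - s) / (3 * M) := Int.floor_le _
      have hb : (⟪g, w i⟫ - s) / (3 * M) < j0 i + 1 := Int.lt_floor_add_one _
      rw [le_div_iff₀ (by positivity)] at ha
      rw [div_lt_iff₀ (by positivity)] at hb
      have h5 : j0 i - 1 ≤ j := by
        by_contra hcon
        push Not at hcon
        have h5 : (j : ℝ) + 1 ≤ j0 i - 1 := by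
          have : j + 1 ≤ j0 i - 1 := by omega
          exact_mod_cast this
        nlinarith
      have h6 : j ≤ j0 i + 1 := by
        by_contra hcon
        push Not at hcon
        have h5 : (j0 i : ℝ) + 1 ≤ j - 1 := by
          have : j0 i + 1 ≤ j - 1 := by omega
          exact_mod_cast this
        nlinarith
      simp only [Finset.mem_insert, Finset.mem_singleton]
      omega
    have hpiece : ∀ j, volume (Cj j) ≤ ENNReal.ofReal (ℓ + 2) *
        (ENNReal.ofReal (2 * A / ℓ * (1 + 2 / M) ^ q * (Sj j).card) + 2 * volume (Dj j)) := by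
      intro j
      apply ih (fun i => f i.succ) (fun i => hf _) ι (Sj j) τ w (Cj j)
      · exact hCm.inter (measurable_snd (slab_meas g s M j))
      · apply hconv.inter
        intro z hz z' hz' a b ha hb hab
        exact slab_convex g s M j hz hz' ha hb hab
      · exact hDm.inter (slab_meas g s M j)
      · intro z hz; exact ⟨hCD z hz.1, hz.2⟩
      · exact hcovj j
      · intro z hz z' hz' h
        apply hthin z hz.1 z' hz'.1
        intro i
        refine Fin.cases ?_ (fun i => ?_) i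
        · rw [← hg, inner_sub_right, abs_lt]
          obtain ⟨h1, h2⟩ := hz.2
          obtain ⟨h3, h4⟩ := hz'.2
          constructor <;> nlinarith
        · exact h i
    have hcount := slab_count S (fun i => ⟪g, w i⟫) M hM s B hBS hMB hB J Sj (by
      intro j i hi
      rw [hSj, Finset.mem_filter] at hi
      exact hi)
    have hDsum : ∑ j ∈ J, volume (Dj j) ≤ volume D := by
      rw [← measure_biUnion_finset]
      · apply measure_mono
        intro y hy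
        simp only [mem_iUnion] at hy
        obtain ⟨j, _, hj⟩ := hy
        exact hj.1
      · intro j _ j' _ hne
        exact (slab_disjoint g s M hM hne).mono inter_subset_right inter_subset_right
      · intro j _
        exact hDm.inter (slab_meas g s M j)
    have hsumE : ∑ j ∈ J, ENNReal.ofReal (2 * A / ℓ * (1 + 2 / M) ^ q * (Sj j).card) =
        ENNReal.ofReal (2 * A / ℓ * (1 + 2 / M) ^ q * ((∑ j ∈ J, (Sj j).card : ℕ) : ℝ)) := by
      rw [Nat.cast_sum, Finset.mul_sum, ENNReal.ofReal_sum_of_nonneg]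
      intro j _
      positivity
    calc volume C ≤ volume (⋃ j ∈ J, Cj j) := measure_mono hCcov
      _ ≤ ∑ j ∈ J, volume (Cj j) := measure_biUnion_finset_le _ _
      _ ≤ ∑ j ∈ J, ENNReal.ofReal (ℓ + 2) *
        (ENNReal.ofReal (2 * A / ℓ * (1 + 2 / M) ^ q * (Sj j).card) + 2 * volume (Dj j)) :=
          Finset.sum_le_sum fun j _ => hpiece j
      _ = ENNReal.ofReal (ℓ + 2) *
        (ENNReal.ofReal (2 * A / ℓ * (1 + 2 / M) ^ q * ((∑ j ∈ J, (Sj j).card : ℕ) : ℝ)) +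
          2 * ∑ j ∈ J, volume (Dj j)) := by
          rw [← Finset.mul_sum, Finset.sum_add_distrib, ← Finset.mul_sum, ← hsumE]
      _ ≤ ENNReal.ofReal (ℓ + 2) *
        (ENNReal.ofReal (2 * A / ℓ * (1 + 2 / M) ^ (q + 1) * S.card) + 2 * volume D) := by
          refine mul_le_mul' le_rfl (add_le_add (ENNReal.ofReal_le_ofReal ?_)
            (mul_le_mul' le_rfl hDsum))
          calc 2 * A / ℓ * (1 + 2 / M) ^ q * ((∑ j ∈ J, (Sj j).card : ℕ) : ℝ)
              ≤ 2 * A / ℓ * (1 + 2 / M) ^ q * ((1 + 2 / M) * S.card) := by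
                apply mul_le_mul_of_nonneg_left hcount (by positivity)
            _ = 2 * A / ℓ * (1 + 2 / M) ^ (q + 1) * S.card := by ring

end SC70
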