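import Pool.Agent.SC70.Long

/-!
# Thin coverings: bodies close to a flat, geometric form
-/

set_option autoImplicit false

open MeasureTheory Measure Metric Set Module ENNReal
open scoped RealInnerProductSpace Pointwise

namespace SC70

variable {n : ℕ}


/-- the linear algebra: distance to the axis of a slice -/
lemma slice_thin (e : EuclideanSpace ℝ (Fin (n + 1))) (he : ‖e‖ = 1)
    (L : EuclideanSpace ℝ (Fin n) →ₗᵢ[ℝ] EuclideanSpace ℝ (Fin (n + 1)))
    (hL : ∀ y, ⟪e, L y⟫ = 0)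
    (hsurj : Function.Surjective (fun z : ℝ × EuclideanSpace ℝ (Fin n) => z.1 • e + L z.2))
    (V : Submodule ℝ (EuclideanSpace ℝ (Fin (n + 1)))) (ρ Len : ℝ) (hρ : 0 ≤ ρ)
    (hLen : 2 * ρ < Len) (v₀ : EuclideanSpace ℝ (Fin (n + 1))) (hv₀ : v₀ ∈ V)
    (hv₀' : ‖Len • e - v₀‖ ≤ ρ) (W : ℝ) (hW : 0 ≤ W)
    (U : Submodule ℝ (EuclideanSpace ℝ (Fin n))) (hU : U = V.comap L.toLinearMap)
    (f : OrthonormalBasis (Fin (finrank ℝ U)) ℝ U)
    (t : ℝ) (y : EuclideanSpace ℝ (Fin n)) (hty : ‖t • e + L y‖ ≤ Len)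
    (v : EuclideanSpace ℝ (Fin (n + 1))) (hv : v ∈ V) (hv' : ‖t • e + L y - v‖ ≤ ρ)
    (hf : ∀ i, |⟪(f i : EuclideanSpace ℝ (Fin n)), y⟫| < W) :
    ‖y‖ ≤ W * √(finrank ℝ U) + 4 * ρ := by
  set yU : EuclideanSpace ℝ (Fin n) := (U.orthogonalProjectionOnto y : EuclideanSpace ℝ (Fin n)) with hyU
  set h : EuclideanSpace ℝ (Fin n) := y - yU with hh
  have hhU : ∀ u ∈ U, ⟪h, u⟫ = 0 := by
    intro u hu
    exact Submodule.starProjection_inner_eq_zero y u hu
  have hLen0 : 0 < Len := by linarith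
  -- the part in `U`
  have h1 : ‖yU‖ ≤ W * √(finrank ℝ U) := by
    have e1 : ‖yU‖ ^ 2 = ∑ i, ⟪(f i : EuclideanSpace ℝ (Fin n)), y⟫ ^ 2 := by
      have h2 := f.sum_sq_norm_inner_right (U.orthogonalProjectionOnto y)
      have h3 : ‖yU‖ = ‖U.orthogonalProjectionOnto y‖ := rfl
      rw [h3, ← h2]
      refine Finset.sum_congr rfl fun i _ => ?_
      rw [Real.norm_eq_abs, sq_abs]
      congr 1
      have h4 : ⟪(f i : EuclideanSpace ℝ (Fin n)), h⟫ = 0 := by
        rw [real_inner_comm]; exact hhU _ (f i).2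
      rw [hh, inner_sub_right] at h4
      have h5 : ⟪f i, U.orthogonalProjectionOnto y⟫ = ⟪(f i : EuclideanSpace ℝ (Fin n)), yU⟫ := rfl
      rw [h5]; linarith
    have h2 : ‖yU‖ ^ 2 ≤ (W * √(finrank ℝ U)) ^ 2 := by
      rw [e1, mul_pow, Real.sq_sqrt (Nat.cast_nonneg _)]
      calc ∑ i, ⟪(f i : EuclideanSpace ℝ (Fin n)), y⟫ ^ 2 ≤ ∑ _i : Fin (finrank ℝ U), W ^ 2 := by
            apply Finset.sum_le_sum
            intro i _
            rw [← sq_abs]
            exact pow_le_pow_left₀ (abs_nonneg _) (hf i).le 2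
        _ = W ^ 2 * (finrank ℝ U) := by
            rw [Finset.sum_const, Finset.card_univ, Fintype.card_fin, nsmul_eq_mul]; ring
    exact abs_le_of_sq_le_sq' h2 (by positivity) |>.2
  -- the orthogonal part
  have h2 : ‖h‖ ≤ 4 * ρ := by
    rcases eq_or_ne h 0 with h0 | h0
    · rw [h0, norm_zero]; linarith
    · have hpos : 0 < ‖h‖ := norm_pos_iff.mpr h0
      have hLh : ‖L h‖ = ‖h‖ := L.norm_map h
      -- L h is orthogonal to the vectors of V orthogonal to e
      have hort : ∀ u ∈ V, ⟪e, u⟫ = 0 → ⟪L h, u⟫ = 0 := by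
        intro u hu heu
        obtain ⟨z, hz⟩ := hsurj u
        simp only at hz
        have hz1 : z.1 = 0 := by
          rw [← hz, inner_add_right, inner_smul_right, hL, real_inner_self_eq_norm_sq, he] at heu
          simpa using heu
        rw [hz1, zero_smul, zero_add] at hz
        rw [← hz, L.inner_map_map]
        apply hhU
        rw [hU, Submodule.mem_comap]
        have : L.toLinearMap z.2 = u := hz
        rw [this]; exact hu
      have hev0 : Len - ρ ≤ ⟪e, v₀⟫ := by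
        have h3 : |⟪e, Len • e - v₀⟫| ≤ ρ := by
          refine (abs_real_inner_le_norm _ _).trans ?_
          rw [he, one_mul]; exact hv₀'
        rw [inner_sub_right, inner_smul_right, real_inner_self_eq_norm_sq, he] at h3
        have := (abs_le.mp h3).2
        linarith
      have hev0pos : 0 < ⟪e, v₀⟫ := by linarith
      have hvn : ‖v‖ ≤ Len + ρ := by
        have : v = (t • e + L y) - (t • e + L y - v) := by abel
        rw [this]
        exact (norm_sub_le _ _).trans (add_le_add hty hv')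
      set lam : ℝ := ⟪e, v⟫ / ⟪e, v₀⟫ with hlam
      have hlam3 : |lam| ≤ 3 := by
        rw [hlam, abs_div, abs_of_pos hev0pos, div_le_iff₀ hev0pos]
        have h3 : |⟪e, v⟫| ≤ Len + ρ := by
          refine (abs_real_inner_le_norm _ _).trans ?_
          rw [he, one_mul]; exact hvn
        linarith
      have h3 : ⟪L h, v⟫ = lam * ⟪L h, v₀⟫ := by
        have h4 := hort (v - lam • v₀) (V.sub_mem hv (V.smul_mem _ hv₀)) (by
          rw [inner_sub_right, inner_smul_right, hlam, div_mul_cancel₀ _ hev0pos.ne', sub_self])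
        rw [inner_sub_right, inner_smul_right] at h4
        linarith
      have hLe : ⟪L h, e⟫ = 0 := by rw [real_inner_comm]; exact hL h
      have h4 : |⟪L h, v₀⟫| ≤ ‖h‖ * ρ := by
        have h5 : ⟪L h, v₀⟫ = -⟪L h, Len • e - v₀⟫ := by
          rw [inner_sub_right, inner_smul_right, hLe]; ring
        rw [h5, abs_neg]
        refine (abs_real_inner_le_norm _ _).trans ?_
        rw [hLh]
        exact mul_le_mul_of_nonneg_left hv₀' hpos.le
      have h5 : |⟪L h, t • e + L y - v⟫| ≤ ‖h‖ * ρ := by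
        refine (abs_real_inner_le_norm _ _).trans ?_
        rw [hLh]
        exact mul_le_mul_of_nonneg_left hv' hpos.le
      have h6 : ⟪L h, t • e + L y⟫ = ‖h‖ ^ 2 := by
        rw [inner_add_right, inner_smul_right, hLe, L.inner_map_map]
        have h7 : y = h + yU := by rw [hh]; abel
        rw [h7, inner_add_right, hhU yU (Submodule.coe_mem _), real_inner_self_eq_norm_sq]
        ring
      have h7 : ‖h‖ ^ 2 = ⟪L h, t • e + L y - v⟫ + lam * ⟪L h, v₀⟫ := by
        rw [← h6, ← h3, ← inner_add_right]; congr 1; abel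
      have h8 : ‖h‖ ^ 2 ≤ ‖h‖ * (4 * ρ) := by
        rw [h7]
        have h9 : lam * ⟪L h, v₀⟫ ≤ 3 * (‖h‖ * ρ) := by
          calc lam * ⟪L h, v₀⟫ ≤ |lam * ⟪L h, v₀⟫| := le_abs_self _
            _ = |lam| * |⟪L h, v₀⟫| := abs_mul _ _
            _ ≤ 3 * (‖h‖ * ρ) := mul_le_mul hlam3 h4 (abs_nonneg _) (by norm_num)
        have h10 := (le_abs_self _).trans h5
        linarith
      nlinarith
  calc ‖y‖ = ‖yU + h‖ := by rw [hh]; congr 1; abel
    _ ≤ ‖yU‖ + ‖h‖ := norm_add_le _ _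
    _ ≤ _ := add_le_add h1 h2

/-- **Bodies close to a flat.** -/
theorem flat_bound (hn : 1 ≤ n) {R A : ℝ} (hA0 : 0 ≤ A) (hA : CoreBound n R A) (ℓ : ℝ)
    (hℓ : 0 < ℓ) (M : ℕ) (hM : 1 ≤ M) (m : ℕ) (ρ : ℝ) (hρ : 0 ≤ ρ)
    (hR : 3 * M * √m + 4 * ρ ≤ R) (V : Submodule ℝ (EuclideanSpace ℝ (Fin (n + 1))))
    (hV : finrank ℝ V ≤ m) (C : Set (EuclideanSpace ℝ (Fin (n + 1)))) (hconv : Convex ℝ C)
    (hCc : IsCompact C) (hthin : ∀ x ∈ C, ∀ y ∈ C, ∃ v ∈ V, ‖x - y - v‖ ≤ ρ)
    (a b : EuclideanSpace ℝ (Fin (n + 1))) (ha : a ∈ C) (hb : b ∈ C)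
    (hab : ∀ x ∈ C, ∀ y ∈ C, ‖x - y‖ ≤ ‖b - a‖) (hlen : 2 * ρ < ‖b - a‖)
    (X : Finset (EuclideanSpace ℝ (Fin (n + 1)))) (hcov : C ⊆ ⋃ x ∈ X, closedBall x 1) :
    volume C ≤ ENNReal.ofReal (ℓ + 2) *
      (ENNReal.ofReal (2 * A / ℓ * (1 + 2 / M) ^ m * X.card) +
        2 * (ENNReal.ofReal (Real.exp 1 * (n + 1) / ‖b - a‖) * volume C)) := by
  set Len : ℝ := ‖b - a‖ with hLen
  have hLen0 : 0 < Len := by linarith
  have hM' : (1 : ℝ) ≤ M := by exact_mod_cast hM
  set e : EuclideanSpace ℝ (Fin (n + 1)) := (1 / Len) • (b - a) with he'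
  have he : ‖e‖ = 1 := by
    rw [he', norm_smul, Real.norm_of_nonneg (by positivity), ← hLen]; field_simp
  have hLe : Len • e = b - a := by
    rw [he', smul_smul]
    have : Len * (1 / Len) = 1 := by field_simp
    rw [this, one_smul]
  obtain ⟨L, hL, hmp0, hsurj⟩ := exists_frame e he
  set χ : ℝ × EuclideanSpace ℝ (Fin n) → EuclideanSpace ℝ (Fin (n + 1)) :=
    fun z => a + (z.1 • e + L z.2) with hχ
  have hmp : MeasurePreserving χ volume volume :=
    (measurePreserving_add_left volume a).comp hmp0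
  have hLc : Continuous L := L.continuous
  have hχc : Continuous χ := by
    simp only [hχ]
    fun_prop
  have hdist : ∀ z z', ‖χ z - χ z'‖ ^ 2 = (z.1 - z'.1) ^ 2 + ‖z.2 - z'.2‖ ^ 2 := by
    intro z z'
    rw [← frame_norm he L hL]
    congr 2
    simp only [hχ, sub_smul, map_sub]
    abel
  have hχsurj : ∀ x, ∃ z, χ z = x := by
    intro x
    obtain ⟨z, hz⟩ := hsurj (x - a)
    refine ⟨z, ?_⟩
    simp only [hχ]
    simp only at hz
    rw [hz]; abel
  choose ζ hζ using hχsurj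
  set C1 : Set (ℝ × EuclideanSpace ℝ (Fin n)) := χ ⁻¹' C with hC1
  have hC1m : MeasurableSet C1 := hχc.measurable hCc.measurableSet
  have hvol : volume C1 = volume C := hmp.measure_preimage hCc.measurableSet.nullMeasurableSet
  have hC1conv : Convex ℝ C1 := by
    intro z hz z' hz' α β hα hβ hαβ
    have h1 := hconv hz hz' hα hβ hαβ
    have h2 : χ (α • z + β • z') = α • χ z + β • χ z' := by
      simp only [hχ, Prod.fst_add, Prod.smul_fst, Prod.snd_add, Prod.smul_snd, smul_eq_mul,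
        map_add, map_smul, add_smul, mul_smul, smul_add]
      have : a = α • a + β • a := by rw [← add_smul, hαβ, one_smul]
      nth_rewrite 1 [this]
      abel
    rw [hC1, mem_preimage, h2]
    exact h1
  have h0 : χ (0, 0) = a := by simp [hχ]
  have h1 : χ (Len, 0) = b := by simp [hχ, hLe]
  have h0C : ((0 : ℝ), (0 : EuclideanSpace ℝ (Fin n))) ∈ C1 := by
    rw [hC1, mem_preimage, h0]; exact ha
  have h1C : (Len, (0 : EuclideanSpace ℝ (Fin n))) ∈ C1 := by
    rw [hC1, mem_preimage, h1]; exact hb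
  have hC1c : IsCompact C1 := by
    apply Metric.isCompact_of_isClosed_isBounded (hCc.isClosed.preimage hχc)
    rw [isBounded_iff_forall_norm_le]
    refine ⟨Len, fun z hz => ?_⟩
    have h2 := hdist z (0, 0)
    rw [h0] at h2
    have h3 : ‖χ z - a‖ ≤ Len := hab _ hz _ ha
    have h4 : ‖χ z - a‖ ^ 2 ≤ Len ^ 2 := pow_le_pow_left₀ (norm_nonneg _) h3 2
    simp only [sub_zero] at h2
    rw [Prod.norm_def]
    apply max_le
    · rw [Real.norm_eq_abs]
      apply abs_le_of_sq_le_sq _ hLen0.le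
      nlinarith [sq_nonneg ‖z.2‖]
    · have : ‖z.2‖ ^ 2 ≤ Len ^ 2 := by nlinarith [sq_nonneg z.1]
      exact abs_le_of_sq_le_sq' this hLen0.le |>.2
  set D : Set (EuclideanSpace ℝ (Fin n)) := Prod.snd '' C1 with hD
  have hDm : MeasurableSet D := (hC1c.image continuous_snd).measurableSet
  have hDv : volume D ≤ ENNReal.ofReal (Real.exp 1 * (n + 1) / Len) * volume C := by
    rw [← hvol]
    apply long_chord hn C1 hC1m hC1conv D hDm _ Len hLen0 h0C h1C
    rintro y ⟨z, hz, rfl⟩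
    exact ⟨z.1, hz⟩
  obtain ⟨v₀, hv₀, hv₀'⟩ := hthin b hb a ha
  set U : Submodule ℝ (EuclideanSpace ℝ (Fin n)) := V.comap L.toLinearMap with hU
  have hUm : finrank ℝ U ≤ m := by
    refine le_trans ?_ hV
    have hinj : Function.Injective (L.toLinearMap.restrict (p := U) (q := V) (fun x hx => hx)) := by
      intro x y hxy
      have : L (x : EuclideanSpace ℝ (Fin n)) = L y := congrArg Subtype.val hxy
      exact Subtype.ext (L.injective this)
    exact LinearMap.finrank_le_finrank_of_injective hinj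
  set f := stdOrthonormalBasis ℝ U with hf
  have hmain := slice_bound hA0 hA ℓ hℓ M hM (finrank ℝ U)
    (fun i => (f i : EuclideanSpace ℝ (Fin n)))
    (fun i => by
      exact f.orthonormal.1 i)
    (EuclideanSpace ℝ (Fin (n + 1))) X (fun x => (ζ x).1) (fun x => (ζ x).2) C1 hC1m hC1conv
    D hDm (fun z hz => ⟨z, hz, rfl⟩) (by
      intro z hz
      have h2 := hcov hz
      simp only [mem_iUnion] at h2
      obtain ⟨x, hx, h3⟩ := h2
      refine ⟨x, hx, ?_⟩
      rw [mem_closedBall, dist_eq_norm] at h3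
      rw [← hdist, hζ]
      nlinarith [norm_nonneg (χ z - x)]) (by
      intro z hz z' hz' h2
      obtain ⟨v, hv, hv'⟩ := hthin (χ z) hz (χ z') hz'
      have e1 : χ z - χ z' = (z.1 - z'.1) • e + L (z.2 - z'.2) := by
        simp only [hχ, sub_smul, map_sub]; abel
      rw [e1] at hv'
      have h3 := slice_thin e he L hL hsurj V ρ Len hρ hlen v₀ hv₀ (by rw [hLe]; exact hv₀')
        (3 * M) (by positivity) U hU f (z.1 - z'.1) (z.2 - z'.2)
        (by rw [← e1]; exact hab _ hz _ hz') v hv hv' h2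
      refine h3.trans (le_trans ?_ hR)
      have h4 : √(finrank ℝ U : ℝ) ≤ √m := Real.sqrt_le_sqrt (by exact_mod_cast hUm)
      gcongr)
  rw [hvol] at hmain
  refine hmain.trans ?_
  refine mul_le_mul' le_rfl (add_le_add (ENNReal.ofReal_le_ofReal ?_) (mul_le_mul' le_rfl hDv))
  have h2 : (1 + 2 / (M : ℝ)) ^ (finrank ℝ U) ≤ (1 + 2 / M) ^ m := by
    apply pow_le_pow_right₀ _ hUm
    have : 0 ≤ 2 / (M : ℝ) := by positivity
    linarith
  gcongr

end SC70
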