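import Pool.Agent.SC70.Num

/-!
# Thin coverings: the main estimate for long bodies
-/

set_option autoImplicit false

open MeasureTheory Measure Metric Set Module ENNReal

namespace SC70

variable {n : ℕ}


lemma delta_le (n : ℕ) (ε Len : ℝ) (hε0 : 0 < ε) (hε1 : ε ≤ 1)
    (hlen : 3000 * ((n : ℝ) + 1) / ε ^ 2 ≤ Len) :
    2 * (32 / ε + 2) * (Real.exp 1 * (n + 1) / Len) ≤ ε / 16 := by
  have hpos : 0 < 3000 * ((n : ℝ) + 1) / ε ^ 2 := by positivity
  have hLen0 : 0 < Len := by linarith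
  have h3 : 32 / ε + 2 ≤ 34 / ε := by
    have : (2 : ℝ) ≤ 2 / ε := by
      rw [le_div_iff₀ hε0]; linarith
    have e : 34 / ε = 32 / ε + 2 / ε := by ring
    linarith
  have h4 : Real.exp 1 ≤ 11 / 4 := by have := Real.exp_one_lt_d9; linarith
  have h6 : 2 * (32 / ε + 2) * (Real.exp 1 * (n + 1) / Len) ≤
      2 * (34 / ε) * (11 / 4 * (n + 1) / Len) := by
    gcongr
  refine h6.trans ?_
  have h7 : 2 * (34 / ε) * (11 / 4 * (n + 1) / Len) = 187 * (n + 1) / ε / Len := by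
    field_simp; norm_num
  rw [h7, div_le_iff₀ hLen0]
  calc 187 * ((n : ℝ) + 1) / ε ≤ 3000 / 16 * ((n : ℝ) + 1) / ε := by gcongr; norm_num
    _ = ε / 16 * (3000 * ((n : ℝ) + 1) / ε ^ 2) := by field_simp
    _ ≤ ε / 16 * Len := by gcongr

/-- the final computation with real numbers -/
lemma final_real (hn : 3 ≤ n) (ε : ℝ) (hε0 : 0 < ε) (hε1 : ε ≤ 1) (h2 : 32 / ε ≤ n) (m M : ℕ)
    (hM1 : 1 ≤ M) (hMlow : 32 * (m : ℝ) / ε ≤ M) (er : ℝ) (her0 : 0 ≤ er) (her : er ≤ ε / 8)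
    (A : ℝ) (hA : A = (1 / √(n * Real.exp 1)) * (kap n * (1 + er))) (v k Len : ℝ) (hv0 : 0 ≤ v)
    (hk0 : 0 ≤ k) (hlen : 3000 * ((n : ℝ) + 1) / ε ^ 2 ≤ Len)
    (hreal : v ≤ (32 / ε + 2) * (2 * A / (32 / ε) * (1 + 2 / M) ^ m * k +
      2 * (Real.exp 1 * (n + 1) / Len * v))) :
    v ≤ (1 + ε) * (2 * k * (kap n * Mn n)) := by
  have hn1 : 1 ≤ n := by omega
  have hn' : (3 : ℝ) ≤ n := by exact_mod_cast hn
  have hM' : (1 : ℝ) ≤ M := by exact_mod_cast hM1
  have hkap := kap_pos n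
  have hMn := Mn_pos hn1
  have hpos : 0 < 3000 * ((n : ℝ) + 1) / ε ^ 2 := by positivity
  have hLen0 : 0 < Len := by linarith
  have hδle := delta_le n ε Len hε0 hε1 hlen
  set δ : ℝ := 2 * (32 / ε + 2) * (Real.exp 1 * (n + 1) / Len) with hδ
  have hδ0 : 0 ≤ δ := by positivity
  have hv1 : v * (1 - δ) ≤ (32 / ε + 2) * (2 * A / (32 / ε) * (1 + 2 / M) ^ m * k) := by
    have e : (32 / ε + 2) * (2 * (Real.exp 1 * (n + 1) / Len * v)) = δ * v := by rw [hδ]; ring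
    linarith
  have hfac : (32 / ε + 2) * (2 * A / (32 / ε) * (1 + 2 / M) ^ m * k) ≤
      (2 * k * (kap n * Mn n)) * Real.exp (33 * ε / 128) := by
    have f1 : (1 + ε / 16) ≤ Real.exp (ε / 16) := by
      have := Real.add_one_le_exp (ε / 16); linarith
    have f2 : (1 + 2 / (M : ℝ)) ^ m ≤ Real.exp (ε / 16) := by
      have h3 : 1 + 2 / (M : ℝ) ≤ Real.exp (2 / M) := by
        have := Real.add_one_le_exp (2 / (M : ℝ)); linarith
      calc (1 + 2 / (M : ℝ)) ^ m ≤ (Real.exp (2 / M)) ^ m := by gcongr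
        _ = Real.exp (m * (2 / M)) := by rw [← Real.exp_nat_mul]
        _ ≤ Real.exp (ε / 16) := by
            apply Real.exp_le_exp.mpr
            rw [mul_div_assoc', div_le_iff₀ (by linarith)]
            rw [div_le_iff₀ hε0] at hMlow
            linarith
    have f3 : 1 + er ≤ Real.exp (ε / 8) := by
      have := Real.add_one_le_exp (ε / 8)
      linarith
    have f4 : 1 / √(n * Real.exp 1) ≤ Mn n * Real.exp (ε / 128) := by
      refine (c0_le hn1).trans (mul_le_mul_of_nonneg_left (Real.exp_le_exp.mpr ?_) hMn.le)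
      rw [div_le_iff₀ hε0] at h2
      rw [div_le_div_iff₀ (by positivity) (by norm_num)]
      linarith
    have e1 : (32 / ε + 2) * (2 * A / (32 / ε) * (1 + 2 / M) ^ m * k) =
        2 * k * kap n * ((1 + ε / 16) * (1 + 2 / (M : ℝ)) ^ m * (1 + er) *
          (1 / √(n * Real.exp 1))) := by
      rw [hA]; field_simp; ring
    have e2 : Real.exp (33 * ε / 128) =
        Real.exp (ε / 16) * Real.exp (ε / 16) * Real.exp (ε / 8) * Real.exp (ε / 128) := by
      rw [← Real.exp_add, ← Real.exp_add, ← Real.exp_add]; congr 1; ring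
    rw [e1, e2]
    calc 2 * k * kap n * ((1 + ε / 16) * (1 + 2 / (M : ℝ)) ^ m * (1 + er) *
          (1 / √(n * Real.exp 1)))
        ≤ 2 * k * kap n * (Real.exp (ε / 16) * Real.exp (ε / 16) * Real.exp (ε / 8) *
          (Mn n * Real.exp (ε / 128))) := by
          gcongr
      _ = _ := by ring
  have hσ : 0 ≤ 2 * k * (kap n * Mn n) := by positivity
  set x : ℝ := 49 * ε / 128 with hx
  have hv2 : v ≤ (2 * k * (kap n * Mn n)) * Real.exp x := by
    have h3 : 1 ≤ (1 - δ) * Real.exp (ε / 8) := by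
      have h4 := Real.add_one_le_exp (ε / 8)
      have h5 : 1 - ε / 16 ≤ 1 - δ := by linarith
      calc (1 : ℝ) ≤ (1 - ε / 16) * (ε / 8 + 1) := by nlinarith
        _ ≤ (1 - δ) * Real.exp (ε / 8) := by
            apply mul_le_mul h5 h4 (by positivity) (by linarith)
    have h6 : Real.exp x = Real.exp (33 * ε / 128) * Real.exp (ε / 8) := by
      rw [← Real.exp_add]; congr 1; rw [hx]; ring
    have h7 := hv1.trans hfac
    calc v = v * 1 := (mul_one v).symm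
      _ ≤ v * ((1 - δ) * Real.exp (ε / 8)) := mul_le_mul_of_nonneg_left h3 hv0
      _ = (v * (1 - δ)) * Real.exp (ε / 8) := by ring
      _ ≤ ((2 * k * (kap n * Mn n)) * Real.exp (33 * ε / 128)) * Real.exp (ε / 8) :=
          mul_le_mul_of_nonneg_right h7 (Real.exp_pos _).le
      _ = _ := by rw [h6]; ring
  have hexp : Real.exp x ≤ 1 + ε := by
    have hx0 : 0 ≤ x := by positivity
    have hx1 : x < 1 := by rw [hx]; linarith
    have h3 := Real.exp_bound_div_one_sub_of_interval hx0 hx1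
    refine h3.trans ?_
    rw [div_le_iff₀ (by linarith), hx]
    nlinarith
  calc v ≤ (2 * k * (kap n * Mn n)) * Real.exp x := hv2
    _ ≤ (2 * k * (kap n * Mn n)) * (1 + ε) := mul_le_mul_of_nonneg_left hexp hσ
    _ = _ := by ring

theorem main_bound (hn : 3 ≤ n) (ε : ℝ) (hε0 : 0 < ε) (hε1 : ε ≤ 1) (h1 : 1 / ε ≤ Real.log n)
    (h2 : 32 / ε ≤ n) (m : ℕ) (ρ : ℝ) (hρ : 0 ≤ ρ)
    (hQ : 16 * (3 * (32 * m / ε + 2) * √m + 4 * ρ + 1) ^ 2 * Real.log n ≤ n)
    (V : Submodule ℝ (EuclideanSpace ℝ (Fin (n + 1)))) (hV : finrank ℝ V ≤ m)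
    (C : Set (EuclideanSpace ℝ (Fin (n + 1)))) (hconv : Convex ℝ C)
    (hCc : IsCompact C) (hthin : ∀ x ∈ C, ∀ y ∈ C, ∃ v ∈ V, ‖x - y - v‖ ≤ ρ)
    (a b : EuclideanSpace ℝ (Fin (n + 1))) (ha : a ∈ C) (hb : b ∈ C)
    (hab : ∀ x ∈ C, ∀ y ∈ C, ‖x - y‖ ≤ ‖b - a‖) (hlen : 3000 * (n + 1) / ε ^ 2 ≤ ‖b - a‖)
    (X : Finset (EuclideanSpace ℝ (Fin (n + 1)))) (hcov : C ⊆ ⋃ x ∈ X, closedBall x 1) :
    volume C ≤ ENNReal.ofReal ((1 + ε) * (2 * X.card * (kap n * Mn n))) := by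
  have hn1 : 1 ≤ n := by omega
  have hn' : (3 : ℝ) ≤ n := by exact_mod_cast hn
  have hlogpos : 0 < Real.log n := lt_of_lt_of_le (by positivity) h1
  set M : ℕ := ⌈32 * (m : ℝ) / ε⌉₊ + 1 with hM
  have hM1 : 1 ≤ M := by omega
  have hMlow : 32 * (m : ℝ) / ε ≤ M := by
    rw [hM]; push_cast
    have := Nat.le_ceil (32 * (m : ℝ) / ε)
    linarith
  have hMup : (M : ℝ) ≤ 32 * m / ε + 2 := by
    rw [hM]; push_cast
    have := (Nat.ceil_lt_add_one (by positivity : 0 ≤ 32 * (m : ℝ) / ε)).le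
    linarith
  have hM' : (1 : ℝ) ≤ M := by exact_mod_cast hM1
  set R : ℝ := 3 * M * √m + 4 * ρ + 1 with hR
  have hR1 : 1 ≤ R := by
    have : 0 ≤ 3 * (M : ℝ) * √m := by positivity
    linarith
  have hRle : R ≤ 3 * (32 * m / ε + 2) * √m + 4 * ρ + 1 := by
    rw [hR]; gcongr
  have hR2 : 16 * R ^ 2 * Real.log n ≤ n := by
    refine le_trans ?_ hQ
    gcongr
  obtain ⟨herr, hRn⟩ := err_le hn R ε hR1 hε0 hR2 h1 h2
  have herr0 : 0 ≤ err n R := by unfold err; positivity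
  have hkap := kap_pos n
  have hMn := Mn_pos hn1
  set A : ℝ := (1 / √(n * Real.exp 1)) * (kap n * (1 + err n R)) with hA
  have hA0 : 0 ≤ A := by positivity
  have hcore : CoreBound n R A := core_wide hn R hR1 hRn
  set Len : ℝ := ‖b - a‖ with hLen
  have hLenbig : 3000 * ((n : ℝ) + 1) ≤ Len := by
    refine le_trans ?_ hlen
    rw [le_div_iff₀ (by positivity)]
    have : ε ^ 2 ≤ 1 := by nlinarith
    nlinarith
  have hLen0 : 0 < Len := by nlinarith
  have hρLen : 2 * ρ < Len := by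
    have h3 : 4 * ρ ≤ R := by
      have : 0 ≤ 3 * (M : ℝ) * √m := by positivity
      linarith
    have h4 : R ≤ n := by nlinarith
    linarith
  set ℓ : ℝ := 32 / ε with hℓ
  have hℓ0 : 0 < ℓ := by positivity
  have hmain := flat_bound hn1 hA0 hcore ℓ hℓ0 M hM1 m ρ hρ (by linarith) V hV C hconv hCc hthin
    a b ha hb hab hρLen X hcov
  rw [← hLen] at hmain
  have hfin : volume C ≠ ⊤ := hCc.measure_lt_top.ne
  set v : ℝ := (volume C).toReal with hv
  have hv0 : 0 ≤ v := ENNReal.toReal_nonneg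
  have hvv : volume C = ENNReal.ofReal v := (ENNReal.ofReal_toReal hfin).symm
  set k : ℝ := (X.card : ℝ) with hk
  have hk0 : 0 ≤ k := Nat.cast_nonneg _
  have hreal : v ≤ (ℓ + 2) * (2 * A / ℓ * (1 + 2 / M) ^ m * k +
      2 * (Real.exp 1 * (n + 1) / Len * v)) := by
    have p0 : 0 ≤ ℓ + 2 := by linarith
    have hMinv : 0 ≤ 1 + 2 / (M : ℝ) := by
      have : 0 ≤ 2 / (M : ℝ) := div_nonneg (by norm_num) (by linarith)
      linarith
    have p1 : 0 ≤ 2 * A / ℓ * (1 + 2 / (M : ℝ)) ^ m * k :=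
      mul_nonneg (mul_nonneg (div_nonneg (mul_nonneg (by norm_num) hA0) hℓ0.le)
        (pow_nonneg hMinv m)) hk0
    have p2 : 0 ≤ Real.exp 1 * ((n : ℝ) + 1) / Len := by positivity
    have p3 : 0 ≤ 2 * (Real.exp 1 * ((n : ℝ) + 1) / Len * v) := by positivity
    have e1 : ENNReal.ofReal ((ℓ + 2) * (2 * A / ℓ * (1 + 2 / M) ^ m * k +
          2 * (Real.exp 1 * (n + 1) / Len * v))) = ENNReal.ofReal (ℓ + 2) *
      (ENNReal.ofReal (2 * A / ℓ * (1 + 2 / M) ^ m * k) +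
        2 * (ENNReal.ofReal (Real.exp 1 * (n + 1) / Len) * volume C)) := by
      rw [hvv, ENNReal.ofReal_mul p0, ENNReal.ofReal_add p1 p3,
        ENNReal.ofReal_mul (by norm_num : (0 : ℝ) ≤ 2), ENNReal.ofReal_mul p2,
        ENNReal.ofReal_ofNat]
    rw [← e1] at hmain
    nth_rewrite 1 [hvv] at hmain
    exact (ENNReal.ofReal_le_ofReal_iff (mul_nonneg p0 (add_nonneg p1 p3))).mp hmain
  rw [hvv]
  apply ENNReal.ofReal_le_ofReal
  exact final_real hn ε hε0 hε1 h2 m M hM1 hMlow (err n R) herr0 herr A hA v k Len hv0 hk0 hlen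
    hreal

end SC70
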