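import Pool.Agent.SC70.Geo
import Pool.Agent.SC70.Sausage
import Pool.Agent.SC70.WideCore

/-!
# Thin coverings: numerical estimates
-/

set_option autoImplicit false

open MeasureTheory Measure Metric Set Module ENNReal

namespace SC70

variable {n : ℕ}

lemma log_le_half_sub_inv {x : ℝ} (hx : 1 ≤ x) : Real.log x ≤ (x - x⁻¹) / 2 := by
  have h0 : 0 ≤ Real.log x := Real.log_nonneg hx
  have h1 := Real.self_le_sinh_iff.mpr h0
  rwa [Real.sinh_eq, Real.exp_neg, Real.exp_log (by linarith)] at h1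

lemma Mn_pos (hn : 1 ≤ n) : 0 < Mn n := by
  have hn' : (1 : ℝ) ≤ n := by exact_mod_cast hn
  unfold Mn; positivity

lemma Mn_sq (_hn : 1 ≤ n) : Mn n ^ 2 = ((n : ℝ) / (n + 1)) ^ n * (1 / (n + 1)) := by
  unfold Mn
  rw [mul_pow, div_pow, Real.sq_sqrt (by positivity), one_pow, ← pow_mul, mul_comm n 2, pow_mul,
    Real.sq_sqrt (by positivity)]

lemma c0_le (hn : 1 ≤ n) : 1 / √(n * Real.exp 1) ≤ Mn n * Real.exp (1 / (4 * n)) := by
  have hn' : (1 : ℝ) ≤ n := by exact_mod_cast hn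
  have hM := Mn_pos hn
  have h1 : (1 / √(n * Real.exp 1)) ^ 2 ≤ (Mn n * Real.exp (1 / (4 * n))) ^ 2 := by
    rw [mul_pow, Mn_sq hn, div_pow, Real.sq_sqrt (by positivity), one_pow, ← Real.exp_nat_mul]
    have hx : (1 : ℝ) ≤ ((n : ℝ) + 1) / n := by
      rw [le_div_iff₀ (by linarith)]; linarith
    have h2 := log_le_half_sub_inv hx
    have h3 : ((n : ℝ) + 1) * Real.log (((n : ℝ) + 1) / n) ≤ 1 + 1 / (2 * n) := by
      have e : ((n : ℝ) + 1) * ((((n : ℝ) + 1) / n - (((n : ℝ) + 1) / n)⁻¹) / 2) =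
          1 + 1 / (2 * n) := by
        field_simp
        ring
      rw [← e]
      exact mul_le_mul_of_nonneg_left h2 (by linarith)
    have h4 : (((n : ℝ) + 1) / n) ^ (n + 1) ≤ Real.exp 1 * Real.exp (1 / (2 * n)) := by
      rw [← Real.exp_add, ← Real.exp_log (by positivity : 0 < (((n : ℝ) + 1) / n) ^ (n + 1)),
        Real.log_pow]
      apply Real.exp_le_exp.mpr
      push_cast
      exact h3
    have e2 : ((2 : ℕ) : ℝ) * (1 / (4 * n)) = 1 / (2 * n) := by push_cast; field_simp; norm_num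
    rw [e2]
    have h5 : ((n : ℝ) / (n + 1)) ^ n * (1 / (n + 1)) = 1 / (n * (((n : ℝ) + 1) / n) ^ (n + 1)) := by
      rw [div_pow, div_pow, pow_succ, pow_succ]
      field_simp
    rw [h5, div_mul_eq_mul_div, one_mul, div_le_div_iff₀ (by positivity) (by positivity)]
    nlinarith [mul_le_mul_of_nonneg_left h4 (by linarith : (0 : ℝ) ≤ n)]
  exact abs_le_of_sq_le_sq' h1 (by positivity) |>.2

lemma Mn_lower (hn : 1 ≤ n) : 1 ≤ 2 * √((n : ℝ) + 1) * Mn n := by
  have hn' : (1 : ℝ) ≤ n := by exact_mod_cast hn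
  have hM := Mn_pos hn
  have h1 : (1 : ℝ) ^ 2 ≤ (2 * √((n : ℝ) + 1) * Mn n) ^ 2 := by
    rw [mul_pow, mul_pow, Real.sq_sqrt (by positivity), Mn_sq hn]
    have h2 := exp_neg_one_le hn
    have h3 : (1 : ℝ) / 4 ≤ Real.exp (-1) := by
      rw [Real.exp_neg, one_div]
      apply inv_anti₀ (Real.exp_pos _)
      have := Real.exp_one_lt_d9
      linarith
    have h4 : (2 : ℝ) ^ 2 * (n + 1) * (((n : ℝ) / (n + 1)) ^ n * (1 / (n + 1))) =
        4 * ((n : ℝ) / (n + 1)) ^ n := by field_simp; norm_num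
    rw [h4]
    linarith
  have := abs_le_of_sq_le_sq' h1 (by positivity) |>.2
  exact this

lemma sqrt_pow_le_exp {x : ℝ} (_hx : x ≤ 1) (n : ℕ) : √(1 - x) ^ n ≤ Real.exp (-(n * x / 2)) := by
  have h1 : √(1 - x) ≤ Real.exp (-(x / 2)) := by
    apply Real.sqrt_le_iff.mpr
    refine ⟨(Real.exp_pos _).le, ?_⟩
    rw [← Real.exp_nat_mul]
    have := Real.add_one_le_exp (-x)
    have e : ((2 : ℕ) : ℝ) * -(x / 2) = -x := by push_cast; ring
    rw [e]; linarith
  calc √(1 - x) ^ n ≤ (Real.exp (-(x / 2))) ^ n := pow_le_pow_left₀ (Real.sqrt_nonneg _) h1 n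
    _ = Real.exp (-(n * x / 2)) := by rw [← Real.exp_nat_mul]; congr 1; ring

lemma err_le (hn : 3 ≤ n) (R ε : ℝ) (hR : 1 ≤ R) (hε : 0 < ε)
    (h : 16 * R ^ 2 * Real.log n ≤ n) (h1 : 1 / ε ≤ Real.log n) (h2 : 32 / ε ≤ n) :
    err n R ≤ ε / 8 ∧ R ^ 2 ≤ n := by
  have hn' : (3 : ℝ) ≤ n := by exact_mod_cast hn
  have hlog1 : 1 ≤ Real.log n := by
    rw [← Real.log_exp 1]
    apply Real.log_le_log (Real.exp_pos _)
    have := Real.exp_one_lt_d9
    linarith
  have hR0 : 0 < R := by linarith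
  have hR2 : 1 ≤ R ^ 2 := by nlinarith
  have hRn : R ^ 2 ≤ n := by nlinarith
  refine ⟨?_, hRn⟩
  have hRn2 : R ≤ n := by nlinarith
  have t1 : R ^ 2 / (2 * n) ≤ ε / 32 := by
    rw [div_le_iff₀ (by positivity)]
    have h3 : 1 ≤ ε * Real.log n := by
      rw [div_le_iff₀ hε] at h1; linarith
    have h4 : 16 * R ^ 2 ≤ ε * n := by
      calc 16 * R ^ 2 ≤ 16 * R ^ 2 * (ε * Real.log n) := by nlinarith
        _ = ε * (16 * R ^ 2 * Real.log n) := by ring
        _ ≤ ε * n := mul_le_mul_of_nonneg_left h hε.le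
    nlinarith
  have hnpos : (0 : ℝ) < n := by linarith
  have t2 : √(1 - 1 / (4 * R ^ 2)) ^ n ≤ 1 / (n : ℝ) ^ 2 := by
    refine (sqrt_pow_le_exp (x := 1 / (4 * R ^ 2)) (by
      rw [div_le_one (by positivity)]; linarith) n).trans ?_
    have h3 : 2 * Real.log n ≤ n * (1 / (4 * R ^ 2)) / 2 := by
      rw [show (n : ℝ) * (1 / (4 * R ^ 2)) / 2 = n / (8 * R ^ 2) by field_simp; norm_num,
        le_div_iff₀ (by positivity)]
      linarith
    calc Real.exp (-(n * (1 / (4 * R ^ 2)) / 2)) ≤ Real.exp (-(2 * Real.log n)) :=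
          Real.exp_le_exp.mpr (by linarith)
      _ = 1 / (n : ℝ) ^ 2 := by
          rw [Real.exp_neg, one_div]
          congr 1
          rw [show 2 * Real.log n = ((2 : ℕ) : ℝ) * Real.log n by push_cast; ring,
            Real.exp_nat_mul, Real.exp_log hnpos]
  have t3 : √(1 - 1 / (2 * R ^ 2)) ^ n ≤ 1 / (n : ℝ) ^ 4 := by
    refine (sqrt_pow_le_exp (x := 1 / (2 * R ^ 2)) (by
      rw [div_le_one (by positivity)]; linarith) n).trans ?_
    have h3 : 4 * Real.log n ≤ n * (1 / (2 * R ^ 2)) / 2 := by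
      rw [show (n : ℝ) * (1 / (2 * R ^ 2)) / 2 = n / (4 * R ^ 2) by field_simp; norm_num,
        le_div_iff₀ (by positivity)]
      linarith
    calc Real.exp (-(n * (1 / (2 * R ^ 2)) / 2)) ≤ Real.exp (-(4 * Real.log n)) :=
          Real.exp_le_exp.mpr (by linarith)
      _ = 1 / (n : ℝ) ^ 4 := by
          rw [Real.exp_neg, one_div]
          congr 1
          rw [show 4 * Real.log n = ((4 : ℕ) : ℝ) * Real.log n by push_cast; ring,
            Real.exp_nat_mul, Real.exp_log hnpos]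
  have t4 : R * √(1 - 1 / (4 * R ^ 2)) ^ n ≤ 1 / n := by
    calc R * √(1 - 1 / (4 * R ^ 2)) ^ n ≤ n * (1 / (n : ℝ) ^ 2) :=
          mul_le_mul hRn2 t2 (by positivity) (by positivity)
      _ = 1 / n := by field_simp
  have t5 : 2 * R ^ 2 * √(1 - 1 / (2 * R ^ 2)) ^ n ≤ 1 / n := by
    calc 2 * R ^ 2 * √(1 - 1 / (2 * R ^ 2)) ^ n ≤ (2 * n) * (1 / (n : ℝ) ^ 4) :=
          mul_le_mul (by linarith) t3 (by positivity) (by positivity)
      _ ≤ 1 / n := by
          rw [mul_one_div, div_le_div_iff₀ (by positivity) (by positivity)]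
          have : (1 : ℝ) * (n : ℝ) ^ 4 = (n * n) * (n * n) := by ring
          nlinarith [mul_pos hnpos hnpos, mul_pos (mul_pos hnpos hnpos) hnpos]
  have t6 : 2 * (1 / (n : ℝ)) ≤ ε / 16 := by
    rw [div_le_iff₀ hε] at h2
    rw [mul_one_div, div_le_div_iff₀ hnpos (by norm_num)]
    linarith
  unfold err
  linarith

end SC70
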