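import Pool.Agent.SC70.Ray
import Pool.Agent.SC70.Polar

/-!
# Thin coverings: radial integrals
-/

set_option autoImplicit false

open MeasureTheory Measure Metric Set Module ENNReal
open scoped RealInnerProductSpace

namespace SC70

variable {G : Type*} [NormedAddCommGroup G] [InnerProductSpace ℝ G]

/-- the comparison density -/
noncomputable def Fw (n : ℕ) (w x : G) : ℝ :=
  (1 + (((n : ℝ) + 2) / n) * ‖x‖ ^ 2 - (((n : ℝ) + 1) / n) * ⟪w, x⟫) / 2

lemma Fw_nonneg (n : ℕ) (hn : 1 ≤ n) {w : G} (hw : ‖w‖ ≤ 1) (x : G) : 0 ≤ Fw n w x := by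
  unfold Fw
  have hn' : (1 : ℝ) ≤ n := by exact_mod_cast hn
  have h1 : ⟪w, x⟫ ≤ ‖x‖ := (real_inner_le_norm w x).trans (by nlinarith [norm_nonneg x])
  have h2 : (((n : ℝ) + 1) / n) * ⟪w, x⟫ ≤ (((n : ℝ) + 1) / n) * ‖x‖ :=
    mul_le_mul_of_nonneg_left h1 (by positivity)
  have h3 : 0 ≤ 1 + (((n : ℝ) + 2) / n) * ‖x‖ ^ 2 - (((n : ℝ) + 1) / n) * ‖x‖ := by
    have h4 : (1 : ℝ) + (((n : ℝ) + 2) / n) * ‖x‖ ^ 2 - (((n : ℝ) + 1) / n) * ‖x‖ =
        (n + (n + 2) * ‖x‖ ^ 2 - (n + 1) * ‖x‖) / n := by field_simp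
    rw [h4]
    apply div_nonneg _ (by linarith)
    nlinarith [sq_nonneg (‖x‖ - 1 / 2), sq_nonneg (2 * ‖x‖ - 1), norm_nonneg x,
      mul_nonneg (by linarith : (0 : ℝ) ≤ (n : ℝ)) (sq_nonneg (2 * ‖x‖ - 1))]
  linarith

lemma Fw_continuous (n : ℕ) (w : G) : Continuous (Fw n w) := by
  unfold Fw; fun_prop

lemma norm_smul_sub_sq (θ w : G) (hθ : ‖θ‖ = 1) (r : ℝ) :
    1 - ‖r • θ - w‖ ^ 2 = (1 - ‖w‖ ^ 2 + ⟪w, θ⟫ ^ 2) - (r - ⟪w, θ⟫) ^ 2 := by
  rw [norm_sub_sq_real, norm_smul, hθ, inner_smul_left, real_inner_comm w θ]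
  simp only [Real.norm_eq_abs, mul_one, sq_abs, conj_trivial]
  ring

/-- lower bound for the radial integral of the comparison density -/
lemma radial_lower (n : ℕ) (hn : 1 ≤ n) (w θ : G) (hw : ‖w‖ ≤ 1) (hθ : ‖θ‖ = 1) :
    ENNReal.ofReal (((⟪w, θ⟫ + √(1 - ‖w‖ ^ 2 + ⟪w, θ⟫ ^ 2)) ^ n *
      (1 + (⟪w, θ⟫ + √(1 - ‖w‖ ^ 2 + ⟪w, θ⟫ ^ 2)) * √(1 - ‖w‖ ^ 2 + ⟪w, θ⟫ ^ 2)) / 2) / n) ≤
    ∫⁻ r : ℝ in Ioi (0 : ℝ), ENNReal.ofReal (r ^ (n - 1)) *
      (closedBall w 1).indicator (fun x => ENNReal.ofReal (Fw n w x)) (r • θ) := by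
  set p := ⟪w, θ⟫ with hp
  set D := √(1 - ‖w‖ ^ 2 + p ^ 2) with hD
  set ρ := p + D with hρdef
  have hn' : (0 : ℝ) < n := by exact_mod_cast hn
  have hw2 : ‖w‖ ^ 2 ≤ 1 := by nlinarith [norm_nonneg w]
  have hD2 : D ^ 2 = 1 - ‖w‖ ^ 2 + p ^ 2 := Real.sq_sqrt (by nlinarith [sq_nonneg p])
  have hDp : |p| ≤ D := by
    apply Real.abs_le_sqrt; linarith
  have hρ : 0 ≤ ρ := by have := neg_abs_le p; linarith
  have hmem : ∀ r ∈ Ioc 0 ρ, r • θ ∈ closedBall w 1 := by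
    intro r hr
    rw [mem_closedBall, dist_eq_norm]
    have h1 := norm_smul_sub_sq θ w hθ r
    rw [← hp, ← hD2] at h1
    have h2 : (r - p) ^ 2 ≤ D ^ 2 := by
      apply sq_le_sq'
      · have := (abs_le.mp hDp).2; linarith [hr.1]
      · linarith [hr.2]
    have h3 : ‖r • θ - w‖ ^ 2 ≤ 1 := by linarith
    nlinarith [norm_nonneg (r • θ - w)]
  have hFr : ∀ r : ℝ, Fw n w (r • θ) = (1 + (((n : ℝ) + 2) / n) * r ^ 2 -
      (((n : ℝ) + 1) / n) * (r * p)) / 2 := by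
    intro r
    unfold Fw
    rw [norm_smul, hθ, inner_smul_right, ← hp, mul_one, Real.norm_eq_abs, sq_abs]
  have hint : ∫ r in (0 : ℝ)..ρ, r ^ (n - 1) * Fw n w (r • θ) =
      (ρ ^ n * (1 + ρ * D) / 2) / n := by
    have hder : ∀ r ∈ uIcc (0 : ℝ) ρ, HasDerivAt
        (fun r : ℝ => (r ^ n + r ^ (n + 2) - p * r ^ (n + 1)) / 2 / n)
        (r ^ (n - 1) * Fw n w (r • θ)) r := by
      intro r _
      have h := (((hasDerivAt_pow n r).add (hasDerivAt_pow (n + 2) r)).sub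
        ((hasDerivAt_pow (n + 1) r).const_mul p)).div_const 2 |>.div_const (n : ℝ)
      refine HasDerivAt.congr_deriv h ?_
      rw [hFr]
      obtain ⟨m, rfl⟩ : ∃ m, n = m + 1 := ⟨n - 1, by omega⟩
      simp only [Nat.add_sub_cancel]
      have e1 : m + 1 + 2 - 1 = m + 2 := by omega
      rw [e1]
      push_cast
      field_simp
      ring
    rw [intervalIntegral.integral_eq_sub_of_hasDerivAt hder]
    · have : (0 : ℝ) ^ n = 0 := zero_pow (by omega)
      simp only [this, zero_pow (show n + 2 ≠ 0 by omega), zero_pow (show n + 1 ≠ 0 by omega)]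
      rw [hρdef]; ring
    · apply Continuous.intervalIntegrable
      have : Continuous (fun r : ℝ => Fw n w (r • θ)) := (Fw_continuous n w).comp (by fun_prop)
      fun_prop
  calc ENNReal.ofReal ((ρ ^ n * (1 + ρ * D) / 2) / n)
      = ENNReal.ofReal (∫ r in Ioc (0 : ℝ) ρ, r ^ (n - 1) * Fw n w (r • θ)) := by
        rw [← hint, intervalIntegral.integral_of_le hρ]
    _ = ∫⁻ r in Ioc (0 : ℝ) ρ, ENNReal.ofReal (r ^ (n - 1) * Fw n w (r • θ)) := by
        apply ofReal_integral_eq_lintegral_ofReal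
        · have hc : Continuous (fun r : ℝ => r ^ (n - 1) * Fw n w (r • θ)) := by
            have : Continuous (fun r : ℝ => Fw n w (r • θ)) := (Fw_continuous n w).comp (by fun_prop)
            fun_prop
          exact (hc.integrableOn_Icc).mono_set Ioc_subset_Icc_self
        · filter_upwards [ae_restrict_mem measurableSet_Ioc] with r hr
          exact mul_nonneg (pow_nonneg hr.1.le _) (Fw_nonneg n hn hw _)
    _ = ∫⁻ r in Ioc (0 : ℝ) ρ, ENNReal.ofReal (r ^ (n - 1)) *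
      (closedBall w 1).indicator (fun x => ENNReal.ofReal (Fw n w x)) (r • θ) := by
        apply setLIntegral_congr_fun measurableSet_Ioc
        intro r hr
        simp only
        rw [indicator_of_mem (hmem r hr), ENNReal.ofReal_mul (pow_nonneg hr.1.le _)]
    _ ≤ _ := lintegral_mono_set Ioc_subset_Ioi_self

/-- upper bound for the radial integral over a set -/
lemma radial_upper (n : ℕ) (hn : 1 ≤ n) (K : Set G) (θ : G) (c Λ : ℝ) (hc : 0 < c)
    (hΛ : 0 ≤ Λ) (h : ∀ r : ℝ, 0 < r → r • θ ∈ K → c * r ^ n ≤ Λ) :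
    ∫⁻ r : ℝ in Ioi (0 : ℝ), ENNReal.ofReal (r ^ (n - 1)) *
      K.indicator (fun _ => ENNReal.ofReal c) (r • θ) ≤ ENNReal.ofReal (Λ / n) := by
  have hn' : (0 : ℝ) < n := by exact_mod_cast hn
  set M : ℝ := (Λ / c) ^ ((1 : ℝ) / n) with hM
  have hM0 : 0 ≤ M := by positivity
  have hMn : M ^ n = Λ / c := by
    rw [hM, ← Real.rpow_natCast, ← Real.rpow_mul (by positivity)]
    rw [one_div, inv_mul_cancel₀ hn'.ne', Real.rpow_one]
  have h1 : ∀ r ∈ Ioi (0 : ℝ), ENNReal.ofReal (r ^ (n - 1)) *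
      K.indicator (fun _ => ENNReal.ofReal c) (r • θ) ≤
      (Ioc 0 M).indicator (fun r => ENNReal.ofReal (c * r ^ (n - 1))) r := by
    intro r hr
    by_cases hk : r • θ ∈ K
    · have h2 := h r hr hk
      have h3 : r ≤ M := by
        by_contra hcon
        push Not at hcon
        have h4 : M ^ n < r ^ n := pow_lt_pow_left₀ hcon hM0 (by omega)
        rw [hMn, div_lt_iff₀ hc] at h4
        linarith
      have h5 : r ∈ Ioc (0 : ℝ) M := ⟨hr, h3⟩
      rw [indicator_of_mem hk, indicator_of_mem h5, mul_comm c,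
        ENNReal.ofReal_mul (pow_nonneg (le_of_lt hr) _)]
    · rw [indicator_of_notMem hk]; simp
  calc _ ≤ ∫⁻ r : ℝ in Ioi (0 : ℝ),
        (Ioc 0 M).indicator (fun r => ENNReal.ofReal (c * r ^ (n - 1))) r :=
        setLIntegral_mono' measurableSet_Ioi h1
    _ ≤ ∫⁻ r : ℝ, (Ioc 0 M).indicator (fun r => ENNReal.ofReal (c * r ^ (n - 1))) r :=
        setLIntegral_le_lintegral _ _
    _ = ∫⁻ r in Ioc 0 M, ENNReal.ofReal (c * r ^ (n - 1)) := by
        rw [lintegral_indicator measurableSet_Ioc]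
    _ = ENNReal.ofReal (∫ r in Ioc 0 M, c * r ^ (n - 1)) := by
        rw [ofReal_integral_eq_lintegral_ofReal]
        · have hc : Continuous (fun r : ℝ => c * r ^ (n - 1)) := by fun_prop
          exact (hc.integrableOn_Icc).mono_set Ioc_subset_Icc_self
        · filter_upwards [ae_restrict_mem measurableSet_Ioc] with r hr
          exact mul_nonneg hc.le (pow_nonneg hr.1.le _)
    _ = ENNReal.ofReal (Λ / n) := by
        rw [← intervalIntegral.integral_of_le hM0, intervalIntegral.integral_const_mul, integral_pow]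
        obtain ⟨m, rfl⟩ : ∃ m, n = m + 1 := ⟨n - 1, by omega⟩
        simp only [Nat.add_sub_cancel]
        rw [zero_pow (by omega), sub_zero, hMn]
        congr 1
        push_cast
        field_simp

end SC70
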