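import Mathlib

/-!
# Thin coverings: the estimate on one ray
-/

set_option autoImplicit false

open Real

namespace SC70

lemma sqrt_mul_exp_le {x : ℝ} (hx : 0 ≤ x) : √x * exp (-(x / 2)) ≤ exp (-(1 / 2)) := by
  have h1 : x * exp (-x) ≤ exp (-1) := by
    have h := add_one_le_exp (x - 1)
    have h2 : x ≤ exp (x - 1) := by linarith
    calc x * exp (-x) ≤ exp (x - 1) * exp (-x) := by gcongr
      _ = exp (-1) := by rw [← exp_add]; ring_nf
  have h2 : (√x * exp (-(x / 2))) ^ 2 ≤ (exp (-(1 / 2))) ^ 2 := by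
    rw [mul_pow, sq_sqrt hx, ← exp_nat_mul, ← exp_nat_mul]
    calc x * exp (((2 : ℕ) : ℝ) * -(x / 2)) = x * exp (-x) := by push_cast; ring_nf
      _ ≤ exp (-1) := h1
      _ = exp (((2 : ℕ) : ℝ) * -(1 / 2)) := by push_cast; ring_nf
  exact le_of_sq_le_sq h2 (exp_pos _).le |> fun h => h
 
/-- the estimate on one ray: `T = D ^ 2 - (r - p) ^ 2` is one minus the squared distance -/
lemma ray_bound (n : ℕ) (hn : 1 ≤ n) (p D r : ℝ) (hD : 0 ≤ D) (hr : 0 < r)
    (hT : 0 < D ^ 2 - (r - p) ^ 2) :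
    r ^ n * √(D ^ 2 - (r - p) ^ 2) ≤
      (1 / √(n * exp 1)) * ((p + D) ^ n * (1 + (p + D) * D) / 2) := by
  set T := D ^ 2 - (r - p) ^ 2 with hTdef
  have hn' : (0 : ℝ) < n := by exact_mod_cast hn
  have hDpos : 0 < D := by
    rcases hD.lt_or_eq with h | h
    · exact h
    · exfalso; rw [hTdef, ← h] at hT; nlinarith [sq_nonneg (r - p)]
  have habs : |r - p| < D := by
    have : (r - p) ^ 2 < D ^ 2 := by linarith
    exact abs_lt_of_sq_lt_sq this hD
  have hrlt : r < p + D := by have := (abs_lt.mp habs).2; linarith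
  set ρ := p + D with hρdef
  have hρ : 0 < ρ := by linarith
  have hTle : T ≤ (ρ - r) * (2 * D) := by
    have : T = (ρ - r) * (r - (p - D)) := by rw [hTdef, hρdef]; ring
    rw [this]
    have h1 : 0 ≤ ρ - r := by linarith
    have h2 : r - (p - D) ≤ 2 * D := by linarith
    exact mul_le_mul_of_nonneg_left h2 h1
  have hρD : 0 < ρ * D := mul_pos hρ hDpos
  set x := n * T / (ρ * D) with hx
  have hxpos : 0 < x := by positivity
  -- r ^ n ≤ ρ ^ n * exp (-(x/2))
  have h1 : r ^ n ≤ ρ ^ n * exp (-(x / 2)) := by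
    have ha : r / ρ ≤ exp (r / ρ - 1) := by have := add_one_le_exp (r / ρ - 1); linarith
    have hb : (r / ρ) ^ n ≤ (exp (r / ρ - 1)) ^ n := pow_le_pow_left₀ (by positivity) ha n
    have hc : (exp (r / ρ - 1)) ^ n ≤ exp (-(x / 2)) := by
      rw [← exp_nat_mul]
      apply exp_le_exp.mpr
      have hd : x / 2 ≤ n * ((ρ - r) / ρ) := by
        rw [hx, div_div, div_le_iff₀ (by positivity)]
        have : (n : ℝ) * ((ρ - r) / ρ) * (ρ * D * 2) = n * ((ρ - r) * (2 * D)) := by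
          field_simp
        rw [this]
        exact mul_le_mul_of_nonneg_left hTle hn'.le
      have he : (n : ℝ) * ((ρ - r) / ρ) = -(n * (r / ρ - 1)) := by field_simp; ring
      linarith
    calc r ^ n = ρ ^ n * (r / ρ) ^ n := by rw [← mul_pow]; congr 1; field_simp
      _ ≤ ρ ^ n * exp (-(x / 2)) := by
        exact mul_le_mul_of_nonneg_left (hb.trans hc) (by positivity)
  have h2 : √T = √(ρ * D / n) * √x := by
    rw [← sqrt_mul (by positivity)]
    congr 1
    rw [hx]; field_simp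
  have h3 : √(ρ * D / n) = √(ρ * D) / √n := sqrt_div (by positivity) _
  have h4 : √(ρ * D) ≤ (1 + ρ * D) / 2 := by
    have := sq_nonneg (√(ρ * D) - 1)
    have h5 : √(ρ * D) ^ 2 = ρ * D := sq_sqrt hρD.le
    nlinarith
  have h6 : 1 / √(n * exp 1) = exp (-(1 / 2)) / √n := by
    rw [sqrt_mul hn'.le, show √(exp 1) = exp (1 / 2) by
      rw [← exp_half]]
    rw [exp_neg]; field_simp
  have hsn : 0 < √(n : ℝ) := sqrt_pos.mpr hn'
  calc r ^ n * √T ≤ (ρ ^ n * exp (-(x / 2))) * (√(ρ * D / n) * √x) := by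
        rw [← h2]; exact mul_le_mul_of_nonneg_right h1 (sqrt_nonneg _)
    _ = ρ ^ n * √(ρ * D) / √n * (√x * exp (-(x / 2))) := by rw [h3]; ring
    _ ≤ ρ ^ n * √(ρ * D) / √n * exp (-(1 / 2)) := by
        apply mul_le_mul_of_nonneg_left (sqrt_mul_exp_le hxpos.le); positivity
    _ ≤ ρ ^ n * ((1 + ρ * D) / 2) / √n * exp (-(1 / 2)) := by
        gcongr
    _ = (1 / √(n * exp 1)) * (ρ ^ n * (1 + ρ * D) / 2) := by rw [h6]; ring

end SC70
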