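import Pool.Agent.SC70.RoundFin

/-!
# Thin coverings: locally thick bodies
-/

set_option autoImplicit false

open MeasureTheory Measure Metric Set Module ENNReal Filter
open scoped RealInnerProductSpace Pointwise Topology

namespace SC70

variable {n : ℕ}

/-- points close to the boundary leave the body -/
lemma shell_exit2 (C : Set (EuclideanSpace ℝ (Fin n))) (hconv : Convex ℝ C)
    (c w x : EuclideanSpace ℝ (Fin n)) (r ρ : ℝ) (hρ0 : 0 < ρ) (hρ : ρ < r - 1)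
    (hb : closedBall c r ⊆ C) (hxw : ‖x - w‖ ≤ 1)
    (hz : x + (ρ / (r - 1 - ρ)) • (w - c) ∈ C) : closedBall x ρ ⊆ C := by
  intro b hbx
  rw [mem_closedBall, dist_eq_norm] at hbx
  have hr1 : 0 < r - 1 := by linarith
  have hr0 : 0 < r := by linarith
  obtain ⟨β, hβ⟩ : ∃ β : ℝ, β = ρ / (r - 1) := ⟨_, rfl⟩
  have hβ0 : 0 < β := by rw [hβ]; positivity
  have hβ1 : β < 1 := by rw [hβ, div_lt_one hr1]; exact hρ
  have hβr : β * (r - 1) = ρ := by rw [hβ]; field_simp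
  have hτ : (1 - β) * (ρ / (r - 1 - ρ)) = β := by
    have h1 : r - 1 - ρ ≠ 0 := by
      have : 0 < r - 1 - ρ := by linarith
      exact this.ne'
    rw [hβ]
    field_simp
  obtain ⟨τ, hτdef⟩ : ∃ τ : ℝ, τ = ρ / (r - 1 - ρ) := ⟨_, rfl⟩
  rw [← hτdef] at hz hτ
  obtain ⟨u, hu⟩ : ∃ u : EuclideanSpace ℝ (Fin n), u = (1 / β) • (b - x) + (x - w) := ⟨_, rfl⟩
  have hun : ‖u‖ ≤ r := by
    rw [hu]
    refine (norm_add_le _ _).trans ?_
    rw [norm_smul, Real.norm_of_nonneg (by positivity)]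
    have h1 : 1 / β * ‖b - x‖ ≤ 1 / β * ρ := mul_le_mul_of_nonneg_left hbx (by positivity)
    have h2 : 1 / β * ρ = r - 1 := by
      rw [← hβr]; field_simp
    linarith
  have hcu : c + u ∈ C := by
    apply hb
    rw [mem_closedBall, dist_eq_norm, add_sub_cancel_left]
    exact hun
  have h := hconv hz hcu (by linarith : 0 ≤ 1 - β) hβ0.le (by ring)
  have e : (1 - β) • (x + τ • (w - c)) + β • (c + u) = b := by
    have e1 : β • u = (b - x) + β • (x - w) := by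
      rw [hu, smul_add, smul_smul]
      have : β * (1 / β) = 1 := by field_simp
      rw [this, one_smul]
    rw [smul_add, smul_smul, hτ, smul_add, e1]
    module
  rw [e] at h
  exact h

/-- **Surface area bound.** The volume of the inner shell of a locally thick body. -/
theorem shell_bound (C : Set (EuclideanSpace ℝ (Fin (n + 1)))) (hconv : Convex ℝ C)
    (hCc : IsCompact C) (X : Finset (EuclideanSpace ℝ (Fin (n + 1))))
    (hcov : C ⊆ ⋃ x ∈ X, closedBall x 1) (r D ρ : ℝ) (hD : 0 ≤ D) (hρ0 : 0 < ρ)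
    (hρ : ρ < r - 1) (hthick : ∀ x ∈ C, ∃ c, ‖x - c‖ ≤ D ∧ closedBall c r ⊆ C) :
    volume (C \ {x | closedBall x ρ ⊆ C}) ≤
      ENNReal.ofReal (X.card * (ρ / (r - 1 - ρ) * (D + 1) * kap n)) := by
  classical
  have hkap := kap_nonneg n
  have hpos : 0 < r - 1 - ρ := by linarith
  have hτ0 : 0 ≤ ρ / (r - 1 - ρ) := by positivity
  -- the centres
  have hsel : ∀ w : EuclideanSpace ℝ (Fin (n + 1)), ∃ c : EuclideanSpace ℝ (Fin (n + 1)),
      ‖w - c‖ ≤ D + 1 ∧ ((∃ x ∈ C, ‖x - w‖ ≤ 1) → closedBall c r ⊆ C) := by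
    intro w
    by_cases h : ∃ x ∈ C, ‖x - w‖ ≤ 1
    · obtain ⟨x, hx, hxw⟩ := h
      obtain ⟨c, hc1, hc2⟩ := hthick x hx
      refine ⟨c, ?_, fun _ => hc2⟩
      have e : w - c = (x - c) - (x - w) := by abel
      rw [e]
      refine (norm_sub_le _ _).trans ?_
      linarith
    · refine ⟨w, ?_, fun h' => absurd h' h⟩
      rw [sub_self, norm_zero]; linarith
  choose c hc1 hc2 using hsel
  have hsub : C \ {x | closedBall x ρ ⊆ C} ⊆
      ⋃ w ∈ X, {x | x ∈ C ∧ x ∈ closedBall w 1 ∧ x + (ρ / (r - 1 - ρ)) • (w - c w) ∉ C} := by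
    rintro x ⟨hx, hxρ⟩
    have h1 := hcov hx
    simp only [mem_iUnion] at h1 ⊢
    obtain ⟨w, hw, hxw⟩ := h1
    refine ⟨w, hw, hx, hxw, ?_⟩
    intro hz
    rw [mem_closedBall, dist_eq_norm] at hxw
    exact hxρ (shell_exit2 C hconv (c w) w x r ρ hρ0 hρ (hc2 w ⟨x, hx, hxw⟩) hxw hz)
  refine (measure_mono hsub).trans ((measure_biUnion_finset_le X _).trans ?_)
  calc ∑ w ∈ X, volume {x | x ∈ C ∧ x ∈ closedBall w 1 ∧ x + (ρ / (r - 1 - ρ)) • (w - c w) ∉ C}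
      ≤ ∑ _w ∈ X, ENNReal.ofReal (ρ / (r - 1 - ρ) * (D + 1) * kap n) := by
        apply Finset.sum_le_sum
        intro w _
        refine (ball_exit C hconv hCc w (w - c w) _ hτ0).trans (ENNReal.ofReal_le_ofReal ?_)
        have := hc1 w
        gcongr
    _ = _ := by
        rw [Finset.sum_const, nsmul_eq_mul, ENNReal.ofReal_mul (Nat.cast_nonneg _),
          ENNReal.ofReal_natCast]

/-- **Locally thick bodies with large surface area.** -/
theorem rounded_sausage (hn : 1 ≤ n) (C : Set (EuclideanSpace ℝ (Fin (n + 1))))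
    (hconv : Convex ℝ C) (hCc : IsCompact C) (X : Finset (EuclideanSpace ℝ (Fin (n + 1))))
    (hk1 : 1 ≤ X.card) (hcov : C ⊆ ⋃ x ∈ X, closedBall x 1) (r D F : ℝ) (hr : 1 < r) (hD : 0 ≤ D)
    (hthick : ∀ x ∈ C, ∃ c, ‖x - c‖ ≤ D ∧ closedBall c r ⊆ C)
    (hF : Tendsto (fun ρ : ℝ => (volume (C \ {x | closedBall x ρ ⊆ C})).toReal / ρ)
      (𝓝[>] 0) (𝓝 F))
    (hFV : √(Real.exp 1 * ((n : ℝ) + 1)) * (D + 1) * (volume C).toReal ≤ 2 * (r - 1) * F) :
    ∃ (C' : Set (EuclideanSpace ℝ (Fin (n + 1)))) (Y : Finset (EuclideanSpace ℝ (Fin (n + 1)))),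
      Convex ℝ C' ∧ IsCompact C' ∧ (interior C').Nonempty ∧ Y.card = X.card ∧
      Collinear ℝ (Y : Set (EuclideanSpace ℝ (Fin (n + 1)))) ∧
      C' ⊆ ⋃ y ∈ Y, closedBall y (1 : ℝ) ∧ volume C ≤ volume C' := by
  have hn' : (1 : ℝ) ≤ n := by exact_mod_cast hn
  have hkap := kap_nonneg n
  have hMn := Mn_ge hn
  obtain ⟨C', Y, c1, c2, c3, c4, c5, c6, c7⟩ := sausage_exists hn X.card hk1
  refine ⟨C', Y, c1, c2, c3, c4, c5, c6, ?_⟩
  rw [c7]
  have hfin : volume C ≠ ⊤ := hCc.measure_lt_top.ne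
  rw [← ENNReal.ofReal_toReal hfin]
  apply ENNReal.ofReal_le_ofReal
  obtain ⟨V, hV⟩ : ∃ V : ℝ, V = (volume C).toReal := ⟨_, rfl⟩
  rw [← hV] at hFV ⊢
  obtain ⟨k, hk⟩ : ∃ k : ℝ, k = (X.card : ℝ) := ⟨_, rfl⟩
  have hk0 : 0 ≤ k := by rw [hk]; exact Nat.cast_nonneg _
  obtain ⟨s, hs⟩ : ∃ s : ℝ, s = √(Real.exp 1 * ((n : ℝ) + 1)) := ⟨_, rfl⟩
  have hs0 : 0 < s := by rw [hs]; exact Real.sqrt_pos.mpr (by positivity)
  rw [← hs] at hFV hMn
  rw [← hk]
  have hr1 : 0 < r - 1 := by linarith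
  -- the surface area
  have hFle : F ≤ k * (1 / (r - 1 - 0) * (D + 1) * kap n) := by
    have hcont : ContinuousAt (fun ρ : ℝ => k * (1 / (r - 1 - ρ) * (D + 1) * kap n)) 0 := by
      have h1 : r - 1 - 0 ≠ 0 := by rw [sub_zero]; exact hr1.ne'
      fun_prop (disch := assumption)
    have htend : Tendsto (fun ρ : ℝ => k * (1 / (r - 1 - ρ) * (D + 1) * kap n)) (𝓝[>] 0)
        (𝓝 (k * (1 / (r - 1 - 0) * (D + 1) * kap n))) :=
      hcont.tendsto.mono_left nhdsWithin_le_nhds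
    apply le_of_tendsto_of_tendsto hF htend
    have hmem : Ioo 0 (r - 1) ∈ 𝓝[>] (0 : ℝ) := Ioo_mem_nhdsGT hr1
    filter_upwards [hmem] with ρ hρ
    have hρ0 : 0 < ρ := hρ.1
    have hpos : 0 < r - 1 - ρ := by linarith [hρ.2]
    rw [div_le_iff₀ hρ0]
    have h1 := shell_bound C hconv hCc X hcov r D ρ hD hρ0 hρ.2 hthick
    have h2 := ENNReal.toReal_mono ENNReal.ofReal_ne_top h1
    rw [ENNReal.toReal_ofReal (by positivity), ← hk] at h2
    refine h2.trans (le_of_eq ?_)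
    field_simp
  rw [sub_zero] at hFle
  have h3 : s * (D + 1) * V ≤ s * (D + 1) * (2 * k * (kap n * (1 / s))) := by
    calc s * (D + 1) * V ≤ 2 * (r - 1) * F := hFV
      _ ≤ 2 * (r - 1) * (k * (1 / (r - 1) * (D + 1) * kap n)) :=
          mul_le_mul_of_nonneg_left hFle (by linarith)
      _ = _ := by field_simp
  have h4 : V ≤ 2 * k * (kap n * (1 / s)) :=
    le_of_mul_le_mul_left h3 (mul_pos hs0 (by linarith))
  refine h4.trans ?_
  gcongr

end SC70
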