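import Pool.Agent.SC70.Window

/-!
# Thin coverings: slicing in several directions
-/

set_option autoImplicit false

open MeasureTheory Measure Metric Set Module ENNReal
open scoped RealInnerProductSpace

namespace SC70

/-- choice of a shift: few centres are close to a boundary of the slabs -/
lemma exists_shift {ι : Type*} (S : Finset ι) (c : ι → ℝ) (M : ℕ) (hM : 1 ≤ M) :
    ∃ s : ℝ, ∃ B : Finset ι, B ⊆ S ∧ M * B.card ≤ S.card ∧
      ∀ i ∈ S, ∀ j : ℤ, |c i - s - 3 * M * j| ≤ 1 → i ∈ B := by
  classical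
  set B : ℕ → Finset ι := fun a => S.filter (fun i => ∃ j : ℤ, |c i - 3 * a - 3 * M * j| ≤ 1)
    with hB
  have hdisj : ∀ a ∈ Finset.range M, ∀ a' ∈ Finset.range M, a ≠ a' → Disjoint (B a) (B a') := by
    intro a ha a' ha' hne
    rw [Finset.disjoint_left]
    intro i hi hi'
    rw [hB, Finset.mem_filter] at hi hi'
    obtain ⟨_, j, hj⟩ := hi
    obtain ⟨_, j', hj'⟩ := hi'
    rw [Finset.mem_range] at ha ha'
    rw [abs_le] at hj hj'
    have h1 : (3 * ((a : ℤ) - a' + M * (j - j')) : ℝ) < 3 := by push_cast; linarith [hj.1, hj.2, hj'.1, hj'.2]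
    have h2 : (-3 : ℝ) < (3 * ((a : ℤ) - a' + M * (j - j')) : ℝ) := by
      push_cast; linarith [hj.1, hj.2, hj'.1, hj'.2]
    have h3 : (a : ℤ) - a' + M * (j - j') < 1 := by
      have : (((a : ℤ) - a' + M * (j - j') : ℤ) : ℝ) < 1 := by push_cast at h1 ⊢; linarith
      exact_mod_cast this
    have h4 : -1 < (a : ℤ) - a' + M * (j - j') := by
      have : (-1 : ℝ) < (((a : ℤ) - a' + M * (j - j') : ℤ) : ℝ) := by push_cast at h2 ⊢; linarith
      exact_mod_cast this
    have h5 : (a : ℤ) - a' + M * (j - j') = 0 := by omega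
    rcases lt_trichotomy j j' with h | h | h
    · have h6 : (j - j') ≤ -1 := by omega
      have h7 : (M : ℤ) * (j - j') ≤ M * -1 := by gcongr
      omega
    · rw [h, sub_self, mul_zero] at h5; omega
    · have h6 : 1 ≤ (j - j') := by omega
      have h7 : (M : ℤ) * 1 ≤ M * (j - j') := by gcongr
      omega
  have hsum : ∑ a ∈ Finset.range M, (B a).card ≤ S.card := by
    rw [← Finset.card_biUnion]
    · apply Finset.card_le_card
      intro i hi
      rw [Finset.mem_biUnion] at hi
      obtain ⟨a, _, ha⟩ := hi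
      exact (Finset.mem_filter.mp ha).1
    · intro a ha a' ha' hne
      exact hdisj a ha a' ha' hne
  obtain ⟨a, ha, hle⟩ : ∃ a ∈ Finset.range M, M * (B a).card ≤ S.card := by
    by_contra hcon
    push Not at hcon
    have h1 : ∑ a ∈ Finset.range M, S.card < ∑ a ∈ Finset.range M, M * (B a).card :=
      Finset.sum_lt_sum_of_nonempty (by simp; omega) hcon
    rw [Finset.sum_const, Finset.card_range, smul_eq_mul, ← Finset.mul_sum] at h1
    have := Nat.mul_le_mul_left M hsum
    omega
  refine ⟨3 * a, B a, Finset.filter_subset _ _, hle, ?_⟩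
  intro i hi j hj
  rw [hB, Finset.mem_filter]
  exact ⟨hi, j, hj⟩

/-- cutting into slabs: the number of incidences -/
lemma slab_count {ι : Type*} (S : Finset ι) (c : ι → ℝ) (M : ℕ) (hM : 1 ≤ M) (s : ℝ)
    (B : Finset ι) (hBS : B ⊆ S) (hMB : M * B.card ≤ S.card)
    (hB : ∀ i ∈ S, ∀ j : ℤ, |c i - s - 3 * M * j| ≤ 1 → i ∈ B) (J : Finset ℤ)
    (Sj : ℤ → Finset ι) (hSj : ∀ j, ∀ i ∈ Sj j, i ∈ S ∧ s + 3 * M * j - 1 ≤ c i ∧
      c i < s + 3 * M * (j + 1) + 1) :
    ((∑ j ∈ J, (Sj j).card : ℕ) : ℝ) ≤ (1 + 2 / M) * S.card := by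
  classical
  have hM' : (1 : ℝ) ≤ M := by exact_mod_cast hM
  have h1 : ∑ j ∈ J, (Sj j).card = ∑ i ∈ S, (J.filter (fun j => i ∈ Sj j)).card := by
    have e1 : ∀ j ∈ J, (Sj j).card = ∑ i ∈ S, if i ∈ Sj j then 1 else 0 := by
      intro j _
      rw [← Finset.card_filter]
      congr 1
      ext i
      rw [Finset.mem_filter]
      exact ⟨fun h => ⟨(hSj j i h).1, h⟩, fun h => h.2⟩
    rw [Finset.sum_congr rfl e1, Finset.sum_comm]
    refine Finset.sum_congr rfl fun i _ => ?_
    rw [Finset.card_filter]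
  have h2 : ∀ i ∈ S, (J.filter (fun j => i ∈ Sj j)).card ≤ 1 + if i ∈ B then 2 else 0 := by
    intro i hi
    set j0 : ℤ := ⌊(c i - s) / (3 * M)⌋ with hj0
    have ha : (j0 : ℝ) ≤ (c i - s) / (3 * M) := Int.floor_le _
    have hb : (c i - s) / (3 * M) < j0 + 1 := Int.lt_floor_add_one _
    rw [le_div_iff₀ (by positivity)] at ha
    rw [div_lt_iff₀ (by positivity)] at hb
    have key : ∀ j : ℤ, i ∈ Sj j → j0 - 1 ≤ j ∧ j ≤ j0 + 1 := by
      intro j hj
      obtain ⟨_, h3, h4⟩ := hSj j i hj
      constructor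
      · by_contra hcon
        push Not at hcon
        have h5 : (j : ℝ) + 1 ≤ j0 - 1 := by
          have : j + 1 ≤ j0 - 1 := by omega
          exact_mod_cast this
        nlinarith
      · by_contra hcon
        push Not at hcon
        have h5 : (j0 : ℝ) + 1 ≤ j - 1 := by
          have : j0 + 1 ≤ j - 1 := by omega
          exact_mod_cast this
        nlinarith
    by_cases hiB : i ∈ B
    · rw [if_pos hiB]
      have hsub : J.filter (fun j => i ∈ Sj j) ⊆ {j0 - 1, j0, j0 + 1} := by
        intro j hj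
        have := key j (Finset.mem_filter.mp hj).2
        simp only [Finset.mem_insert, Finset.mem_singleton]
        omega
      exact (Finset.card_le_card hsub).trans (Finset.card_le_three)
    · rw [if_neg hiB]
      have hsub : J.filter (fun j => i ∈ Sj j) ⊆ {j0} := by
        intro j hj
        have hj' := (Finset.mem_filter.mp hj).2
        obtain ⟨_, h3, h4⟩ := hSj j i hj'
        have h5 := key j hj'
        rw [Finset.mem_singleton]
        by_contra hne
        apply hiB
        rcases lt_or_gt_of_ne hne with h | h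
        · have hj1 : j = j0 - 1 := by omega
          apply hB i hi j0
          rw [abs_le]
          have : (j : ℝ) = j0 - 1 := by rw [hj1]; push_cast; ring
          rw [this] at h3 h4
          constructor <;> nlinarith
        · have hj1 : j = j0 + 1 := by omega
          apply hB i hi (j0 + 1)
          rw [abs_le]
          have : (j : ℝ) = j0 + 1 := by rw [hj1]; push_cast; ring
          rw [this] at h3 h4
          push_cast
          constructor <;> nlinarith
      have := Finset.card_le_card hsub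
      simpa using this
  have h3 : ∑ j ∈ J, (Sj j).card ≤ S.card + 2 * B.card := by
    rw [h1]
    refine (Finset.sum_le_sum h2).trans (le_of_eq ?_)
    rw [Finset.sum_add_distrib, Finset.sum_const, smul_eq_mul, mul_one, ← Finset.sum_filter,
      Finset.sum_const, smul_eq_mul]
    have : S.filter (fun i => i ∈ B) = B := by
      ext i; rw [Finset.mem_filter]; exact ⟨fun h => h.2, fun h => ⟨hBS h, h⟩⟩
    rw [this]; ring
  have h4 : ((∑ j ∈ J, (Sj j).card : ℕ) : ℝ) ≤ S.card + 2 * B.card := by exact_mod_cast h3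
  have h5 : (M : ℝ) * B.card ≤ S.card := by exact_mod_cast hMB
  have h6 : (B.card : ℝ) ≤ S.card / M := by
    rw [le_div_iff₀ (by linarith)]; linarith
  calc ((∑ j ∈ J, (Sj j).card : ℕ) : ℝ) ≤ S.card + 2 * B.card := h4
    _ ≤ S.card + 2 * (S.card / M) := by linarith
    _ = (1 + 2 / M) * S.card := by ring

end SC70
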