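import Pool.Agent.SC70.TCore
import Pool.Agent.SC70.WAvg

/-!
# Thin coverings: averaging over ball windows in a subspace, two long directions
-/

set_option autoImplicit false

open MeasureTheory Measure Metric Set Module ENNReal
open scoped RealInnerProductSpace

namespace SC70

variable {n q : ℕ}

/-- **Averaging over ball windows.** -/
theorem tavg_bound {R'' A : ℝ} (hA0 : 0 ≤ A) (hW : TBound n R'' A)
    (J : EuclideanSpace ℝ (Fin q) →ₗᵢ[ℝ] EuclideanSpace ℝ (Fin n)) (R' : ℝ) (hR' : 0 < R')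
    (ι : Type) (S : Finset ι) (w : ι → EuclideanSpace ℝ (Fin n)) (x : ι → ℝ)
    (K : Set (EuclideanSpace ℝ (Fin n))) (hKm : MeasurableSet K) (hx : ∀ i, 0 ≤ x i)
    (hthin : ∀ y ∈ K, ∀ y' ∈ K, ‖adjP J (y - y')‖ ≤ 2 * R' → ‖y - y'‖ ≤ R'')
    (c : ℝ) (hc : 0 < c) (h : ∀ y ∈ K, c ≤ ∑ i ∈ S, max (1 - x i - ‖y - w i‖ ^ 2) 0) :
    ENNReal.ofReal c * volume K ≤ ENNReal.ofReal (A * gam (n + 2) q R') *
      ∑ i ∈ S, ENNReal.ofReal (Real.exp (-((n + 2) * x i / 2))) := by
  classical
  set N : ℝ := (n : ℝ) + 2 with hN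
  have hN0 : 0 < N := by positivity
  set B : ℝ≥0∞ := volume (closedBall (0 : EuclideanSpace ℝ (Fin q)) R') with hB
  have hB0 : B ≠ 0 := (measure_closedBall_pos _ _ hR').ne'
  have hBt : B ≠ ⊤ := (isCompact_closedBall _ _).measure_lt_top.ne
  set Kz : EuclideanSpace ℝ (Fin q) → Set (EuclideanSpace ℝ (Fin n)) := fun z =>
    K ∩ {y | ‖adjP J y - z‖ ≤ R'} with hKz
  set δ : ι → EuclideanSpace ℝ (Fin q) → ℝ := fun i z => max (‖adjP J (w i) - z‖ - R') 0 with hδ
  -- the estimate for one window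
  have hone : ∀ z, ENNReal.ofReal c * volume (Kz z) ≤ ENNReal.ofReal A *
      ∑ i ∈ S, ENNReal.ofReal (Real.exp (-(N * x i / 2))) *
        ENNReal.ofReal (Real.exp (-(N * (δ i z) ^ 2 / 2))) := by
    intro z
    rcases (Kz z).eq_empty_or_nonempty with hKe | ⟨y₀, hy₀⟩
    · rw [hKe]; simp
    have hm : MeasurableSet (Kz z) := by
      apply hKm.inter
      exact (isClosed_le (by fun_prop) (by fun_prop)).measurableSet
    have h1 := hW ι S (fun i => mvc J R' (w i) z) (fun i => x i + (δ i z) ^ 2) (Kz z) hm y₀ (by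
      intro y hy
      rw [mem_closedBall, dist_eq_norm]
      apply hthin y hy.1 y₀ hy₀.1
      have e : adjP J (y - y₀) = (adjP J y - z) - (adjP J y₀ - z) := by rw [map_sub]; abel
      rw [e]
      have h2 : ‖adjP J y - z‖ ≤ R' := hy.2
      have h3 : ‖adjP J y₀ - z‖ ≤ R' := hy₀.2
      calc _ ≤ ‖adjP J y - z‖ + ‖adjP J y₀ - z‖ := norm_sub_le _ _
        _ ≤ 2 * R' := by linarith) (fun i => by have := hx i; positivity) c hc (by
      intro y hy
      refine (h y hy.1).trans (Finset.sum_le_sum fun i _ => max_le_max ?_ le_rfl)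
      have h2 := mvc_spec J R' hR'.le (w i) z y hy.2
      simp only [hδ]
      linarith)
    refine h1.trans (le_of_eq ?_)
    congr 1
    refine Finset.sum_congr rfl fun i _ => ?_
    rw [← ENNReal.ofReal_mul (Real.exp_pos _).le, ← Real.exp_add]
    congr 2
    ring
  -- Tonelli
  have hTon : ∫⁻ z, volume (Kz z) = volume K * B := by
    set 𝒦 : Set (EuclideanSpace ℝ (Fin q) × EuclideanSpace ℝ (Fin n)) :=
      {p | p.2 ∈ K ∧ ‖adjP J p.2 - p.1‖ ≤ R'} with h𝒦
    have h𝒦m : MeasurableSet 𝒦 := by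
      have h1 : MeasurableSet {p : EuclideanSpace ℝ (Fin q) × EuclideanSpace ℝ (Fin n) |
          ‖adjP J p.2 - p.1‖ ≤ R'} :=
        (isClosed_le (by fun_prop) (by fun_prop)).measurableSet
      exact (measurable_snd hKm).inter h1
    have e1 : (volume.prod volume) 𝒦 = ∫⁻ z, volume (Kz z) := by
      rw [Measure.prod_apply h𝒦m]; rfl
    have e2 : (volume.prod volume) 𝒦 = volume K * B := by
      rw [Measure.prod_apply_symm h𝒦m]
      have e3 : ∀ y, volume ((fun z => (z, y)) ⁻¹' 𝒦) = K.indicator (fun _ => B) y := by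
        intro y
        by_cases hy : y ∈ K
        · rw [indicator_of_mem hy]
          have e4 : (fun z => (z, y)) ⁻¹' 𝒦 = closedBall (adjP J y) R' := by
            ext z
            simp only [h𝒦, mem_preimage, mem_closedBall, dist_eq_norm]
            rw [norm_sub_rev]
            exact ⟨fun h => h.2, fun h => ⟨hy, h⟩⟩
          rw [e4, hB, Measure.addHaar_closedBall_center]
        · rw [indicator_of_notMem hy]
          have e4 : (fun z => (z, y)) ⁻¹' 𝒦 = ∅ := by
            ext z
            simp only [h𝒦, mem_preimage, mem_empty_iff_false, iff_false]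
            exact fun h => hy h.1
          rw [e4, measure_empty]
      simp only [e3]
      rw [lintegral_indicator hKm, setLIntegral_const, mul_comm]
    rw [← e1, e2]
  have hgm : ∀ i, Measurable (fun z => ENNReal.ofReal (Real.exp (-(N * (δ i z) ^ 2 / 2)))) := by
    intro i
    have : Continuous (fun z => Real.exp (-(N * (δ i z) ^ 2 / 2))) := by
      simp only [hδ]; fun_prop
    exact this.measurable.ennreal_ofReal
  have hgauss : ∀ i, ∫⁻ z, ENNReal.ofReal (Real.exp (-(N * (δ i z) ^ 2 / 2))) ≤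
      ENNReal.ofReal (gam N q R') * B := by
    intro i
    have h1 := lintegral_sub_left_eq_self (μ := (volume : Measure (EuclideanSpace ℝ (Fin q))))
      (fun z => ENNReal.ofReal (Real.exp (-(N * (max (‖z‖ - R') 0) ^ 2 / 2)))) (adjP J (w i))
    have h2 : ∫⁻ z, ENNReal.ofReal (Real.exp (-(N * (δ i z) ^ 2 / 2))) =
        ∫⁻ z, (fun z => ENNReal.ofReal (Real.exp (-(N * (max (‖z‖ - R') 0) ^ 2 / 2))))
          (adjP J (w i) - z) := rfl
    rw [h2, h1]
    exact gauss_ball N R' hN0 hR' q
  have hfinal : ENNReal.ofReal c * volume K * B ≤ (ENNReal.ofReal (A * gam N q R') *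
      ∑ i ∈ S, ENNReal.ofReal (Real.exp (-(N * x i / 2)))) * B := by
    have hKzm : Measurable (fun z => volume (Kz z)) := by
      have h1 : MeasurableSet {p : EuclideanSpace ℝ (Fin q) × EuclideanSpace ℝ (Fin n) |
          p.2 ∈ K ∧ ‖adjP J p.2 - p.1‖ ≤ R'} := by
        have h1 : MeasurableSet {p : EuclideanSpace ℝ (Fin q) × EuclideanSpace ℝ (Fin n) |
            ‖adjP J p.2 - p.1‖ ≤ R'} :=
          (isClosed_le (by fun_prop) (by fun_prop)).measurableSet
        exact (measurable_snd hKm).inter h1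
      exact measurable_measure_prodMk_left h1
    calc ENNReal.ofReal c * volume K * B = ENNReal.ofReal c * (volume K * B) := by ring
      _ = ∫⁻ z, ENNReal.ofReal c * volume (Kz z) := by
          rw [← hTon, lintegral_const_mul _ hKzm]
      _ ≤ ∫⁻ z, ENNReal.ofReal A * ∑ i ∈ S, ENNReal.ofReal (Real.exp (-(N * x i / 2))) *
            ENNReal.ofReal (Real.exp (-(N * (δ i z) ^ 2 / 2))) := lintegral_mono hone
      _ = ENNReal.ofReal A * ∑ i ∈ S, ENNReal.ofReal (Real.exp (-(N * x i / 2))) *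
            ∫⁻ z, ENNReal.ofReal (Real.exp (-(N * (δ i z) ^ 2 / 2))) := by
          rw [lintegral_const_mul _ (Finset.measurable_fun_sum S fun i _ => (hgm i).const_mul _),
            lintegral_finsetSum _ fun i _ => (hgm i).const_mul _]
          congr 1
          refine Finset.sum_congr rfl fun i _ => ?_
          rw [lintegral_const_mul _ (hgm i)]
      _ ≤ ENNReal.ofReal A * ∑ i ∈ S, ENNReal.ofReal (Real.exp (-(N * x i / 2))) *
            (ENNReal.ofReal (gam N q R') * B) :=
          mul_le_mul' le_rfl (Finset.sum_le_sum fun i _ => mul_le_mul' le_rfl (hgauss i))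
      _ = _ := by
          rw [← Finset.sum_mul, ENNReal.ofReal_mul hA0]
          ring
  exact (ENNReal.mul_le_mul_iff_left hB0 hBt).mp hfinal

end SC70
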