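import Pool.Agent.SC70.TMaj

/-!
# Thin coverings: weighted core estimate for two long directions
-/

set_option autoImplicit false

open MeasureTheory Measure Metric Set Module ENNReal
open scoped RealInnerProductSpace

namespace SC70

variable {n : ℕ}

/-- the scaled majorant -/
noncomputable def tS (n : ℕ) (ϱ : ℝ) (w x : EuclideanSpace ℝ (Fin n)) : ℝ≥0∞ :=
  ENNReal.ofReal (ϱ ^ 2) * tW n (ϱ⁻¹ • w) (ϱ⁻¹ • x)

lemma tS_meas (ϱ : ℝ) (w : EuclideanSpace ℝ (Fin n)) : Measurable (tS n ϱ w) :=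
  ((tW_meas _).comp (measurable_const_smul _)).const_mul _

lemma tS_integral (hn : 3 ≤ n) (R : ℝ) (hR1 : 1 ≤ R) (ϱ : ℝ)
    (hϱ : 1 / 2 ≤ ϱ) (w : EuclideanSpace ℝ (Fin n)) (hw : ‖w‖ ≤ R) :
    ∫⁻ x, tS n ϱ w x ≤
      ENNReal.ofReal (ϱ ^ (n + 1 + 1)) * ENNReal.ofReal (kap n * (1 + 24 * R ^ 2 / n)) := by
  have hϱ0 : 0 < ϱ := by linarith
  have hw' : ‖ϱ⁻¹ • w‖ ≤ 2 * R := by
    rw [norm_smul, norm_inv, Real.norm_of_nonneg hϱ0.le, inv_mul_le_iff₀ hϱ0]
    nlinarith [norm_nonneg w]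
  have h := lintegral_tW_le hn (2 * R) (by linarith) (ϱ⁻¹ • w) hw'
  have hm : Measurable (fun x : EuclideanSpace ℝ (Fin n) => tW n (ϱ⁻¹ • w) (ϱ⁻¹ • x)) :=
    (tW_meas _).comp (measurable_const_smul _)
  unfold tS
  rw [lintegral_const_mul _ hm,
    lintegral_scale ϱ hϱ0 _ (tW_meas _), ← mul_assoc, ← ENNReal.ofReal_mul (by positivity)]
  have e1 : ϱ ^ 2 * ϱ ^ n = ϱ ^ (n + 1 + 1) := by ring
  have e2 : 6 * (2 * R) ^ 2 / n = 24 * R ^ 2 / n := by ring
  rw [e2] at h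
  rw [e1]
  exact mul_le_mul' le_rfl h

lemma tS_ray (hn : 1 ≤ n) (ϱ : ℝ) (hϱ0 : 0 < ϱ) (w : EuclideanSpace ℝ (Fin n))
    (θ : EuclideanSpace ℝ (Fin n)) (hθ : ‖θ‖ = 1) (r : ℝ) (hr : 0 < r) :
    ENNReal.ofReal (r ^ n * max (ϱ ^ 2 - ‖r • θ - w‖ ^ 2) 0) ≤
      ENNReal.ofReal ((2 / (n * Real.exp 1)) * n) *
        ∫⁻ s : ℝ in Ioi (0 : ℝ), ENNReal.ofReal (s ^ (n - 1)) * tS n ϱ w (s • θ) := by
  have h := tW_ray hn (ϱ⁻¹ • w) θ hθ (ϱ⁻¹ * r) (by positivity)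
  have hmeas : Measurable (fun s : ℝ => ENNReal.ofReal (s ^ (n - 1)) * tS n ϱ w (s • θ)) :=
    (by fun_prop : Measurable (fun s : ℝ => ENNReal.ofReal (s ^ (n - 1)))).mul
      ((tS_meas ϱ w).comp (by fun_prop : Measurable (fun s : ℝ => s • θ)))
  have e1 : ∫⁻ s : ℝ in Ioi (0 : ℝ), ENNReal.ofReal (s ^ (n - 1)) * tS n ϱ w (s • θ) =
      ENNReal.ofReal (ϱ ^ (n + 2)) * ∫⁻ s : ℝ in Ioi (0 : ℝ), ENNReal.ofReal (s ^ (n - 1)) *
        tW n (ϱ⁻¹ • w) (s • θ) := by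
    rw [lintegral_Ioi_scale ϱ hϱ0 _ hmeas]
    have hm2 : Measurable (fun s : ℝ => ENNReal.ofReal (s ^ (n - 1)) *
        tW n (ϱ⁻¹ • w) (s • θ)) :=
      (by fun_prop : Measurable (fun s : ℝ => ENNReal.ofReal (s ^ (n - 1)))).mul
        ((tW_meas _).comp (by fun_prop : Measurable (fun s : ℝ => s • θ)))
    rw [← lintegral_const_mul _ (by
      exact (by fun_prop : Measurable (fun s : ℝ => ENNReal.ofReal ((ϱ * s) ^ (n - 1)))).mul
        ((tS_meas ϱ w).comp (by fun_prop : Measurable (fun s : ℝ => (ϱ * s) • θ)))),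
      ← lintegral_const_mul _ hm2]
    apply setLIntegral_congr_fun measurableSet_Ioi
    intro s hs
    have hs0 : (0 : ℝ) < s := hs
    simp only [tS]
    have e2 : ϱ⁻¹ • (ϱ * s) • θ = s • θ := by
      rw [smul_smul, ← mul_assoc, inv_mul_cancel₀ hϱ0.ne', one_mul]
    rw [e2, mul_pow, ENNReal.ofReal_mul (by positivity)]
    have e3 : ϱ ^ (n + 2) = ϱ * (ϱ ^ (n - 1) * ϱ ^ 2) := by
      obtain ⟨m, rfl⟩ : ∃ m, n = m + 1 := ⟨n - 1, by omega⟩
      simp only [Nat.add_sub_cancel]; ring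
    rw [e3, ENNReal.ofReal_mul hϱ0.le, ENNReal.ofReal_mul (by positivity)]
    ring
  have e4 : r ^ n * max (ϱ ^ 2 - ‖r • θ - w‖ ^ 2) 0 =
      ϱ ^ (n + 2) * ((ϱ⁻¹ * r) ^ n * max (1 - ‖(ϱ⁻¹ * r) • θ - ϱ⁻¹ • w‖ ^ 2) 0) := by
    have e5 : (ϱ⁻¹ * r) • θ - ϱ⁻¹ • w = ϱ⁻¹ • (r • θ - w) := by
      rw [smul_sub, smul_smul]
    have e6 : ϱ ^ 2 - ‖r • θ - w‖ ^ 2 = ϱ ^ 2 * (1 - ‖(ϱ⁻¹ * r) • θ - ϱ⁻¹ • w‖ ^ 2) := by
      rw [e5, norm_smul, norm_inv, Real.norm_of_nonneg hϱ0.le]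
      field_simp
    have e7 : max (ϱ ^ 2 - ‖r • θ - w‖ ^ 2) 0 =
        ϱ ^ 2 * max (1 - ‖(ϱ⁻¹ * r) • θ - ϱ⁻¹ • w‖ ^ 2) 0 := by
      rw [e6, mul_max_of_nonneg _ _ (by positivity), mul_zero]
    rw [e7, mul_pow, inv_pow]
    field_simp
    ring
  rw [e1, e4, ENNReal.ofReal_mul (by positivity)]
  calc ENNReal.ofReal (ϱ ^ (n + 2)) *
        ENNReal.ofReal ((ϱ⁻¹ * r) ^ n * max (1 - ‖(ϱ⁻¹ * r) • θ - ϱ⁻¹ • w‖ ^ 2) 0)
      ≤ ENNReal.ofReal (ϱ ^ (n + 2)) * (ENNReal.ofReal ((2 / (n * Real.exp 1)) * n) *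
        ∫⁻ s : ℝ in Ioi (0 : ℝ), ENNReal.ofReal (s ^ (n - 1)) *
          tW n (ϱ⁻¹ • w) (s • θ)) := mul_le_mul' le_rfl h
    _ = _ := by ring

/-- the weighted estimate -/
def TBound (n : ℕ) (R A : ℝ) : Prop :=
  ∀ (ι : Type) (S : Finset ι) (w : ι → EuclideanSpace ℝ (Fin n)) (x : ι → ℝ)
    (K : Set (EuclideanSpace ℝ (Fin n))), MeasurableSet K →
    ∀ y₀, K ⊆ closedBall y₀ R → (∀ i, 0 ≤ x i) →
    ∀ c : ℝ, 0 < c → (∀ y ∈ K, c ≤ ∑ i ∈ S, max (1 - x i - ‖y - w i‖ ^ 2) 0) →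
      ENNReal.ofReal c * volume K ≤
        ENNReal.ofReal A * ∑ i ∈ S, ENNReal.ofReal (Real.exp (-((n + 2) * x i / 2)))

/-- **Weighted core estimate.** -/
theorem tcore (hn : 3 ≤ n) (R : ℝ) (hR1 : 1 ≤ R) :
    TBound n R ((2 / (n * Real.exp 1)) * (kap n * (1 + 24 * R ^ 2 / n))) := by
  classical
  intro ι S w x K hKm y₀ hK hx c hc h
  have hn1 : 1 ≤ n := by omega
  have hn' : (0 : ℝ) < n := by exact_mod_cast hn1
  have hne : Nonempty (Fin n) := ⟨⟨0, by omega⟩⟩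
  have hkap := kap_nonneg n
  set c0 : ℝ := 2 / (n * Real.exp 1) with hc0
  have hc0pos : 0 ≤ c0 := by positivity
  -- translate
  set K0 : Set (EuclideanSpace ℝ (Fin n)) := (fun y => y₀ + y) ⁻¹' K with hK0
  have hK0m : MeasurableSet K0 := (measurable_const_add y₀) hKm
  have hK0R : ∀ y ∈ K0, ‖y‖ ≤ R := by
    intro y hy
    have := hK hy
    simpa using this
  have hvol : volume K0 = volume K := measure_preimage_add _ _ _
  -- move the centres
  set w' : ι → EuclideanSpace ℝ (Fin n) := fun i =>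
    if ‖w i - y₀‖ ≤ R then w i - y₀ else (R / ‖w i - y₀‖) • (w i - y₀) with hw'
  have hw'1 : ∀ i, ‖w' i‖ ≤ R := by
    intro i
    simp only [hw']
    split_ifs with h1
    · exact h1
    · push Not at h1
      have h2 : 0 < ‖w i - y₀‖ := by linarith
      rw [norm_smul, Real.norm_of_nonneg (by positivity), div_mul_cancel₀ _ h2.ne']
  have hdist : ∀ i, ∀ y ∈ K0, ‖y - w' i‖ ≤ ‖(y₀ + y) - w i‖ := by
    intro i y hy
    have e : (y₀ + y) - w i = y - (w i - y₀) := by abel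
    rw [e]
    simp only [hw']
    split_ifs with h1
    · exact le_refl _
    · push Not at h1
      exact move_centre_wide R (w i - y₀) y (by linarith) (hK0R y hy) h1
  set V : ι → EuclideanSpace ℝ (Fin n) → ℝ≥0∞ := fun i y =>
    if x i ≤ 1 then tS n (max (√(1 - x i)) (1 / 2)) (w' i) y else 0
    with hV
  have hVm : ∀ i, Measurable (V i) := by
    intro i
    simp only [hV]
    by_cases h1 : x i ≤ 1
    · simp only [if_pos h1]; exact tS_meas _ _
    · simp only [if_neg h1]; exact measurable_const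
  have hVi : ∀ i, ∫⁻ y, V i y ≤ ENNReal.ofReal (kap n * (1 + 24 * R ^ 2 / n)) *
      ENNReal.ofReal (Real.exp (-((n + 2) * x i / 2))) := by
    intro i
    simp only [hV]
    by_cases h1 : x i ≤ 1
    · simp only [if_pos h1]
      obtain ⟨f1, f2, f3⟩ := radius_facts (n := n + 1) (x i) h1
      refine (tS_integral hn R hR1 _ f1 (w' i) (hw'1 i)).trans ?_
      rw [mul_comm]
      refine mul_le_mul' le_rfl (ENNReal.ofReal_le_ofReal (f3.trans (le_of_eq ?_)))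
      congr 1; push_cast; ring
    · simp only [if_neg h1, lintegral_zero]; exact zero_le
  have hVr : ∀ i, ∀ θ : EuclideanSpace ℝ (Fin n), ‖θ‖ = 1 → ∀ r : ℝ, 0 < r → r • θ ∈ K0 →
      ENNReal.ofReal (r ^ n * max (1 - x i - ‖(y₀ + r • θ) - w i‖ ^ 2) 0) ≤
      ENNReal.ofReal (c0 * n) *
        ∫⁻ s : ℝ in Ioi (0 : ℝ), ENNReal.ofReal (s ^ (n - 1)) * V i (s • θ) := by
    intro i θ hθ r hr hrK
    by_cases h1 : x i ≤ 1
    · obtain ⟨f1, f2, f3⟩ := radius_facts (n := n) (x i) h1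
      have h2 := tS_ray hn1 (max (√(1 - x i)) (1 / 2)) (by linarith) (w' i) θ hθ r hr
      have h3 : ENNReal.ofReal (r ^ n * max (1 - x i - ‖(y₀ + r • θ) - w i‖ ^ 2) 0) ≤
          ENNReal.ofReal (r ^ n *
            max ((max (√(1 - x i)) (1 / 2)) ^ 2 - ‖r • θ - w' i‖ ^ 2) 0) := by
        apply ENNReal.ofReal_le_ofReal
        apply mul_le_mul_of_nonneg_left _ (by positivity)
        apply max_le_max _ le_rfl
        have h4 : ‖r • θ - w' i‖ ^ 2 ≤ ‖(y₀ + r • θ) - w i‖ ^ 2 :=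
          pow_le_pow_left₀ (norm_nonneg _) (hdist i _ hrK) 2
        linarith
      refine h3.trans (h2.trans (le_of_eq ?_))
      simp only [hV, if_pos h1, hc0]
    · have h2 : max (1 - x i - ‖(y₀ + r • θ) - w i‖ ^ 2) 0 = 0 := by
        apply max_eq_right
        have := sq_nonneg ‖(y₀ + r • θ) - w i‖
        linarith
      rw [h2, mul_zero, ENNReal.ofReal_zero]; exact zero_le
  set u : EuclideanSpace ℝ (Fin n) → ℝ≥0∞ := K0.indicator (fun _ => ENNReal.ofReal c) with hu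
  set v : EuclideanSpace ℝ (Fin n) → ℝ≥0∞ := fun y => ∑ i ∈ S, ENNReal.ofReal c0 * V i y with hv
  have hum : Measurable u := measurable_const.indicator hK0m
  have hvm : Measurable v := Finset.measurable_fun_sum S fun i _ => (hVm i).const_mul _
  have hmr : ∀ i, ∀ θ : EuclideanSpace ℝ (Fin n), Measurable (fun r : ℝ =>
      ENNReal.ofReal (r ^ (n - 1)) * V i (r • θ)) := fun i θ =>
    (by fun_prop : Measurable (fun r : ℝ => ENNReal.ofReal (r ^ (n - 1)))).mul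
      ((hVm i).comp (by fun_prop : Measurable (fun r : ℝ => r • θ)))
  have hmain : ∫⁻ y, u y ≤ ∫⁻ y, v y := by
    apply polar_le volume u v hum hvm
    intro θ hθ
    rw [finrank_euclideanSpace_fin]
    set L : ι → ℝ≥0∞ := fun i =>
      ∫⁻ s : ℝ in Ioi (0 : ℝ), ENNReal.ofReal (s ^ (n - 1)) * V i (s • θ) with hL
    have hRHS : ∫⁻ r : ℝ in Ioi (0 : ℝ), ENNReal.ofReal (r ^ (n - 1)) * v (r • θ) =
        ∑ i ∈ S, ENNReal.ofReal c0 * L i := by
      simp only [hv, Finset.mul_sum, hL]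
      rw [lintegral_finsetSum]
      · refine Finset.sum_congr rfl fun i _ => ?_
        rw [← lintegral_const_mul _ (hmr i θ)]
        apply lintegral_congr
        intro r; ring
      · intro i _
        exact (by fun_prop : Measurable (fun r : ℝ => ENNReal.ofReal (r ^ (n - 1)))).mul
          (((hVm i).const_mul _).comp (by fun_prop : Measurable (fun r : ℝ => r • θ)))
    rw [hRHS]
    set Λ : ℝ≥0∞ := ∑ i ∈ S, ENNReal.ofReal (c0 * n) * L i with hΛ
    have hΛe : ∑ i ∈ S, ENNReal.ofReal c0 * L i = Λ * ENNReal.ofReal (1 / n) := by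
      rw [hΛ, Finset.sum_mul]
      refine Finset.sum_congr rfl fun i _ => ?_
      have : ENNReal.ofReal c0 = ENNReal.ofReal (c0 * n) * ENNReal.ofReal (1 / n) := by
        rw [← ENNReal.ofReal_mul (by positivity)]; congr 1; field_simp
      rw [this]; ring
    rw [hΛe]
    by_cases hΛtop : Λ = ⊤
    · rw [hΛtop, ENNReal.top_mul]
      · exact le_top
      · rw [Ne, ENNReal.ofReal_eq_zero]; push Not; positivity
    · have hup := radial_upper n hn1 K0 θ c Λ.toReal hc ENNReal.toReal_nonneg (by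
        intro r hr hrK
        have h1 : ENNReal.ofReal (c * r ^ n) ≤ Λ := by
          calc ENNReal.ofReal (c * r ^ n)
              ≤ ENNReal.ofReal (∑ i ∈ S, r ^ n * max (1 - x i - ‖(y₀ + r • θ) - w i‖ ^ 2) 0) := by
                apply ENNReal.ofReal_le_ofReal
                rw [← Finset.mul_sum, mul_comm]
                exact mul_le_mul_of_nonneg_left (h _ hrK) (by positivity)
            _ = ∑ i ∈ S, ENNReal.ofReal (r ^ n * max (1 - x i - ‖(y₀ + r • θ) - w i‖ ^ 2) 0) := by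
                rw [ENNReal.ofReal_sum_of_nonneg]
                intro i _; positivity
            _ ≤ Λ := Finset.sum_le_sum fun i _ => hVr i θ hθ r hr hrK
        exact (ENNReal.ofReal_le_iff_le_toReal hΛtop).mp h1)
      refine hup.trans (le_of_eq ?_)
      rw [div_eq_mul_one_div, ENNReal.ofReal_mul ENNReal.toReal_nonneg, ENNReal.ofReal_toReal hΛtop]
  have hL' : ∫⁻ y, u y = ENNReal.ofReal c * volume K := by
    rw [hu, lintegral_indicator hK0m, setLIntegral_const, hvol]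
  have hR' : ∫⁻ y, v y ≤ ENNReal.ofReal (c0 * (kap n * (1 + 24 * R ^ 2 / n))) *
      ∑ i ∈ S, ENNReal.ofReal (Real.exp (-((n + 2) * x i / 2))) := by
    simp only [hv]
    rw [lintegral_finsetSum _ fun i _ => (hVm i).const_mul _, Finset.mul_sum]
    apply Finset.sum_le_sum
    intro i _
    rw [lintegral_const_mul _ (hVm i), ENNReal.ofReal_mul hc0pos, mul_assoc]
    exact mul_le_mul' le_rfl (hVi i)
  rw [← hL']
  exact hmain.trans hR'

end SC70
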