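import Pool.Agent.SC70.TWin
import Pool.Agent.SC70.WGeo

/-!
# Thin coverings: two long directions, geometric form
-/

set_option autoImplicit false

open MeasureTheory Measure Metric Set Module ENNReal
open scoped RealInnerProductSpace Pointwise

namespace SC70

variable {n : ℕ}

theorem exists_frame2 (e₁ e₂ : EuclideanSpace ℝ (Fin (n + 1 + 1))) (he₁ : ‖e₁‖ = 1)
    (he₂ : ‖e₂‖ = 1) (h12 : ⟪e₁, e₂⟫ = 0) :
    ∃ L : EuclideanSpace ℝ (Fin n) →ₗᵢ[ℝ] EuclideanSpace ℝ (Fin (n + 1 + 1)),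
      (∀ y, ⟪e₁, L y⟫ = 0) ∧ (∀ y, ⟪e₂, L y⟫ = 0) ∧
      MeasurePreserving (fun z : (ℝ × ℝ) × EuclideanSpace ℝ (Fin n) =>
        z.1.1 • e₁ + z.1.2 • e₂ + L z.2) volume volume ∧
      Function.Surjective (fun z : (ℝ × ℝ) × EuclideanSpace ℝ (Fin n) =>
        z.1.1 • e₁ + z.1.2 • e₂ + L z.2) := by
  obtain ⟨L₁, hL₁, hmp₁, hs₁⟩ := exists_frame e₁ he₁
  obtain ⟨⟨s, y'⟩, hy'⟩ := hs₁ e₂
  simp only at hy'
  have hs0 : s = 0 := by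
    have h1 : ⟪e₁, s • e₁ + L₁ y'⟫ = 0 := by rw [hy']; exact h12
    rw [inner_add_right, inner_smul_right, hL₁, real_inner_self_eq_norm_sq, he₁] at h1
    linarith
  rw [hs0, zero_smul, zero_add] at hy'
  have hy1 : ‖y'‖ = 1 := by rw [← L₁.norm_map, hy']; exact he₂
  obtain ⟨L₂, hL₂, hmp₂, hs₂⟩ := exists_frame y' hy1
  have hform : (fun z : (ℝ × ℝ) × EuclideanSpace ℝ (Fin n) =>
        z.1.1 • e₁ + z.1.2 • e₂ + (L₁.comp L₂) z.2) =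
      (fun z : ℝ × EuclideanSpace ℝ (Fin (n + 1)) => z.1 • e₁ + L₁ z.2) ∘
        (Prod.map (id : ℝ → ℝ)
          (fun z : ℝ × EuclideanSpace ℝ (Fin n) => z.1 • y' + L₂ z.2)) ∘
        (MeasurableEquiv.prodAssoc : (ℝ × ℝ) × EuclideanSpace ℝ (Fin n) ≃ᵐ
          ℝ × ℝ × EuclideanSpace ℝ (Fin n)) := by
    funext z
    show z.1.1 • e₁ + z.1.2 • e₂ + L₁ (L₂ z.2) = z.1.1 • e₁ + L₁ (z.1.2 • y' + L₂ z.2)
    rw [map_add, map_smul, hy']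
    abel
  refine ⟨L₁.comp L₂, ?_, ?_, ?_, ?_⟩
  · intro y
    exact hL₁ _
  · intro y
    rw [← hy']
    show ⟪L₁ y', L₁ (L₂ y)⟫ = 0
    rw [L₁.inner_map_map]
    exact hL₂ y
  · rw [hform]
    have h1 : MeasurePreserving (Prod.map (id : ℝ → ℝ)
          (fun z : ℝ × EuclideanSpace ℝ (Fin n) => z.1 • y' + L₂ z.2))
        ((volume : Measure ℝ).prod (volume : Measure (ℝ × EuclideanSpace ℝ (Fin n))))
        ((volume : Measure ℝ).prod (volume : Measure (EuclideanSpace ℝ (Fin (n + 1))))) :=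
      (MeasurePreserving.id _).prod hmp₂
    exact hmp₁.comp (h1.comp (measurePreserving_prodAssoc _ _ _))
  · rw [hform]
    intro x
    obtain ⟨⟨a, v⟩, hav⟩ := hs₁ x
    obtain ⟨⟨b, y⟩, hby⟩ := hs₂ v
    refine ⟨((a, b), y), ?_⟩
    simp only at hav hby
    show a • e₁ + L₁ (b • y' + L₂ y) = x
    rw [hby, hav]

lemma frame2_norm {e₁ e₂ : EuclideanSpace ℝ (Fin (n + 1 + 1))} (he₁ : ‖e₁‖ = 1)
    (he₂ : ‖e₂‖ = 1) (h12 : ⟪e₁, e₂⟫ = 0)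
    (L : EuclideanSpace ℝ (Fin n) →ₗᵢ[ℝ] EuclideanSpace ℝ (Fin (n + 1 + 1)))
    (hL1 : ∀ y, ⟪e₁, L y⟫ = 0) (hL2 : ∀ y, ⟪e₂, L y⟫ = 0) (s t : ℝ)
    (y : EuclideanSpace ℝ (Fin n)) :
    ‖s • e₁ + t • e₂ + L y‖ ^ 2 = s ^ 2 + t ^ 2 + ‖y‖ ^ 2 := by
  rw [norm_add_sq_real, norm_add_sq_real, norm_smul, norm_smul, he₁, he₂, inner_add_left,
    inner_smul_left, inner_smul_left, inner_smul_left, inner_smul_right, h12, hL1, hL2,
    L.norm_map, Real.norm_eq_abs, Real.norm_eq_abs, mul_one, mul_one, sq_abs, sq_abs]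
  simp

/-- Bodies close to a flat, version with two translates. -/
theorem tgeo {R'' A : ℝ} (hA0 : 0 ≤ A) (hW : TBound n R'' A) (R' ρ : ℝ)
    (hR' : 0 < R') (hρ : 0 ≤ ρ) (hR'' : 2 * R' + ρ ≤ R'') (m : ℕ)
    (V : Submodule ℝ (EuclideanSpace ℝ (Fin (n + 1 + 1)))) (hV : finrank ℝ V ≤ m)
    (C : Set (EuclideanSpace ℝ (Fin (n + 1 + 1)))) (hconv : Convex ℝ C)
    (hCc : IsCompact C) (hthin : ∀ x ∈ C, ∀ y ∈ C, ∃ v ∈ V, ‖x - y - v‖ ≤ ρ)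
    (e₁ e₂ : EuclideanSpace ℝ (Fin (n + 1 + 1))) (he₁ : ‖e₁‖ = 1)
    (he₂ : ‖e₂‖ = 1) (h12 : ⟪e₁, e₂⟫ = 0)
    (X : Finset (EuclideanSpace ℝ (Fin (n + 1 + 1)))) (hcov : C ⊆ ⋃ x ∈ X, closedBall x 1)
    (ℓ : ℝ) (hℓ : 0 < ℓ) :
    ENNReal.ofReal (ℓ ^ 2 / Real.pi) *
        volume {x | x ∈ C ∧ x + ℓ • e₁ ∈ C ∧ x + ℓ • e₂ ∈ C ∧ x + ℓ • e₁ + ℓ • e₂ ∈ C} ≤
      ENNReal.ofReal (A * gam (n + 2) m R') *
        (X.card * ENNReal.ofReal ((ℓ + 2 * √(2 * Real.pi / (n + 2))) ^ 2)) := by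
  obtain ⟨L, hL1, hL2, hmp, hsurj⟩ := exists_frame2 e₁ e₂ he₁ he₂ h12
  set χ : (ℝ × ℝ) × EuclideanSpace ℝ (Fin n) → EuclideanSpace ℝ (Fin (n + 1 + 1)) :=
    fun z => z.1.1 • e₁ + z.1.2 • e₂ + L z.2 with hχ
  have hLc : Continuous L := L.continuous
  have hχc : Continuous χ := by
    simp only [hχ]
    fun_prop
  have hdiff : ∀ z z', χ z - χ z' =
      (z.1.1 - z'.1.1) • e₁ + (z.1.2 - z'.1.2) • e₂ + L (z.2 - z'.2) := by
    intro z z'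
    simp only [hχ, sub_smul, map_sub]
    abel
  have hdist : ∀ z z', ‖χ z - χ z'‖ ^ 2 =
      (z.1.1 - z'.1.1) ^ 2 + (z.1.2 - z'.1.2) ^ 2 + ‖z.2 - z'.2‖ ^ 2 := by
    intro z z'
    rw [hdiff, frame2_norm he₁ he₂ h12 L hL1 hL2]
  have hχsurj : ∀ x, ∃ z, χ z = x := hsurj
  choose ζ hζ using hχsurj
  set C1 : Set ((ℝ × ℝ) × EuclideanSpace ℝ (Fin n)) := χ ⁻¹' C with hC1
  have hC1m : MeasurableSet C1 := hχc.measurable hCc.measurableSet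
  have hC1conv : Convex ℝ C1 := by
    intro z hz z' hz' α β hα hβ hαβ
    have h1 := hconv hz hz' hα hβ hαβ
    have h2 : χ (α • z + β • z') = α • χ z + β • χ z' := by
      simp only [hχ, Prod.fst_add, Prod.smul_fst, Prod.snd_add, Prod.smul_snd, smul_eq_mul,
        map_add, map_smul, add_smul, mul_smul, smul_add]
      abel
    rw [hC1, mem_preimage, h2]
    exact h1
  have hshift1 : Continuous (fun x : EuclideanSpace ℝ (Fin (n + 1 + 1)) => x + ℓ • e₁) := by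
    fun_prop
  have hshift2 : Continuous (fun x : EuclideanSpace ℝ (Fin (n + 1 + 1)) => x + ℓ • e₂) := by
    fun_prop
  have hshift3 : Continuous (fun x : EuclideanSpace ℝ (Fin (n + 1 + 1)) =>
      x + ℓ • e₁ + ℓ • e₂) := by fun_prop
  have hKm : MeasurableSet
      {x | x ∈ C ∧ x + ℓ • e₁ ∈ C ∧ x + ℓ • e₂ ∈ C ∧ x + ℓ • e₁ + ℓ • e₂ ∈ C} :=
    hCc.measurableSet.inter ((hshift1.measurable hCc.measurableSet).inter
      ((hshift2.measurable hCc.measurableSet).inter (hshift3.measurable hCc.measurableSet)))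
  have hvol : volume (cornS C1 ℓ) =
      volume {x | x ∈ C ∧ x + ℓ • e₁ ∈ C ∧ x + ℓ • e₂ ∈ C ∧ x + ℓ • e₁ + ℓ • e₂ ∈ C} := by
    rw [← hmp.measure_preimage hKm.nullMeasurableSet]
    congr 1
    ext z
    simp only [cornS, Set.mem_ofPred_eq, mem_preimage, hC1, hχ, add_smul]
    have e1 : z.1.1 • e₁ + ℓ • e₁ + z.1.2 • e₂ + L z.2 =
        z.1.1 • e₁ + z.1.2 • e₂ + L z.2 + ℓ • e₁ := by abel
    have e2 : z.1.1 • e₁ + (z.1.2 • e₂ + ℓ • e₂) + L z.2 =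
        z.1.1 • e₁ + z.1.2 • e₂ + L z.2 + ℓ • e₂ := by abel
    have e3 : z.1.1 • e₁ + ℓ • e₁ + (z.1.2 • e₂ + ℓ • e₂) + L z.2 =
        z.1.1 • e₁ + z.1.2 • e₂ + L z.2 + ℓ • e₁ + ℓ • e₂ := by abel
    rw [e1, e2, e3]
  -- the subspace
  set U : Submodule ℝ (EuclideanSpace ℝ (Fin n)) :=
    V.map ((adjP L : EuclideanSpace ℝ (Fin (n + 1 + 1)) →L[ℝ] EuclideanSpace ℝ (Fin n)) :
      EuclideanSpace ℝ (Fin (n + 1 + 1)) →ₗ[ℝ] EuclideanSpace ℝ (Fin n)) with hU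
  have hUm : finrank ℝ U ≤ m := (Submodule.finrank_map_le _ V).trans hV
  obtain ⟨J, hJ⟩ := exists_embedding U
  have hadj : ∀ z z', adjP L (χ z - χ z') = z.2 - z'.2 := by
    intro z z'
    rw [hdiff, map_add, map_add, map_smul, map_smul, adjP_J]
    have e2 : adjP L e₁ = 0 := by
      apply ext_inner_right ℝ
      intro v
      rw [adjP_inner, hL1, inner_zero_left]
    have e3 : adjP L e₂ = 0 := by
      apply ext_inner_right ℝ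
      intro v
      rw [adjP_inner, hL2, inner_zero_left]
    rw [e2, e3, smul_zero, smul_zero, zero_add, zero_add]
  have hthin1 : ∀ z ∈ C1, ∀ z' ∈ C1, ‖adjP J (z.2 - z'.2)‖ ≤ 2 * R' → ‖z.2 - z'.2‖ ≤ R'' := by
    intro z hz z' hz' hP
    obtain ⟨v, hv, hv'⟩ := hthin (χ z) hz (χ z') hz'
    have hu : adjP L v ∈ U := Submodule.mem_map_of_mem hv
    obtain ⟨u0, hu0⟩ := hJ _ hu
    have h2 : ‖(z.2 - z'.2) - J u0‖ ≤ ρ := by
      rw [hu0, ← hadj z z', ← map_sub]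
      exact (adjP_norm_le L _).trans hv'
    have h3 := (adjP_dist J (z.2 - z'.2) u0).trans h2
    have h4 := adjP_pyth J (z.2 - z'.2)
    have h5 : ‖z.2 - z'.2‖ ^ 2 ≤ (2 * R' + ρ) ^ 2 := by
      rw [h4]
      have h6 : ‖adjP J (z.2 - z'.2)‖ ^ 2 ≤ (2 * R') ^ 2 := pow_le_pow_left₀ (norm_nonneg _) hP 2
      have h7 : ‖(z.2 - z'.2) - J (adjP J (z.2 - z'.2))‖ ^ 2 ≤ ρ ^ 2 :=
        pow_le_pow_left₀ (norm_nonneg _) h3 2
      nlinarith [mul_nonneg hR'.le hρ]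
    exact (abs_le_of_sq_le_sq' h5 (by positivity) |>.2).trans hR''
  have hcov1 : ∀ z ∈ C1, ∃ x ∈ X, (z.1.1 - (ζ x).1.1) ^ 2 + (z.1.2 - (ζ x).1.2) ^ 2 +
      ‖z.2 - (ζ x).2‖ ^ 2 ≤ 1 := by
    intro z hz
    have h2 := hcov hz
    simp only [mem_iUnion] at h2
    obtain ⟨x, hx, h3⟩ := h2
    refine ⟨x, hx, ?_⟩
    rw [mem_closedBall, dist_eq_norm] at h3
    rw [← hdist, hζ]
    nlinarith [norm_nonneg (χ z - x)]
  have hmain := twin_bound hA0 hW J R' hR' (EuclideanSpace ℝ (Fin (n + 1 + 1))) X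
    (fun x => (ζ x).1.1) (fun x => (ζ x).1.2) (fun x => (ζ x).2) C1 hC1m hC1conv hthin1 hcov1
    ℓ hℓ
  rw [hvol] at hmain
  refine hmain.trans ?_
  apply mul_le_mul' _ le_rfl
  apply ENNReal.ofReal_le_ofReal
  exact mul_le_mul_of_nonneg_left (gam_mono _ _ (by positivity) hR' hUm) hA0

end SC70
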