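import Mathlib

/-!
# Convex bodies covered by few balls are close to a flat of low dimension
-/

set_option autoImplicit false

open MeasureTheory Measure Metric Set Module ENNReal
open scoped RealInnerProductSpace Pointwise

namespace SC70

variable {E : Type*} [NormedAddCommGroup E] [InnerProductSpace ℝ E] [FiniteDimensional ℝ E]

/-- greedy choice of points far from the span of the previous ones -/
lemma greedy (C : Set E) (x₀ : E) (h : ℝ) (hh : 0 ≤ h) (M : ℕ) :
    (∃ S : Submodule ℝ E, finrank ℝ S < M ∧ ∀ x ∈ C, ∃ y ∈ S, ‖x - x₀ - y‖ ≤ h) ∨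
    ∃ b y : ℕ → E, (∀ i < M, ‖b i‖ = 1) ∧ (∀ i < M, ∀ l < i, ⟪b i, b l⟫ = 0) ∧
      (∀ l < M, x₀ + y l ∈ C) ∧ (∀ l < M, y l ∈ Submodule.span ℝ (b '' Iio M)) ∧
      (∀ i < M, ∀ l < i, ⟪b i, y l⟫ = 0) ∧ (∀ l < M, h < ⟪b l, y l⟫) := by
  classical
  induction M with
  | zero =>
    right
    exact ⟨fun _ => 0, fun _ => 0, by simp, by simp, by simp, by simp, by simp, by simp⟩
  | succ M ih =>
    rcases ih with ⟨S, hS, hS2⟩ | ⟨b, y, h1, h2, h3, h4, h5, h6⟩
    · left
      exact ⟨S, by omega, hS2⟩
    set S : Submodule ℝ E := Submodule.span ℝ (b '' Iio M) with hSdef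
    have hSdim : finrank ℝ S ≤ M := by
      have hfin : (b '' Iio M) = ((Finset.range M).image b : Finset E) := by
        ext x; simp
      rw [hSdef, hfin]
      refine (finrank_span_finset_le_card _).trans ?_
      refine Finset.card_image_le.trans ?_
      simp
    by_cases hclose : ∀ x ∈ C, ∃ y ∈ S, ‖x - x₀ - y‖ ≤ h
    · left
      exact ⟨S, by omega, hclose⟩
    push Not at hclose
    obtain ⟨x, hx, hfar⟩ := hclose
    right
    set p : E := S.starProjection (x - x₀) with hp
    have hpS : p ∈ S := Submodule.starProjection_apply_mem S (x - x₀)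
    set r : E := x - x₀ - p with hr
    have hrh : h < ‖r‖ := hfar p hpS
    have hr0 : 0 < ‖r‖ := lt_of_le_of_lt hh hrh
    have hrS : ∀ w ∈ S, ⟪r, w⟫ = 0 := fun w hw => Submodule.starProjection_inner_eq_zero _ w hw
    set β : E := (1 / ‖r‖) • r with hβ
    have hβ1 : ‖β‖ = 1 := by
      rw [hβ, norm_smul, Real.norm_of_nonneg (by positivity)]; field_simp
    have hβS : ∀ w ∈ S, ⟪β, w⟫ = 0 := by
      intro w hw
      rw [hβ, inner_smul_left, hrS w hw]; simp
    have hβy : ⟪β, x - x₀⟫ = ‖r‖ := by
      have e : x - x₀ = r + p := by rw [hr]; abel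
      rw [e, inner_add_right, hβS p hpS, add_zero, hβ, inner_smul_left,
        real_inner_self_eq_norm_sq]
      simp only [one_div, map_inv₀, conj_trivial]
      field_simp
    refine ⟨fun i => if i = M then β else b i, fun i => if i = M then x - x₀ else y i,
      ?_, ?_, ?_, ?_, ?_, ?_⟩
    · intro i hi
      by_cases hiM : i = M
      · simp [hiM, hβ1]
      · simp only [hiM, if_false]
        exact h1 i (by omega)
    · intro i hi l hl
      have hlM : l ≠ M := by omega
      by_cases hiM : i = M
      · simp only [hiM, if_true, hlM, if_false]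
        apply hβS
        exact Submodule.subset_span ⟨l, by simp only [mem_Iio]; omega, rfl⟩
      · simp only [hiM, hlM, if_false]
        exact h2 i (by omega) l hl
    · intro l hl
      by_cases hlM : l = M
      · simp only [hlM, if_true]
        have : x₀ + (x - x₀) = x := by abel
        rw [this]; exact hx
      · simp only [hlM, if_false]
        exact h3 l (by omega)
    · intro l hl
      have hsub : b '' Iio M ⊆ (fun i => if i = M then β else b i) '' Iio (M + 1) := by
        rintro z ⟨i, hi, rfl⟩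
        simp only [mem_Iio] at hi
        refine ⟨i, by simp only [mem_Iio]; omega, ?_⟩
        have : i ≠ M := by omega
        simp [this]
      have hmono := Submodule.span_mono (R := ℝ) hsub
      by_cases hlM : l = M
      · simp only [hlM, if_true]
        have e : x - x₀ = ‖r‖ • β + p := by
          rw [hβ, smul_smul]
          have : ‖r‖ * (1 / ‖r‖) = 1 := by field_simp
          rw [this, one_smul, hr]; abel
        rw [e]
        apply Submodule.add_mem
        · apply Submodule.smul_mem
          apply Submodule.subset_span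
          exact ⟨M, by simp, by simp⟩
        · exact hmono hpS
      · simp only [hlM, if_false]
        exact hmono (h4 l (by omega))
    · intro i hi l hl
      have hlM : l ≠ M := by omega
      by_cases hiM : i = M
      · simp only [hiM, if_true, hlM, if_false]
        apply hβS
        exact h4 l (by omega)
      · simp only [hiM, hlM, if_false]
        exact h5 i (by omega) l hl
    · intro l hl
      by_cases hlM : l = M
      · simp only [hlM, if_true]
        rw [hβy]; exact hrh
      · simp only [hlM, if_false]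
        exact h6 l (by omega)

/-- the cross-polytope -/
def crossP (M : ℕ) : Set (Fin M → ℝ) := {t | ∑ i, |t i| ≤ 1}

lemma crossP_vol (M : ℕ) : 0 < volume (crossP M) ∧ volume (crossP M) < ⊤ := by
  constructor
  · have hsub : {t : Fin M → ℝ | ∑ i, |t i| < 1} ⊆ crossP M := by
      intro t ht
      unfold crossP
      simp only [Set.mem_ofPred_eq] at ht ⊢
      exact ht.le
    have hopen : IsOpen {t : Fin M → ℝ | ∑ i, |t i| < 1} := by
      apply isOpen_lt _ continuous_const
      fun_prop
    refine lt_of_lt_of_le (hopen.measure_pos volume ⟨0, by simp⟩) (measure_mono hsub)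
  · have hsub : crossP M ⊆ closedBall 0 1 := by
      intro t ht
      rw [mem_closedBall_zero_iff, pi_norm_le_iff_of_nonneg zero_le_one]
      intro i
      rw [Real.norm_eq_abs]
      exact (Finset.single_le_sum (f := fun i => |t i|) (fun j _ => abs_nonneg _)
        (Finset.mem_univ i)).trans ht
    exact lt_of_le_of_lt (measure_mono hsub) measure_closedBall_lt_top

lemma crossP_scale (M : ℕ) (q : Fin M → ℝ) (r : ℝ) (hr : 0 < r) :
    volume {s : Fin M → ℝ | ∑ i, |s i - q i| ≤ r} =
      ENNReal.ofReal (r ^ M) * volume (crossP M) := by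
  have h1 : {s : Fin M → ℝ | ∑ i, |s i - q i| ≤ r} = q +ᵥ (r • crossP M) := by
    ext s
    constructor
    · intro hs
      refine ⟨s - q, ⟨(1 / r) • (s - q), ?_, ?_⟩, ?_⟩
      · unfold crossP
        simp only [Set.mem_ofPred_eq, Pi.smul_apply, Pi.sub_apply, smul_eq_mul, abs_mul]
        rw [← Finset.mul_sum, abs_of_pos (by positivity), one_div, inv_mul_le_iff₀ hr, mul_one]
        exact hs
      · simp only [smul_smul]
        have : r * (1 / r) = 1 := by field_simp
        rw [this, one_smul]
      · simp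
    · rintro ⟨_, ⟨t, ht, rfl⟩, rfl⟩
      simp only [Set.mem_ofPred_eq, vadd_eq_add, Pi.add_apply, Pi.smul_apply, smul_eq_mul,
        add_sub_cancel_left, abs_mul]
      rw [← Finset.mul_sum, abs_of_pos hr]
      have h2 : ∑ i, |t i| ≤ 1 := ht
      nlinarith
  rw [h1, measure_vadd, addHaar_smul]
  congr 1
  rw [finrank_fin_fun, abs_of_nonneg (by positivity)]

omit [FiniteDimensional ℝ E] in
/-- few balls cannot cover a big cross-polytope -/
lemma cross_cover (M : ℕ) (hM : 1 ≤ M) (h : ℝ) (hh : 0 < h) (b y : ℕ → E)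
    (h1 : ∀ i < M, ‖b i‖ = 1) (h2 : ∀ i < M, ∀ l < i, ⟪b i, b l⟫ = 0)
    (h5 : ∀ i < M, ∀ l < i, ⟪b i, y l⟫ = 0) (h6 : ∀ l < M, h < ⟪b l, y l⟫)
    (P : Finset E)
    (hcov : ∀ t : Fin M → ℝ, ∑ i, |t i| ≤ 1 → ∃ p ∈ P, ‖∑ i, t i • y i - p‖ ≤ 2) :
    h ^ M ≤ P.card * (2 * √M) ^ M := by
  classical
  have hM0 : (0 : ℝ) < M := by exact_mod_cast hM
  have hsM : 0 < √(M : ℝ) := Real.sqrt_pos.mpr hM0
  set B : Matrix (Fin M) (Fin M) ℝ := Matrix.of fun i l => ⟪b i, y l⟫ with hB
  have hdet : h ^ M ≤ B.det := by
    have htri : B.BlockTriangular id := by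
      intro i l hil
      simp only [id] at hil
      rw [hB, Matrix.of_apply]
      exact h5 i i.2 l hil
    rw [Matrix.det_of_isUpperTriangular htri]
    calc h ^ M = ∏ _i : Fin M, h := by simp
      _ ≤ ∏ i : Fin M, B i i := by
          apply Finset.prod_le_prod
          · intro i _; exact hh.le
          · intro i _
            rw [hB, Matrix.of_apply]
            exact (h6 i i.2).le
  have hdet0 : 0 < B.det := lt_of_lt_of_le (by positivity) hdet
  have hdetL : LinearMap.det (Matrix.toLin' B) = B.det := LinearMap.det_toLin' B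
  have hon : Orthonormal ℝ (fun i : Fin M => b i) := by
    constructor
    · intro i; exact h1 i i.2
    · intro i l hil
      rcases lt_trichotomy (i : ℕ) (l : ℕ) with h3 | h3 | h3
      · simp only
        rw [real_inner_comm]; exact h2 l l.2 i h3
      · exact absurd (Fin.ext h3) hil
      · exact h2 i i.2 l h3
  have hpiece : ∀ p ∈ P, volume {t : Fin M → ℝ | ‖∑ i, t i • y i - p‖ ≤ 2} ≤
      ENNReal.ofReal ((2 * √M) ^ M / h ^ M) * volume (crossP M) := by
    intro p _
    set q : Fin M → ℝ := fun i => ⟪b i, p⟫ with hq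
    have hsub : {t : Fin M → ℝ | ‖∑ i, t i • y i - p‖ ≤ 2} ⊆
        (Matrix.toLin' B) ⁻¹' {s : Fin M → ℝ | ∑ i, |s i - q i| ≤ 2 * √M} := by
      intro t ht
      simp only [Set.mem_ofPred_eq] at ht
      simp only [mem_preimage, Set.mem_ofPred_eq]
      have e1 : ∀ i : Fin M, Matrix.toLin' B t i - q i = ⟪b i, ∑ l, t l • y l - p⟫ := by
        intro i
        rw [inner_sub_right, inner_sum, Matrix.toLin'_apply, Matrix.mulVec, hB]
        simp only [dotProduct, Matrix.of_apply, inner_smul_right, hq]
        congr 1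
        apply Finset.sum_congr rfl
        intro l _
        ring
      have h3 : ∑ i : Fin M, ⟪b i, ∑ l, t l • y l - p⟫ ^ 2 ≤ 4 := by
        have h4 := hon.sum_inner_products_le (s := Finset.univ) (x := ∑ l, t l • y l - p)
        simp only [Real.norm_eq_abs, sq_abs] at h4
        refine h4.trans ?_
        nlinarith [norm_nonneg (∑ i, t i • y i - p)]
      simp only [e1]
      have h4 : (∑ i : Fin M, |⟪b i, ∑ l, t l • y l - p⟫|) ^ 2 ≤ (2 * √M) ^ 2 := by
        have h7 := Finset.sum_mul_sq_le_sq_mul_sq Finset.univ (fun _ : Fin M => (1 : ℝ))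
          (fun i : Fin M => |⟪b i, ∑ l, t l • y l - p⟫|)
        simp only [one_mul, one_pow, Finset.sum_const, Finset.card_univ, Fintype.card_fin,
          nsmul_eq_mul, mul_one, sq_abs] at h7
        refine h7.trans ?_
        rw [mul_pow, Real.sq_sqrt hM0.le]
        nlinarith
      exact (abs_le_of_sq_le_sq' h4 (by positivity)).2
    refine (measure_mono hsub).trans ?_
    rw [addHaar_preimage_linearMap _ (by rw [hdetL]; exact hdet0.ne'), hdetL,
      crossP_scale M q _ (by positivity), ← mul_assoc,
      ← ENNReal.ofReal_mul (abs_nonneg _)]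
    apply mul_le_mul' _ le_rfl
    apply ENNReal.ofReal_le_ofReal
    rw [abs_of_pos (by positivity), div_eq_inv_mul]
    apply mul_le_mul_of_nonneg_right _ (by positivity)
    exact inv_anti₀ (by positivity) hdet
  have hsum : volume (crossP M) ≤
      ∑ _p ∈ P, ENNReal.ofReal ((2 * √M) ^ M / h ^ M) * volume (crossP M) := by
    have hsub : crossP M ⊆ ⋃ p ∈ P, {t : Fin M → ℝ | ‖∑ i, t i • y i - p‖ ≤ 2} := by
      intro t ht
      obtain ⟨p, hp, hp2⟩ := hcov t ht
      simp only [mem_iUnion]
      exact ⟨p, hp, hp2⟩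
    refine (measure_mono hsub).trans ?_
    refine (measure_biUnion_finset_le P _).trans ?_
    exact Finset.sum_le_sum hpiece
  obtain ⟨hv0, hvt⟩ := crossP_vol M
  rw [Finset.sum_const, nsmul_eq_mul, ← mul_assoc] at hsum
  nth_rewrite 1 [← one_mul (volume (crossP M))] at hsum
  rw [ENNReal.mul_le_mul_iff_left hv0.ne' hvt.ne] at hsum
  have hreal : (1 : ℝ) ≤ P.card * ((2 * √M) ^ M / h ^ M) := by
    rw [← ENNReal.ofReal_natCast, ← ENNReal.ofReal_mul (Nat.cast_nonneg _),
      ← ENNReal.ofReal_one] at hsum
    exact (ENNReal.ofReal_le_ofReal_iff (by positivity)).mp hsum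
  rw [mul_div_assoc', le_div_iff₀ (by positivity), one_mul] at hreal
  exact hreal

/-- a convex set covered by few balls is close to a flat -/
lemma flat_of_few (C : Set E) (hconv : Convex ℝ C) (x₀ : E) (hx₀ : x₀ ∈ C) (X : Finset E)
    (hcov : C ⊆ ⋃ x ∈ X, closedBall x 1) (h : ℝ) (hh : 0 < h) (M : ℕ) (hM : 1 ≤ M)
    (hcard : (X.card : ℝ) ^ 2 * (2 * √M) ^ M < h ^ M) :
    ∃ S : Submodule ℝ E, finrank ℝ S < M ∧ ∀ x ∈ C, ∃ y ∈ S, ‖x - x₀ - y‖ ≤ h := by
  classical
  rcases greedy C x₀ h hh.le M with hS | ⟨b, y, h1, h2, h3, -, h5, h6⟩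
  · exact hS
  exfalso
  -- convex combinations
  have hcomb : ∀ s : Fin M → ℝ, (∀ i, 0 ≤ s i) → ∑ i, s i ≤ 1 → x₀ + ∑ i, s i • y i ∈ C := by
    intro s hs0 hs1
    have h7 := hconv.sum_mem (t := (Finset.univ : Finset (Option (Fin M))))
      (w := fun o => o.elim (1 - ∑ i, s i) s) (z := fun o => o.elim x₀ (fun i => x₀ + y i))
      (by
        intro o _
        cases o with
        | none => simp only [Option.elim]; linarith
        | some i => exact hs0 i)
      (by rw [Fintype.sum_option]; simp)
      (by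
        intro o _
        cases o with
        | none => exact hx₀
        | some i => exact h3 i i.2)
    rw [Fintype.sum_option] at h7
    simp only [Option.elim, smul_add, Finset.sum_add_distrib, ← Finset.sum_smul, sub_smul,
      one_smul] at h7
    have e : x₀ - (∑ i, s i) • x₀ + ((∑ i, s i) • x₀ + ∑ i, s i • y i) =
        x₀ + ∑ i, s i • y i := by abel
    rwa [e] at h7
  set P : Finset E := (X ×ˢ X).image (fun z => z.1 - z.2) with hP
  have hPcard : (P.card : ℝ) ≤ (X.card : ℝ) ^ 2 := by
    have : P.card ≤ X.card ^ 2 := by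
      rw [hP]
      refine Finset.card_image_le.trans ?_
      rw [Finset.card_product, sq]
    exact_mod_cast this
  have hmain := cross_cover M hM h hh b y h1 h2 h5 h6 P (by
    intro t ht
    have hpos : ∑ i, max (t i) 0 ≤ 1 := by
      refine le_trans (Finset.sum_le_sum fun i _ => ?_) ht
      exact max_le (le_abs_self _) (abs_nonneg _)
    have hneg : ∑ i, max (-t i) 0 ≤ 1 := by
      refine le_trans (Finset.sum_le_sum fun i _ => ?_) ht
      exact max_le (neg_le_abs _) (abs_nonneg _)
    have hu := hcomb (fun i => max (t i) 0) (fun i => le_max_right _ _) hpos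
    have hw := hcomb (fun i => max (-t i) 0) (fun i => le_max_right _ _) hneg
    have hu' := hcov hu
    have hw' := hcov hw
    simp only [mem_iUnion] at hu' hw'
    obtain ⟨p, hp, hp2⟩ := hu'
    obtain ⟨p', hp', hp2'⟩ := hw'
    refine ⟨p - p', ?_, ?_⟩
    · rw [hP, Finset.mem_image]
      exact ⟨(p, p'), Finset.mem_product.mpr ⟨hp, hp'⟩, rfl⟩
    · rw [mem_closedBall, dist_eq_norm] at hp2 hp2'
      have e : ∑ i, t i • y i = (x₀ + ∑ i, max (t i) 0 • y i) -
          (x₀ + ∑ i, max (-t i) 0 • y i) := by
        rw [add_sub_add_left_eq_sub, ← Finset.sum_sub_distrib]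
        apply Finset.sum_congr rfl
        intro i _
        rw [← sub_smul]
        congr 1
        rcases le_total 0 (t i) with h8 | h8
        · rw [max_eq_left h8, max_eq_right (by linarith), sub_zero]
        · rw [max_eq_right h8, max_eq_left (by linarith)]; ring
      rw [e]
      have e2 : (x₀ + ∑ i, max (t i) 0 • y i) - (x₀ + ∑ i, max (-t i) 0 • y i) - (p - p') =
          ((x₀ + ∑ i, max (t i) 0 • y i) - p) - ((x₀ + ∑ i, max (-t i) 0 • y i) - p') := by
        abel
      rw [e2]
      refine (norm_sub_le _ _).trans ?_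
      linarith)
  have h9 : (P.card : ℝ) * (2 * √M) ^ M ≤ (X.card : ℝ) ^ 2 * (2 * √M) ^ M := by
    apply mul_le_mul_of_nonneg_right hPcard (by positivity)
  linarith

end SC70
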