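import Pool.Agent.SC70.WShift
import Pool.Agent.SC70.WDim

/-!
# Thin coverings: the final statement
-/

set_option autoImplicit false

open MeasureTheory Measure Metric Set Module ENNReal
open scoped RealInnerProductSpace Pointwise

namespace SC70

/-- few balls: the body is close to a flat -/
lemma flat_of_exp {n : ℕ} (c₁ : ℝ) (hc₁ : 0 < c₁) (hbig : 200 ≤ c₁ * ((n : ℝ) + 1))
    (C : Set (EuclideanSpace ℝ (Fin (n + 1)))) (X : Finset (EuclideanSpace ℝ (Fin (n + 1))))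
    (hconv : Convex ℝ C) (x₀ : EuclideanSpace ℝ (Fin (n + 1))) (hx₀ : x₀ ∈ C)
    (hcov : C ⊆ ⋃ x ∈ X, closedBall x 1)
    (hX : (X.card : ℝ) ≤ Real.exp (c₁ / 400 * ((n : ℝ) + 1))) :
    ∃ S : Submodule ℝ (EuclideanSpace ℝ (Fin (n + 1))),
      (finrank ℝ S : ℝ) ≤ c₁ * ((n : ℝ) + 1) ∧
      ∀ x ∈ C, ∃ y ∈ S, ‖x - x₀ - y‖ ≤ √(c₁ * ((n : ℝ) + 1)) := by
  obtain ⟨T, hT⟩ : ∃ T : ℝ, T = c₁ * ((n : ℝ) + 1) := ⟨_, rfl⟩
  have hX' : (X.card : ℝ) ≤ Real.exp (T / 400) := by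
    have e : c₁ / 400 * ((n : ℝ) + 1) = T / 400 := by rw [hT]; ring
    rwa [e] at hX
  rw [← hT] at hbig ⊢
  have hT0 : 0 < T := by linarith
  obtain ⟨M, hMdef⟩ : ∃ M : ℕ, M = ⌊T / 200⌋₊ + 1 := ⟨_, rfl⟩
  have hM1 : 1 ≤ M := by omega
  have hMa : T / 200 < M := by
    rw [hMdef]; push_cast; exact Nat.lt_floor_add_one _
  have hfl : (⌊T / 200⌋₊ : ℝ) ≤ T / 200 := Nat.floor_le (by positivity)
  have hMb : (M : ℝ) ≤ T / 100 := by
    rw [hMdef]; push_cast; linarith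
  have hh : 0 < √T := Real.sqrt_pos.mpr hT0
  have hsM : √(M : ℝ) ≤ √T / 10 := by
    rw [Real.sqrt_le_left (by positivity), div_pow, Real.sq_sqrt hT0.le]
    linarith
  have hpow : (2 * √(M : ℝ)) ^ M ≤ (√T / 5) ^ M := by
    apply pow_le_pow_left₀ (by positivity)
    linarith
  have hcard : (X.card : ℝ) ^ 2 < 5 ^ M := by
    have h1 : (X.card : ℝ) ^ 2 ≤ Real.exp (T / 400) ^ 2 :=
      pow_le_pow_left₀ (Nat.cast_nonneg _) hX' 2
    have h2 : Real.exp (T / 400) ^ 2 = Real.exp (T / 200) := by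
      rw [← Real.exp_nat_mul]; congr 1; push_cast; ring
    have h3 : Real.exp (T / 200) ≤ Real.exp M := Real.exp_le_exp.mpr hMa.le
    have h4 : Real.exp (M : ℝ) = Real.exp 1 ^ M := by
      rw [← Real.exp_nat_mul]; congr 1; ring
    have h5 : Real.exp 1 ^ M < 5 ^ M := by
      apply pow_lt_pow_left₀ _ (Real.exp_pos _).le (by omega)
      have := Real.exp_one_lt_d9; linarith
    linarith
  have hkey : (X.card : ℝ) ^ 2 * (2 * √(M : ℝ)) ^ M < √T ^ M := by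
    have hp : 0 < (√T / 5) ^ M := by positivity
    calc (X.card : ℝ) ^ 2 * (2 * √(M : ℝ)) ^ M ≤ (X.card : ℝ) ^ 2 * (√T / 5) ^ M :=
          mul_le_mul_of_nonneg_left hpow (by positivity)
      _ < 5 ^ M * (√T / 5) ^ M := mul_lt_mul_of_pos_right hcard hp
      _ = √T ^ M := by rw [← mul_pow]; congr 1; ring
  obtain ⟨S, hS, hS2⟩ := flat_of_few C hconv x₀ hx₀ X hcov (√T) hh M hM1 hkey
  refine ⟨S, ?_, hS2⟩
  have h6 : finrank ℝ S ≤ ⌊T / 200⌋₊ := by omega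
  have h7 : (finrank ℝ S : ℝ) ≤ (⌊T / 200⌋₊ : ℝ) := by exact_mod_cast h6
  linarith

/-- the finite form, with explicit conditions -/
theorem wfinal {n : ℕ} (hn : 3 ≤ n) (ε : ℝ) (hε0 : 0 < ε) (hε1 : ε ≤ 1)
    (h2 : 2500 / ε ≤ n) (h3 : 200 ≤ ε ^ 2 / 100000 * ((n : ℝ) + 1)) (c : ℝ)
    (hc : c = ε ^ 2 / 40000000)
    (C : Set (EuclideanSpace ℝ (Fin (n + 1)))) (X : Finset (EuclideanSpace ℝ (Fin (n + 1))))
    (hconv : Convex ℝ C) (hCc : IsCompact C) (hcov : C ⊆ ⋃ x ∈ X, closedBall x 1)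
    (hflat : (X.card : ℝ) ≤ Real.exp (c * (n + 1 : ℕ)) ∨
      ∃ S : AffineSubspace ℝ (EuclideanSpace ℝ (Fin (n + 1))),
        (finrank ℝ S.direction : ℝ) ≤ c * (n + 1 : ℕ) ∧
        ∀ x ∈ C, ∃ y ∈ S, ‖x - y‖ ^ 2 ≤ c * (n + 1 : ℕ))
    (hlong : (∃ v : EuclideanSpace ℝ (Fin (n + 1)), 1 / (c * √((n + 1 : ℕ) : ℝ)) ≤ ‖v‖ ∧
        volume (C \ (v +ᵥ C)) ≤ ENNReal.ofReal c * volume C) ∨
      (∃ x ∈ C, ∃ y ∈ C, √((n + 1 : ℕ) : ℝ) / c ≤ ‖x - y‖) ∨
      (√((n + 1 : ℕ) : ℝ) / c) ^ (n + 1) ≤ X.card) (hk1 : 1 ≤ X.card) :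
    ∃ (C' : Set (EuclideanSpace ℝ (Fin (n + 1)))) (Y : Finset (EuclideanSpace ℝ (Fin (n + 1)))),
      Convex ℝ C' ∧ IsCompact C' ∧ (interior C').Nonempty ∧ Y.card = X.card ∧
      Collinear ℝ (Y : Set (EuclideanSpace ℝ (Fin (n + 1)))) ∧
      C' ⊆ ⋃ y ∈ Y, closedBall y (1 : ℝ) ∧
      volume C ≤ ENNReal.ofReal (1 + ε) * volume C' := by
  have hn1 : 1 ≤ n := by omega
  have hn' : (3 : ℝ) ≤ n := by exact_mod_cast hn
  have hkap := kap_pos n
  have hMn := Mn_pos hn1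
  have hsN : 0 < √((n : ℝ) + 1) := Real.sqrt_pos.mpr (by positivity)
  have hcast : ((n + 1 : ℕ) : ℝ) = (n : ℝ) + 1 := by push_cast; ring
  rw [hcast] at hflat hlong
  have hc0 : 0 < c := by rw [hc]; positivity
  have hcc : c ≤ ε ^ 2 / 100000 := by
    rw [hc]
    apply div_le_div_of_nonneg_left (by positivity) (by norm_num) (by norm_num)
  obtain ⟨C', Y, c1, c2, c3, c4, c5, c6, c7⟩ := sausage_exists hn1 X.card hk1
  refine ⟨C', Y, c1, c2, c3, c4, c5, c6, ?_⟩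
  rw [c7, ← ENNReal.ofReal_mul (by linarith)]
  rcases C.eq_empty_or_nonempty with hCe | hCne
  · rw [hCe]; simp
  obtain ⟨x₀, hx₀⟩ := hCne
  -- a flat
  obtain ⟨c₁, hc₁def⟩ : ∃ c₁ : ℝ, c₁ = ε ^ 2 / 100000 := ⟨_, rfl⟩
  have hc₁0 : 0 < c₁ := by rw [hc₁def]; positivity
  obtain ⟨V, hVm, hthin⟩ : ∃ V : Submodule ℝ (EuclideanSpace ℝ (Fin (n + 1))),
      (finrank ℝ V : ℝ) ≤ c₁ * ((n : ℝ) + 1) ∧
      ∀ x ∈ C, ∀ y ∈ C, ∃ v ∈ V, ‖x - y - v‖ ≤ 2 * √(c₁ * ((n : ℝ) + 1)) := by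
    rcases hflat with h | ⟨S, hS, hCS⟩
    · have hcq : c = c₁ / 400 := by rw [hc, hc₁def]; ring
      rw [hcq] at h
      obtain ⟨V, hV1, hV2⟩ := flat_of_exp c₁ hc₁0 (by rw [hc₁def]; exact h3) C X hconv x₀ hx₀
        hcov h
      refine ⟨V, hV1, ?_⟩
      intro x hx y hy
      obtain ⟨x', hx', hxx⟩ := hV2 x hx
      obtain ⟨y', hy', hyy⟩ := hV2 y hy
      refine ⟨x' - y', V.sub_mem hx' hy', ?_⟩
      have e : x - y - (x' - y') = (x - x₀ - x') - (y - x₀ - y') := by abel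
      rw [e]
      refine (norm_sub_le _ _).trans ?_
      linarith
    · refine ⟨S.direction, hS.trans ?_, ?_⟩
      · rw [hc₁def]
        apply mul_le_mul_of_nonneg_right hcc (by positivity)
      intro x hx y hy
      obtain ⟨x', hx', hxx⟩ := hCS x hx
      obtain ⟨y', hy', hyy⟩ := hCS y hy
      refine ⟨x' - y', AffineSubspace.vsub_mem_direction hx' hy', ?_⟩
      have hle : c * ((n : ℝ) + 1) ≤ c₁ * ((n : ℝ) + 1) := by
        rw [hc₁def]
        apply mul_le_mul_of_nonneg_right hcc (by positivity)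
      have h4 : ‖x - x'‖ ≤ √(c₁ * ((n : ℝ) + 1)) := Real.le_sqrt_of_sq_le (hxx.trans hle)
      have h5 : ‖y - y'‖ ≤ √(c₁ * ((n : ℝ) + 1)) := Real.le_sqrt_of_sq_le (hyy.trans hle)
      have e : x - y - (x' - y') = (x - x') - (y - y') := by abel
      rw [e]
      refine (norm_sub_le _ _).trans ?_
      linarith
  have hρ0 : 0 ≤ 2 * √(c₁ * ((n : ℝ) + 1)) := by positivity
  have hρ2 : 2 * √(c₁ * ((n : ℝ) + 1)) ≤ √(ε * n) / 100 := by
    have h4 : √(c₁ * ((n : ℝ) + 1)) ≤ √(ε * n) / 200 := by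
      rw [Real.sqrt_le_left (by positivity), div_pow, Real.sq_sqrt (by positivity), hc₁def]
      have h5 : ε ^ 2 ≤ ε := by nlinarith
      have h6 : (n : ℝ) + 1 ≤ 2 * n := by linarith
      calc ε ^ 2 / 100000 * ((n : ℝ) + 1) ≤ ε / 100000 * (2 * n) := by gcongr
        _ = ε * n / 50000 := by ring
        _ ≤ ε * n / 200 ^ 2 := by
            apply div_le_div_of_nonneg_left (by positivity) (by norm_num) (by norm_num)
    linarith
  have hm' : (finrank ℝ V : ℝ) ≤ ε ^ 2 / 20000 * n := by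
    refine hVm.trans ?_
    rw [hc₁def]
    calc ε ^ 2 / 100000 * ((n : ℝ) + 1) ≤ ε ^ 2 / 100000 * (5 * n) := by
          gcongr; linarith
      _ = ε ^ 2 / 20000 * n := by ring
  -- the diameter
  obtain ⟨⟨b, a⟩, ⟨hb, ha⟩, hmax⟩ := (hCc.prod hCc).exists_isMaxOn
    (Set.Nonempty.prod ⟨x₀, hx₀⟩ ⟨x₀, hx₀⟩)
    (f := fun z : EuclideanSpace ℝ (Fin (n + 1)) × EuclideanSpace ℝ (Fin (n + 1)) =>
      ‖z.1 - z.2‖) (by fun_prop)
  have hab : ∀ x ∈ C, ∀ y ∈ C, ‖x - y‖ ≤ ‖b - a‖ := by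
    intro x hx y hy
    exact isMaxOn_iff.mp hmax (x, y) ⟨hx, hy⟩
  by_cases hlen : 4400 * √((n : ℝ) + 1) / ε ^ 2 ≤ ‖b - a‖
  · exact wmain_bound hn ε hε0 hε1 h2 (finrank ℝ V) hm' _ hρ0 hρ2 V le_rfl C hconv hCc
      hthin a b ha hb hab hlen X hcov
  · push Not at hlen
    rcases hlong with ⟨u, hu1, hu2⟩ | hlong
    · have h4 : c ≤ ε / 100 := by
        rw [hc]
        have : ε ^ 2 ≤ ε := by nlinarith
        linarith
      have hu : 100 / ε / √((n : ℝ) + 1) ≤ ‖u‖ := by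
        refine le_trans ?_ hu1
        rw [div_div, div_le_div_iff₀ (by positivity) (by positivity)]
        nlinarith
      have hsh : volume (C \ (u +ᵥ C)) ≤ ENNReal.ofReal (ε / 20) * volume C := by
        refine hu2.trans ?_
        apply mul_le_mul' _ le_rfl
        apply ENNReal.ofReal_le_ofReal
        linarith
      exact wmain_bound2 hn ε hε0 hε1 h2 (finrank ℝ V) hm' _ hρ0 hρ2 V le_rfl C hconv hCc
        hthin u hu hsh X hcov
    · have e4 : 100000 * √((n : ℝ) + 1) / ε ^ 2 ≤ √((n : ℝ) + 1) / c := by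
        rw [hc, div_div_eq_mul_div]
        apply div_le_div_of_nonneg_right _ (by positivity)
        nlinarith
      have hk : (100000 * √((n : ℝ) + 1) / ε ^ 2) ^ (n + 1) ≤ X.card := by
        rcases hlong with ⟨x, hx, y, hy, hxy⟩ | h
        · exfalso
          have h4 := hab x hx y hy
          have h5 : 4400 * √((n : ℝ) + 1) / ε ^ 2 ≤ 100000 * √((n : ℝ) + 1) / ε ^ 2 := by
            gcongr; norm_num
          linarith
        · exact (pow_le_pow_left₀ (by positivity) e4 _).trans h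
      refine (wshort_body hn ε hε0 C a (fun x hx => (hab x hx a ha).trans hlen.le) X.card
        hk).trans ?_
      apply ENNReal.ofReal_le_ofReal
      have hσ : 0 ≤ 2 * (X.card : ℝ) * (kap n * Mn n) := by positivity
      nlinarith

end SC70
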