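import Pool.Agent.SC70.TGeo
import Pool.Agent.SC70.TNum
import Pool.Agent.SC70.WFinal

/-!
# Thin coverings: bodies which are long in two directions
-/

set_option autoImplicit false

open MeasureTheory Measure Metric Set Module ENNReal
open scoped RealInnerProductSpace Pointwise

namespace SC70

variable {n : ℕ}

/-- the part of a convex body which leaves it under a short translation in the direction of `-u` -/
lemma exit_le {N : ℕ} (C : Set (EuclideanSpace ℝ (Fin N))) (hconv : Convex ℝ C)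
    (u : EuclideanSpace ℝ (Fin N)) (ℓ : ℝ) (hℓ0 : 0 < ℓ) (hu : ℓ ≤ ‖u‖) :
    {x | x ∈ C ∧ x + ℓ • (-((1 / ‖u‖) • u)) ∉ C} ⊆ C \ (u +ᵥ C) := by
  have hu0 : 0 < ‖u‖ := lt_of_lt_of_le hℓ0 hu
  rintro x ⟨hx, hxe⟩
  refine ⟨hx, fun hxu => hxe ?_⟩
  obtain ⟨y, hy, hyx⟩ := hxu
  have hyx' : u + y = x := hyx
  have hseg := hconv.segment_subset hx hy
  apply hseg
  refine ⟨1 - ℓ / ‖u‖, ℓ / ‖u‖, ?_, by positivity, by ring, ?_⟩
  · rw [sub_nonneg, div_le_one hu0]; exact hu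
  · have e1 : y = x + -u := by rw [← hyx']; abel
    rw [e1, smul_add, ← add_assoc, ← add_smul]
    have e2 : 1 - ℓ / ‖u‖ + ℓ / ‖u‖ = 1 := by ring
    rw [e2, one_smul, smul_neg, smul_neg, smul_smul]
    congr 3
    field_simp

/-- the volume of the set of starting points of square windows -/
lemma corner_volume {N : ℕ} (C : Set (EuclideanSpace ℝ (Fin N))) (hCc : IsCompact C)
    (e₁ e₂ : EuclideanSpace ℝ (Fin N)) (ℓ : ℝ) :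
    volume C ≤ volume {x | x ∈ C ∧ x + ℓ • e₁ ∈ C ∧ x + ℓ • e₂ ∈ C ∧ x + ℓ • e₁ + ℓ • e₂ ∈ C} +
      (volume {x | x ∈ C ∧ x + ℓ • e₁ ∉ C} + (volume {x | x ∈ C ∧ x + ℓ • e₂ ∉ C} +
        volume {x | x ∈ C ∧ x + ℓ • e₂ ∉ C})) := by
  have hsub : C ⊆ {x | x ∈ C ∧ x + ℓ • e₁ ∈ C ∧ x + ℓ • e₂ ∈ C ∧ x + ℓ • e₁ + ℓ • e₂ ∈ C} ∪
      ({x | x ∈ C ∧ x + ℓ • e₁ ∉ C} ∪ ({x | x ∈ C ∧ x + ℓ • e₂ ∉ C} ∪
        (fun x => ℓ • e₁ + x) ⁻¹' {x | x ∈ C ∧ x + ℓ • e₂ ∉ C})) := by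
    intro x hx
    by_cases h1 : x + ℓ • e₁ ∈ C
    · by_cases h2 : x + ℓ • e₂ ∈ C
      · by_cases h3 : x + ℓ • e₁ + ℓ • e₂ ∈ C
        · exact Or.inl ⟨hx, h1, h2, h3⟩
        · right; right; right
          have e : ℓ • e₁ + x = x + ℓ • e₁ := by abel
          simp only [mem_preimage, Set.mem_ofPred_eq]
          rw [e]
          exact ⟨h1, h3⟩
      · exact Or.inr (Or.inr (Or.inl ⟨hx, h2⟩))
    · exact Or.inr (Or.inl ⟨hx, h1⟩)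
  have hpre : volume ((fun x => ℓ • e₁ + x) ⁻¹' {x | x ∈ C ∧ x + ℓ • e₂ ∉ C}) =
      volume {x | x ∈ C ∧ x + ℓ • e₂ ∉ C} := measure_preimage_add _ _ _
  refine (measure_mono hsub).trans ((measure_union_le _ _).trans (add_le_add le_rfl ?_))
  refine (measure_union_le _ _).trans (add_le_add le_rfl ?_)
  refine (measure_union_le _ _).trans (add_le_add le_rfl ?_)
  rw [hpre]

theorem tmain_bound (hn : 25000 ≤ n) (m : ℕ) (hm : (m : ℝ) ≤ (1 / 10) ^ 2 / 20000 * n)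
    (ρ : ℝ) (hρ : 0 ≤ ρ) (hρ2 : ρ ≤ √(1 / 10 * n) / 100)
    (V : Submodule ℝ (EuclideanSpace ℝ (Fin (n + 1 + 1)))) (hV : finrank ℝ V ≤ m)
    (C : Set (EuclideanSpace ℝ (Fin (n + 1 + 1)))) (hconv : Convex ℝ C)
    (hCc : IsCompact C) (hthin : ∀ x ∈ C, ∀ y ∈ C, ∃ v ∈ V, ‖x - y - v‖ ≤ ρ)
    (u₁ u₂ : EuclideanSpace ℝ (Fin (n + 1 + 1))) (h12 : ⟪u₁, u₂⟫ = 0)
    (hu₁ : 1000 / √((n : ℝ) + 2) ≤ ‖u₁‖) (hu₂ : 1000 / √((n : ℝ) + 2) ≤ ‖u₂‖)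
    (hs₁ : volume (C \ (u₁ +ᵥ C)) ≤ ENNReal.ofReal (1 / 300) * volume C)
    (hs₂ : volume (C \ (u₂ +ᵥ C)) ≤ ENNReal.ofReal (1 / 300) * volume C)
    (X : Finset (EuclideanSpace ℝ (Fin (n + 1 + 1)))) (hcov : C ⊆ ⋃ x ∈ X, closedBall x 1) :
    volume C ≤ ENNReal.ofReal (4 / 5 * (2 * X.card * (kap (n + 1) * Mn (n + 1)))) := by
  have hn1 : 1 ≤ n := by omega
  have hn3 : 3 ≤ n := by omega
  have hn' : (25000 : ℝ) ≤ n := by exact_mod_cast hn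
  have hn0 : (0 : ℝ) < n := by linarith
  have hkap := kap_pos n
  have hπ := Real.pi_pos
  obtain ⟨s, hsdef⟩ : ∃ s : ℝ, s = √(1 / 10 * n) := ⟨_, rfl⟩
  have hs0 : 0 < s := by rw [hsdef]; exact Real.sqrt_pos.mpr (by positivity)
  have hs2 : s ^ 2 = 1 / 10 * n := by rw [hsdef]; exact Real.sq_sqrt (by positivity)
  have hs50 : 50 ≤ s := by
    rw [hsdef]
    apply Real.le_sqrt_of_sq_le
    norm_num
    linarith
  have hγ := gam_le_two hn3 (1 / 10) (by norm_num) (by norm_num) m hm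
  rw [← hsdef] at hρ2 hγ
  have hcore := tcore hn3 (s / 50) (by linarith)
  obtain ⟨er, herdef⟩ : ∃ er : ℝ, er = 24 * (s / 50) ^ 2 / n := ⟨_, rfl⟩
  rw [← herdef] at hcore
  have her0 : 0 ≤ er := by rw [herdef]; positivity
  have her : er ≤ 1 / 1000 := by
    rw [herdef, div_pow, hs2, div_le_iff₀ hn0]
    linarith
  obtain ⟨A, hA⟩ : ∃ A : ℝ, A = (2 / (n * Real.exp 1)) * (kap n * (1 + er)) := ⟨_, rfl⟩
  rw [← hA] at hcore
  have hA0 : 0 ≤ A := by rw [hA]; positivity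
  obtain ⟨ℓ, hℓdef⟩ : ∃ ℓ : ℝ, ℓ = 1000 / √((n : ℝ) + 2) := ⟨_, rfl⟩
  have hℓ0 : 0 < ℓ := by rw [hℓdef]; positivity
  rw [← hℓdef] at hu₁ hu₂
  have hu₁0 : 0 < ‖u₁‖ := lt_of_lt_of_le hℓ0 hu₁
  have hu₂0 : 0 < ‖u₂‖ := lt_of_lt_of_le hℓ0 hu₂
  have hunit : ∀ u : EuclideanSpace ℝ (Fin (n + 1 + 1)), 0 < ‖u‖ → ‖-((1 / ‖u‖) • u)‖ = 1 := by
    intro u hu0
    rw [norm_neg, norm_smul, Real.norm_of_nonneg (by positivity)]
    field_simp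
  have hin : ⟪-((1 / ‖u₁‖) • u₁), -((1 / ‖u₂‖) • u₂)⟫ = 0 := by
    rw [inner_neg_neg, inner_smul_left, inner_smul_right, h12]
    simp
  have hmain := tgeo hA0 hcore (s / 200) ρ (by linarith) hρ (by linarith) m V hV C hconv hCc hthin
    _ _ (hunit u₁ hu₁0) (hunit u₂ hu₂0) hin X hcov ℓ hℓ0
  have hex₁ := (measure_mono (μ := volume) (exit_le C hconv u₁ ℓ hℓ0 hu₁)).trans hs₁
  have hex₂ := (measure_mono (μ := volume) (exit_le C hconv u₂ ℓ hℓ0 hu₂)).trans hs₂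
  have hcv := corner_volume C hCc (-((1 / ‖u₁‖) • u₁)) (-((1 / ‖u₂‖) • u₂)) ℓ
  obtain ⟨Q, hQ⟩ : ∃ Q : ℝ≥0∞, Q = volume {x | x ∈ C ∧ x + ℓ • (-((1 / ‖u₁‖) • u₁)) ∈ C ∧
      x + ℓ • (-((1 / ‖u₂‖) • u₂)) ∈ C ∧
      x + ℓ • (-((1 / ‖u₁‖) • u₁)) + ℓ • (-((1 / ‖u₂‖) • u₂)) ∈ C} := ⟨_, rfl⟩
  rw [← hQ] at hmain hcv
  have hγ0 : 0 ≤ gam (n + 2) m (s / 200) := by unfold gam; positivity
  obtain ⟨γ, hγdef⟩ : ∃ γ : ℝ, γ = gam (n + 2) m (s / 200) := ⟨_, rfl⟩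
  rw [← hγdef] at hmain hγ hγ0
  obtain ⟨τ, hτ⟩ : ∃ τ : ℝ, τ = 2 * √(2 * Real.pi / (n + 2)) := ⟨_, rfl⟩
  rw [← hτ] at hmain
  have hτ0 : 0 ≤ τ := by rw [hτ]; positivity
  have hτℓ : τ ≤ ℓ * (6 / 1000) := by
    rw [hτ, hℓdef, Real.sqrt_div (by positivity)]
    have h1 := sqrt_two_pi_lt
    have hsq : 0 < √((n : ℝ) + 2) := Real.sqrt_pos.mpr (by positivity)
    have e1 : 1000 / √((n : ℝ) + 2) * (6 / 1000) = 6 / √((n : ℝ) + 2) := by ring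
    have e2 : 2 * (√(2 * Real.pi) / √((n : ℝ) + 2)) = 2 * √(2 * Real.pi) / √((n : ℝ) + 2) := by
      ring
    rw [e1, e2]
    apply div_le_div_of_nonneg_right _ hsq.le
    linarith
  have hfin : volume C ≠ ⊤ := hCc.measure_lt_top.ne
  obtain ⟨v, hv⟩ : ∃ v : ℝ, v = (volume C).toReal := ⟨_, rfl⟩
  have hv0 : 0 ≤ v := by rw [hv]; exact ENNReal.toReal_nonneg
  have hvv : volume C = ENNReal.ofReal v := by rw [hv, ENNReal.ofReal_toReal hfin]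
  obtain ⟨k, hk⟩ : ∃ k : ℝ, k = (X.card : ℝ) := ⟨_, rfl⟩
  have hk0 : 0 ≤ k := by rw [hk]; exact Nat.cast_nonneg _
  have hXk : (X.card : ℝ≥0∞) = ENNReal.ofReal k := by rw [hk, ENNReal.ofReal_natCast]
  have hcv2 : volume C ≤ Q + ENNReal.ofReal (1 / 100) * volume C := by
    refine hcv.trans (add_le_add le_rfl ?_)
    refine (add_le_add hex₁ (add_le_add hex₂ hex₂)).trans (le_of_eq ?_)
    rw [← add_mul, ← add_mul, ← ENNReal.ofReal_add (by norm_num) (by norm_num),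
      ← ENNReal.ofReal_add (by norm_num) (by norm_num)]
    norm_num
  have hmain2 : ENNReal.ofReal (ℓ ^ 2 / Real.pi) * volume C ≤
      ENNReal.ofReal (A * γ) * (X.card * ENNReal.ofReal ((ℓ + τ) ^ 2)) +
      ENNReal.ofReal (ℓ ^ 2 / Real.pi) * (ENNReal.ofReal (1 / 100) * volume C) := by
    calc ENNReal.ofReal (ℓ ^ 2 / Real.pi) * volume C
        ≤ ENNReal.ofReal (ℓ ^ 2 / Real.pi) * (Q + ENNReal.ofReal (1 / 100) * volume C) :=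
          mul_le_mul' le_rfl hcv2
      _ = ENNReal.ofReal (ℓ ^ 2 / Real.pi) * Q +
          ENNReal.ofReal (ℓ ^ 2 / Real.pi) * (ENNReal.ofReal (1 / 100) * volume C) := by
          rw [mul_add]
      _ ≤ _ := add_le_add hmain le_rfl
  rw [hvv, ← hk]
  apply ENNReal.ofReal_le_ofReal
  have hreal : ℓ ^ 2 / Real.pi * v ≤ A * γ * (k * (ℓ + τ) ^ 2) +
      ℓ ^ 2 / Real.pi * (1 / 100 * v) := by
    rw [hvv, hXk] at hmain2
    have hl2 : 0 ≤ ℓ ^ 2 / Real.pi := by positivity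
    have hAγ : 0 ≤ A * γ := mul_nonneg hA0 hγ0
    have hβv : 0 ≤ 1 / 100 * v := by positivity
    have p1 : 0 ≤ A * γ * (k * (ℓ + τ) ^ 2) := by positivity
    have p2 : 0 ≤ ℓ ^ 2 / Real.pi * (1 / 100 * v) := by positivity
    rw [← ENNReal.ofReal_mul hl2, ← ENNReal.ofReal_mul hk0, ← ENNReal.ofReal_mul hAγ,
      ← ENNReal.ofReal_mul (by norm_num), ← ENNReal.ofReal_mul hl2,
      ← ENNReal.ofReal_add p1 p2] at hmain2
    exact (ENNReal.ofReal_le_ofReal_iff (add_nonneg p1 p2)).mp hmain2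
  exact tnum hn er γ A v k ℓ τ her0 her hγ0 (by linarith) hA hv0 hk0 hℓ0 hτ0 hτℓ hreal

end SC70
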