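import Pool.Agent.SC70.WCore

/-!
# Thin coverings: the comparison density for two long directions
-/

set_option autoImplicit false

open MeasureTheory Measure Metric Set Module ENNReal
open scoped RealInnerProductSpace

namespace SC70

variable {n : ℕ}

/-- comparison density for two long directions -/
noncomputable def Gw (n : ℕ) (w x : EuclideanSpace ℝ (Fin n)) : ℝ :=
  (((n : ℝ) + 2) / n) * ‖x‖ ^ 2 - (((n : ℝ) + 1) / n) * ⟪x, w⟫

lemma Gw_continuous (n : ℕ) (w : EuclideanSpace ℝ (Fin n)) : Continuous (Gw n w) := by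
  unfold Gw; fun_prop

lemma Gw_shift (hn : 1 ≤ n) (w u : EuclideanSpace ℝ (Fin n)) : Gw n w (u + w) =
    ‖w‖ ^ 2 / n + (((n : ℝ) + 2) / n) * ‖u‖ ^ 2 + (((n : ℝ) + 3) / n) * ⟪w, u⟫ := by
  have hn' : (0 : ℝ) < n := by exact_mod_cast hn
  unfold Gw
  rw [norm_add_sq_real, inner_add_left, real_inner_self_eq_norm_sq, real_inner_comm w u]
  field_simp
  ring

lemma setIntegral_ball_shift (f : EuclideanSpace ℝ (Fin n) → ℝ) (w : EuclideanSpace ℝ (Fin n)) :
    ∫ x in closedBall w 1, f (x - w) =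
      ∫ u in closedBall (0 : EuclideanSpace ℝ (Fin n)) 1, f u := by
  rw [← integral_indicator measurableSet_closedBall, ← integral_indicator measurableSet_closedBall,
    ← integral_add_right_eq_self _ w]
  congr 1
  funext x
  by_cases hx : x ∈ closedBall (0 : EuclideanSpace ℝ (Fin n)) 1
  · rw [indicator_of_mem hx, indicator_of_mem (by simpa using hx), add_sub_cancel_right]
  · rw [indicator_of_notMem hx, indicator_of_notMem (by simpa using hx)]

/-- integral of the positive part over the ball -/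
lemma tball_part (hn : 3 ≤ n) (w : EuclideanSpace ℝ (Fin n)) :
    ∫⁻ x in closedBall w 1, ENNReal.ofReal (Gw n w x) ≤
      ENNReal.ofReal (kap n * (1 + (2 * ‖w‖ ^ 2 + 4) / n)) := by
  have hn1 : 1 ≤ n := by omega
  have hn' : (3 : ℝ) ≤ n := by exact_mod_cast hn
  have hkap := kap_nonneg n
  obtain ⟨f, hf⟩ : ∃ f : EuclideanSpace ℝ (Fin n) → ℝ, f = fun u =>
      (‖w‖ ^ 2 / n + 2) + ((((n : ℝ) + 2) / n - 2) * ‖u‖ ^ 2 +
        ((((n : ℝ) + 3) / n) * ⟪w, u⟫ + ⟪w, u⟫ ^ 2)) := ⟨_, rfl⟩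
  have hfc : Continuous f := by rw [hf]; fun_prop
  have hfi : IntegrableOn (fun x => f (x - w)) (closedBall w 1) :=
    ((by fun_prop : Continuous (fun x => f (x - w))).continuousOn).integrableOn_compact
      (isCompact_closedBall _ _)
  have hFi' : IntegrableOn (fun x => max (Gw n w x) 0) (closedBall w 1) :=
    (((Gw_continuous n w).max continuous_const).continuousOn).integrableOn_compact
      (isCompact_closedBall _ _)
  have hpt : ∀ x ∈ closedBall w 1, max (Gw n w x) 0 ≤ f (x - w) := by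
    intro x hx
    obtain ⟨u, rfl⟩ : ∃ u : EuclideanSpace ℝ (Fin n), x = u + w := ⟨x - w, by simp⟩
    rw [add_sub_cancel_right, Gw_shift hn1, hf]
    simp only
    have hu : ‖u‖ ≤ 1 := by
      rw [mem_closedBall, dist_eq_norm, add_sub_cancel_right] at hx; exact hx
    have hu2 : ‖u‖ ^ 2 ≤ 1 := by nlinarith [norm_nonneg u]
    obtain ⟨t, ht⟩ : ∃ t : ℝ, t = ‖u‖ ^ 2 := ⟨_, rfl⟩
    have ht0 : 0 ≤ t := by rw [ht]; positivity
    obtain ⟨a, ha⟩ : ∃ a : ℝ, a = ⟪w, u⟫ := ⟨_, rfl⟩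
    obtain ⟨c, hc⟩ : ∃ c : ℝ, c = ((n : ℝ) + 3) / n := ⟨_, rfl⟩
    obtain ⟨b, hb⟩ : ∃ b : ℝ, b = ((n : ℝ) + 2) / n := ⟨_, rfl⟩
    rw [← ht] at hu2
    rw [← ht, ← ha, ← hc, ← hb]
    have hc2 : c ≤ 2 := by rw [hc, div_le_iff₀ (by linarith)]; linarith
    have hc0 : 0 ≤ c := by rw [hc]; positivity
    have hb1 : 1 ≤ b := by rw [hb, le_div_iff₀ (by linarith)]; linarith
    have hb2 : b ≤ 2 := by rw [hb, div_le_iff₀ (by linarith)]; linarith
    have hwn : 0 ≤ ‖w‖ ^ 2 / n := by positivity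
    apply max_le
    · nlinarith [sq_nonneg a]
    · have h1 : 0 ≤ 1 + c * a + a ^ 2 := by
        have h2 : c ^ 2 ≤ 4 := by nlinarith
        nlinarith [sq_nonneg (a + c / 2)]
      nlinarith [mul_nonneg (by linarith : 0 ≤ 2 - b) (by linarith : 0 ≤ 1 - t)]
  have hint : ∫ x in closedBall w 1, f (x - w) =
      kap n * (1 + (‖w‖ ^ 2 / n + ‖w‖ ^ 2 / (n + 2) + 4 / (n + 2))) := by
    rw [setIntegral_ball_shift, hf]
    have i1 : IntegrableOn (fun u : EuclideanSpace ℝ (Fin n) => (‖w‖ ^ 2 / n + 2 : ℝ))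
        (closedBall 0 1) :=
      (continuous_const.continuousOn).integrableOn_compact (isCompact_closedBall _ _)
    have i2 : IntegrableOn (fun u : EuclideanSpace ℝ (Fin n) =>
        (((n : ℝ) + 2) / n - 2) * ‖u‖ ^ 2) (closedBall 0 1) :=
      ((by fun_prop : Continuous (fun u : EuclideanSpace ℝ (Fin n) =>
        (((n : ℝ) + 2) / n - 2) * ‖u‖ ^ 2)).continuousOn).integrableOn_compact
        (isCompact_closedBall _ _)
    have i3 : IntegrableOn (fun u : EuclideanSpace ℝ (Fin n) =>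
        (((n : ℝ) + 3) / n) * ⟪w, u⟫) (closedBall 0 1) :=
      ((by fun_prop : Continuous (fun u : EuclideanSpace ℝ (Fin n) =>
        (((n : ℝ) + 3) / n) * ⟪w, u⟫)).continuousOn).integrableOn_compact
        (isCompact_closedBall _ _)
    have i4 : IntegrableOn (fun u : EuclideanSpace ℝ (Fin n) => ⟪w, u⟫ ^ 2) (closedBall 0 1) :=
      ((by fun_prop : Continuous (fun u : EuclideanSpace ℝ (Fin n) =>
        ⟪w, u⟫ ^ 2)).continuousOn).integrableOn_compact
        (isCompact_closedBall _ _)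
    have i34 : IntegrableOn (fun u : EuclideanSpace ℝ (Fin n) =>
        (((n : ℝ) + 3) / n) * ⟪w, u⟫ + ⟪w, u⟫ ^ 2) (closedBall 0 1) := i3.add i4
    have i234 : IntegrableOn (fun u : EuclideanSpace ℝ (Fin n) =>
        (((n : ℝ) + 2) / n - 2) * ‖u‖ ^ 2 + ((((n : ℝ) + 3) / n) * ⟪w, u⟫ + ⟪w, u⟫ ^ 2))
        (closedBall 0 1) := i2.add i34
    simp only
    rw [integral_add i1 i234, integral_add i2 i34, integral_add i3 i4,
      integral_const_mul, integral_const_mul, integral_norm_sq_ball hn1, integral_inner_ball,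
      integral_inner_sq_ball hn1, setIntegral_const]
    have : (volume : Measure (EuclideanSpace ℝ (Fin n))).real (closedBall 0 1) = kap n := rfl
    rw [this, smul_eq_mul]
    field_simp
    ring
  calc ∫⁻ x in closedBall w 1, ENNReal.ofReal (Gw n w x)
      = ∫⁻ x in closedBall w 1, ENNReal.ofReal (max (Gw n w x) 0) := by
        apply lintegral_congr
        intro x
        rw [ENNReal.ofReal_max, ENNReal.ofReal_zero]
        simp
    _ = ENNReal.ofReal (∫ x in closedBall w 1, max (Gw n w x) 0) := by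
        rw [ofReal_integral_eq_lintegral_ofReal hFi']
        exact Filter.Eventually.of_forall fun x => le_max_right _ _
    _ ≤ ENNReal.ofReal (∫ x in closedBall w 1, f (x - w)) := by
        apply ENNReal.ofReal_le_ofReal
        exact setIntegral_mono_on hFi' hfi measurableSet_closedBall hpt
    _ ≤ _ := by
        apply ENNReal.ofReal_le_ofReal
        rw [hint]
        apply mul_le_mul_of_nonneg_left _ hkap
        have h1 : ‖w‖ ^ 2 / ((n : ℝ) + 2) ≤ ‖w‖ ^ 2 / n := by gcongr; linarith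
        have h2 : (4 : ℝ) / ((n : ℝ) + 2) ≤ 4 / n := by gcongr; linarith
        have e : (2 * ‖w‖ ^ 2 + 4) / (n : ℝ) = ‖w‖ ^ 2 / n + ‖w‖ ^ 2 / n + 4 / n := by ring
        rw [e]
        linarith

/-- the estimate on one ray -/
lemma tray (n : ℕ) (hn : 1 ≤ n) (p D r : ℝ) (hD : 0 ≤ D) (hr : 0 < r)
    (hT : 0 < D ^ 2 - (r - p) ^ 2) :
    r ^ n * (D ^ 2 - (r - p) ^ 2) ≤
      (2 / (n * Real.exp 1)) * ((p + D) ^ (n + 1) * D) := by
  have hn' : (0 : ℝ) < n := by exact_mod_cast hn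
  have habs : |r - p| < D := by
    have : (r - p) ^ 2 < D ^ 2 := by linarith
    exact abs_lt_of_sq_lt_sq this hD
  have hrlt : r < p + D := by have := (abs_lt.mp habs).2; linarith
  obtain ⟨ρ, hρdef⟩ : ∃ ρ : ℝ, ρ = p + D := ⟨_, rfl⟩
  rw [← hρdef] at hrlt ⊢
  have hρ : 0 < ρ := by linarith
  have hTle : D ^ 2 - (r - p) ^ 2 ≤ (ρ - r) * (2 * D) := by
    have : D ^ 2 - (r - p) ^ 2 = (ρ - r) * (r - (p - D)) := by rw [hρdef]; ring
    rw [this]
    have h1 : 0 ≤ ρ - r := by linarith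
    have h2 : r - (p - D) ≤ 2 * D := by linarith
    exact mul_le_mul_of_nonneg_left h2 h1
  obtain ⟨y, hy⟩ : ∃ y : ℝ, y = n * ((ρ - r) / ρ) := ⟨_, rfl⟩
  have hy0 : 0 ≤ y := by
    rw [hy]; exact mul_nonneg hn'.le (div_nonneg (by linarith) hρ.le)
  have h1 : r ^ n ≤ ρ ^ n * Real.exp (-y) := by
    have ha : r / ρ ≤ Real.exp (r / ρ - 1) := by
      have := Real.add_one_le_exp (r / ρ - 1); linarith
    have hb : (r / ρ) ^ n ≤ (Real.exp (r / ρ - 1)) ^ n := pow_le_pow_left₀ (by positivity) ha n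
    have hc : (Real.exp (r / ρ - 1)) ^ n = Real.exp (-y) := by
      rw [← Real.exp_nat_mul]
      congr 1
      rw [hy]; field_simp; ring
    calc r ^ n = ρ ^ n * (r / ρ) ^ n := by rw [← mul_pow]; congr 1; field_simp
      _ ≤ ρ ^ n * Real.exp (-y) := by
        rw [← hc]
        exact mul_le_mul_of_nonneg_left hb (by positivity)
  have h2 : y * Real.exp (-y) ≤ Real.exp (-1) := by
    have h := Real.add_one_le_exp (y - 1)
    have h3 : y ≤ Real.exp (y - 1) := by linarith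
    calc y * Real.exp (-y) ≤ Real.exp (y - 1) * Real.exp (-y) := by gcongr
      _ = Real.exp (-1) := by rw [← Real.exp_add]; ring_nf
  have h3 : (ρ - r) = y * ρ / n := by rw [hy]; field_simp
  calc r ^ n * (D ^ 2 - (r - p) ^ 2) ≤ r ^ n * ((ρ - r) * (2 * D)) :=
        mul_le_mul_of_nonneg_left hTle (by positivity)
    _ = r ^ n * (y * ρ / n * (2 * D)) := by rw [h3]
    _ ≤ (ρ ^ n * Real.exp (-y)) * (y * ρ / n * (2 * D)) := by
        apply mul_le_mul_of_nonneg_right h1; positivity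
    _ = (y * Real.exp (-y)) * (ρ ^ n * (ρ / n * (2 * D))) := by ring
    _ ≤ Real.exp (-1) * (ρ ^ n * (ρ / n * (2 * D))) := by
        apply mul_le_mul_of_nonneg_right h2; positivity
    _ = (2 / (n * Real.exp 1)) * (ρ ^ (n + 1) * D) := by
        rw [Real.exp_neg]; field_simp; ring

/-- the majorant of the unit ball with centre `w` -/
noncomputable def tW (n : ℕ) (w x : EuclideanSpace ℝ (Fin n)) : ℝ≥0∞ :=
  (closedBall w 1).indicator (fun x => ENNReal.ofReal (Gw n w x)) x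

lemma tW_meas (w : EuclideanSpace ℝ (Fin n)) : Measurable (tW n w) := by
  unfold tW
  exact ((Gw_continuous n w).measurable.ennreal_ofReal).indicator measurableSet_closedBall

lemma lintegral_tW_le (hn : 3 ≤ n) (R : ℝ) (hR1 : 1 ≤ R)
    (w : EuclideanSpace ℝ (Fin n)) (hw : ‖w‖ ≤ R) :
    ∫⁻ x, tW n w x ≤ ENNReal.ofReal (kap n * (1 + 6 * R ^ 2 / n)) := by
  have hn' : (3 : ℝ) ≤ n := by exact_mod_cast hn
  have hkap := kap_nonneg n
  have hw2 : ‖w‖ ^ 2 ≤ R ^ 2 := pow_le_pow_left₀ (norm_nonneg _) hw 2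
  unfold tW
  rw [lintegral_indicator measurableSet_closedBall]
  refine (tball_part hn w).trans (ENNReal.ofReal_le_ofReal ?_)
  apply mul_le_mul_of_nonneg_left _ hkap
  have : 1 ≤ R ^ 2 := by nlinarith
  have h1 : (2 * ‖w‖ ^ 2 + 4) / (n : ℝ) ≤ 6 * R ^ 2 / n := by
    apply div_le_div_of_nonneg_right _ (by linarith)
    linarith
  linarith

/-- the radial property of the majorant -/
lemma tW_ray (hn : 1 ≤ n) (w : EuclideanSpace ℝ (Fin n)) (θ : EuclideanSpace ℝ (Fin n))
    (hθ : ‖θ‖ = 1) (r : ℝ) (hr : 0 < r) :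
    ENNReal.ofReal (r ^ n * max (1 - ‖r • θ - w‖ ^ 2) 0) ≤
      ENNReal.ofReal ((2 / (n * Real.exp 1)) * n) *
        ∫⁻ s : ℝ in Ioi (0 : ℝ), ENNReal.ofReal (s ^ (n - 1)) * tW n w (s • θ) := by
  have hn' : (1 : ℝ) ≤ n := by exact_mod_cast hn
  by_cases hT : 0 < 1 - ‖r • θ - w‖ ^ 2
  swap
  · rw [max_eq_right (by linarith), mul_zero, ENNReal.ofReal_zero]
    exact zero_le
  rw [max_eq_left hT.le]
  obtain ⟨hDpos, hD2, hρ0⟩ := ray_facts w θ hθ hr hT
  have hTe := norm_smul_sub_sq θ w hθ r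
  have hmem0 := norm_smul_sub_sq θ w hθ
  obtain ⟨D, hD⟩ : ∃ D : ℝ, D = √(1 - ‖w‖ ^ 2 + ⟪w, θ⟫ ^ 2) := ⟨_, rfl⟩
  obtain ⟨p, hp⟩ : ∃ p : ℝ, p = ⟪w, θ⟫ := ⟨_, rfl⟩
  rw [← hD, ← hp] at hD2
  rw [← hD] at hDpos
  rw [← hD, ← hp] at hρ0
  rw [← hp, ← hD2] at hTe
  rw [hTe] at hT ⊢
  have h1 := tray n hn p D r hDpos.le hr hT
  obtain ⟨ρ, hρ⟩ : ∃ ρ : ℝ, ρ = p + D := ⟨_, rfl⟩
  rw [← hρ] at h1 hρ0
  obtain ⟨a, ha⟩ : ∃ a : ℝ, a = max 0 (p - D) := ⟨_, rfl⟩
  have ha0 : 0 ≤ a := by rw [ha]; exact le_max_left _ _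
  have hap : p - D ≤ a := by rw [ha]; exact le_max_right _ _
  have haρ : a ≤ ρ := by
    rw [ha, hρ]
    apply max_le
    · rw [hρ] at hρ0; exact hρ0.le
    · linarith
  have hmem : ∀ s ∈ Ioc a ρ, s • θ ∈ closedBall w 1 := by
    intro s hs
    rw [mem_closedBall, dist_eq_norm]
    have h2 := hmem0 s
    rw [← hp, ← hD2] at h2
    have h3 : (s - p) ^ 2 ≤ D ^ 2 := by
      apply sq_le_sq'
      · linarith [hs.1]
      · linarith [hs.2]
    have h4 : ‖s • θ - w‖ ^ 2 ≤ 1 := by linarith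
    exact (sq_le_one_iff₀ (norm_nonneg _)).mp h4
  have hc : Continuous (fun s : ℝ => s ^ (n - 1) * Gw n w (s • θ)) := by
    have : Continuous (fun r : ℝ => Gw n w (r • θ)) := (Gw_continuous n w).comp (by fun_prop)
    fun_prop
  have hFr : ∀ r : ℝ, Gw n w (r • θ) = (((n : ℝ) + 2) / n) * r ^ 2 -
      (((n : ℝ) + 1) / n) * (r * p) := by
    intro r
    unfold Gw
    rw [norm_smul, hθ, inner_smul_left, real_inner_comm w θ, ← hp, mul_one, Real.norm_eq_abs,
      sq_abs]
    simp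
  have hint : ∫ s in a..ρ, s ^ (n - 1) * Gw n w (s • θ) =
      (ρ ^ (n + 1) * D - a ^ (n + 1) * (a - p)) / n := by
    have hder : ∀ s ∈ uIcc a ρ, HasDerivAt
        (fun r : ℝ => (r ^ (n + 2) - p * r ^ (n + 1)) / n)
        (s ^ (n - 1) * Gw n w (s • θ)) s := by
      intro r _
      have h := ((hasDerivAt_pow (n + 2) r).sub
        ((hasDerivAt_pow (n + 1) r).const_mul p)).div_const (n : ℝ)
      refine HasDerivAt.congr_deriv h ?_
      rw [hFr]
      obtain ⟨m, rfl⟩ : ∃ m, n = m + 1 := ⟨n - 1, by omega⟩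
      simp only [Nat.add_sub_cancel]
      have e1 : m + 1 + 2 - 1 = m + 2 := by omega
      rw [e1]
      push_cast
      field_simp
      ring
    rw [intervalIntegral.integral_eq_sub_of_hasDerivAt hder (hc.intervalIntegrable _ _), hρ]
    field_simp
    ring
  have hlow : ρ ^ (n + 1) * D / n ≤ ∫ s in a..ρ, s ^ (n - 1) * Gw n w (s • θ) := by
    rw [hint]
    apply div_le_div_of_nonneg_right _ (by linarith)
    have h2 : a ^ (n + 1) * (a - p) ≤ 0 := by
      rcases le_total (p - D) 0 with h3 | h3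
      · have : a = 0 := by rw [ha, max_eq_left h3]
        rw [this]; simp
      · have : a = p - D := by rw [ha, max_eq_right h3]
        apply mul_nonpos_of_nonneg_of_nonpos (by positivity)
        rw [this]; linarith
    linarith
  have hkey : ENNReal.ofReal (ρ ^ (n + 1) * D / n) ≤
      ∫⁻ s : ℝ in Ioi (0 : ℝ), ENNReal.ofReal (s ^ (n - 1)) * tW n w (s • θ) := by
    calc ENNReal.ofReal (ρ ^ (n + 1) * D / n)
        ≤ ENNReal.ofReal (∫ s in Ioc a ρ, s ^ (n - 1) * Gw n w (s • θ)) := by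
          rw [← intervalIntegral.integral_of_le haρ]
          exact ENNReal.ofReal_le_ofReal hlow
      _ ≤ ENNReal.ofReal (∫ s in Ioc a ρ, max (s ^ (n - 1) * Gw n w (s • θ)) 0) := by
          apply ENNReal.ofReal_le_ofReal
          apply setIntegral_mono
          · exact (hc.integrableOn_Icc).mono_set Ioc_subset_Icc_self
          · exact ((hc.max continuous_const).integrableOn_Icc).mono_set Ioc_subset_Icc_self
          · intro s; exact le_max_left _ _
      _ = ∫⁻ s in Ioc a ρ, ENNReal.ofReal (max (s ^ (n - 1) * Gw n w (s • θ)) 0) := by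
          apply ofReal_integral_eq_lintegral_ofReal
          · exact ((hc.max continuous_const).integrableOn_Icc).mono_set Ioc_subset_Icc_self
          · exact Filter.Eventually.of_forall fun s => le_max_right _ _
      _ ≤ ∫⁻ s in Ioc a ρ, ENNReal.ofReal (s ^ (n - 1)) * tW n w (s • θ) := by
          apply setLIntegral_mono' measurableSet_Ioc
          intro s hs
          have hs0 : 0 ≤ s := by linarith [hs.1]
          unfold tW
          rw [indicator_of_mem (hmem s hs), ENNReal.ofReal_max, ENNReal.ofReal_zero,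
            ENNReal.ofReal_mul (pow_nonneg hs0 _)]
          apply max_le le_rfl zero_le
      _ ≤ _ := lintegral_mono_set (fun s hs => by
          have h1 := hs.1
          have h2 : 0 < s := by linarith
          exact h2)
  calc ENNReal.ofReal (r ^ n * (D ^ 2 - (r - p) ^ 2))
      ≤ ENNReal.ofReal ((2 / (n * Real.exp 1)) * (ρ ^ (n + 1) * D)) :=
        ENNReal.ofReal_le_ofReal h1
    _ = ENNReal.ofReal ((2 / (n * Real.exp 1)) * n) * ENNReal.ofReal (ρ ^ (n + 1) * D / n) := by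
        rw [← ENNReal.ofReal_mul (by positivity)]
        congr 1; field_simp
    _ ≤ _ := mul_le_mul' le_rfl hkey

end SC70
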