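import Pool.Agent.SC70.WAvg
import Pool.Agent.SC70.Window

/-!
# Thin coverings: averaging over windows along a line
-/

set_option autoImplicit false

open MeasureTheory Measure Metric Set Module ENNReal
open scoped RealInnerProductSpace

namespace SC70

variable {n q : ℕ}

/-- squared distance to the window -/
noncomputable def xw (ℓ τ t : ℝ) : ℝ := (max (max (t - τ) (τ - t - ℓ)) 0) ^ 2

/-- clamped centre -/
noncomputable def clampw (ℓ τ t : ℝ) : ℝ := max t (min τ (t + ℓ))

lemma clamp_spec (ℓ τ t s : ℝ) (hs : s ∈ Ioo t (t + ℓ)) :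
    (s - clampw ℓ τ t) ^ 2 + xw ℓ τ t ≤ (s - τ) ^ 2 := by
  unfold clampw xw
  obtain ⟨h1, h2⟩ := hs
  rcases lt_or_ge τ t with h | h
  · have e1 : max t (min τ (t + ℓ)) = t := by
      rw [min_eq_left (by linarith), max_eq_left h.le]
    have e2 : max (max (t - τ) (τ - t - ℓ)) 0 = t - τ := by
      rw [max_eq_left (by linarith : τ - t - ℓ ≤ t - τ), max_eq_left (by linarith)]
    rw [e1, e2]
    nlinarith
  · rcases le_or_gt τ (t + ℓ) with h' | h'
    · have e1 : max t (min τ (t + ℓ)) = τ := by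
        rw [min_eq_left h', max_eq_right h]
      have e2 : max (max (t - τ) (τ - t - ℓ)) 0 = 0 :=
        max_eq_right (max_le (by linarith) (by linarith))
      rw [e1, e2]; simp
    · have e1 : max t (min τ (t + ℓ)) = t + ℓ := by
        rw [min_eq_right h'.le, max_eq_right (by linarith)]
      have e2 : max (max (t - τ) (τ - t - ℓ)) 0 = τ - t - ℓ := by
        rw [max_eq_right (by linarith : t - τ ≤ τ - t - ℓ), max_eq_left (by linarith)]
      rw [e1, e2]
      nlinarith

lemma xw_nonneg (ℓ τ t : ℝ) : 0 ≤ xw ℓ τ t := sq_nonneg _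

lemma xw_cont (ℓ τ : ℝ) : Continuous (xw ℓ τ) := by
  unfold xw; fun_prop

lemma xw_gauss (N ℓ τ : ℝ) (hN : 0 < N) (hℓ : 0 < ℓ) :
    ∫⁻ t : ℝ, ENNReal.ofReal (Real.exp (-(N * xw ℓ τ t / 2))) ≤
      ENNReal.ofReal (ℓ + 2 * √(2 * Real.pi / N)) := by
  have hpt : ∀ t : ℝ, ENNReal.ofReal (Real.exp (-(N * xw ℓ τ t / 2))) ≤
      (Icc (τ - ℓ) τ).indicator (fun _ => (1 : ℝ≥0∞)) t +
        (ENNReal.ofReal (Real.exp (-(N / 2 * (t - τ) ^ 2))) +
          ENNReal.ofReal (Real.exp (-(N / 2 * (t - (τ - ℓ)) ^ 2)))) := by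
    intro t
    by_cases ht : t ∈ Icc (τ - ℓ) τ
    · rw [indicator_of_mem ht]
      refine le_trans ?_ le_self_add
      rw [← ENNReal.ofReal_one]
      apply ENNReal.ofReal_le_ofReal
      rw [← Real.exp_zero]
      apply Real.exp_le_exp.mpr
      have := xw_nonneg ℓ τ t
      have : 0 ≤ N * xw ℓ τ t := by positivity
      linarith
    · rw [indicator_of_notMem ht, zero_add]
      rcases lt_or_ge τ t with h | h
      · have e2 : xw ℓ τ t = (t - τ) ^ 2 := by
          unfold xw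
          rw [max_eq_left (by linarith : τ - t - ℓ ≤ t - τ), max_eq_left (by linarith)]
        rw [e2]
        refine le_trans (le_of_eq ?_) le_self_add
        congr 2; ring
      · have h' : t < τ - ℓ := by
          by_contra hcon
          push Not at hcon
          exact ht ⟨hcon, h⟩
        have e2 : xw ℓ τ t = (τ - t - ℓ) ^ 2 := by
          unfold xw
          rw [max_eq_right (by linarith : t - τ ≤ τ - t - ℓ), max_eq_left (by linarith)]
        rw [e2]
        refine le_trans (le_of_eq ?_) le_add_self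
        congr 2; ring
  refine (lintegral_mono hpt).trans ?_
  rw [lintegral_add_left (measurable_const.indicator measurableSet_Icc),
    lintegral_add_left (by fun_prop), lintegral_gauss N τ hN, lintegral_gauss N (τ - ℓ) hN,
    lintegral_indicator measurableSet_Icc, setLIntegral_one, Real.volume_Icc,
    ← ENNReal.ofReal_add (by positivity) (by positivity),
    ← ENNReal.ofReal_add (by linarith) (by positivity)]
  apply le_of_eq
  congr 1; ring

/-- an interval and its `ℓ`-interior -/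
lemma interval_interior (I : Set ℝ) (hI : I.OrdConnected) (ℓ : ℝ) (hℓ : 0 < ℓ) :
    volume I ≤ volume {t : ℝ | t ∈ I ∧ t + ℓ ∈ I} + ENNReal.ofReal ℓ := by
  have hsub : I ⊆ {t : ℝ | t ∈ I ∧ t + ℓ ∈ I} ∪ {t : ℝ | t ∈ I ∧ t + ℓ ∉ I} := by
    intro t ht
    by_cases h : t + ℓ ∈ I
    · exact Or.inl ⟨ht, h⟩
    · exact Or.inr ⟨ht, h⟩
  have h2 : volume {t : ℝ | t ∈ I ∧ t + ℓ ∉ I} ≤ ENNReal.ofReal ℓ := by
    refine (Real.volume_le_diam _).trans ?_
    apply Metric.ediam_le
    intro t ht t' ht'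
    rw [edist_dist]
    apply ENNReal.ofReal_le_ofReal
    rw [Real.dist_eq, abs_le]
    constructor
    · by_contra hcon
      push Not at hcon
      exact ht.2 (hI.out ht.1 ht'.1 ⟨by linarith, by linarith⟩)
    · by_contra hcon
      push Not at hcon
      exact ht'.2 (hI.out ht'.1 ht.1 ⟨by linarith, by linarith⟩)
  calc volume I ≤ volume ({t : ℝ | t ∈ I ∧ t + ℓ ∈ I} ∪ {t : ℝ | t ∈ I ∧ t + ℓ ∉ I}) :=
        measure_mono hsub
    _ ≤ volume {t : ℝ | t ∈ I ∧ t + ℓ ∈ I} + volume {t : ℝ | t ∈ I ∧ t + ℓ ∉ I} :=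
        measure_union_le _ _
    _ ≤ _ := add_le_add le_rfl h2

/-- **Averaging over windows.** -/
theorem win_bound {R'' A : ℝ} (hA0 : 0 ≤ A) (hW : WBound n R'' A)
    (J : EuclideanSpace ℝ (Fin q) →ₗᵢ[ℝ] EuclideanSpace ℝ (Fin n)) (R' : ℝ) (hR' : 0 < R')
    (ι : Type) (S : Finset ι) (τ : ι → ℝ) (w : ι → EuclideanSpace ℝ (Fin n))
    (C : Set (ℝ × EuclideanSpace ℝ (Fin n))) (hCm : MeasurableSet C) (hconv : Convex ℝ C)
    (D : Set (EuclideanSpace ℝ (Fin n))) (hDm : MeasurableSet D) (hCD : ∀ z ∈ C, z.2 ∈ D)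
    (hthin : ∀ z ∈ C, ∀ z' ∈ C, ‖adjP J (z.2 - z'.2)‖ ≤ 2 * R' → ‖z.2 - z'.2‖ ≤ R'')
    (hcov : ∀ z ∈ C, ∃ i ∈ S, (z.1 - τ i) ^ 2 + ‖z.2 - w i‖ ^ 2 ≤ 1) (ℓ : ℝ) (hℓ : 0 < ℓ) :
    ENNReal.ofReal (ℓ / 2) * volume C ≤
      ENNReal.ofReal (A * gam (n + 1) q R') *
        (S.card * ENNReal.ofReal (ℓ + 2 * √(2 * Real.pi / (n + 1)))) +
      ENNReal.ofReal (ℓ / 2) * (ENNReal.ofReal ℓ * volume D) := by
  classical
  have hN0 : (0 : ℝ) < (n : ℝ) + 1 := by positivity
  set Kt : ℝ → Set (EuclideanSpace ℝ (Fin n)) := fun t => {y | (t, y) ∈ C ∧ (t + ℓ, y) ∈ C}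
    with hKt
  have hKm : ∀ t, MeasurableSet (Kt t) := by
    intro t
    have h1 : Measurable (fun y : EuclideanSpace ℝ (Fin n) => (t, y)) := measurable_prodMk_left
    have h2 : Measurable (fun y : EuclideanSpace ℝ (Fin n) => (t + ℓ, y)) := measurable_prodMk_left
    exact (h1 hCm).inter (h2 hCm)
  -- one window
  have hone : ∀ t, ENNReal.ofReal (ℓ / 2) * volume (Kt t) ≤
      ENNReal.ofReal (A * gam (n + 1) q R') *
        ∑ i ∈ S, ENNReal.ofReal (Real.exp (-((n + 1) * xw ℓ (τ i) t / 2))) := by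
    intro t
    have hthin' : ∀ y ∈ Kt t, ∀ y' ∈ Kt t, ‖adjP J (y - y')‖ ≤ 2 * R' → ‖y - y'‖ ≤ R'' := by
      intro y hy y' hy' hyy
      exact hthin (t, y) hy.1 (t, y') hy'.1 hyy
    have hsum : ∀ y ∈ Kt t, ℓ / 2 ≤ ∑ i ∈ S, √(1 - xw ℓ (τ i) t - ‖y - w i‖ ^ 2) := by
      intro y hy
      have hch : ∀ s ∈ Ioo t (t + ℓ), ∃ i ∈ S,
          (s - clampw ℓ (τ i) t) ^ 2 ≤ 1 - xw ℓ (τ i) t - ‖y - w i‖ ^ 2 := by
        intro s hs
        have hmem : (s, y) ∈ C := by
          have hseg := hconv.segment_subset hy.1 hy.2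
          apply hseg
          refine ⟨1 - (s - t) / ℓ, (s - t) / ℓ, ?_, ?_, by ring, ?_⟩
          · rw [sub_nonneg, div_le_one hℓ]; linarith [hs.2]
          · exact div_nonneg (by linarith [hs.1]) hℓ.le
          · ext
            · simp only [Prod.fst_add, Prod.smul_fst, smul_eq_mul]
              field_simp; ring
            · simp [← add_smul]
        obtain ⟨i, hi, h2⟩ := hcov _ hmem
        refine ⟨i, hi, ?_⟩
        have h3 := clamp_spec ℓ (τ i) t s hs
        simp only at h2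
        linarith
      exact interval_le_chords S (fun i => clampw ℓ (τ i) t)
        (fun i => 1 - xw ℓ (τ i) t - ‖y - w i‖ ^ 2) t ℓ hch
    exact avg_bound hA0 hW J R' hR' ι S w (fun i => xw ℓ (τ i) t) (Kt t) (hKm t)
      (fun i => xw_nonneg _ _ _) hthin' (ℓ / 2) (by linarith) hsum
  -- Tonelli
  have hTon : volume C ≤ (∫⁻ t, volume (Kt t)) + ENNReal.ofReal ℓ * volume D := by
    set 𝒦 : Set (ℝ × EuclideanSpace ℝ (Fin n)) := {p | (p.1, p.2) ∈ C ∧ (p.1 + ℓ, p.2) ∈ C}
      with h𝒦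
    have h𝒦m : MeasurableSet 𝒦 := by
      have h1 : Measurable (fun p : ℝ × EuclideanSpace ℝ (Fin n) => (p.1, p.2)) := by fun_prop
      have h2 : Measurable (fun p : ℝ × EuclideanSpace ℝ (Fin n) => (p.1 + ℓ, p.2)) := by fun_prop
      exact (h1 hCm).inter (h2 hCm)
    have e1 : (volume.prod volume) 𝒦 = ∫⁻ t, volume (Kt t) := by
      rw [Measure.prod_apply h𝒦m]; rfl
    have e2 : (volume.prod volume) 𝒦 =
        ∫⁻ y, volume {t : ℝ | t ∈ {t : ℝ | (t, y) ∈ C} ∧ t + ℓ ∈ {t : ℝ | (t, y) ∈ C}} := by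
      rw [Measure.prod_apply_symm h𝒦m]; rfl
    have hvolC : volume C = ∫⁻ y : EuclideanSpace ℝ (Fin n), volume {t : ℝ | (t, y) ∈ C} := by
      rw [Measure.volume_eq_prod, Measure.prod_apply_symm hCm]
      rfl
    rw [← e1, e2, hvolC]
    calc ∫⁻ y : EuclideanSpace ℝ (Fin n), volume {t : ℝ | (t, y) ∈ C}
        ≤ ∫⁻ y, (volume {t : ℝ | t ∈ {t : ℝ | (t, y) ∈ C} ∧ t + ℓ ∈ {t : ℝ | (t, y) ∈ C}} +
            D.indicator (fun _ => ENNReal.ofReal ℓ) y) := by
          apply lintegral_mono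
          intro y
          by_cases hy : y ∈ D
          · simp only
            rw [indicator_of_mem hy]
            apply interval_interior _ _ ℓ hℓ
            have hc : Convex ℝ {t : ℝ | (t, y) ∈ C} := by
              intro s hs t ht a b ha hb hab
              have := hconv hs ht ha hb hab
              simp only [Prod.smul_mk, Prod.mk_add_mk, ← add_smul, hab, one_smul] at this
              exact this
            exact hc.ordConnected
          · have : {t : ℝ | (t, y) ∈ C} = ∅ := by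
              ext t
              simp only [Set.mem_ofPred_eq, mem_empty_iff_false, iff_false]
              intro h
              exact hy (hCD _ h)
            simp only
            rw [this, measure_empty]; exact zero_le
      _ = _ := by
          rw [lintegral_add_right _ (measurable_const.indicator hDm), lintegral_indicator hDm,
            setLIntegral_const]
  have hKtm : Measurable (fun t => volume (Kt t)) := by
    have h𝒦m : MeasurableSet {p : ℝ × EuclideanSpace ℝ (Fin n) |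
        (p.1, p.2) ∈ C ∧ (p.1 + ℓ, p.2) ∈ C} := by
      have h1 : Measurable (fun p : ℝ × EuclideanSpace ℝ (Fin n) => (p.1, p.2)) := by fun_prop
      have h2 : Measurable (fun p : ℝ × EuclideanSpace ℝ (Fin n) => (p.1 + ℓ, p.2)) := by fun_prop
      exact (h1 hCm).inter (h2 hCm)
    exact measurable_measure_prodMk_left h𝒦m
  have hgm : ∀ i, Measurable (fun t => ENNReal.ofReal (Real.exp (-((n + 1) * xw ℓ (τ i) t / 2)))) := by
    intro i
    have h1 := xw_cont ℓ (τ i)
    have : Continuous (fun t => Real.exp (-(((n : ℝ) + 1) * xw ℓ (τ i) t / 2))) := by fun_prop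
    exact this.measurable.ennreal_ofReal
  calc ENNReal.ofReal (ℓ / 2) * volume C
      ≤ ENNReal.ofReal (ℓ / 2) * ((∫⁻ t, volume (Kt t)) + ENNReal.ofReal ℓ * volume D) :=
        mul_le_mul' le_rfl hTon
    _ = (∫⁻ t, ENNReal.ofReal (ℓ / 2) * volume (Kt t)) +
          ENNReal.ofReal (ℓ / 2) * (ENNReal.ofReal ℓ * volume D) := by
        rw [mul_add, lintegral_const_mul _ hKtm]
    _ ≤ (∫⁻ t, ENNReal.ofReal (A * gam (n + 1) q R') *
        ∑ i ∈ S, ENNReal.ofReal (Real.exp (-((n + 1) * xw ℓ (τ i) t / 2)))) +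
          ENNReal.ofReal (ℓ / 2) * (ENNReal.ofReal ℓ * volume D) :=
        add_le_add (lintegral_mono hone) le_rfl
    _ = ENNReal.ofReal (A * gam (n + 1) q R') *
        ∑ i ∈ S, (∫⁻ t, ENNReal.ofReal (Real.exp (-((n + 1) * xw ℓ (τ i) t / 2)))) +
          ENNReal.ofReal (ℓ / 2) * (ENNReal.ofReal ℓ * volume D) := by
        rw [lintegral_const_mul _ (Finset.measurable_fun_sum S fun i _ => hgm i),
          lintegral_finsetSum _ fun i _ => hgm i]
    _ ≤ _ := by
        apply add_le_add _ le_rfl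
        apply mul_le_mul' le_rfl
        calc ∑ i ∈ S, (∫⁻ t, ENNReal.ofReal (Real.exp (-((n + 1) * xw ℓ (τ i) t / 2))))
            ≤ ∑ _i ∈ S, ENNReal.ofReal (ℓ + 2 * √(2 * Real.pi / (n + 1))) :=
              Finset.sum_le_sum fun i _ => xw_gauss _ ℓ (τ i) hN0 hℓ
          _ = _ := by rw [Finset.sum_const, nsmul_eq_mul]

end SC70
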