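import Pool.Agent.SC70.TAvg
import Pool.Agent.SC70.WWin

/-!
# Thin coverings: averaging over square windows
-/

set_option autoImplicit false

open MeasureTheory Measure Metric Set Module ENNReal
open scoped RealInnerProductSpace

namespace SC70

variable {n q : ℕ}

lemma disc_volume (a b T : ℝ) :
    volume {p : ℝ × ℝ | (p.1 - a) ^ 2 + (p.2 - b) ^ 2 ≤ T} ≤
      ENNReal.ofReal (Real.pi * max T 0) := by
  by_cases hT : T < 0
  · have : {p : ℝ × ℝ | (p.1 - a) ^ 2 + (p.2 - b) ^ 2 ≤ T} = ∅ := by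
      ext p
      simp only [Set.mem_ofPred_eq, mem_empty_iff_false, iff_false, not_le]
      nlinarith [sq_nonneg (p.1 - a), sq_nonneg (p.2 - b)]
    rw [this, measure_empty]; exact zero_le
  push Not at hT
  have hm : MeasurableSet {p : ℝ × ℝ | (p.1 - a) ^ 2 + (p.2 - b) ^ 2 ≤ T} :=
    (isClosed_le (by fun_prop) (by fun_prop)).measurableSet
  rw [← Complex.volume_preserving_equiv_real_prod.measure_preimage hm.nullMeasurableSet]
  have h1 : (Complex.measurableEquivRealProd ⁻¹' {p : ℝ × ℝ | (p.1 - a) ^ 2 + (p.2 - b) ^ 2 ≤ T}) ⊆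
      closedBall (⟨a, b⟩ : ℂ) (√T) := by
    intro z hz
    have hz' : (z.re - a) ^ 2 + (z.im - b) ^ 2 ≤ T := hz
    rw [mem_closedBall, dist_eq_norm]
    apply Real.le_sqrt_of_sq_le
    rw [← Complex.normSq_eq_norm_sq, Complex.normSq_apply]
    simp only [Complex.sub_re, Complex.sub_im]
    nlinarith
  refine (measure_mono h1).trans ?_
  rw [Complex.volume_closedBall, max_eq_left hT, ENNReal.ofReal_mul Real.pi_pos.le,
    ← ENNReal.ofReal_pow (Real.sqrt_nonneg _), Real.sq_sqrt hT, mul_comm]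
  apply le_of_eq
  congr 1
  exact (ENNReal.ofReal_eq_coe_nnreal Real.pi_pos.le).symm

lemma square_le_discs {ι : Type*} (S : Finset ι) (σ τ T : ι → ℝ) (a b ℓ : ℝ) (hℓ : 0 < ℓ)
    (h : ∀ s ∈ Ioo a (a + ℓ), ∀ t ∈ Ioo b (b + ℓ), ∃ i ∈ S,
      (s - σ i) ^ 2 + (t - τ i) ^ 2 ≤ T i) :
    ℓ ^ 2 / Real.pi ≤ ∑ i ∈ S, max (T i) 0 := by
  have h1 : ENNReal.ofReal (ℓ ^ 2) ≤ ENNReal.ofReal (∑ i ∈ S, Real.pi * max (T i) 0) := by
    calc ENNReal.ofReal (ℓ ^ 2) = volume (Ioo a (a + ℓ) ×ˢ Ioo b (b + ℓ)) := by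
          rw [Measure.volume_eq_prod, Measure.prod_prod, Real.volume_Ioo, Real.volume_Ioo,
            ← ENNReal.ofReal_mul (by linarith)]
          congr 1; ring
      _ ≤ volume (⋃ i ∈ S, {p : ℝ × ℝ | (p.1 - σ i) ^ 2 + (p.2 - τ i) ^ 2 ≤ T i}) := by
          apply measure_mono
          rintro ⟨s, t⟩ ⟨hs, ht⟩
          obtain ⟨i, hi, hti⟩ := h s hs t ht
          simp only [mem_iUnion]
          exact ⟨i, hi, hti⟩
      _ ≤ ∑ i ∈ S, volume {p : ℝ × ℝ | (p.1 - σ i) ^ 2 + (p.2 - τ i) ^ 2 ≤ T i} :=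
          measure_biUnion_finset_le _ _
      _ ≤ ∑ i ∈ S, ENNReal.ofReal (Real.pi * max (T i) 0) :=
          Finset.sum_le_sum fun i _ => disc_volume _ _ _
      _ = _ := by
          rw [ENNReal.ofReal_sum_of_nonneg]
          intro i _
          exact mul_nonneg Real.pi_pos.le (le_max_right _ _)
  have h2 : 0 ≤ ∑ i ∈ S, Real.pi * max (T i) 0 := Finset.sum_nonneg fun i _ =>
    mul_nonneg Real.pi_pos.le (le_max_right _ _)
  have h3 := (ENNReal.ofReal_le_ofReal_iff h2).mp h1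
  rw [← Finset.mul_sum] at h3
  rw [div_le_iff₀ Real.pi_pos]
  linarith

/-- the set of starting points of square windows -/
def cornS (C : Set ((ℝ × ℝ) × EuclideanSpace ℝ (Fin n))) (ℓ : ℝ) :
    Set ((ℝ × ℝ) × EuclideanSpace ℝ (Fin n)) :=
  {z | z ∈ C ∧ ((z.1.1 + ℓ, z.1.2), z.2) ∈ C ∧ ((z.1.1, z.1.2 + ℓ), z.2) ∈ C ∧
    ((z.1.1 + ℓ, z.1.2 + ℓ), z.2) ∈ C}

/-- Averaging over square windows. -/
theorem twin_bound {R'' A : ℝ} (hA0 : 0 ≤ A) (hW : TBound n R'' A)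
    (J : EuclideanSpace ℝ (Fin q) →ₗᵢ[ℝ] EuclideanSpace ℝ (Fin n)) (R' : ℝ) (hR' : 0 < R')
    (ι : Type) (S : Finset ι) (σ τ : ι → ℝ) (w : ι → EuclideanSpace ℝ (Fin n))
    (C : Set ((ℝ × ℝ) × EuclideanSpace ℝ (Fin n))) (hCm : MeasurableSet C) (hconv : Convex ℝ C)
    (hthin : ∀ z ∈ C, ∀ z' ∈ C, ‖adjP J (z.2 - z'.2)‖ ≤ 2 * R' → ‖z.2 - z'.2‖ ≤ R'')
    (hcov : ∀ z ∈ C, ∃ i ∈ S, (z.1.1 - σ i) ^ 2 + (z.1.2 - τ i) ^ 2 + ‖z.2 - w i‖ ^ 2 ≤ 1)
    (ℓ : ℝ) (hℓ : 0 < ℓ) :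
    ENNReal.ofReal (ℓ ^ 2 / Real.pi) * volume (cornS C ℓ) ≤
      ENNReal.ofReal (A * gam (n + 2) q R') *
        (S.card * ENNReal.ofReal ((ℓ + 2 * √(2 * Real.pi / (n + 2))) ^ 2)) := by
  classical
  have hN0 : (0 : ℝ) < (n : ℝ) + 2 := by positivity
  have hπ := Real.pi_pos
  have hcm : MeasurableSet (cornS C ℓ) := by
    have h2 : Measurable (fun z : (ℝ × ℝ) × EuclideanSpace ℝ (Fin n) =>
        (((z.1.1 + ℓ, z.1.2), z.2) : (ℝ × ℝ) × EuclideanSpace ℝ (Fin n))) := by fun_prop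
    have h3 : Measurable (fun z : (ℝ × ℝ) × EuclideanSpace ℝ (Fin n) =>
        (((z.1.1, z.1.2 + ℓ), z.2) : (ℝ × ℝ) × EuclideanSpace ℝ (Fin n))) := by fun_prop
    have h4 : Measurable (fun z : (ℝ × ℝ) × EuclideanSpace ℝ (Fin n) =>
        (((z.1.1 + ℓ, z.1.2 + ℓ), z.2) : (ℝ × ℝ) × EuclideanSpace ℝ (Fin n))) := by fun_prop
    exact hCm.inter ((h2 hCm).inter ((h3 hCm).inter (h4 hCm)))
  set Kt : ℝ × ℝ → Set (EuclideanSpace ℝ (Fin n)) := fun z => {y | (z, y) ∈ cornS C ℓ}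
    with hKt
  have hKm : ∀ z, MeasurableSet (Kt z) := by
    intro z
    have h1 : Measurable (fun y : EuclideanSpace ℝ (Fin n) => (z, y)) := measurable_prodMk_left
    exact h1 hcm
  -- one window
  have hone : ∀ z : ℝ × ℝ, ENNReal.ofReal (ℓ ^ 2 / Real.pi) * volume (Kt z) ≤
      ENNReal.ofReal (A * gam (n + 2) q R') *
        ∑ i ∈ S, ENNReal.ofReal (Real.exp (-((n + 2) * (xw ℓ (σ i) z.1 + xw ℓ (τ i) z.2) / 2))) := by
    rintro ⟨s, t⟩
    have hthin' : ∀ y ∈ Kt (s, t), ∀ y' ∈ Kt (s, t), ‖adjP J (y - y')‖ ≤ 2 * R' →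
        ‖y - y'‖ ≤ R'' := by
      intro y hy y' hy' hyy
      exact hthin ((s, t), y) hy.1 ((s, t), y') hy'.1 hyy
    have hsum : ∀ y ∈ Kt (s, t), ℓ ^ 2 / Real.pi ≤
        ∑ i ∈ S, max (1 - (xw ℓ (σ i) s + xw ℓ (τ i) t) - ‖y - w i‖ ^ 2) 0 := by
      intro y hy
      obtain ⟨y1, y2, y3, y4⟩ := hy
      simp only at y1 y2 y3 y4
      have hch : ∀ s' ∈ Ioo s (s + ℓ), ∀ t' ∈ Ioo t (t + ℓ), ∃ i ∈ S,
          (s' - clampw ℓ (σ i) s) ^ 2 + (t' - clampw ℓ (τ i) t) ^ 2 ≤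
            1 - (xw ℓ (σ i) s + xw ℓ (τ i) t) - ‖y - w i‖ ^ 2 := by
        intro s' hs' t' ht'
        have hrow : ∀ b : ℝ, ((s, b), y) ∈ C → ((s + ℓ, b), y) ∈ C → ((s', b), y) ∈ C := by
          intro b h1 h2
          have hseg := hconv.segment_subset h1 h2
          apply hseg
          refine ⟨1 - (s' - s) / ℓ, (s' - s) / ℓ, ?_, ?_, by ring, ?_⟩
          · rw [sub_nonneg, div_le_one hℓ]; linarith [hs'.2]
          · exact div_nonneg (by linarith [hs'.1]) hℓ.le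
          · ext
            · simp only [Prod.fst_add, Prod.smul_fst, smul_eq_mul]
              field_simp; ring
            · simp only [Prod.fst_add, Prod.smul_fst, Prod.snd_add, Prod.smul_snd, smul_eq_mul]
              ring
            · simp [← add_smul]
        have hmem : ((s', t'), y) ∈ C := by
          have hseg := hconv.segment_subset (hrow t y1 y2) (hrow (t + ℓ) y3 y4)
          apply hseg
          refine ⟨1 - (t' - t) / ℓ, (t' - t) / ℓ, ?_, ?_, by ring, ?_⟩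
          · rw [sub_nonneg, div_le_one hℓ]; linarith [ht'.2]
          · exact div_nonneg (by linarith [ht'.1]) hℓ.le
          · ext
            · simp only [Prod.fst_add, Prod.smul_fst, smul_eq_mul]
              ring
            · simp only [Prod.fst_add, Prod.smul_fst, Prod.snd_add, Prod.smul_snd, smul_eq_mul]
              field_simp; ring
            · simp [← add_smul]
        obtain ⟨i, hi, h2⟩ := hcov _ hmem
        refine ⟨i, hi, ?_⟩
        have h3 := clamp_spec ℓ (σ i) s s' hs'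
        have h4 := clamp_spec ℓ (τ i) t t' ht'
        simp only at h2
        linarith
      exact square_le_discs S (fun i => clampw ℓ (σ i) s) (fun i => clampw ℓ (τ i) t)
        (fun i => 1 - (xw ℓ (σ i) s + xw ℓ (τ i) t) - ‖y - w i‖ ^ 2) s t ℓ hℓ hch
    exact tavg_bound hA0 hW J R' hR' ι S w (fun i => xw ℓ (σ i) s + xw ℓ (τ i) t) (Kt (s, t))
      (hKm _) (fun i => add_nonneg (xw_nonneg _ _ _) (xw_nonneg _ _ _)) hthin' (ℓ ^ 2 / Real.pi)
      (by positivity) hsum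
  -- Tonelli
  have e1 : volume (cornS C ℓ) = ∫⁻ z : ℝ × ℝ, volume (Kt z) := by
    rw [Measure.volume_eq_prod, Measure.prod_apply hcm]; rfl
  have hKtm : Measurable (fun z : ℝ × ℝ => volume (Kt z)) := measurable_measure_prodMk_left hcm
  have hgm1 : ∀ a : ℝ, Measurable (fun t : ℝ =>
      ENNReal.ofReal (Real.exp (-((n + 2) * xw ℓ a t / 2)))) := by
    intro a
    have h1 := xw_cont ℓ a
    have : Continuous (fun t => Real.exp (-(((n : ℝ) + 2) * xw ℓ a t / 2))) := by fun_prop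
    exact this.measurable.ennreal_ofReal
  have hgm : ∀ i, Measurable (fun z : ℝ × ℝ =>
      ENNReal.ofReal (Real.exp (-((n + 2) * (xw ℓ (σ i) z.1 + xw ℓ (τ i) z.2) / 2)))) := by
    intro i
    have h1 := xw_cont ℓ (σ i)
    have h2 := xw_cont ℓ (τ i)
    have : Continuous (fun z : ℝ × ℝ =>
        Real.exp (-(((n : ℝ) + 2) * (xw ℓ (σ i) z.1 + xw ℓ (τ i) z.2) / 2))) := by fun_prop
    exact this.measurable.ennreal_ofReal
  have hg2 : ∀ i, ∫⁻ z : ℝ × ℝ,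
      ENNReal.ofReal (Real.exp (-((n + 2) * (xw ℓ (σ i) z.1 + xw ℓ (τ i) z.2) / 2))) ≤
      ENNReal.ofReal ((ℓ + 2 * √(2 * Real.pi / (n + 2))) ^ 2) := by
    intro i
    have e2 : ∀ z : ℝ × ℝ,
        ENNReal.ofReal (Real.exp (-((n + 2) * (xw ℓ (σ i) z.1 + xw ℓ (τ i) z.2) / 2))) =
        ENNReal.ofReal (Real.exp (-((n + 2) * xw ℓ (σ i) z.1 / 2))) *
          ENNReal.ofReal (Real.exp (-((n + 2) * xw ℓ (τ i) z.2 / 2))) := by
      intro z
      rw [← ENNReal.ofReal_mul (Real.exp_pos _).le, ← Real.exp_add]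
      congr 2; ring
    simp only [e2]
    rw [Measure.volume_eq_prod, lintegral_prod_mul (hgm1 _).aemeasurable (hgm1 _).aemeasurable,
      pow_two, ENNReal.ofReal_mul (by positivity)]
    exact mul_le_mul' (xw_gauss _ ℓ (σ i) hN0 hℓ) (xw_gauss _ ℓ (τ i) hN0 hℓ)
  rw [e1]
  calc ENNReal.ofReal (ℓ ^ 2 / Real.pi) * ∫⁻ z : ℝ × ℝ, volume (Kt z)
      = ∫⁻ z : ℝ × ℝ, ENNReal.ofReal (ℓ ^ 2 / Real.pi) * volume (Kt z) := by
        rw [lintegral_const_mul _ hKtm]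
    _ ≤ ∫⁻ z : ℝ × ℝ, ENNReal.ofReal (A * gam (n + 2) q R') *
        ∑ i ∈ S, ENNReal.ofReal (Real.exp (-((n + 2) * (xw ℓ (σ i) z.1 + xw ℓ (τ i) z.2) / 2))) :=
        lintegral_mono hone
    _ = ENNReal.ofReal (A * gam (n + 2) q R') *
        ∑ i ∈ S, (∫⁻ z : ℝ × ℝ,
          ENNReal.ofReal (Real.exp (-((n + 2) * (xw ℓ (σ i) z.1 + xw ℓ (τ i) z.2) / 2)))) := by
        rw [lintegral_const_mul _ (Finset.measurable_fun_sum S fun i _ => hgm i),
          lintegral_finsetSum _ fun i _ => hgm i]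
    _ ≤ _ := by
        apply mul_le_mul' le_rfl
        calc ∑ i ∈ S, (∫⁻ z : ℝ × ℝ,
          ENNReal.ofReal (Real.exp (-((n + 2) * (xw ℓ (σ i) z.1 + xw ℓ (τ i) z.2) / 2))))
            ≤ ∑ _i ∈ S, ENNReal.ofReal ((ℓ + 2 * √(2 * Real.pi / (n + 2))) ^ 2) :=
              Finset.sum_le_sum fun i _ => hg2 i
          _ = _ := by rw [Finset.sum_const, nsmul_eq_mul]

end SC70
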