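import Pool.Agent.SC70.FirstVar

/-!
# Thin coverings: thick bodies close to a flat
-/

set_option autoImplicit false

open MeasureTheory Measure Metric Set Module ENNReal Filter
open scoped RealInnerProductSpace Pointwise Topology

namespace SC70

variable {N n : ℕ}

/-- an isometric embedding whose range is a given subspace -/
lemma exists_embedding' (U : Submodule ℝ (EuclideanSpace ℝ (Fin N))) :
    ∃ J : EuclideanSpace ℝ (Fin (finrank ℝ U)) →ₗᵢ[ℝ] EuclideanSpace ℝ (Fin N),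
      ∀ z, J z ∈ U := by
  refine ⟨U.subtypeₗᵢ.comp (stdOrthonormalBasis ℝ U).repr.symm.toLinearIsometry, ?_⟩
  intro z
  exact ((stdOrthonormalBasis ℝ U).repr.symm z).2

lemma mvc_le (J : EuclideanSpace ℝ (Fin n) →ₗᵢ[ℝ] EuclideanSpace ℝ (Fin N)) (R : ℝ) (hR : 0 ≤ R)
    (w : EuclideanSpace ℝ (Fin N)) (z : EuclideanSpace ℝ (Fin n)) :
    ‖adjP J (mvc J R w z) - z‖ ≤ R := by
  unfold mvc
  split_ifs with h
  · exact h
  · push Not at h
    have ha : 0 < ‖adjP J w - z‖ := by linarith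
    obtain ⟨a, hadef⟩ : ∃ a : EuclideanSpace ℝ (Fin n), a = adjP J w - z := ⟨_, rfl⟩
    rw [← hadef] at h ha ⊢
    have e : adjP J (w - J ((1 - R / ‖a‖) • a)) - z = (R / ‖a‖) • a := by
      rw [map_sub, adjP_J]
      have : adjP J w - (1 - R / ‖a‖) • a - z = a - (1 - R / ‖a‖) • a := by
        rw [hadef]; abel
      rw [this, sub_smul, one_smul]; abel
    rw [e, norm_smul, Real.norm_of_nonneg (by positivity), div_mul_cancel₀ _ ha.ne']

/-- **Thick bodies close to a flat.** -/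
theorem thick_sausage (hN : 1 ≤ N) (C : Set (EuclideanSpace ℝ (Fin (N + 1))))
    (hconv : Convex ℝ C) (hCc : IsCompact C) (X : Finset (EuclideanSpace ℝ (Fin (N + 1))))
    (hk1 : 1 ≤ X.card) (hcov : C ⊆ ⋃ x ∈ X, closedBall x 1)
    (L : AffineSubspace ℝ (EuclideanSpace ℝ (Fin (N + 1)))) (r R η : ℝ)
    (hη : η = 1 - (finrank ℝ L.direction : ℝ) / ((N : ℝ) + 1) - 1 / r) (hη0 : 0 < η)
    (hr : 0 < r) (hCL : ∀ x ∈ C, ∃ y ∈ L, ‖x - y‖ ≤ R)
    (hR : R ≤ 2 * η * √(((N : ℝ) + 1) / Real.exp 1))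
    (hthick : ∀ ρ : ℝ, 0 < ρ → volume (C \ {x | closedBall x ρ ⊆ C}) ≤
      ENNReal.ofReal (ρ * (((N : ℝ) + 1) / r)) * volume C) :
    ∃ (C' : Set (EuclideanSpace ℝ (Fin (N + 1)))) (Y : Finset (EuclideanSpace ℝ (Fin (N + 1)))),
      Convex ℝ C' ∧ IsCompact C' ∧ (interior C').Nonempty ∧ Y.card = X.card ∧
      Collinear ℝ (Y : Set (EuclideanSpace ℝ (Fin (N + 1)))) ∧
      C' ⊆ ⋃ y ∈ Y, closedBall y (1 : ℝ) ∧ volume C ≤ volume C' := by
  classical
  have hN' : (1 : ℝ) ≤ N := by exact_mod_cast hN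
  have hkap := kap_nonneg N
  have hMn := Mn_ge hN
  obtain ⟨C', Y, c1, c2, c3, c4, c5, c6, c7⟩ := sausage_exists hN X.card hk1
  refine ⟨C', Y, c1, c2, c3, c4, c5, c6, ?_⟩
  rw [c7]
  rcases C.eq_empty_or_nonempty with hCe | ⟨x₀, hx₀⟩
  · rw [hCe]; simp
  obtain ⟨p, hp, hpR⟩ := hCL x₀ hx₀
  have hR0 : 0 ≤ R := (norm_nonneg _).trans hpR
  obtain ⟨J, hJ⟩ := exists_embedding' (L.direction)ᗮ
  set z := adjP J p with hz
  have hdirz : ∀ y ∈ L, adjP J y = z := by
    intro y hy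
    have h1 : y - p ∈ L.direction := AffineSubspace.vsub_mem_direction hy hp
    have h2 : adjP J (y - p) = 0 := by
      apply ext_inner_right ℝ
      intro v
      rw [adjP_inner, inner_zero_left]
      exact Submodule.inner_right_of_mem_orthogonal h1 (hJ v)
    rw [map_sub, sub_eq_zero] at h2
    exact h2
  have hCz : ∀ x ∈ C, ‖adjP J x - z‖ ≤ R := by
    intro x hx
    obtain ⟨y, hy, hxy⟩ := hCL x hx
    rw [← hdirz y hy, ← map_sub]
    exact (adjP_norm_le J _).trans hxy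
  -- the dimension
  have hdim : (finrank ℝ (L.direction)ᗮ : ℝ) = (N : ℝ) + 1 - finrank ℝ L.direction := by
    have h1 := Submodule.finrank_add_finrank_orthogonal (𝕜 := ℝ) L.direction
    rw [finrank_euclideanSpace_fin] at h1
    have h2 : ((finrank ℝ L.direction + finrank ℝ (L.direction)ᗮ : ℕ) : ℝ) = ((N + 1 : ℕ) : ℝ) := by
      rw [h1]
    push_cast at h2
    linarith
  -- move the centres
  have hcov' : C ⊆ ⋃ x ∈ X.image (fun w => mvc J R w z), closedBall x 1 := by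
    intro x hx
    have h1 := hcov hx
    simp only [mem_iUnion] at h1 ⊢
    obtain ⟨w, hw, hxw⟩ := h1
    refine ⟨mvc J R w z, Finset.mem_image_of_mem _ hw, ?_⟩
    rw [mem_closedBall, dist_eq_norm] at hxw ⊢
    have h2 := mvc_spec J R hR0 w z x (hCz x hx)
    have h3 : ‖x - mvc J R w z‖ ^ 2 ≤ ‖x - w‖ ^ 2 := by
      nlinarith [sq_nonneg (max (‖adjP J w - z‖ - R) 0)]
    exact (abs_le_of_sq_le_sq' h3 (norm_nonneg _) |>.2).trans hxw
  have hfin : volume C ≠ ⊤ := hCc.measure_lt_top.ne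
  obtain ⟨V, hV⟩ : ∃ V : ℝ, V = (volume C).toReal := ⟨_, rfl⟩
  have hV0 : 0 ≤ V := by rw [hV]; exact ENNReal.toReal_nonneg
  have hVV : volume C = ENNReal.ofReal V := by rw [hV, ENNReal.ofReal_toReal hfin]
  have hb := first_variation C hconv hCc (X.image (fun w => mvc J R w z)) hcov' J z
    (((N : ℝ) + 1) / r * V) (by positivity) (by
      intro ρ hρ
      refine (hthick ρ hρ).trans (le_of_eq ?_)
      rw [hVV, ← ENNReal.ofReal_mul (by positivity)]
      congr 1; ring)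
  rw [← hV, hdim] at hb
  have hsum : ∑ x ∈ X.image (fun w => mvc J R w z), ‖adjP J x - z‖ ≤ (X.card : ℝ) * R := by
    calc ∑ x ∈ X.image (fun w => mvc J R w z), ‖adjP J x - z‖
        ≤ ∑ _x ∈ X.image (fun w => mvc J R w z), R := by
          apply Finset.sum_le_sum
          intro x hx
          obtain ⟨w, _, rfl⟩ := Finset.mem_image.mp hx
          exact mvc_le J R hR0 w z
      _ = ((X.image (fun w => mvc J R w z)).card : ℝ) * R := by
          rw [Finset.sum_const, nsmul_eq_mul]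
      _ ≤ (X.card : ℝ) * R := by
          apply mul_le_mul_of_nonneg_right _ hR0
          exact_mod_cast Finset.card_image_le
  rw [hVV]
  apply ENNReal.ofReal_le_ofReal
  obtain ⟨k, hk⟩ : ∃ k : ℝ, k = (X.card : ℝ) := ⟨_, rfl⟩
  have hk0 : 0 ≤ k := by rw [hk]; exact Nat.cast_nonneg _
  rw [← hk] at hsum ⊢
  have hNp : (0 : ℝ) < (N : ℝ) + 1 := by positivity
  obtain ⟨s, hs⟩ : ∃ s : ℝ, s = √(Real.exp 1 * ((N : ℝ) + 1)) := ⟨_, rfl⟩
  have hs0 : 0 < s := by rw [hs]; exact Real.sqrt_pos.mpr (by positivity)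
  have hs2 : √(((N : ℝ) + 1) / Real.exp 1) = ((N : ℝ) + 1) * (1 / s) := by
    have h1 : ((N : ℝ) + 1) / Real.exp 1 = (((N : ℝ) + 1) * (1 / s)) ^ 2 := by
      rw [mul_pow, div_pow, hs, Real.sq_sqrt (by positivity)]
      field_simp
    rw [h1, Real.sqrt_sq (by positivity)]
  rw [hs2] at hR
  rw [← hs] at hMn
  have h1 : ((N : ℝ) + 1) * η * V ≤ ((N : ℝ) + 1) * η * (2 * k * (kap N * (1 / s))) := by
    calc ((N : ℝ) + 1) * η * V =
          ((N : ℝ) + 1 - finrank ℝ L.direction) * V - ((N : ℝ) + 1) / r * V := by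
          rw [hη]; field_simp
      _ ≤ kap N * (k * R) := by
          have := mul_le_mul_of_nonneg_left hsum hkap
          linarith
      _ ≤ kap N * (k * (2 * η * (((N : ℝ) + 1) * (1 / s)))) := by gcongr
      _ = _ := by ring
  have h2 : V ≤ 2 * k * (kap N * (1 / s)) :=
    le_of_mul_le_mul_left h1 (mul_pos hNp hη0)
  refine h2.trans ?_
  gcongr

end SC70
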