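import Pool.Agent.SC70.WVal
import Pool.Agent.SC70.Num

/-!
# Thin coverings: weighted core estimate
-/

set_option autoImplicit false

open MeasureTheory Measure Metric Set Module ENNReal
open scoped RealInnerProductSpace

namespace SC70

variable {n : ℕ}

lemma lintegral_Ioi_scale (ϱ : ℝ) (hϱ : 0 < ϱ) (f : ℝ → ℝ≥0∞) (hf : Measurable f) :
    ∫⁻ s in Ioi (0 : ℝ), f s = ENNReal.ofReal ϱ * ∫⁻ s in Ioi (0 : ℝ), f (ϱ * s) := by
  have hm : Measurable (fun s : ℝ => ϱ * s) := measurable_const_mul ϱ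
  have hfi : Measurable ((Ioi (0 : ℝ)).indicator f) := hf.indicator measurableSet_Ioi
  rw [← lintegral_indicator measurableSet_Ioi, ← lintegral_indicator measurableSet_Ioi]
  have h := Real.smul_map_volume_mul_left hϱ.ne'
  conv_lhs => rw [← h]
  rw [lintegral_smul_measure, lintegral_map hfi hm, abs_of_pos hϱ, smul_eq_mul]
  congr 1
  apply lintegral_congr
  intro s
  by_cases hs : 0 < s
  · rw [indicator_of_mem (show ϱ * s ∈ Ioi (0 : ℝ) from mul_pos hϱ hs),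
      indicator_of_mem (show s ∈ Ioi (0 : ℝ) from hs)]
  · have h1 : ¬ 0 < ϱ * s := by
      intro h2; exact hs (pos_of_mul_pos_right h2 hϱ.le)
    rw [indicator_of_notMem (show ϱ * s ∉ Ioi (0 : ℝ) from h1),
      indicator_of_notMem (show s ∉ Ioi (0 : ℝ) from hs)]

lemma lintegral_scale (ϱ : ℝ) (hϱ : 0 < ϱ) (f : EuclideanSpace ℝ (Fin n) → ℝ≥0∞)
    (hf : Measurable f) : ∫⁻ x, f (ϱ⁻¹ • x) = ENNReal.ofReal (ϱ ^ n) * ∫⁻ x, f x := by
  have hm : Measurable (fun x : EuclideanSpace ℝ (Fin n) => ϱ⁻¹ • x) := measurable_const_smul _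
  have h := Measure.map_addHaar_smul (volume : Measure (EuclideanSpace ℝ (Fin n)))
    (inv_ne_zero hϱ.ne')
  rw [← lintegral_map hf hm, h, lintegral_smul_measure, finrank_euclideanSpace_fin, smul_eq_mul]
  congr 2
  rw [inv_pow, inv_inv, abs_of_pos (by positivity)]

/-- the scaled majorant -/
noncomputable def vS (n : ℕ) (b ϱ : ℝ) (w x : EuclideanSpace ℝ (Fin n)) : ℝ≥0∞ :=
  ENNReal.ofReal ϱ * vW n b (ϱ⁻¹ • w) (ϱ⁻¹ • x)

lemma vS_meas (b ϱ : ℝ) (w : EuclideanSpace ℝ (Fin n)) : Measurable (vS n b ϱ w) :=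
  ((vW_meas b _).comp (measurable_const_smul _)).const_mul _

lemma vS_integral (hn : 3 ≤ n) (R : ℝ) (hR1 : 1 ≤ R) (hRn : 64 * R ^ 2 ≤ n) (ϱ : ℝ)
    (hϱ : 1 / 2 ≤ ϱ) (w : EuclideanSpace ℝ (Fin n)) (hw : ‖w‖ ≤ R) :
    ∫⁻ x, vS n (1 + 8 * (2 * R) ^ 2 / n) ϱ w x ≤
      ENNReal.ofReal (ϱ ^ (n + 1)) * ENNReal.ofReal (kap n * (1 + 100 * R ^ 2 / n)) := by
  have hϱ0 : 0 < ϱ := by linarith
  have hw' : ‖ϱ⁻¹ • w‖ ≤ 2 * R := by
    rw [norm_smul, norm_inv, Real.norm_of_nonneg hϱ0.le, inv_mul_le_iff₀ hϱ0]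
    nlinarith [norm_nonneg w]
  have h := lintegral_vW_le hn (2 * R) (by linarith) (by linarith [mul_pow 2 R 2]) (ϱ⁻¹ • w) hw'
  have hm : Measurable (fun x : EuclideanSpace ℝ (Fin n) =>
      vW n (1 + 8 * (2 * R) ^ 2 / n) (ϱ⁻¹ • w) (ϱ⁻¹ • x)) :=
    (vW_meas _ _).comp (measurable_const_smul _)
  unfold vS
  rw [lintegral_const_mul _ hm,
    lintegral_scale ϱ hϱ0 _ (vW_meas _ _), ← mul_assoc, ← ENNReal.ofReal_mul hϱ0.le]
  have e1 : ϱ * ϱ ^ n = ϱ ^ (n + 1) := by ring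
  have e2 : 25 * (2 * R) ^ 2 / n = 100 * R ^ 2 / n := by ring
  rw [e2] at h
  rw [e1]
  exact mul_le_mul' le_rfl h

lemma vS_ray (hn : 1 ≤ n) (R : ℝ) (hR1 : 1 ≤ R) (hRn : 64 * R ^ 2 ≤ n) (ϱ : ℝ)
    (hϱ : 1 / 2 ≤ ϱ) (w : EuclideanSpace ℝ (Fin n)) (hw : ‖w‖ ≤ R)
    (θ : EuclideanSpace ℝ (Fin n)) (hθ : ‖θ‖ = 1) (r : ℝ) (hr : 0 < r) :
    ENNReal.ofReal (r ^ n * √(ϱ ^ 2 - ‖r • θ - w‖ ^ 2)) ≤
      ENNReal.ofReal ((1 / √(n * Real.exp 1)) * n) *
        ∫⁻ s : ℝ in Ioi (0 : ℝ), ENNReal.ofReal (s ^ (n - 1)) *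
          vS n (1 + 8 * (2 * R) ^ 2 / n) ϱ w (s • θ) := by
  have hϱ0 : 0 < ϱ := by linarith
  have hw' : ‖ϱ⁻¹ • w‖ ≤ 2 * R := by
    rw [norm_smul, norm_inv, Real.norm_of_nonneg hϱ0.le, inv_mul_le_iff₀ hϱ0]
    nlinarith [norm_nonneg w]
  have h := vW_ray hn (2 * R) (by linarith) (by linarith [mul_pow 2 R 2]) (ϱ⁻¹ • w) hw' θ hθ
    (ϱ⁻¹ * r) (by positivity)
  set b : ℝ := 1 + 8 * (2 * R) ^ 2 / n with hb
  have hmeas : Measurable (fun s : ℝ => ENNReal.ofReal (s ^ (n - 1)) * vS n b ϱ w (s • θ)) :=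
    (by fun_prop : Measurable (fun s : ℝ => ENNReal.ofReal (s ^ (n - 1)))).mul
      ((vS_meas b ϱ w).comp (by fun_prop : Measurable (fun s : ℝ => s • θ)))
  have e1 : ∫⁻ s : ℝ in Ioi (0 : ℝ), ENNReal.ofReal (s ^ (n - 1)) * vS n b ϱ w (s • θ) =
      ENNReal.ofReal (ϱ ^ (n + 1)) * ∫⁻ s : ℝ in Ioi (0 : ℝ), ENNReal.ofReal (s ^ (n - 1)) *
        vW n b (ϱ⁻¹ • w) (s • θ) := by
    rw [lintegral_Ioi_scale ϱ hϱ0 _ hmeas]
    have hm2 : Measurable (fun s : ℝ => ENNReal.ofReal (s ^ (n - 1)) *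
        vW n b (ϱ⁻¹ • w) (s • θ)) :=
      (by fun_prop : Measurable (fun s : ℝ => ENNReal.ofReal (s ^ (n - 1)))).mul
        ((vW_meas b _).comp (by fun_prop : Measurable (fun s : ℝ => s • θ)))
    rw [← lintegral_const_mul _ (by
      exact (by fun_prop : Measurable (fun s : ℝ => ENNReal.ofReal ((ϱ * s) ^ (n - 1)))).mul
        ((vS_meas b ϱ w).comp (by fun_prop : Measurable (fun s : ℝ => (ϱ * s) • θ)))),
      ← lintegral_const_mul _ hm2]
    apply setLIntegral_congr_fun measurableSet_Ioi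
    intro s hs
    have hs0 : (0 : ℝ) < s := hs
    simp only [vS]
    have e2 : ϱ⁻¹ • (ϱ * s) • θ = s • θ := by
      rw [smul_smul, ← mul_assoc, inv_mul_cancel₀ hϱ0.ne', one_mul]
    rw [e2, mul_pow, ENNReal.ofReal_mul (by positivity)]
    have e3 : ϱ ^ (n + 1) = ϱ * (ϱ ^ (n - 1) * ϱ) := by
      obtain ⟨m, rfl⟩ : ∃ m, n = m + 1 := ⟨n - 1, by omega⟩
      simp only [Nat.add_sub_cancel]; ring
    rw [e3, ENNReal.ofReal_mul hϱ0.le, ENNReal.ofReal_mul (by positivity)]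
    ring
  have e4 : r ^ n * √(ϱ ^ 2 - ‖r • θ - w‖ ^ 2) =
      ϱ ^ (n + 1) * ((ϱ⁻¹ * r) ^ n * √(1 - ‖(ϱ⁻¹ * r) • θ - ϱ⁻¹ • w‖ ^ 2)) := by
    have e5 : (ϱ⁻¹ * r) • θ - ϱ⁻¹ • w = ϱ⁻¹ • (r • θ - w) := by
      rw [smul_sub, smul_smul]
    have e6 : ϱ ^ 2 - ‖r • θ - w‖ ^ 2 = ϱ ^ 2 * (1 - ‖(ϱ⁻¹ * r) • θ - ϱ⁻¹ • w‖ ^ 2) := by
      rw [e5, norm_smul, norm_inv, Real.norm_of_nonneg hϱ0.le]
      field_simp
    rw [e6, Real.sqrt_mul (by positivity), Real.sqrt_sq hϱ0.le, mul_pow, inv_pow]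
    field_simp
    ring
  rw [e1, e4, ENNReal.ofReal_mul (by positivity)]
  calc ENNReal.ofReal (ϱ ^ (n + 1)) *
        ENNReal.ofReal ((ϱ⁻¹ * r) ^ n * √(1 - ‖(ϱ⁻¹ * r) • θ - ϱ⁻¹ • w‖ ^ 2))
      ≤ ENNReal.ofReal (ϱ ^ (n + 1)) * (ENNReal.ofReal ((1 / √(n * Real.exp 1)) * n) *
        ∫⁻ s : ℝ in Ioi (0 : ℝ), ENNReal.ofReal (s ^ (n - 1)) *
          vW n b (ϱ⁻¹ • w) (s • θ)) := mul_le_mul' le_rfl h
    _ = _ := by ring

/-- the radius that replaces `√(1 - x)` -/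
lemma radius_facts (x : ℝ) (hx1 : x ≤ 1) :
    1 / 2 ≤ max (√(1 - x)) (1 / 2) ∧ 1 - x ≤ (max (√(1 - x)) (1 / 2)) ^ 2 ∧
    (max (√(1 - x)) (1 / 2)) ^ (n + 1) ≤ Real.exp (-((n + 1) * x / 2)) := by
  refine ⟨le_max_right _ _, ?_, ?_⟩
  · have h1 : √(1 - x) ^ 2 = 1 - x := Real.sq_sqrt (by linarith)
    calc 1 - x = √(1 - x) ^ 2 := h1.symm
      _ ≤ _ := pow_le_pow_left₀ (Real.sqrt_nonneg _) (le_max_left _ _) 2
  · rcases le_total (√(1 - x)) (1 / 2) with h | h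
    · rw [max_eq_right h]
      have h1 : (1 : ℝ) / 2 ≤ Real.exp (-(x / 2)) := by
        have h2 := Real.add_one_le_exp (-(x / 2))
        linarith
      calc ((1 : ℝ) / 2) ^ (n + 1) ≤ (Real.exp (-(x / 2))) ^ (n + 1) := by gcongr
        _ = Real.exp (-((n + 1) * x / 2)) := by
            rw [← Real.exp_nat_mul]; congr 1; push_cast; ring
    · rw [max_eq_left h]
      have h1 := sqrt_pow_le_exp hx1 (n + 1)
      refine h1.trans (le_of_eq ?_)
      congr 1; push_cast; ring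

/-- the weighted estimate -/
def WBound (n : ℕ) (R A : ℝ) : Prop :=
  ∀ (ι : Type) (S : Finset ι) (w : ι → EuclideanSpace ℝ (Fin n)) (x : ι → ℝ)
    (K : Set (EuclideanSpace ℝ (Fin n))), MeasurableSet K →
    ∀ y₀, K ⊆ closedBall y₀ R → (∀ i, 0 ≤ x i) →
    ∀ c : ℝ, 0 < c → (∀ y ∈ K, c ≤ ∑ i ∈ S, √(1 - x i - ‖y - w i‖ ^ 2)) →
      ENNReal.ofReal c * volume K ≤
        ENNReal.ofReal A * ∑ i ∈ S, ENNReal.ofReal (Real.exp (-((n + 1) * x i / 2)))

/-- **Weighted core estimate.** -/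
theorem wcore (hn : 3 ≤ n) (R : ℝ) (hR1 : 1 ≤ R) (hRn : 64 * R ^ 2 ≤ n) :
    WBound n R ((1 / √(n * Real.exp 1)) * (kap n * (1 + 100 * R ^ 2 / n))) := by
  classical
  intro ι S w x K hKm y₀ hK hx c hc h
  have hn1 : 1 ≤ n := by omega
  have hn' : (0 : ℝ) < n := by exact_mod_cast hn1
  have hne : Nonempty (Fin n) := ⟨⟨0, by omega⟩⟩
  have hkap := kap_nonneg n
  set c0 : ℝ := 1 / √(n * Real.exp 1) with hc0
  have hc0pos : 0 ≤ c0 := by positivity
  -- translate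
  set K0 : Set (EuclideanSpace ℝ (Fin n)) := (fun y => y₀ + y) ⁻¹' K with hK0
  have hK0m : MeasurableSet K0 := (measurable_const_add y₀) hKm
  have hK0R : ∀ y ∈ K0, ‖y‖ ≤ R := by
    intro y hy
    have := hK hy
    simpa using this
  have hvol : volume K0 = volume K := measure_preimage_add _ _ _
  -- move the centres
  set w' : ι → EuclideanSpace ℝ (Fin n) := fun i =>
    if ‖w i - y₀‖ ≤ R then w i - y₀ else (R / ‖w i - y₀‖) • (w i - y₀) with hw'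
  have hw'1 : ∀ i, ‖w' i‖ ≤ R := by
    intro i
    simp only [hw']
    split_ifs with h1
    · exact h1
    · push Not at h1
      have h2 : 0 < ‖w i - y₀‖ := by linarith
      rw [norm_smul, Real.norm_of_nonneg (by positivity), div_mul_cancel₀ _ h2.ne']
  have hdist : ∀ i, ∀ y ∈ K0, ‖y - w' i‖ ≤ ‖(y₀ + y) - w i‖ := by
    intro i y hy
    have e : (y₀ + y) - w i = y - (w i - y₀) := by abel
    rw [e]
    simp only [hw']
    split_ifs with h1
    · exact le_refl _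
    · push Not at h1
      exact move_centre_wide R (w i - y₀) y (by linarith) (hK0R y hy) h1
  set V : ι → EuclideanSpace ℝ (Fin n) → ℝ≥0∞ := fun i y =>
    if x i ≤ 1 then vS n (1 + 8 * (2 * R) ^ 2 / n) (max (√(1 - x i)) (1 / 2)) (w' i) y else 0
    with hV
  have hVm : ∀ i, Measurable (V i) := by
    intro i
    simp only [hV]
    by_cases h1 : x i ≤ 1
    · simp only [if_pos h1]; exact vS_meas _ _ _
    · simp only [if_neg h1]; exact measurable_const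
  have hVi : ∀ i, ∫⁻ y, V i y ≤ ENNReal.ofReal (kap n * (1 + 100 * R ^ 2 / n)) *
      ENNReal.ofReal (Real.exp (-((n + 1) * x i / 2))) := by
    intro i
    simp only [hV]
    by_cases h1 : x i ≤ 1
    · simp only [if_pos h1]
      obtain ⟨f1, f2, f3⟩ := radius_facts (n := n) (x i) h1
      refine (vS_integral hn R hR1 hRn _ f1 (w' i) (hw'1 i)).trans ?_
      rw [mul_comm]
      exact mul_le_mul' le_rfl (ENNReal.ofReal_le_ofReal f3)
    · simp only [if_neg h1, lintegral_zero]; exact zero_le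
  have hVr : ∀ i, ∀ θ : EuclideanSpace ℝ (Fin n), ‖θ‖ = 1 → ∀ r : ℝ, 0 < r → r • θ ∈ K0 →
      ENNReal.ofReal (r ^ n * √(1 - x i - ‖(y₀ + r • θ) - w i‖ ^ 2)) ≤
      ENNReal.ofReal (c0 * n) *
        ∫⁻ s : ℝ in Ioi (0 : ℝ), ENNReal.ofReal (s ^ (n - 1)) * V i (s • θ) := by
    intro i θ hθ r hr hrK
    by_cases h1 : x i ≤ 1
    · obtain ⟨f1, f2, f3⟩ := radius_facts (n := n) (x i) h1
      have h2 := vS_ray hn1 R hR1 hRn _ f1 (w' i) (hw'1 i) θ hθ r hr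
      have h3 : ENNReal.ofReal (r ^ n * √(1 - x i - ‖(y₀ + r • θ) - w i‖ ^ 2)) ≤
          ENNReal.ofReal (r ^ n * √((max (√(1 - x i)) (1 / 2)) ^ 2 - ‖r • θ - w' i‖ ^ 2)) := by
        apply ENNReal.ofReal_le_ofReal
        apply mul_le_mul_of_nonneg_left _ (by positivity)
        apply Real.sqrt_le_sqrt
        have h4 : ‖r • θ - w' i‖ ^ 2 ≤ ‖(y₀ + r • θ) - w i‖ ^ 2 :=
          pow_le_pow_left₀ (norm_nonneg _) (hdist i _ hrK) 2
        linarith
      refine h3.trans (h2.trans (le_of_eq ?_))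
      simp only [hV, if_pos h1, hc0]
    · have h2 : √(1 - x i - ‖(y₀ + r • θ) - w i‖ ^ 2) = 0 := by
        apply Real.sqrt_eq_zero_of_nonpos
        have := sq_nonneg ‖(y₀ + r • θ) - w i‖
        linarith
      rw [h2, mul_zero, ENNReal.ofReal_zero]; exact zero_le
  set u : EuclideanSpace ℝ (Fin n) → ℝ≥0∞ := K0.indicator (fun _ => ENNReal.ofReal c) with hu
  set v : EuclideanSpace ℝ (Fin n) → ℝ≥0∞ := fun y => ∑ i ∈ S, ENNReal.ofReal c0 * V i y with hv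
  have hum : Measurable u := measurable_const.indicator hK0m
  have hvm : Measurable v := Finset.measurable_fun_sum S fun i _ => (hVm i).const_mul _
  have hmr : ∀ i, ∀ θ : EuclideanSpace ℝ (Fin n), Measurable (fun r : ℝ =>
      ENNReal.ofReal (r ^ (n - 1)) * V i (r • θ)) := fun i θ =>
    (by fun_prop : Measurable (fun r : ℝ => ENNReal.ofReal (r ^ (n - 1)))).mul
      ((hVm i).comp (by fun_prop : Measurable (fun r : ℝ => r • θ)))
  have hmain : ∫⁻ y, u y ≤ ∫⁻ y, v y := by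
    apply polar_le volume u v hum hvm
    intro θ hθ
    rw [finrank_euclideanSpace_fin]
    set L : ι → ℝ≥0∞ := fun i =>
      ∫⁻ s : ℝ in Ioi (0 : ℝ), ENNReal.ofReal (s ^ (n - 1)) * V i (s • θ) with hL
    have hRHS : ∫⁻ r : ℝ in Ioi (0 : ℝ), ENNReal.ofReal (r ^ (n - 1)) * v (r • θ) =
        ∑ i ∈ S, ENNReal.ofReal c0 * L i := by
      simp only [hv, Finset.mul_sum, hL]
      rw [lintegral_finsetSum]
      · refine Finset.sum_congr rfl fun i _ => ?_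
        rw [← lintegral_const_mul _ (hmr i θ)]
        apply lintegral_congr
        intro r; ring
      · intro i _
        exact (by fun_prop : Measurable (fun r : ℝ => ENNReal.ofReal (r ^ (n - 1)))).mul
          (((hVm i).const_mul _).comp (by fun_prop : Measurable (fun r : ℝ => r • θ)))
    rw [hRHS]
    set Λ : ℝ≥0∞ := ∑ i ∈ S, ENNReal.ofReal (c0 * n) * L i with hΛ
    have hΛe : ∑ i ∈ S, ENNReal.ofReal c0 * L i = Λ * ENNReal.ofReal (1 / n) := by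
      rw [hΛ, Finset.sum_mul]
      refine Finset.sum_congr rfl fun i _ => ?_
      have : ENNReal.ofReal c0 = ENNReal.ofReal (c0 * n) * ENNReal.ofReal (1 / n) := by
        rw [← ENNReal.ofReal_mul (by positivity)]; congr 1; field_simp
      rw [this]; ring
    rw [hΛe]
    by_cases hΛtop : Λ = ⊤
    · rw [hΛtop, ENNReal.top_mul]
      · exact le_top
      · rw [Ne, ENNReal.ofReal_eq_zero]; push Not; positivity
    · have hup := radial_upper n hn1 K0 θ c Λ.toReal hc ENNReal.toReal_nonneg (by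
        intro r hr hrK
        have h1 : ENNReal.ofReal (c * r ^ n) ≤ Λ := by
          calc ENNReal.ofReal (c * r ^ n)
              ≤ ENNReal.ofReal (∑ i ∈ S, r ^ n * √(1 - x i - ‖(y₀ + r • θ) - w i‖ ^ 2)) := by
                apply ENNReal.ofReal_le_ofReal
                rw [← Finset.mul_sum, mul_comm]
                exact mul_le_mul_of_nonneg_left (h _ hrK) (by positivity)
            _ = ∑ i ∈ S, ENNReal.ofReal (r ^ n * √(1 - x i - ‖(y₀ + r • θ) - w i‖ ^ 2)) := by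
                rw [ENNReal.ofReal_sum_of_nonneg]
                intro i _; positivity
            _ ≤ Λ := Finset.sum_le_sum fun i _ => hVr i θ hθ r hr hrK
        exact (ENNReal.ofReal_le_iff_le_toReal hΛtop).mp h1)
      refine hup.trans (le_of_eq ?_)
      rw [div_eq_mul_one_div, ENNReal.ofReal_mul ENNReal.toReal_nonneg, ENNReal.ofReal_toReal hΛtop]
  have hL' : ∫⁻ y, u y = ENNReal.ofReal c * volume K := by
    rw [hu, lintegral_indicator hK0m, setLIntegral_const, hvol]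
  have hR' : ∫⁻ y, v y ≤ ENNReal.ofReal (c0 * (kap n * (1 + 100 * R ^ 2 / n))) *
      ∑ i ∈ S, ENNReal.ofReal (Real.exp (-((n + 1) * x i / 2))) := by
    simp only [hv]
    rw [lintegral_finsetSum _ fun i _ => (hVm i).const_mul _, Finset.mul_sum]
    apply Finset.sum_le_sum
    intro i _
    rw [lintegral_const_mul _ (hVm i), ENNReal.ofReal_mul hc0pos, mul_assoc]
    exact mul_le_mul' le_rfl (hVi i)
  rw [← hL']
  exact hmain.trans hR'

end SC70
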