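import Pool.Agent.SC70.WNum
import Pool.Agent.SC70.Final

/-!
# Thin coverings: the final form without logarithms
-/

set_option autoImplicit false

open MeasureTheory Measure Metric Set Module ENNReal

namespace SC70

theorem wmain_bound {n : ℕ} (hn : 3 ≤ n) (ε : ℝ) (hε0 : 0 < ε) (hε1 : ε ≤ 1) (h2 : 2500 / ε ≤ n)
    (m : ℕ) (hm : (m : ℝ) ≤ ε ^ 2 / 20000 * n) (ρ : ℝ) (hρ : 0 ≤ ρ) (hρ2 : ρ ≤ √(ε * n) / 100)
    (V : Submodule ℝ (EuclideanSpace ℝ (Fin (n + 1)))) (hV : finrank ℝ V ≤ m)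
    (C : Set (EuclideanSpace ℝ (Fin (n + 1)))) (hconv : Convex ℝ C)
    (hCc : IsCompact C) (hthin : ∀ x ∈ C, ∀ y ∈ C, ∃ v ∈ V, ‖x - y - v‖ ≤ ρ)
    (a b : EuclideanSpace ℝ (Fin (n + 1))) (ha : a ∈ C) (hb : b ∈ C)
    (hab : ∀ x ∈ C, ∀ y ∈ C, ‖x - y‖ ≤ ‖b - a‖)
    (hlen : 4400 * √((n : ℝ) + 1) / ε ^ 2 ≤ ‖b - a‖)
    (X : Finset (EuclideanSpace ℝ (Fin (n + 1)))) (hcov : C ⊆ ⋃ x ∈ X, closedBall x 1) :
    volume C ≤ ENNReal.ofReal ((1 + ε) * (2 * X.card * (kap n * Mn n))) := by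
  have hn1 : 1 ≤ n := by omega
  have hn' : (3 : ℝ) ≤ n := by exact_mod_cast hn
  have hn0 : (0 : ℝ) < n := by linarith
  have hkap := kap_pos n
  have hMn := Mn_pos hn1
  have hsN : 0 < √((n : ℝ) + 1) := Real.sqrt_pos.mpr (by positivity)
  have hs : 0 < √(ε * n) := Real.sqrt_pos.mpr (by positivity)
  have hs2 : √(ε * n) ^ 2 = ε * n := Real.sq_sqrt (by positivity)
  have hεn : 2500 ≤ ε * n := by
    rw [div_le_iff₀ hε0] at h2
    linarith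
  have hs50 : 50 ≤ √(ε * n) := by
    apply Real.le_sqrt_of_sq_le
    norm_num
    exact hεn
  have hγ := gam_le hn ε hε0 hε1 m hm
  have h16 : 16 / ε ≤ n := by
    refine le_trans ?_ h2
    gcongr
    norm_num
  -- the radii
  obtain ⟨s, hsdef⟩ : ∃ s : ℝ, s = √(ε * n) := ⟨_, rfl⟩
  rw [← hsdef] at hs hs2 hs50 hγ hρ2
  have hR1 : 1 ≤ s / 50 := by linarith
  have hRn : 64 * (s / 50) ^ 2 ≤ n := by
    rw [div_pow, hs2]
    nlinarith
  have hcore := wcore hn (s / 50) hR1 hRn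
  obtain ⟨er, herdef⟩ : ∃ er : ℝ, er = 100 * (s / 50) ^ 2 / n := ⟨_, rfl⟩
  rw [← herdef] at hcore
  have her0 : 0 ≤ er := by rw [herdef]; positivity
  have her : er ≤ ε / 16 := by
    rw [herdef, div_pow, hs2]
    have e : 100 * (ε * (n : ℝ) / 50 ^ 2) / n = ε / 25 := by field_simp; norm_num
    rw [e]
    linarith
  obtain ⟨A, hA⟩ : ∃ A : ℝ, A = (1 / √(n * Real.exp 1)) * (kap n * (1 + er)) := ⟨_, rfl⟩
  rw [← hA] at hcore
  have hA0 : 0 ≤ A := by rw [hA]; positivity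
  obtain ⟨Len, hLendef⟩ : ∃ Len : ℝ, Len = ‖b - a‖ := ⟨_, rfl⟩
  obtain ⟨ℓ, hℓdef⟩ : ∃ ℓ : ℝ, ℓ = 100 / ε / √((n : ℝ) + 1) := ⟨_, rfl⟩
  have hℓ0 : 0 < ℓ := by rw [hℓdef]; positivity
  have hpos : 0 < 4400 * √((n : ℝ) + 1) / ε ^ 2 := by positivity
  have hLen0 : 0 < ‖b - a‖ := lt_of_lt_of_le hpos hlen
  have hR'0 : 0 < s / 200 := by linarith
  have hmain := wgeo hn1 hA0 hcore (s / 200) ρ hR'0 hρ (by linarith) m V hV C hconv hCc hthin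
    a b ha hb hab hLen0 X hcov ℓ hℓ0
  rw [← hLendef] at hmain hLen0 hlen
  have hγ0 : 0 ≤ gam (n + 1) m (s / 200) := by unfold gam; positivity
  obtain ⟨γ, hγdef⟩ : ∃ γ : ℝ, γ = gam (n + 1) m (s / 200) := ⟨_, rfl⟩
  rw [← hγdef] at hmain hγ hγ0
  have hfin : volume C ≠ ⊤ := hCc.measure_lt_top.ne
  obtain ⟨v, hv⟩ : ∃ v : ℝ, v = (volume C).toReal := ⟨_, rfl⟩
  have hv0 : 0 ≤ v := by rw [hv]; exact ENNReal.toReal_nonneg
  have hvv : volume C = ENNReal.ofReal v := by rw [hv, ENNReal.ofReal_toReal hfin]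
  obtain ⟨k, hk⟩ : ∃ k : ℝ, k = (X.card : ℝ) := ⟨_, rfl⟩
  have hk0 : 0 ≤ k := by rw [hk]; exact Nat.cast_nonneg _
  have hXk : (X.card : ℝ≥0∞) = ENNReal.ofReal k := by rw [hk, ENNReal.ofReal_natCast]
  rw [hvv, ← hk]
  apply ENNReal.ofReal_le_ofReal
  obtain ⟨τ, hτ⟩ : ∃ τ : ℝ, τ = 2 * √(2 * Real.pi / (n + 1)) := ⟨_, rfl⟩
  have hτ0 : 0 ≤ τ := by rw [hτ]; positivity
  obtain ⟨β, hβ⟩ : ∃ β : ℝ, β = Real.exp 1 * (n + 1) / Len := ⟨_, rfl⟩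
  have hβ0 : 0 ≤ β := by rw [hβ]; positivity
  have hreal : ℓ / 2 * v ≤ A * γ * (k * (ℓ + τ)) + ℓ / 2 * (ℓ * (β * v)) := by
    rw [hvv, hXk, ← hτ, ← hβ] at hmain
    have hl2 : 0 ≤ ℓ / 2 := by linarith
    have hlt : 0 ≤ ℓ + τ := by linarith
    have hAγ : 0 ≤ A * γ := mul_nonneg hA0 hγ0
    have hβv : 0 ≤ β * v := mul_nonneg hβ0 hv0
    have hlβ : 0 ≤ ℓ * (β * v) := mul_nonneg hℓ0.le hβv
    have p1 : 0 ≤ A * γ * (k * (ℓ + τ)) := mul_nonneg hAγ (mul_nonneg hk0 hlt)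
    have p2 : 0 ≤ ℓ / 2 * (ℓ * (β * v)) := mul_nonneg hl2 hlβ
    rw [← ENNReal.ofReal_mul hl2, ← ENNReal.ofReal_mul hk0, ← ENNReal.ofReal_mul hAγ,
      ← ENNReal.ofReal_mul hβ0, ← ENNReal.ofReal_mul hℓ0.le, ← ENNReal.ofReal_mul hl2,
      ← ENNReal.ofReal_add p1 p2] at hmain
    exact (ENNReal.ofReal_le_ofReal_iff (add_nonneg p1 p2)).mp hmain
  rw [hτ, hβ] at hreal
  exact final_real2 hn ε hε0 hε1 h16 er γ her0 her hγ0 hγ A hA v k Len ℓ hv0 hk0 hlen hℓdef hreal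

/-- short bodies covered by very many balls -/
lemma wshort_body {n : ℕ} (hn : 3 ≤ n) (ε : ℝ) (hε0 : 0 < ε)
    (C : Set (EuclideanSpace ℝ (Fin (n + 1)))) (a : EuclideanSpace ℝ (Fin (n + 1)))
    (hC : ∀ x ∈ C, ‖x - a‖ ≤ 4400 * √((n : ℝ) + 1) / ε ^ 2) (k : ℝ)
    (hk : (100000 * √((n : ℝ) + 1) / ε ^ 2) ^ (n + 1) ≤ k) :
    volume C ≤ ENNReal.ofReal (2 * k * (kap n * Mn n)) := by
  have hn1 : 1 ≤ n := by omega
  have hkap := kap_pos n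
  have hMn := Mn_pos hn1
  have hsN : 0 < √((n : ℝ) + 1) := Real.sqrt_pos.mpr (by positivity)
  set T : ℝ := 4400 * √((n : ℝ) + 1) / ε ^ 2 with hT
  have hT0 : 0 ≤ T := by positivity
  have h1 : volume C ≤ volume (closedBall a T) := by
    apply measure_mono
    intro x hx
    rw [mem_closedBall, dist_eq_norm]
    exact hC x hx
  refine h1.trans ?_
  rw [volume_ball_le a hT0]
  apply ENNReal.ofReal_le_ofReal
  have h2 : (1 : ℝ) ≤ 20 ^ (n + 1) * Mn n := by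
    have h3 := Mn_lower hn1
    have h4 : √((n : ℝ) + 1) ≤ n + 1 := by
      rw [Real.sqrt_le_left (by positivity)]
      nlinarith
    have h5 : (2 : ℝ) * (n + 1) ≤ 20 ^ (n + 1) := by
      have h6 : n + 1 < 2 ^ (n + 1) := Nat.lt_two_pow_self
      have h7 : ((n + 1 : ℕ) : ℝ) < ((2 ^ (n + 1) : ℕ) : ℝ) := by exact_mod_cast h6
      push_cast at h7
      have h8 : (2 : ℝ) ≤ 2 ^ (n + 1) := by
        calc (2 : ℝ) = 2 ^ 1 := by norm_num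
          _ ≤ 2 ^ (n + 1) := pow_le_pow_right₀ (by norm_num) (by omega)
      calc (2 : ℝ) * (n + 1) ≤ 2 ^ (n + 1) * 2 ^ (n + 1) := by
            apply mul_le_mul h8 h7.le (by positivity) (by positivity)
        _ = 4 ^ (n + 1) := by rw [← mul_pow]; norm_num
        _ ≤ 20 ^ (n + 1) := pow_le_pow_left₀ (by norm_num) (by norm_num) _
    calc (1 : ℝ) ≤ 2 * √((n : ℝ) + 1) * Mn n := h3
      _ ≤ 20 ^ (n + 1) * Mn n := by
          apply mul_le_mul_of_nonneg_right _ hMn.le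
          linarith
  have h3 : (20 * T) ^ (n + 1) ≤ k := by
    refine le_trans ?_ hk
    apply pow_le_pow_left₀ (by positivity)
    rw [hT]
    have e : 20 * (4400 * √((n : ℝ) + 1) / ε ^ 2) = 88000 * √((n : ℝ) + 1) / ε ^ 2 := by ring
    rw [e]
    gcongr
    norm_num
  calc kap (n + 1) * T ^ (n + 1) ≤ (2 * kap n) * T ^ (n + 1) :=
        mul_le_mul_of_nonneg_right (kap_succ_le n) (by positivity)
    _ ≤ (2 * kap n) * (T ^ (n + 1) * (20 ^ (n + 1) * Mn n)) := by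
        apply mul_le_mul_of_nonneg_left _ (by positivity)
        nlinarith [pow_nonneg hT0 (n + 1)]
    _ = 2 * (20 * T) ^ (n + 1) * (kap n * Mn n) := by rw [mul_pow]; ring
    _ ≤ 2 * k * (kap n * Mn n) := by gcongr

/-- the finite form, with explicit conditions -/
theorem wflat_sausage_finite {n : ℕ} (hn : 3 ≤ n) (ε : ℝ) (hε0 : 0 < ε) (hε1 : ε ≤ 1)
    (h2 : 2500 / ε ≤ n) (m : ℕ)
    (hm : (m : ℝ) ≤ ε ^ 2 / 100000 * (n + 1 : ℕ))
    (C : Set (EuclideanSpace ℝ (Fin (n + 1)))) (X : Finset (EuclideanSpace ℝ (Fin (n + 1))))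
    (hconv : Convex ℝ C) (hCc : IsCompact C) (hcov : C ⊆ ⋃ x ∈ X, closedBall x 1)
    (S : AffineSubspace ℝ (EuclideanSpace ℝ (Fin (n + 1)))) (hS : finrank ℝ S.direction ≤ m)
    (hCS : ∀ x ∈ C, ∃ y ∈ S, ‖x - y‖ ^ 2 ≤ ε ^ 2 / 100000 * (n + 1 : ℕ))
    (hlong : (∃ x ∈ C, ∃ y ∈ C, √((n + 1 : ℕ) : ℝ) / (ε ^ 2 / 100000) ≤ ‖x - y‖) ∨
      (√((n + 1 : ℕ) : ℝ) / (ε ^ 2 / 100000)) ^ (n + 1) ≤ X.card) :
    ∃ (C' : Set (EuclideanSpace ℝ (Fin (n + 1)))) (Y : Finset (EuclideanSpace ℝ (Fin (n + 1)))),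
      Convex ℝ C' ∧ IsCompact C' ∧ (interior C').Nonempty ∧ Y.card = X.card ∧
      Collinear ℝ (Y : Set (EuclideanSpace ℝ (Fin (n + 1)))) ∧
      C' ⊆ ⋃ y ∈ Y, closedBall y (1 : ℝ) ∧
      volume C ≤ ENNReal.ofReal (1 + ε) * volume C' := by
  have hn1 : 1 ≤ n := by omega
  have hn' : (3 : ℝ) ≤ n := by exact_mod_cast hn
  have hkap := kap_pos n
  have hMn := Mn_pos hn1
  have hsN : 0 < √((n : ℝ) + 1) := Real.sqrt_pos.mpr (by positivity)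
  have hcast : ((n + 1 : ℕ) : ℝ) = (n : ℝ) + 1 := by push_cast; ring
  rw [hcast] at hm hCS hlong
  -- the scale
  obtain ⟨q, hq0, hq2, hqt⟩ : ∃ q : ℝ, 0 ≤ q ∧ 2 * q ≤ √(ε * n) / 100 ∧
      ∀ t : ℝ, t ^ 2 ≤ ε ^ 2 / 100000 * ((n : ℝ) + 1) → t ≤ q := by
    refine ⟨√(ε ^ 2 / 100000 * ((n : ℝ) + 1)), Real.sqrt_nonneg _, ?_,
      fun t ht => Real.le_sqrt_of_sq_le ht⟩
    have h4 : √(ε ^ 2 / 100000 * ((n : ℝ) + 1)) ≤ √(ε * n) / 200 := by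
      rw [Real.sqrt_le_left (by positivity), div_pow, Real.sq_sqrt (by positivity)]
      have h5 : ε ^ 2 ≤ ε := by nlinarith
      have h6 : (n : ℝ) + 1 ≤ 2 * n := by linarith
      calc ε ^ 2 / 100000 * ((n : ℝ) + 1) ≤ ε / 100000 * (2 * n) := by gcongr
        _ = ε * n / 50000 := by ring
        _ ≤ ε * n / 200 ^ 2 := by
            apply div_le_div_of_nonneg_left (by positivity) (by norm_num) (by norm_num)
    linarith
  -- number of balls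
  have hk1 : 1 ≤ X.card := by
    rcases hlong with ⟨x, hx, _⟩ | h
    · have h4 := hcov hx
      simp only [mem_iUnion] at h4
      obtain ⟨y, hy, _⟩ := h4
      exact Finset.card_pos.mpr ⟨y, hy⟩
    · have h4 : (0 : ℝ) < (√((n : ℝ) + 1) / (ε ^ 2 / 100000)) ^ (n + 1) := by positivity
      have h5 : (0 : ℝ) < X.card := lt_of_lt_of_le h4 h
      have : 0 < X.card := by exact_mod_cast h5
      omega
  obtain ⟨C', Y, c1, c2, c3, c4, c5, c6, c7⟩ := sausage_exists hn1 X.card hk1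
  refine ⟨C', Y, c1, c2, c3, c4, c5, c6, ?_⟩
  rw [c7, ← ENNReal.ofReal_mul (by linarith)]
  rcases C.eq_empty_or_nonempty with hCe | hCne
  · rw [hCe]; simp
  -- the diameter
  obtain ⟨⟨b, a⟩, ⟨hb, ha⟩, hmax⟩ := (hCc.prod hCc).exists_isMaxOn (hCne.prod hCne)
    (f := fun z : EuclideanSpace ℝ (Fin (n + 1)) × EuclideanSpace ℝ (Fin (n + 1)) =>
      ‖z.1 - z.2‖) (by fun_prop)
  have hab : ∀ x ∈ C, ∀ y ∈ C, ‖x - y‖ ≤ ‖b - a‖ := by
    intro x hx y hy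
    exact isMaxOn_iff.mp hmax (x, y) ⟨hx, hy⟩
  by_cases hlen : 4400 * √((n : ℝ) + 1) / ε ^ 2 ≤ ‖b - a‖
  · have hthin : ∀ x ∈ C, ∀ y ∈ C, ∃ v ∈ S.direction, ‖x - y - v‖ ≤ 2 * q := by
      intro x hx y hy
      obtain ⟨x', hx', hxx⟩ := hCS x hx
      obtain ⟨y', hy', hyy⟩ := hCS y hy
      refine ⟨x' - y', AffineSubspace.vsub_mem_direction hx' hy', ?_⟩
      have h4 : ‖x - x'‖ ≤ q := hqt _ hxx
      have h5 : ‖y - y'‖ ≤ q := hqt _ hyy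
      have e : x - y - (x' - y') = (x - x') - (y - y') := by abel
      rw [e]
      calc ‖(x - x') - (y - y')‖ ≤ ‖x - x'‖ + ‖y - y'‖ := norm_sub_le _ _
        _ ≤ 2 * q := by linarith
    have h2q : 0 ≤ 2 * q := by linarith
    have hm' : (m : ℝ) ≤ ε ^ 2 / 20000 * n := by
      refine hm.trans ?_
      calc ε ^ 2 / 100000 * ((n : ℝ) + 1) ≤ ε ^ 2 / 100000 * (5 * n) := by
            gcongr; linarith
        _ = ε ^ 2 / 20000 * n := by ring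
    exact wmain_bound hn ε hε0 hε1 h2 m hm' (2 * q) h2q hq2 S.direction hS C hconv hCc
      hthin a b ha hb hab hlen X hcov
  · push Not at hlen
    have e4 : (√((n : ℝ) + 1) / (ε ^ 2 / 100000)) = 100000 * √((n : ℝ) + 1) / ε ^ 2 := by
      field_simp
    have hk : (100000 * √((n : ℝ) + 1) / ε ^ 2) ^ (n + 1) ≤ X.card := by
      rcases hlong with ⟨x, hx, y, hy, hxy⟩ | h
      · exfalso
        rw [e4] at hxy
        have h4 := hab x hx y hy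
        have h5 : 4400 * √((n : ℝ) + 1) / ε ^ 2 ≤ 100000 * √((n : ℝ) + 1) / ε ^ 2 := by
          gcongr; norm_num
        linarith
      · rwa [e4] at h
    refine (wshort_body hn ε hε0 C a (fun x hx => (hab x hx a ha).trans hlen.le) X.card
      hk).trans ?_
    apply ENNReal.ofReal_le_ofReal
    have hσ : 0 ≤ 2 * (X.card : ℝ) * (kap n * Mn n) := by positivity
    nlinarith

end SC70
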