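import Pool.Agent.SC70.WGeo
import Pool.Agent.SC70.Num

/-!
# Thin coverings: numerical estimates, version without logarithms
-/

set_option autoImplicit false

open MeasureTheory Measure Metric Set Module ENNReal

namespace SC70

variable {n : ℕ}

lemma sqrt_two_pi_lt : √(2 * Real.pi) ≤ 63 / 25 := by
  rw [Real.sqrt_le_left (by norm_num)]
  have := Real.pi_lt_d2
  norm_num at *
  linarith

lemma gam_le (hn : 3 ≤ n) (ε : ℝ) (hε0 : 0 < ε) (hε1 : ε ≤ 1) (m : ℕ)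
    (hm : (m : ℝ) ≤ ε ^ 2 / 20000 * n) :
    gam (n + 1) m (√(ε * n) / 200) ≤ 1 + ε / 16 := by
  have hn' : (3 : ℝ) ≤ n := by exact_mod_cast hn
  have hs : 0 < √(ε * n) := Real.sqrt_pos.mpr (by positivity)
  have hs2 : √(ε * n) ^ 2 = ε * n := Real.sq_sqrt (by positivity)
  set s : ℝ := √(ε * n) with hsdef
  have hN : √(2 * Real.pi / ((n : ℝ) + 1)) = √(2 * Real.pi) / √((n : ℝ) + 1) :=
    Real.sqrt_div (by positivity) _
  have hsN : s ≤ √((n : ℝ) + 1) := by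
    rw [hsdef]
    apply Real.sqrt_le_sqrt
    nlinarith
  -- exponent
  have hexp : (m : ℝ) ^ 2 / (2 * ((n : ℝ) + 1) * (s / 200) ^ 2) ≤ 1 / 2 := by
    rw [div_pow, hs2, div_le_iff₀ (by positivity)]
    have h1 : (m : ℝ) ^ 2 ≤ (ε ^ 2 / 20000 * n) ^ 2 := pow_le_pow_left₀ (by positivity) hm 2
    have h2 : (ε ^ 2 / 20000 * n) ^ 2 ≤ 1 / 2 * (2 * (n + 1) * (ε * n / 200 ^ 2)) := by
      have h3 : ε ^ 4 ≤ ε := by
        have : ε ^ 3 ≤ 1 := pow_le_one₀ hε0.le hε1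
        nlinarith
      have e1 : (ε ^ 2 / 20000 * (n : ℝ)) ^ 2 = ε ^ 4 * n ^ 2 / 400000000 := by ring
      have e2 : 1 / 2 * (2 * ((n : ℝ) + 1) * (ε * n / 200 ^ 2)) = ε * (n * (n + 1)) / 40000 := by
        ring
      rw [e1, e2]
      have h4 : ε ^ 4 * (n : ℝ) ^ 2 ≤ ε * (n * (n + 1)) := by
        have h5 : (n : ℝ) ^ 2 ≤ n * (n + 1) := by nlinarith
        calc ε ^ 4 * (n : ℝ) ^ 2 ≤ ε * (n : ℝ) ^ 2 := by gcongr
          _ ≤ ε * (n * (n + 1)) := by gcongr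
      have h5 : 0 ≤ ε * ((n : ℝ) * (n + 1)) := by positivity
      linarith
    exact h1.trans h2
  have hexp2 : Real.exp ((m : ℝ) ^ 2 / (2 * ((n : ℝ) + 1) * (s / 200) ^ 2)) ≤ 2 := by
    refine (Real.exp_le_exp.mpr hexp).trans ?_
    have h1 := Real.exp_bound_div_one_sub_of_interval (x := 1 / 2) (by norm_num) (by norm_num)
    norm_num at h1 ⊢
    exact h1
  have hfac : (m : ℝ) / (s / 200) * (√(2 * Real.pi) / √((n : ℝ) + 1)) ≤ ε / 32 := by
    have e1 : (m : ℝ) / (s / 200) * (√(2 * Real.pi) / √((n : ℝ) + 1)) =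
        200 * m * √(2 * Real.pi) / (s * √((n : ℝ) + 1)) := by
      field_simp
    rw [e1, div_le_iff₀ (by positivity)]
    have h1 : s * s ≤ s * √((n : ℝ) + 1) := mul_le_mul_of_nonneg_left hsN hs.le
    have h2 : s * s = ε * n := by rw [← sq]; exact hs2
    have h3 := sqrt_two_pi_lt
    have h4 : 200 * (m : ℝ) * √(2 * Real.pi) ≤ 200 * (ε ^ 2 / 20000 * n) * (63 / 25) := by
      gcongr
    have h5 : 200 * (ε ^ 2 / 20000 * (n : ℝ)) * (63 / 25) ≤ ε / 32 * (ε * n) := by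
      have e : 200 * (ε ^ 2 / 20000 * (n : ℝ)) * (63 / 25) = (63 / 2500) * (ε ^ 2 * n) := by ring
      have e' : ε / 32 * (ε * (n : ℝ)) = (1 / 32) * (ε ^ 2 * n) := by ring
      rw [e, e']
      apply mul_le_mul_of_nonneg_right (by norm_num) (by positivity)
    calc 200 * (m : ℝ) * √(2 * Real.pi) ≤ ε / 32 * (ε * n) := h4.trans h5
      _ ≤ ε / 32 * (s * √((n : ℝ) + 1)) := by
          apply mul_le_mul_of_nonneg_left _ (by positivity)
          linarith
  unfold gam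
  rw [hN]
  have h6 : (m : ℝ) / (s / 200) * (√(2 * Real.pi) / √((n : ℝ) + 1) *
      Real.exp ((m : ℝ) ^ 2 / (2 * ((n : ℝ) + 1) * (s / 200) ^ 2))) ≤ ε / 32 * 2 := by
    rw [← mul_assoc]
    exact mul_le_mul hfac hexp2 (Real.exp_pos _).le (by positivity)
  linarith

lemma delta_le2 (n : ℕ) (ε Len : ℝ) (hε0 : 0 < ε)
    (hlen : 4400 * √((n : ℝ) + 1) / ε ^ 2 ≤ Len) :
    100 / ε / √((n : ℝ) + 1) * (Real.exp 1 * (n + 1) / Len) ≤ ε / 16 := by
  have hsN : 0 < √((n : ℝ) + 1) := Real.sqrt_pos.mpr (by positivity)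
  have hsN2 : √((n : ℝ) + 1) * √((n : ℝ) + 1) = n + 1 := Real.mul_self_sqrt (by positivity)
  have hpos : 0 < 4400 * √((n : ℝ) + 1) / ε ^ 2 := by positivity
  have hLen0 : 0 < Len := by linarith
  have h4 : Real.exp 1 ≤ 11 / 4 := by have := Real.exp_one_lt_d9; linarith
  have e : 100 / ε / √((n : ℝ) + 1) * (Real.exp 1 * (n + 1) / Len) =
      100 * Real.exp 1 * √((n : ℝ) + 1) / ε / Len := by
    have e0 : Real.exp 1 * ((n : ℝ) + 1) / Len =
        Real.exp 1 * (√((n : ℝ) + 1) * √((n : ℝ) + 1)) / Len := by rw [hsN2]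
    rw [e0]
    field_simp
  rw [e, div_le_iff₀ hLen0]
  calc 100 * Real.exp 1 * √((n : ℝ) + 1) / ε ≤ 100 * (11 / 4) * √((n : ℝ) + 1) / ε := by gcongr
    _ = ε / 16 * (4400 * √((n : ℝ) + 1) / ε ^ 2) := by field_simp; norm_num
    _ ≤ ε / 16 * Len := by gcongr

/-- the final computation with real numbers -/
lemma final_real2 (hn : 3 ≤ n) (ε : ℝ) (hε0 : 0 < ε) (hε1 : ε ≤ 1) (h2 : 16 / ε ≤ n)
    (er γ : ℝ) (her0 : 0 ≤ er) (her : er ≤ ε / 16) (hγ0 : 0 ≤ γ) (hγ : γ ≤ 1 + ε / 16)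
    (A : ℝ) (hA : A = (1 / √(n * Real.exp 1)) * (kap n * (1 + er))) (v k Len ℓ : ℝ) (hv0 : 0 ≤ v)
    (hk0 : 0 ≤ k) (hlen : 4400 * √((n : ℝ) + 1) / ε ^ 2 ≤ Len) (hℓ : ℓ = 100 / ε / √((n : ℝ) + 1))
    (hreal : ℓ / 2 * v ≤ A * γ * (k * (ℓ + 2 * √(2 * Real.pi / (n + 1)))) +
      ℓ / 2 * (ℓ * (Real.exp 1 * (n + 1) / Len * v))) :
    v ≤ (1 + ε) * (2 * k * (kap n * Mn n)) := by
  have hn1 : 1 ≤ n := by omega
  have hn' : (3 : ℝ) ≤ n := by exact_mod_cast hn
  have hkap := kap_pos n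
  have hMn := Mn_pos hn1
  have hsN : 0 < √((n : ℝ) + 1) := Real.sqrt_pos.mpr (by positivity)
  have hℓ0 : 0 < ℓ := by rw [hℓ]; positivity
  have hδle := delta_le2 n ε Len hε0 hlen
  rw [← hℓ] at hδle
  set δ : ℝ := ℓ * (Real.exp 1 * (n + 1) / Len) with hδ
  -- divide by `ℓ / 2`
  have hv1 : v * (1 - δ) ≤ 2 * A * γ * k * (1 + 2 * √(2 * Real.pi / (n + 1)) / ℓ) := by
    have e1 : ℓ / 2 * (ℓ * (Real.exp 1 * (n + 1) / Len * v)) = ℓ / 2 * (δ * v) := by
      rw [hδ]; ring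
    have e2 : A * γ * (k * (ℓ + 2 * √(2 * Real.pi / (n + 1)))) =
        ℓ / 2 * (2 * A * γ * k * (1 + 2 * √(2 * Real.pi / (n + 1)) / ℓ)) := by
      field_simp
    rw [e1, e2, ← mul_add] at hreal
    have h3 := le_of_mul_le_mul_left hreal (by positivity)
    linarith
  have hwin : 2 * √(2 * Real.pi / (n + 1)) / ℓ ≤ ε / 16 := by
    rw [Real.sqrt_div (by positivity), hℓ]
    have e : 2 * (√(2 * Real.pi) / √((n : ℝ) + 1)) / (100 / ε / √((n : ℝ) + 1)) =
        ε * √(2 * Real.pi) / 50 := by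
      field_simp; norm_num
    rw [e]
    have := sqrt_two_pi_lt
    nlinarith
  have hfac : 2 * A * γ * k * (1 + 2 * √(2 * Real.pi / (n + 1)) / ℓ) ≤
      (2 * k * (kap n * Mn n)) * Real.exp (13 * ε / 64) := by
    have f1 : (1 + 2 * √(2 * Real.pi / (n + 1)) / ℓ) ≤ Real.exp (ε / 16) := by
      have := Real.add_one_le_exp (ε / 16); linarith
    have f2 : γ ≤ Real.exp (ε / 16) := by
      have := Real.add_one_le_exp (ε / 16); linarith
    have f3 : 1 + er ≤ Real.exp (ε / 16) := by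
      have := Real.add_one_le_exp (ε / 16)
      linarith
    have f4 : 1 / √(n * Real.exp 1) ≤ Mn n * Real.exp (ε / 64) := by
      refine (c0_le hn1).trans (mul_le_mul_of_nonneg_left (Real.exp_le_exp.mpr ?_) hMn.le)
      rw [div_le_iff₀ hε0] at h2
      rw [div_le_div_iff₀ (by positivity) (by norm_num)]
      linarith
    have e1 : 2 * A * γ * k * (1 + 2 * √(2 * Real.pi / (n + 1)) / ℓ) =
        2 * k * kap n * ((1 + 2 * √(2 * Real.pi / (n + 1)) / ℓ) * γ * (1 + er) *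
          (1 / √(n * Real.exp 1))) := by
      rw [hA]; ring
    have e2 : Real.exp (13 * ε / 64) =
        Real.exp (ε / 16) * Real.exp (ε / 16) * Real.exp (ε / 16) * Real.exp (ε / 64) := by
      rw [← Real.exp_add, ← Real.exp_add, ← Real.exp_add]; congr 1; ring
    rw [e1, e2]
    calc 2 * k * kap n * ((1 + 2 * √(2 * Real.pi / (n + 1)) / ℓ) * γ * (1 + er) *
          (1 / √(n * Real.exp 1)))
        ≤ 2 * k * kap n * (Real.exp (ε / 16) * Real.exp (ε / 16) * Real.exp (ε / 16) *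
          (Mn n * Real.exp (ε / 64))) := by
          gcongr
      _ = _ := by ring
  have hσ : 0 ≤ 2 * k * (kap n * Mn n) := by positivity
  set x : ℝ := 21 * ε / 64 with hx
  have hv2 : v ≤ (2 * k * (kap n * Mn n)) * Real.exp x := by
    have h3 : 1 ≤ (1 - δ) * Real.exp (ε / 8) := by
      have h4 := Real.add_one_le_exp (ε / 8)
      have h5 : 1 - ε / 16 ≤ 1 - δ := by linarith
      calc (1 : ℝ) ≤ (1 - ε / 16) * (ε / 8 + 1) := by nlinarith
        _ ≤ (1 - δ) * Real.exp (ε / 8) := by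
            apply mul_le_mul h5 h4 (by positivity) (by linarith)
    have h6 : Real.exp x = Real.exp (13 * ε / 64) * Real.exp (ε / 8) := by
      rw [← Real.exp_add]; congr 1; rw [hx]; ring
    have h7 := hv1.trans hfac
    calc v = v * 1 := (mul_one v).symm
      _ ≤ v * ((1 - δ) * Real.exp (ε / 8)) := mul_le_mul_of_nonneg_left h3 hv0
      _ = (v * (1 - δ)) * Real.exp (ε / 8) := by ring
      _ ≤ ((2 * k * (kap n * Mn n)) * Real.exp (13 * ε / 64)) * Real.exp (ε / 8) :=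
          mul_le_mul_of_nonneg_right h7 (Real.exp_pos _).le
      _ = _ := by rw [h6]; ring
  have hexp : Real.exp x ≤ 1 + ε := by
    have hx0 : 0 ≤ x := by positivity
    have hx1 : x < 1 := by rw [hx]; linarith
    have h3 := Real.exp_bound_div_one_sub_of_interval hx0 hx1
    refine h3.trans ?_
    rw [div_le_iff₀ (by linarith), hx]
    nlinarith
  calc v ≤ (2 * k * (kap n * Mn n)) * Real.exp x := hv2
    _ ≤ (2 * k * (kap n * Mn n)) * (1 + ε) := mul_le_mul_of_nonneg_left hexp hσ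
    _ = _ := by ring

end SC70
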