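import Pool.Agent.SC70.Wide

/-!
# Thin coverings: rays, version without logarithms
-/

set_option autoImplicit false

open MeasureTheory Measure Metric Set Module ENNReal
open scoped RealInnerProductSpace

namespace SC70

/-- the estimate on one ray, geometric form -/
lemma ray_sqrt (n : ℕ) (hn : 1 ≤ n) (p D r : ℝ) (hD : 0 ≤ D) (hr : 0 < r)
    (hT : 0 < D ^ 2 - (r - p) ^ 2) :
    r ^ n * √(D ^ 2 - (r - p) ^ 2) ≤
      (1 / √(n * Real.exp 1)) * ((p + D) ^ n * √((p + D) * D)) := by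
  set T := D ^ 2 - (r - p) ^ 2 with hTdef
  have hn' : (0 : ℝ) < n := by exact_mod_cast hn
  have hDpos : 0 < D := by
    rcases hD.lt_or_eq with h | h
    · exact h
    · exfalso; rw [hTdef, ← h] at hT; nlinarith [sq_nonneg (r - p)]
  have habs : |r - p| < D := by
    have : (r - p) ^ 2 < D ^ 2 := by linarith
    exact abs_lt_of_sq_lt_sq this hD
  have hrlt : r < p + D := by have := (abs_lt.mp habs).2; linarith
  set ρ := p + D with hρdef
  have hρ : 0 < ρ := by linarith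
  have hTle : T ≤ (ρ - r) * (2 * D) := by
    have : T = (ρ - r) * (r - (p - D)) := by rw [hTdef, hρdef]; ring
    rw [this]
    have h1 : 0 ≤ ρ - r := by linarith
    have h2 : r - (p - D) ≤ 2 * D := by linarith
    exact mul_le_mul_of_nonneg_left h2 h1
  have hρD : 0 < ρ * D := mul_pos hρ hDpos
  set x := n * T / (ρ * D) with hx
  have hxpos : 0 < x := by positivity
  have h1 : r ^ n ≤ ρ ^ n * Real.exp (-(x / 2)) := by
    have ha : r / ρ ≤ Real.exp (r / ρ - 1) := by
      have := Real.add_one_le_exp (r / ρ - 1); linarith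
    have hb : (r / ρ) ^ n ≤ (Real.exp (r / ρ - 1)) ^ n := pow_le_pow_left₀ (by positivity) ha n
    have hc : (Real.exp (r / ρ - 1)) ^ n ≤ Real.exp (-(x / 2)) := by
      rw [← Real.exp_nat_mul]
      apply Real.exp_le_exp.mpr
      have hd : x / 2 ≤ n * ((ρ - r) / ρ) := by
        rw [hx, div_div, div_le_iff₀ (by positivity)]
        have : (n : ℝ) * ((ρ - r) / ρ) * (ρ * D * 2) = n * ((ρ - r) * (2 * D)) := by
          field_simp
        rw [this]
        exact mul_le_mul_of_nonneg_left hTle hn'.le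
      have he : (n : ℝ) * ((ρ - r) / ρ) = -(n * (r / ρ - 1)) := by field_simp; ring
      linarith
    calc r ^ n = ρ ^ n * (r / ρ) ^ n := by rw [← mul_pow]; congr 1; field_simp
      _ ≤ ρ ^ n * Real.exp (-(x / 2)) := by
        exact mul_le_mul_of_nonneg_left (hb.trans hc) (by positivity)
  have h2 : √T = √(ρ * D / n) * √x := by
    rw [← Real.sqrt_mul (by positivity)]
    congr 1
    rw [hx]; field_simp
  have h3 : √(ρ * D / n) = √(ρ * D) / √n := Real.sqrt_div (by positivity) _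
  have h6 : 1 / √(n * Real.exp 1) = Real.exp (-(1 / 2)) / √n := by
    rw [Real.sqrt_mul hn'.le, show √(Real.exp 1) = Real.exp (1 / 2) by
      rw [← Real.exp_half]]
    rw [Real.exp_neg]; field_simp
  have hsn : 0 < √(n : ℝ) := Real.sqrt_pos.mpr hn'
  calc r ^ n * √T ≤ (ρ ^ n * Real.exp (-(x / 2))) * (√(ρ * D / n) * √x) := by
        rw [← h2]; exact mul_le_mul_of_nonneg_right h1 (Real.sqrt_nonneg _)
    _ = ρ ^ n * √(ρ * D) / √n * (√x * Real.exp (-(x / 2))) := by rw [h3]; ring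
    _ ≤ ρ ^ n * √(ρ * D) / √n * Real.exp (-(1 / 2)) := by
        apply mul_le_mul_of_nonneg_left (sqrt_mul_exp_le hxpos.le); positivity
    _ = (1 / √(n * Real.exp 1)) * (ρ ^ n * √(ρ * D)) := by rw [h6]; ring

/-- `(p - D)^n` is small compared with `(p + D)^n` -/
lemma inner_pow_le (n : ℕ) (p D : ℝ) (hD : 0 ≤ D) (hpD : D ≤ p) (hp : 0 < p) :
    (p - D) ^ n ≤ (p + D) ^ n * (1 / (1 + 2 * (n * D / (p + D)))) := by
  have hρ : 0 < p + D := by linarith
  set y : ℝ := n * D / (p + D) with hy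
  have hy0 : 0 ≤ y := by positivity
  have h1 : (p - D) / (p + D) ≤ Real.exp (-(2 * D / (p + D))) := by
    have := Real.add_one_le_exp (-(2 * D / (p + D)))
    have e : (p - D) / (p + D) = -(2 * D / (p + D)) + 1 := by field_simp; ring
    rw [e]; exact this
  have h2 : ((p - D) / (p + D)) ^ n ≤ Real.exp (-(2 * y)) := by
    calc ((p - D) / (p + D)) ^ n ≤ (Real.exp (-(2 * D / (p + D)))) ^ n :=
          pow_le_pow_left₀ (div_nonneg (by linarith) hρ.le) h1 n
      _ = Real.exp (-(2 * y)) := by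
          rw [← Real.exp_nat_mul]; congr 1; rw [hy]; field_simp
  have h3 : Real.exp (-(2 * y)) ≤ 1 / (1 + 2 * y) := by
    rw [Real.exp_neg, ← one_div]
    apply one_div_le_one_div_of_le (by linarith)
    have := Real.add_one_le_exp (2 * y)
    linarith
  calc (p - D) ^ n = (p + D) ^ n * ((p - D) / (p + D)) ^ n := by
        rw [← mul_pow]; congr 1; field_simp
    _ ≤ (p + D) ^ n * (1 / (1 + 2 * y)) :=
        mul_le_mul_of_nonneg_left (h2.trans h3) (by positivity)

/-- rays far from tangency -/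
lemma ray_case1 (n : ℕ) (hn : 1 ≤ n) (p D r a : ℝ) (hD : 0 < D) (hpD : D ≤ p) (hr : 0 < r)
    (hT : 0 < D ^ 2 - (r - p) ^ 2) (hξ : 1 / 2 ≤ (p + D) * D) (ha : (p + D) ^ 2 / n ≤ a)
    (ha1 : a ≤ 1 / 2) :
    r ^ n * √(D ^ 2 - (r - p) ^ 2) ≤ (1 / √(n * Real.exp 1)) * ((1 + 2 * a) *
      ((p + D) ^ n * (1 + (p + D) * D) / 2 - (p - D) ^ n * (1 - (p - D) * D) / 2)) := by
  have hp : 0 < p := by linarith
  have hn' : (0 : ℝ) < n := by exact_mod_cast hn
  refine (ray_bound n hn p D r hD.le hr hT).trans ?_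
  apply mul_le_mul_of_nonneg_left _ (by positivity)
  set ρ := p + D with hρ
  have hρ0 : 0 < ρ := by linarith
  set Ψ := ρ ^ n * (1 + ρ * D) / 2 with hΨ
  have hΨρ : ρ ^ n / 2 ≤ Ψ := by
    rw [hΨ]
    have : 0 ≤ ρ ^ n * (ρ * D) := by positivity
    linarith
  have hΨ0 : 0 < Ψ := lt_of_lt_of_le (by positivity) hΨρ
  have h1 : (p - D) ^ n * (1 - (p - D) * D) / 2 ≤ a * Ψ := by
    have h2 : (p - D) ^ n * (1 - (p - D) * D) / 2 ≤ (p - D) ^ n / 2 := by
      have h3 : 0 ≤ (p - D) ^ n := pow_nonneg (by linarith) n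
      have h4 : 0 ≤ (p - D) * D := mul_nonneg (by linarith) hD.le
      nlinarith
    have h5 := inner_pow_le n p D hD.le hpD hp
    rw [← hρ] at h5
    have h6 : 1 / (1 + 2 * (n * D / ρ)) ≤ a := by
      have h7 : 1 / (1 + 2 * (n * D / ρ)) ≤ ρ ^ 2 / n := by
        rw [div_le_div_iff₀ (by positivity) hn']
        have h8 : ρ ^ 2 * (1 + 2 * (n * D / ρ)) = ρ ^ 2 + 2 * (n * (ρ * D)) := by field_simp
        rw [h8]
        nlinarith [sq_nonneg ρ]
      exact h7.trans ha
    have h9 : (p - D) ^ n ≤ ρ ^ n * a :=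
      h5.trans (mul_le_mul_of_nonneg_left h6 (by positivity))
    have ha0 : 0 ≤ a := le_trans (by positivity) ha
    calc (p - D) ^ n * (1 - (p - D) * D) / 2 ≤ (p - D) ^ n / 2 := h2
      _ ≤ ρ ^ n * a / 2 := by linarith
      _ = a * (ρ ^ n / 2) := by ring
      _ ≤ a * Ψ := mul_le_mul_of_nonneg_left hΨρ ha0
  have ha0 : 0 ≤ a := le_trans (by positivity) ha
  nlinarith [mul_nonneg ha0 hΨ0.le]

/-- rays close to tangency -/
lemma ray_case2 (n : ℕ) (hn : 1 ≤ n) (p D r : ℝ) (hD : 0 < D) (hpD : D ≤ p) (hr : 0 < r)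
    (hT : 0 < D ^ 2 - (r - p) ^ 2) (hξ : (p + D) * D ≤ 1 / 2) (hρn : (p + D) ^ 2 ≤ n / 4) :
    r ^ n * √(D ^ 2 - (r - p) ^ 2) ≤ (1 / √(n * Real.exp 1)) *
      (2 * ((p + D) ^ n - (p - D) ^ n)) := by
  have hp : 0 < p := by linarith
  have hn' : (0 : ℝ) < n := by exact_mod_cast hn
  have hrlt : r ≤ p + D := by
    have : (r - p) ^ 2 < D ^ 2 := by linarith
    have := (abs_lt.mp (abs_lt_of_sq_lt_sq this hD.le)).2
    linarith
  set ρ := p + D with hρ
  have hρ0 : 0 < ρ := by linarith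
  have h5 := inner_pow_le n p D hD.le hpD hp
  rw [← hρ] at h5
  set y : ℝ := n * D / ρ with hy
  have hy0 : 0 < y := by positivity
  have h6 : ρ ^ n * (2 * y / (1 + 2 * y)) ≤ ρ ^ n - (p - D) ^ n := by
    have e : ρ ^ n * (2 * y / (1 + 2 * y)) = ρ ^ n - ρ ^ n * (1 / (1 + 2 * y)) := by
      field_simp; ring
    rw [e]; linarith
  have hc0 : 0 < 1 / √(n * Real.exp 1) := by positivity
  have hρn0 : 0 < ρ ^ n := by positivity
  rcases le_total 1 y with hy1 | hy1
  · refine (ray_sqrt n hn p D r hD.le hr hT).trans ?_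
    apply mul_le_mul_of_nonneg_left _ hc0.le
    rw [← hρ]
    have h7 : √(ρ * D) ≤ 1 := Real.sqrt_le_iff.mpr ⟨zero_le_one, by linarith⟩
    have h8 : (1 : ℝ) ≤ 2 * (2 * y / (1 + 2 * y)) := by
      rw [mul_div_assoc', le_div_iff₀ (by positivity)]; linarith
    calc ρ ^ n * √(ρ * D) ≤ ρ ^ n * 1 := mul_le_mul_of_nonneg_left h7 hρn0.le
      _ ≤ ρ ^ n * (2 * (2 * y / (1 + 2 * y))) := mul_le_mul_of_nonneg_left h8 hρn0.le
      _ = 2 * (ρ ^ n * (2 * y / (1 + 2 * y))) := by ring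
      _ ≤ 2 * (ρ ^ n - (p - D) ^ n) := by linarith
  · have h7 : r ^ n * √(D ^ 2 - (r - p) ^ 2) ≤ ρ ^ n * D := by
      apply mul_le_mul (pow_le_pow_left₀ hr.le hrlt n) _ (Real.sqrt_nonneg _) hρn0.le
      rw [Real.sqrt_le_left hD.le]
      nlinarith [sq_nonneg (r - p)]
    refine h7.trans ?_
    -- `D ≤ c0 * (4 / 3) * n * D / ρ`
    have h8 : 2 * y / 3 ≤ 2 * y / (1 + 2 * y) := by
      apply div_le_div_of_nonneg_left (by positivity) (by positivity) (by linarith)
    have h9 : D ≤ (1 / √(n * Real.exp 1)) * (2 * (2 * y / 3)) := by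
      have h10 : √(n * Real.exp 1) ≤ √(n * (2.8 : ℝ)) := by
        apply Real.sqrt_le_sqrt
        have := Real.exp_one_lt_d9
        nlinarith
      have h11 : √(n * Real.exp 1) * ρ ≤ n * (4 / 3) := by
        have h12 : (√(n * Real.exp 1) * ρ) ^ 2 ≤ (n * (4 / 3)) ^ 2 := by
          rw [mul_pow, Real.sq_sqrt (by positivity)]
          have := Real.exp_one_lt_d9
          have h13 : (n : ℝ) * Real.exp 1 ≤ n * 2.8 := by nlinarith
          calc (n : ℝ) * Real.exp 1 * ρ ^ 2 ≤ (n * 2.8) * (n / 4) :=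
                mul_le_mul h13 hρn (by positivity) (by positivity)
            _ ≤ (n * (4 / 3)) ^ 2 := by nlinarith [mul_pos hn' hn']
        exact abs_le_of_sq_le_sq' h12 (by positivity) |>.2
      have e : (1 / √(n * Real.exp 1)) * (2 * (2 * y / 3)) =
          D * (n * (4 / 3)) / (√(n * Real.exp 1) * ρ) := by
        rw [hy]; field_simp; ring
      rw [e, le_div_iff₀ (by positivity)]
      exact mul_le_mul_of_nonneg_left h11 hD.le
    calc ρ ^ n * D ≤ ρ ^ n * ((1 / √(n * Real.exp 1)) * (2 * (2 * y / 3))) :=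
          mul_le_mul_of_nonneg_left h9 hρn0.le
      _ ≤ ρ ^ n * ((1 / √(n * Real.exp 1)) * (2 * (2 * y / (1 + 2 * y)))) := by
          gcongr
      _ = (1 / √(n * Real.exp 1)) * (2 * (ρ ^ n * (2 * y / (1 + 2 * y)))) := by ring
      _ ≤ _ := by
          apply mul_le_mul_of_nonneg_left _ hc0.le
          linarith

end SC70
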