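import Pool.Agent.SC70.WMain

/-!
# Thin coverings: bodies which nearly contain a translate of themselves
-/

set_option autoImplicit false

open MeasureTheory Measure Metric Set Module ENNReal
open scoped RealInnerProductSpace Pointwise

namespace SC70

variable {n q : ℕ}

/-- Averaging over windows, without error term. -/
theorem win_bound2 {R'' A : ℝ} (hA0 : 0 ≤ A) (hW : WBound n R'' A)
    (J : EuclideanSpace ℝ (Fin q) →ₗᵢ[ℝ] EuclideanSpace ℝ (Fin n)) (R' : ℝ) (hR' : 0 < R')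
    (ι : Type) (S : Finset ι) (τ : ι → ℝ) (w : ι → EuclideanSpace ℝ (Fin n))
    (C : Set (ℝ × EuclideanSpace ℝ (Fin n))) (hCm : MeasurableSet C) (hconv : Convex ℝ C)
    (hthin : ∀ z ∈ C, ∀ z' ∈ C, ‖adjP J (z.2 - z'.2)‖ ≤ 2 * R' → ‖z.2 - z'.2‖ ≤ R'')
    (hcov : ∀ z ∈ C, ∃ i ∈ S, (z.1 - τ i) ^ 2 + ‖z.2 - w i‖ ^ 2 ≤ 1) (ℓ : ℝ) (hℓ : 0 < ℓ) :
    ENNReal.ofReal (ℓ / 2) * volume {p : ℝ × EuclideanSpace ℝ (Fin n) |
        (p.1, p.2) ∈ C ∧ (p.1 + ℓ, p.2) ∈ C} ≤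
      ENNReal.ofReal (A * gam (n + 1) q R') *
        (S.card * ENNReal.ofReal (ℓ + 2 * √(2 * Real.pi / (n + 1)))) := by
  classical
  have hN0 : (0 : ℝ) < (n : ℝ) + 1 := by positivity
  set Kt : ℝ → Set (EuclideanSpace ℝ (Fin n)) := fun t => {y | (t, y) ∈ C ∧ (t + ℓ, y) ∈ C}
    with hKt
  have hKm : ∀ t, MeasurableSet (Kt t) := by
    intro t
    have h1 : Measurable (fun y : EuclideanSpace ℝ (Fin n) => (t, y)) := measurable_prodMk_left
    have h2 : Measurable (fun y : EuclideanSpace ℝ (Fin n) => (t + ℓ, y)) := measurable_prodMk_left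
    exact (h1 hCm).inter (h2 hCm)
  -- one window
  have hone : ∀ t, ENNReal.ofReal (ℓ / 2) * volume (Kt t) ≤
      ENNReal.ofReal (A * gam (n + 1) q R') *
        ∑ i ∈ S, ENNReal.ofReal (Real.exp (-((n + 1) * xw ℓ (τ i) t / 2))) := by
    intro t
    have hthin' : ∀ y ∈ Kt t, ∀ y' ∈ Kt t, ‖adjP J (y - y')‖ ≤ 2 * R' → ‖y - y'‖ ≤ R'' := by
      intro y hy y' hy' hyy
      exact hthin (t, y) hy.1 (t, y') hy'.1 hyy
    have hsum : ∀ y ∈ Kt t, ℓ / 2 ≤ ∑ i ∈ S, √(1 - xw ℓ (τ i) t - ‖y - w i‖ ^ 2) := by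
      intro y hy
      have hch : ∀ s ∈ Ioo t (t + ℓ), ∃ i ∈ S,
          (s - clampw ℓ (τ i) t) ^ 2 ≤ 1 - xw ℓ (τ i) t - ‖y - w i‖ ^ 2 := by
        intro s hs
        have hmem : (s, y) ∈ C := by
          have hseg := hconv.segment_subset hy.1 hy.2
          apply hseg
          refine ⟨1 - (s - t) / ℓ, (s - t) / ℓ, ?_, ?_, by ring, ?_⟩
          · rw [sub_nonneg, div_le_one hℓ]; linarith [hs.2]
          · exact div_nonneg (by linarith [hs.1]) hℓ.le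
          · ext
            · simp only [Prod.fst_add, Prod.smul_fst, smul_eq_mul]
              field_simp; ring
            · simp [← add_smul]
        obtain ⟨i, hi, h2⟩ := hcov _ hmem
        refine ⟨i, hi, ?_⟩
        have h3 := clamp_spec ℓ (τ i) t s hs
        simp only at h2
        linarith
      exact interval_le_chords S (fun i => clampw ℓ (τ i) t)
        (fun i => 1 - xw ℓ (τ i) t - ‖y - w i‖ ^ 2) t ℓ hch
    exact avg_bound hA0 hW J R' hR' ι S w (fun i => xw ℓ (τ i) t) (Kt t) (hKm t)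
      (fun i => xw_nonneg _ _ _) hthin' (ℓ / 2) (by linarith) hsum
  -- Tonelli
  set 𝒦 : Set (ℝ × EuclideanSpace ℝ (Fin n)) := {p | (p.1, p.2) ∈ C ∧ (p.1 + ℓ, p.2) ∈ C}
    with h𝒦
  have h𝒦m : MeasurableSet 𝒦 := by
    have h1 : Measurable (fun p : ℝ × EuclideanSpace ℝ (Fin n) => (p.1, p.2)) := by fun_prop
    have h2 : Measurable (fun p : ℝ × EuclideanSpace ℝ (Fin n) => (p.1 + ℓ, p.2)) := by fun_prop
    exact (h1 hCm).inter (h2 hCm)
  have e1 : volume 𝒦 = ∫⁻ t, volume (Kt t) := by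
    rw [Measure.volume_eq_prod, Measure.prod_apply h𝒦m]; rfl
  have hKtm : Measurable (fun t => volume (Kt t)) := measurable_measure_prodMk_left h𝒦m
  have hgm : ∀ i, Measurable (fun t => ENNReal.ofReal (Real.exp (-((n + 1) * xw ℓ (τ i) t / 2)))) := by
    intro i
    have h1 := xw_cont ℓ (τ i)
    have : Continuous (fun t => Real.exp (-(((n : ℝ) + 1) * xw ℓ (τ i) t / 2))) := by fun_prop
    exact this.measurable.ennreal_ofReal
  rw [e1]
  calc ENNReal.ofReal (ℓ / 2) * ∫⁻ t, volume (Kt t)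
      = ∫⁻ t, ENNReal.ofReal (ℓ / 2) * volume (Kt t) := by
        rw [lintegral_const_mul _ hKtm]
    _ ≤ ∫⁻ t, ENNReal.ofReal (A * gam (n + 1) q R') *
        ∑ i ∈ S, ENNReal.ofReal (Real.exp (-((n + 1) * xw ℓ (τ i) t / 2))) :=
        lintegral_mono hone
    _ = ENNReal.ofReal (A * gam (n + 1) q R') *
        ∑ i ∈ S, (∫⁻ t, ENNReal.ofReal (Real.exp (-((n + 1) * xw ℓ (τ i) t / 2)))) := by
        rw [lintegral_const_mul _ (Finset.measurable_fun_sum S fun i _ => hgm i),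
          lintegral_finsetSum _ fun i _ => hgm i]
    _ ≤ _ := by
        apply mul_le_mul' le_rfl
        calc ∑ i ∈ S, (∫⁻ t, ENNReal.ofReal (Real.exp (-((n + 1) * xw ℓ (τ i) t / 2))))
            ≤ ∑ _i ∈ S, ENNReal.ofReal (ℓ + 2 * √(2 * Real.pi / (n + 1))) :=
              Finset.sum_le_sum fun i _ => xw_gauss _ ℓ (τ i) hN0 hℓ
          _ = _ := by rw [Finset.sum_const, nsmul_eq_mul]

/-- Bodies close to a flat, version with a translate. -/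
theorem wgeo2 {R'' A : ℝ} (hA0 : 0 ≤ A) (hW : WBound n R'' A) (R' ρ : ℝ)
    (hR' : 0 < R') (hρ : 0 ≤ ρ) (hR'' : 2 * R' + ρ ≤ R'') (m : ℕ)
    (V : Submodule ℝ (EuclideanSpace ℝ (Fin (n + 1)))) (hV : finrank ℝ V ≤ m)
    (C : Set (EuclideanSpace ℝ (Fin (n + 1)))) (hconv : Convex ℝ C)
    (hCc : IsCompact C) (hthin : ∀ x ∈ C, ∀ y ∈ C, ∃ v ∈ V, ‖x - y - v‖ ≤ ρ)
    (e : EuclideanSpace ℝ (Fin (n + 1))) (he : ‖e‖ = 1)
    (X : Finset (EuclideanSpace ℝ (Fin (n + 1)))) (hcov : C ⊆ ⋃ x ∈ X, closedBall x 1)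
    (ℓ : ℝ) (hℓ : 0 < ℓ) :
    ENNReal.ofReal (ℓ / 2) * volume {x | x ∈ C ∧ x + ℓ • e ∈ C} ≤
      ENNReal.ofReal (A * gam (n + 1) m R') *
        (X.card * ENNReal.ofReal (ℓ + 2 * √(2 * Real.pi / (n + 1)))) := by
  obtain ⟨L, hL, hmp, hsurj⟩ := exists_frame e he
  set χ : ℝ × EuclideanSpace ℝ (Fin n) → EuclideanSpace ℝ (Fin (n + 1)) :=
    fun z => z.1 • e + L z.2 with hχ
  have hLc : Continuous L := L.continuous
  have hχc : Continuous χ := by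
    simp only [hχ]
    fun_prop
  have hdist : ∀ z z', ‖χ z - χ z'‖ ^ 2 = (z.1 - z'.1) ^ 2 + ‖z.2 - z'.2‖ ^ 2 := by
    intro z z'
    rw [← frame_norm he L hL]
    congr 2
    simp only [hχ, sub_smul, map_sub]
    abel
  have hχsurj : ∀ x, ∃ z, χ z = x := hsurj
  choose ζ hζ using hχsurj
  set C1 : Set (ℝ × EuclideanSpace ℝ (Fin n)) := χ ⁻¹' C with hC1
  have hC1m : MeasurableSet C1 := hχc.measurable hCc.measurableSet
  have hC1conv : Convex ℝ C1 := by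
    intro z hz z' hz' α β hα hβ hαβ
    have h1 := hconv hz hz' hα hβ hαβ
    have h2 : χ (α • z + β • z') = α • χ z + β • χ z' := by
      simp only [hχ, Prod.fst_add, Prod.smul_fst, Prod.snd_add, Prod.smul_snd, smul_eq_mul,
        map_add, map_smul, add_smul, mul_smul, smul_add]
      abel
    rw [hC1, mem_preimage, h2]
    exact h1
  -- the set of starting points of windows
  have hshift : Continuous (fun x : EuclideanSpace ℝ (Fin (n + 1)) => x + ℓ • e) := by fun_prop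
  have hKm : MeasurableSet {x | x ∈ C ∧ x + ℓ • e ∈ C} :=
    hCc.measurableSet.inter (hshift.measurable hCc.measurableSet)
  have hvol : volume {p : ℝ × EuclideanSpace ℝ (Fin n) | (p.1, p.2) ∈ C1 ∧ (p.1 + ℓ, p.2) ∈ C1} =
      volume {x | x ∈ C ∧ x + ℓ • e ∈ C} := by
    rw [← hmp.measure_preimage hKm.nullMeasurableSet]
    congr 1
    ext p
    simp only [Set.mem_ofPred_eq, mem_preimage, hC1, hχ, add_smul]
    have e1 : p.1 • e + ℓ • e + L p.2 = p.1 • e + L p.2 + ℓ • e := by abel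
    rw [e1]
  -- the subspace
  set U : Submodule ℝ (EuclideanSpace ℝ (Fin n)) :=
    V.map ((adjP L : EuclideanSpace ℝ (Fin (n + 1)) →L[ℝ] EuclideanSpace ℝ (Fin n)) :
      EuclideanSpace ℝ (Fin (n + 1)) →ₗ[ℝ] EuclideanSpace ℝ (Fin n)) with hU
  have hUm : finrank ℝ U ≤ m := (Submodule.finrank_map_le _ V).trans hV
  obtain ⟨J, hJ⟩ := exists_embedding U
  have hadj : ∀ z z', adjP L (χ z - χ z') = z.2 - z'.2 := by
    intro z z'
    have e1 : χ z - χ z' = (z.1 - z'.1) • e + L (z.2 - z'.2) := by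
      simp only [hχ, sub_smul, map_sub]; abel
    rw [e1, map_add, map_smul, adjP_J]
    have e2 : adjP L e = 0 := by
      apply ext_inner_right ℝ
      intro v
      rw [adjP_inner, hL, inner_zero_left]
    rw [e2, smul_zero, zero_add]
  have hthin1 : ∀ z ∈ C1, ∀ z' ∈ C1, ‖adjP J (z.2 - z'.2)‖ ≤ 2 * R' → ‖z.2 - z'.2‖ ≤ R'' := by
    intro z hz z' hz' hP
    obtain ⟨v, hv, hv'⟩ := hthin (χ z) hz (χ z') hz'
    have hu : adjP L v ∈ U := Submodule.mem_map_of_mem hv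
    obtain ⟨u0, hu0⟩ := hJ _ hu
    have h2 : ‖(z.2 - z'.2) - J u0‖ ≤ ρ := by
      rw [hu0, ← hadj z z', ← map_sub]
      exact (adjP_norm_le L _).trans hv'
    have h3 := (adjP_dist J (z.2 - z'.2) u0).trans h2
    have h4 := adjP_pyth J (z.2 - z'.2)
    have h5 : ‖z.2 - z'.2‖ ^ 2 ≤ (2 * R' + ρ) ^ 2 := by
      rw [h4]
      have h6 : ‖adjP J (z.2 - z'.2)‖ ^ 2 ≤ (2 * R') ^ 2 := pow_le_pow_left₀ (norm_nonneg _) hP 2
      have h7 : ‖(z.2 - z'.2) - J (adjP J (z.2 - z'.2))‖ ^ 2 ≤ ρ ^ 2 :=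
        pow_le_pow_left₀ (norm_nonneg _) h3 2
      nlinarith [mul_nonneg hR'.le hρ]
    exact (abs_le_of_sq_le_sq' h5 (by positivity) |>.2).trans hR''
  have hcov1 : ∀ z ∈ C1, ∃ x ∈ X, (z.1 - (ζ x).1) ^ 2 + ‖z.2 - (ζ x).2‖ ^ 2 ≤ 1 := by
    intro z hz
    have h2 := hcov hz
    simp only [mem_iUnion] at h2
    obtain ⟨x, hx, h3⟩ := h2
    refine ⟨x, hx, ?_⟩
    rw [mem_closedBall, dist_eq_norm] at h3
    rw [← hdist, hζ]
    nlinarith [norm_nonneg (χ z - x)]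
  have hmain := win_bound2 hA0 hW J R' hR' (EuclideanSpace ℝ (Fin (n + 1))) X
    (fun x => (ζ x).1) (fun x => (ζ x).2) C1 hC1m hC1conv hthin1 hcov1 ℓ hℓ
  rw [hvol] at hmain
  refine hmain.trans ?_
  apply mul_le_mul' _ le_rfl
  apply ENNReal.ofReal_le_ofReal
  exact mul_le_mul_of_nonneg_left (gam_mono _ _ (by positivity) hR' hUm) hA0

theorem wmain_bound2 {n : ℕ} (hn : 3 ≤ n) (ε : ℝ) (hε0 : 0 < ε) (hε1 : ε ≤ 1) (h2 : 2500 / ε ≤ n)
    (m : ℕ) (hm : (m : ℝ) ≤ ε ^ 2 / 20000 * n) (ρ : ℝ) (hρ : 0 ≤ ρ) (hρ2 : ρ ≤ √(ε * n) / 100)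
    (V : Submodule ℝ (EuclideanSpace ℝ (Fin (n + 1)))) (hV : finrank ℝ V ≤ m)
    (C : Set (EuclideanSpace ℝ (Fin (n + 1)))) (hconv : Convex ℝ C)
    (hCc : IsCompact C) (hthin : ∀ x ∈ C, ∀ y ∈ C, ∃ v ∈ V, ‖x - y - v‖ ≤ ρ)
    (u : EuclideanSpace ℝ (Fin (n + 1))) (hu : 100 / ε / √((n : ℝ) + 1) ≤ ‖u‖)
    (hshift : volume (C \ (u +ᵥ C)) ≤ ENNReal.ofReal (ε / 20) * volume C)
    (X : Finset (EuclideanSpace ℝ (Fin (n + 1)))) (hcov : C ⊆ ⋃ x ∈ X, closedBall x 1) :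
    volume C ≤ ENNReal.ofReal ((1 + ε) * (2 * X.card * (kap n * Mn n))) := by
  have hn1 : 1 ≤ n := by omega
  have hn' : (3 : ℝ) ≤ n := by exact_mod_cast hn
  have hn0 : (0 : ℝ) < n := by linarith
  have hkap := kap_pos n
  have hMn := Mn_pos hn1
  have hsN : 0 < √((n : ℝ) + 1) := Real.sqrt_pos.mpr (by positivity)
  have hs : 0 < √(ε * n) := Real.sqrt_pos.mpr (by positivity)
  have hs2 : √(ε * n) ^ 2 = ε * n := Real.sq_sqrt (by positivity)
  have hεn : 2500 ≤ ε * n := by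
    rw [div_le_iff₀ hε0] at h2
    linarith
  have hs50 : 50 ≤ √(ε * n) := by
    apply Real.le_sqrt_of_sq_le
    norm_num
    exact hεn
  have hγ := gam_le hn ε hε0 hε1 m hm
  have h16 : 16 / ε ≤ n := by
    refine le_trans ?_ h2
    gcongr
    norm_num
  -- the radii
  obtain ⟨s, hsdef⟩ : ∃ s : ℝ, s = √(ε * n) := ⟨_, rfl⟩
  rw [← hsdef] at hs hs2 hs50 hγ hρ2
  have hR1 : 1 ≤ s / 50 := by linarith
  have hRn : 64 * (s / 50) ^ 2 ≤ n := by
    rw [div_pow, hs2]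
    nlinarith
  have hcore := wcore hn (s / 50) hR1 hRn
  obtain ⟨er, herdef⟩ : ∃ er : ℝ, er = 100 * (s / 50) ^ 2 / n := ⟨_, rfl⟩
  rw [← herdef] at hcore
  have her0 : 0 ≤ er := by rw [herdef]; positivity
  have her : er ≤ ε / 16 := by
    rw [herdef, div_pow, hs2]
    have e : 100 * (ε * (n : ℝ) / 50 ^ 2) / n = ε / 25 := by field_simp; norm_num
    rw [e]
    linarith
  obtain ⟨A, hA⟩ : ∃ A : ℝ, A = (1 / √(n * Real.exp 1)) * (kap n * (1 + er)) := ⟨_, rfl⟩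
  rw [← hA] at hcore
  have hA0 : 0 ≤ A := by rw [hA]; positivity
  obtain ⟨ℓ, hℓdef⟩ : ∃ ℓ : ℝ, ℓ = 100 / ε / √((n : ℝ) + 1) := ⟨_, rfl⟩
  have hℓ0 : 0 < ℓ := by rw [hℓdef]; positivity
  rw [← hℓdef] at hu
  have hu0 : 0 < ‖u‖ := lt_of_lt_of_le hℓ0 hu
  -- the unit vector
  obtain ⟨e, hedef⟩ : ∃ e : EuclideanSpace ℝ (Fin (n + 1)), e = -((1 / ‖u‖) • u) := ⟨_, rfl⟩
  have he : ‖e‖ = 1 := by
    rw [hedef, norm_neg, norm_smul, Real.norm_of_nonneg (by positivity)]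
    field_simp
  have hue : ‖u‖ • e = -u := by
    rw [hedef, smul_neg, smul_smul]
    have : ‖u‖ * (1 / ‖u‖) = 1 := by field_simp
    rw [this, one_smul]
  have hR'0 : 0 < s / 200 := by linarith
  have hmain := wgeo2 hA0 hcore (s / 200) ρ hR'0 hρ (by linarith) m V hV C hconv hCc hthin
    e he X hcov ℓ hℓ0
  have hγ0 : 0 ≤ gam (n + 1) m (s / 200) := by unfold gam; positivity
  obtain ⟨γ, hγdef⟩ : ∃ γ : ℝ, γ = gam (n + 1) m (s / 200) := ⟨_, rfl⟩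
  rw [← hγdef] at hmain hγ hγ0
  have hsub : C ⊆ {x | x ∈ C ∧ x + ℓ • e ∈ C} ∪ (C \ (u +ᵥ C)) := by
    intro x hx
    by_cases hxu : x ∈ u +ᵥ C
    · left
      refine ⟨hx, ?_⟩
      obtain ⟨y, hy, hyx⟩ := hxu
      have hyx' : u + y = x := hyx
      have hseg := hconv.segment_subset hx hy
      apply hseg
      refine ⟨1 - ℓ / ‖u‖, ℓ / ‖u‖, ?_, by positivity, by ring, ?_⟩
      · rw [sub_nonneg, div_le_one hu0]; exact hu
      · have e1 : y = x + ‖u‖ • e := by rw [hue, ← hyx']; abel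
        rw [e1, smul_add, ← add_assoc, ← add_smul, smul_smul]
        have e2 : 1 - ℓ / ‖u‖ + ℓ / ‖u‖ = 1 := by ring
        have e3 : ℓ / ‖u‖ * ‖u‖ = ℓ := by field_simp
        rw [e2, e3, one_smul]
    · exact Or.inr ⟨hx, hxu⟩
  have hadd : volume C ≤ volume {x | x ∈ C ∧ x + ℓ • e ∈ C} +
      ENNReal.ofReal (ε / 20) * volume C := by
    calc volume C ≤ volume ({x | x ∈ C ∧ x + ℓ • e ∈ C} ∪ (C \ (u +ᵥ C))) := measure_mono hsub
      _ ≤ volume {x | x ∈ C ∧ x + ℓ • e ∈ C} + volume (C \ (u +ᵥ C)) := measure_union_le _ _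
      _ ≤ _ := add_le_add le_rfl hshift
  have hmain2 : ENNReal.ofReal (ℓ / 2) * volume C ≤
      ENNReal.ofReal (A * γ) *
        (X.card * ENNReal.ofReal (ℓ + 2 * √(2 * Real.pi / (n + 1)))) +
      ENNReal.ofReal (ℓ / 2) * (ENNReal.ofReal (ε / 20) * volume C) := by
    calc ENNReal.ofReal (ℓ / 2) * volume C
        ≤ ENNReal.ofReal (ℓ / 2) * (volume {x | x ∈ C ∧ x + ℓ • e ∈ C} +
          ENNReal.ofReal (ε / 20) * volume C) := mul_le_mul' le_rfl hadd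
      _ = ENNReal.ofReal (ℓ / 2) * volume {x | x ∈ C ∧ x + ℓ • e ∈ C} +
          ENNReal.ofReal (ℓ / 2) * (ENNReal.ofReal (ε / 20) * volume C) := by rw [mul_add]
      _ ≤ _ := add_le_add hmain le_rfl
  have hfin : volume C ≠ ⊤ := hCc.measure_lt_top.ne
  obtain ⟨v, hv⟩ : ∃ v : ℝ, v = (volume C).toReal := ⟨_, rfl⟩
  have hv0 : 0 ≤ v := by rw [hv]; exact ENNReal.toReal_nonneg
  have hvv : volume C = ENNReal.ofReal v := by rw [hv, ENNReal.ofReal_toReal hfin]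
  obtain ⟨k, hk⟩ : ∃ k : ℝ, k = (X.card : ℝ) := ⟨_, rfl⟩
  have hk0 : 0 ≤ k := by rw [hk]; exact Nat.cast_nonneg _
  have hXk : (X.card : ℝ≥0∞) = ENNReal.ofReal k := by rw [hk, ENNReal.ofReal_natCast]
  rw [hvv, ← hk]
  apply ENNReal.ofReal_le_ofReal
  obtain ⟨τ, hτ⟩ : ∃ τ : ℝ, τ = 2 * √(2 * Real.pi / (n + 1)) := ⟨_, rfl⟩
  have hτ0 : 0 ≤ τ := by rw [hτ]; positivity
  have hreal : ℓ / 2 * v ≤ A * γ * (k * (ℓ + τ)) + ℓ / 2 * (ε / 20 * v) := by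
    rw [hvv, hXk, ← hτ] at hmain2
    have hl2 : 0 ≤ ℓ / 2 := by linarith
    have hlt : 0 ≤ ℓ + τ := by linarith
    have hAγ : 0 ≤ A * γ := mul_nonneg hA0 hγ0
    have hε20 : 0 ≤ ε / 20 := by linarith
    have hβv : 0 ≤ ε / 20 * v := mul_nonneg hε20 hv0
    have p1 : 0 ≤ A * γ * (k * (ℓ + τ)) := mul_nonneg hAγ (mul_nonneg hk0 hlt)
    have p2 : 0 ≤ ℓ / 2 * (ε / 20 * v) := mul_nonneg hl2 hβv
    rw [← ENNReal.ofReal_mul hl2, ← ENNReal.ofReal_mul hk0, ← ENNReal.ofReal_mul hAγ,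
      ← ENNReal.ofReal_mul hε20, ← ENNReal.ofReal_mul hl2,
      ← ENNReal.ofReal_add p1 p2] at hmain2
    exact (ENNReal.ofReal_le_ofReal_iff (add_nonneg p1 p2)).mp hmain2
  -- compare with the case of a long body
  obtain ⟨Len, hLendef⟩ : ∃ Len : ℝ, Len = 4400 * √((n : ℝ) + 1) / ε ^ 2 := ⟨_, rfl⟩
  have hLen0 : 0 < Len := by rw [hLendef]; positivity
  have hcmp : ε / 20 * v ≤ ℓ * (Real.exp 1 * (n + 1) / Len * v) := by
    rw [← mul_assoc]
    apply mul_le_mul_of_nonneg_right _ hv0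
    have hsN2 : √((n : ℝ) + 1) * √((n : ℝ) + 1) = n + 1 := Real.mul_self_sqrt (by positivity)
    have h3 : ℓ * (Real.exp 1 * (n + 1) / Len) = ε * Real.exp 1 / 44 := by
      have e0 : Real.exp 1 * ((n : ℝ) + 1) =
          Real.exp 1 * (√((n : ℝ) + 1) * √((n : ℝ) + 1)) := by rw [hsN2]
      rw [hℓdef, hLendef, e0]
      field_simp
      norm_num
    rw [h3]
    have h4 : (27 : ℝ) / 10 ≤ Real.exp 1 := by
      have := Real.exp_one_gt_d9; linarith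
    nlinarith
  have hl2 : 0 ≤ ℓ / 2 := by linarith
  have hreal2 : ℓ / 2 * v ≤ A * γ * (k * (ℓ + 2 * √(2 * Real.pi / (n + 1)))) +
      ℓ / 2 * (ℓ * (Real.exp 1 * (n + 1) / Len * v)) := by
    rw [← hτ]
    have h5 := mul_le_mul_of_nonneg_left hcmp hl2
    linarith
  exact final_real2 hn ε hε0 hε1 h16 er γ her0 her hγ0 hγ A hA v k Len ℓ hv0 hk0 hLendef.ge
    hℓdef hreal2

end SC70
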