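import Pool.Agent.SC70.WMaj

/-!
# Thin coverings: the majorant, version without logarithms
-/

set_option autoImplicit false

open MeasureTheory Measure Metric Set Module ENNReal
open scoped RealInnerProductSpace

namespace SC70

variable {n : ℕ}

/-- the majorant of the unit ball with centre `w` -/
noncomputable def vW (n : ℕ) (b : ℝ) (w x : EuclideanSpace ℝ (Fin n)) : ℝ≥0∞ :=
  ENNReal.ofReal b * (closedBall w 1).indicator (fun x => ENNReal.ofReal (Fw n w x)) x +
    2 * (capS w).indicator (fun _ => (1 : ℝ≥0∞)) x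

lemma vW_meas (b : ℝ) (w : EuclideanSpace ℝ (Fin n)) : Measurable (vW n b w) := by
  unfold vW
  exact ((((Fw_continuous n w).measurable.ennreal_ofReal).indicator
    measurableSet_closedBall).const_mul _).add
    ((measurable_const.indicator (capS_meas w)).const_mul _)

lemma lintegral_vW_le (hn : 3 ≤ n) (R : ℝ) (hR1 : 1 ≤ R) (hRn : 16 * R ^ 2 ≤ n)
    (w : EuclideanSpace ℝ (Fin n)) (hw : ‖w‖ ≤ R) :
    ∫⁻ x, vW n (1 + 8 * R ^ 2 / n) w x ≤ ENNReal.ofReal (kap n * (1 + 25 * R ^ 2 / n)) := by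
  have hn1 : 1 ≤ n := by omega
  have hn' : (3 : ℝ) ≤ n := by exact_mod_cast hn
  have hkap := kap_nonneg n
  have hw2 : ‖w‖ ^ 2 ≤ R ^ 2 := pow_le_pow_left₀ (norm_nonneg _) hw 2
  unfold vW
  rw [lintegral_add_left ((((Fw_continuous n w).measurable.ennreal_ofReal).indicator
    measurableSet_closedBall).const_mul _), lintegral_const_mul _
    (((Fw_continuous n w).measurable.ennreal_ofReal).indicator measurableSet_closedBall),
    lintegral_const_mul _ (measurable_const.indicator (capS_meas w)),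
    lintegral_indicator measurableSet_closedBall, lintegral_indicator (capS_meas w),
    setLIntegral_one]
  set q : ℝ := R ^ 2 / n with hq
  have hq0 : 0 ≤ q := by positivity
  have hq1 : q ≤ 1 / 16 := by rw [hq, div_le_iff₀ (by linarith)]; linarith
  have e1 : 8 * R ^ 2 / n = 8 * q := by rw [hq]; ring
  have e2 : 25 * R ^ 2 / n = 25 * q := by rw [hq]; ring
  have hwq : ‖w‖ ^ 2 / n ≤ q := by rw [hq]; gcongr
  have h1 := ball_part_sq hn w
  have h2 := volume_capS_le hn1 w
  have h3 : ∫⁻ x in closedBall w 1, ENNReal.ofReal (Fw n w x) ≤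
      ENNReal.ofReal (kap n * (1 + q)) := h1.trans (by gcongr)
  have h4 : volume (capS w) ≤ ENNReal.ofReal (kap n * (4 * q)) := by
    refine h2.trans (ENNReal.ofReal_le_ofReal ?_)
    apply mul_le_mul_of_nonneg_left _ hkap
    have : 4 * ‖w‖ ^ 2 / n = 4 * (‖w‖ ^ 2 / n) := by ring
    linarith
  rw [e1, e2]
  calc ENNReal.ofReal (1 + 8 * q) * (∫⁻ x in closedBall w 1, ENNReal.ofReal (Fw n w x)) +
        2 * volume (capS w)
      ≤ ENNReal.ofReal (1 + 8 * q) * ENNReal.ofReal (kap n * (1 + q)) +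
        ENNReal.ofReal 2 * ENNReal.ofReal (kap n * (4 * q)) := by
        rw [ENNReal.ofReal_ofNat]
        exact add_le_add (mul_le_mul' le_rfl h3) (mul_le_mul' le_rfl h4)
    _ = ENNReal.ofReal ((1 + 8 * q) * (kap n * (1 + q)) + 2 * (kap n * (4 * q))) := by
        rw [← ENNReal.ofReal_mul (by positivity), ← ENNReal.ofReal_mul (by norm_num),
          ← ENNReal.ofReal_add (by positivity) (by positivity)]
    _ ≤ ENNReal.ofReal (kap n * (1 + 25 * q)) := by
        apply ENNReal.ofReal_le_ofReal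
        have : (1 + 8 * q) * (kap n * (1 + q)) + 2 * (kap n * (4 * q)) =
          kap n * (1 + 17 * q + 8 * q ^ 2) := by ring
        rw [this]
        apply mul_le_mul_of_nonneg_left _ hkap
        nlinarith

/-- rays far from tangency, integrated -/
lemma far_case1 (hn : 1 ≤ n) (b : ℝ) (hb1 : 1 ≤ b) (w θ : EuclideanSpace ℝ (Fin n))
    (hθ : ‖θ‖ = 1) (p D : ℝ) (hp : p = ⟪w, θ⟫) (hD0 : 0 < D) (hDp : D < p)
    (hmem : ∀ s ∈ Ioc (p - D) (p + D), s • θ ∈ closedBall w 1) (hw2 : ‖w‖ ^ 2 = 1 + p ^ 2 - D ^ 2) :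
    ENNReal.ofReal (b * ((p + D) ^ n * (1 + (p + D) * D) / 2 -
      (p - D) ^ n * (1 - (p - D) * D) / 2) / n) ≤
      ∫⁻ s : ℝ in Ioi (0 : ℝ), ENNReal.ofReal (s ^ (n - 1)) * vW n b w (s • θ) := by
  have hn' : (1 : ℝ) ≤ n := by exact_mod_cast hn
  set x : ℝ := b * ((p + D) ^ n * (1 + (p + D) * D) / 2 - (p - D) ^ n * (1 - (p - D) * D) / 2)
      with hx
  have hc : Continuous (fun s : ℝ => s ^ (n - 1) * Fw n w (s • θ)) := by
    have : Continuous (fun r : ℝ => Fw n w (r • θ)) := (Fw_continuous n w).comp (by fun_prop)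
    fun_prop
  have hFr : ∀ r : ℝ, Fw n w (r • θ) = (1 + (((n : ℝ) + 2) / n) * r ^ 2 -
      (((n : ℝ) + 1) / n) * (r * p)) / 2 := by
    intro r
    unfold Fw
    rw [norm_smul, hθ, inner_smul_right, ← hp, mul_one, Real.norm_eq_abs, sq_abs]
  have hint : ∫ s in (p - D)..(p + D), b * (s ^ (n - 1) * Fw n w (s • θ)) = x / n := by
    rw [intervalIntegral.integral_const_mul]
    have hder : ∀ s ∈ uIcc (p - D) (p + D), HasDerivAt
        (fun r : ℝ => (r ^ n + r ^ (n + 2) - p * r ^ (n + 1)) / 2 / n)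
        (s ^ (n - 1) * Fw n w (s • θ)) s := by
      intro r _
      have h := (((hasDerivAt_pow n r).add (hasDerivAt_pow (n + 2) r)).sub
        ((hasDerivAt_pow (n + 1) r).const_mul p)).div_const 2 |>.div_const (n : ℝ)
      refine HasDerivAt.congr_deriv h ?_
      rw [hFr]
      obtain ⟨m, rfl⟩ : ∃ m, n = m + 1 := ⟨n - 1, by omega⟩
      simp only [Nat.add_sub_cancel]
      have e1 : m + 1 + 2 - 1 = m + 2 := by omega
      rw [e1]
      push_cast
      field_simp
      ring
    rw [intervalIntegral.integral_eq_sub_of_hasDerivAt hder (hc.intervalIntegrable _ _), hx]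
    field_simp
    ring
  have hle : p - D ≤ p + D := by linarith
  calc ENNReal.ofReal (x / n)
      = ENNReal.ofReal (∫ s in Ioc (p - D) (p + D), b * (s ^ (n - 1) * Fw n w (s • θ))) := by
        rw [← hint, intervalIntegral.integral_of_le hle]
    _ ≤ ENNReal.ofReal (∫ s in Ioc (p - D) (p + D),
          max (b * (s ^ (n - 1) * Fw n w (s • θ))) 0) := by
        apply ENNReal.ofReal_le_ofReal
        apply setIntegral_mono
        · exact ((continuous_const.mul hc).integrableOn_Icc).mono_set Ioc_subset_Icc_self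
        · exact (((continuous_const.mul hc).max continuous_const).integrableOn_Icc).mono_set
            Ioc_subset_Icc_self
        · intro s; exact le_max_left _ _
    _ = ∫⁻ s in Ioc (p - D) (p + D),
          ENNReal.ofReal (max (b * (s ^ (n - 1) * Fw n w (s • θ))) 0) := by
        apply ofReal_integral_eq_lintegral_ofReal
        · exact (((continuous_const.mul hc).max continuous_const).integrableOn_Icc).mono_set
            Ioc_subset_Icc_self
        · exact Filter.Eventually.of_forall fun s => le_max_right _ _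
    _ ≤ ∫⁻ s in Ioc (p - D) (p + D), ENNReal.ofReal (s ^ (n - 1)) * vW n b w (s • θ) := by
        apply setLIntegral_mono' measurableSet_Ioc
        intro s hs
        have hs0 : 0 ≤ s := by linarith [hs.1]
        have hb0 : 0 ≤ b := by linarith
        unfold vW
        rw [indicator_of_mem (hmem s hs), ENNReal.ofReal_max, ENNReal.ofReal_zero]
        have e : b * (s ^ (n - 1) * Fw n w (s • θ)) = s ^ (n - 1) * (b * Fw n w (s • θ)) := by
          ring
        rw [e, ENNReal.ofReal_mul (pow_nonneg hs0 _), ENNReal.ofReal_mul hb0]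
        apply max_le
        · exact mul_le_mul' le_rfl le_self_add
        · exact zero_le
    _ ≤ _ := lintegral_mono_set (fun s hs => by
        have h1 := hs.1
        have h2 : 0 < s := by linarith
        exact h2)

/-- rays close to tangency, integrated -/
lemma far_case2 (hn : 1 ≤ n) (b : ℝ) (w θ : EuclideanSpace ℝ (Fin n))
    (p D : ℝ) (hp : p = ⟪w, θ⟫) (hD0 : 0 < D) (hDp : D < p)
    (hmem : ∀ s ∈ Ioc (p - D) (p + D), s • θ ∈ closedBall w 1)
    (hw2 : ‖w‖ ^ 2 = 1 + p ^ 2 - D ^ 2) (hξ : (p + D) * D ≤ 1 / 2) :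
    ENNReal.ofReal (2 * ((p + D) ^ n - (p - D) ^ n) / n) ≤
      ∫⁻ s : ℝ in Ioi (0 : ℝ), ENNReal.ofReal (s ^ (n - 1)) * vW n b w (s • θ) := by
  have hn' : (1 : ℝ) ≤ n := by exact_mod_cast hn
  have hle : p - D ≤ p + D := by linarith
  have hint : ∫ s in (p - D)..(p + D), s ^ (n - 1) = ((p + D) ^ n - (p - D) ^ n) / n := by
    rw [integral_pow]
    obtain ⟨m, rfl⟩ : ∃ m, n = m + 1 := ⟨n - 1, by omega⟩
    simp only [Nat.add_sub_cancel]
    push_cast; ring
  have hcap : ∀ s ∈ Ioc (p - D) (p + D), s • θ ∈ capS w := by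
    intro s hs
    refine ⟨?_, hmem s hs⟩
    show ⟪w, s • θ - w⟫ ≤ -(1 / 2)
    rw [inner_sub_right, inner_smul_right, ← hp, real_inner_self_eq_norm_sq, hw2]
    have h1 : s - p ≤ D := by linarith [hs.2]
    have h2 : (s - p) * p ≤ D * p := mul_le_mul_of_nonneg_right h1 (by linarith)
    nlinarith
  have hcpow : Continuous (fun s : ℝ => s ^ (n - 1)) := by fun_prop
  calc ENNReal.ofReal (2 * ((p + D) ^ n - (p - D) ^ n) / n)
      = 2 * ENNReal.ofReal (∫ s in Ioc (p - D) (p + D), s ^ (n - 1)) := by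
        rw [← intervalIntegral.integral_of_le hle, hint, ← ENNReal.ofReal_ofNat 2,
          ← ENNReal.ofReal_mul (by norm_num)]
        congr 1; ring
    _ = 2 * ∫⁻ s in Ioc (p - D) (p + D), ENNReal.ofReal (s ^ (n - 1)) := by
        rw [ofReal_integral_eq_lintegral_ofReal
          ((hcpow.integrableOn_Icc).mono_set Ioc_subset_Icc_self)]
        filter_upwards [ae_restrict_mem measurableSet_Ioc] with s hs
        exact pow_nonneg (by linarith [hs.1]) _
    _ = ∫⁻ s in Ioc (p - D) (p + D), ENNReal.ofReal (s ^ (n - 1)) * 2 := by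
        rw [← lintegral_const_mul _ hcpow.measurable.ennreal_ofReal]
        apply lintegral_congr
        intro s; ring
    _ ≤ ∫⁻ s in Ioc (p - D) (p + D), ENNReal.ofReal (s ^ (n - 1)) * vW n b w (s • θ) := by
        apply setLIntegral_mono' measurableSet_Ioc
        intro s hs
        apply mul_le_mul' le_rfl
        unfold vW
        rw [indicator_of_mem (hcap s hs), mul_one]
        exact le_add_self
    _ ≤ _ := lintegral_mono_set (fun s hs => by
        have h1 := hs.1
        have h2 : 0 < s := by linarith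
        exact h2)

/-- the radial property of the majorant -/
lemma vW_ray (hn : 1 ≤ n) (R : ℝ) (hR1 : 1 ≤ R) (hRn : 16 * R ^ 2 ≤ n)
    (w : EuclideanSpace ℝ (Fin n)) (hw : ‖w‖ ≤ R) (θ : EuclideanSpace ℝ (Fin n)) (hθ : ‖θ‖ = 1)
    (r : ℝ) (hr : 0 < r) :
    ENNReal.ofReal (r ^ n * √(1 - ‖r • θ - w‖ ^ 2)) ≤
      ENNReal.ofReal ((1 / √(n * Real.exp 1)) * n) *
        ∫⁻ s : ℝ in Ioi (0 : ℝ), ENNReal.ofReal (s ^ (n - 1)) *
          vW n (1 + 8 * R ^ 2 / n) w (s • θ) := by
  have hn' : (1 : ℝ) ≤ n := by exact_mod_cast hn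
  have h16 : 4 * R ^ 2 / n ≤ 1 / 2 := by rw [div_le_iff₀ (by linarith)]; linarith
  have hR4 : 4 * R ^ 2 ≤ n / 4 := by linarith
  have hb1 : 1 ≤ 1 + 8 * R ^ 2 / n := by
    have : 0 ≤ 8 * R ^ 2 / n := by positivity
    linarith
  have hc0pos : 0 ≤ 1 / √(n * Real.exp 1) := by positivity
  by_cases hT : 0 < 1 - ‖r • θ - w‖ ^ 2
  swap
  · rw [Real.sqrt_eq_zero_of_nonpos (by linarith), mul_zero, ENNReal.ofReal_zero]
    exact zero_le
  -- reduction: it is enough to have a real number below the integral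
  have key : ∀ x : ℝ, r ^ n * √(1 - ‖r • θ - w‖ ^ 2) ≤ (1 / √(n * Real.exp 1)) * x →
      ENNReal.ofReal (x / n) ≤ ∫⁻ s : ℝ in Ioi (0 : ℝ), ENNReal.ofReal (s ^ (n - 1)) *
          vW n (1 + 8 * R ^ 2 / n) w (s • θ) →
      ENNReal.ofReal (r ^ n * √(1 - ‖r • θ - w‖ ^ 2)) ≤
      ENNReal.ofReal ((1 / √(n * Real.exp 1)) * n) *
        ∫⁻ s : ℝ in Ioi (0 : ℝ), ENNReal.ofReal (s ^ (n - 1)) *
          vW n (1 + 8 * R ^ 2 / n) w (s • θ) := by
    intro x h1 h2
    calc ENNReal.ofReal (r ^ n * √(1 - ‖r • θ - w‖ ^ 2)) ≤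
          ENNReal.ofReal ((1 / √(n * Real.exp 1)) * x) := ENNReal.ofReal_le_ofReal h1
      _ = ENNReal.ofReal ((1 / √(n * Real.exp 1)) * n) * ENNReal.ofReal (x / n) := by
          rw [← ENNReal.ofReal_mul (by positivity)]
          congr 1; field_simp
      _ ≤ _ := mul_le_mul' le_rfl h2
  by_cases hw1 : ‖w‖ ≤ 1
  · apply key (Psi n w θ) (ray_le_Psi n hn w θ hθ hr hT)
    refine (radial_lower n hn w θ hw1 hθ).trans ?_
    apply lintegral_mono
    intro s
    apply mul_le_mul' le_rfl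
    unfold vW
    calc (closedBall w 1).indicator (fun x => ENNReal.ofReal (Fw n w x)) (s • θ)
        = 1 * (closedBall w 1).indicator (fun x => ENNReal.ofReal (Fw n w x)) (s • θ) := by
          rw [one_mul]
      _ ≤ ENNReal.ofReal (1 + 8 * R ^ 2 / n) *
          (closedBall w 1).indicator (fun x => ENNReal.ofReal (Fw n w x)) (s • θ) := by
          apply mul_le_mul' _ le_rfl
          rw [← ENNReal.ofReal_one]
          exact ENNReal.ofReal_le_ofReal hb1
      _ ≤ _ := le_self_add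
  push Not at hw1
  obtain ⟨hDpos, hD2, hρ0⟩ := ray_facts w θ hθ hr hT
  have hTe := norm_smul_sub_sq θ w hθ r
  have hmem0 := norm_smul_sub_sq θ w hθ
  have hpw : ⟪w, θ⟫ ≤ ‖w‖ := by
    have := real_inner_le_norm w θ
    rwa [hθ, mul_one] at this
  generalize hD : √(1 - ‖w‖ ^ 2 + ⟪w, θ⟫ ^ 2) = D at *
  generalize hp : ⟪w, θ⟫ = p at *
  have hw2 : ‖w‖ ^ 2 = 1 + p ^ 2 - D ^ 2 := by linarith
  have hDp : D < p := by
    have h1 : D ^ 2 < p ^ 2 := by nlinarith
    have h2 : D < |p| := by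
      have := sq_lt_sq.mp h1
      rwa [abs_of_pos hDpos] at this
    rcases le_or_gt 0 p with h3 | h3
    · rwa [abs_of_nonneg h3] at h2
    · rw [abs_of_neg h3] at h2; linarith
  have hD1 : D ≤ 1 := by
    have h1 : p ^ 2 ≤ ‖w‖ ^ 2 := pow_le_pow_left₀ (by linarith) hpw 2
    nlinarith
  have hρR : p + D ≤ 2 * R := by linarith
  have hρR2 : (p + D) ^ 2 ≤ 4 * R ^ 2 := by nlinarith
  rw [← hD2] at hTe
  rw [hTe] at hT
  have hmem : ∀ s ∈ Ioc (p - D) (p + D), s • θ ∈ closedBall w 1 := by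
    intro s hs
    rw [mem_closedBall, dist_eq_norm]
    have h1 := hmem0 s
    rw [← hD2] at h1
    have h2 : (s - p) ^ 2 ≤ D ^ 2 := by
      apply sq_le_sq'
      · linarith [hs.1]
      · linarith [hs.2]
    have h3 : ‖s • θ - w‖ ^ 2 ≤ 1 := by linarith
    exact (sq_le_one_iff₀ (norm_nonneg _)).mp h3
  rcases le_total (1 / 2) ((p + D) * D) with hξ | hξ
  · -- case 1
    have hab : (p + D) ^ 2 / n ≤ 4 * R ^ 2 / n := by gcongr
    have hcase := ray_case1 n hn p D r (4 * R ^ 2 / n) hDpos hDp.le hr hT hξ hab h16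
    have hbe : 1 + 2 * (4 * R ^ 2 / n) = 1 + 8 * R ^ 2 / n := by ring
    rw [hbe, ← hTe] at hcase
    exact key _ hcase (far_case1 hn _ hb1 w θ hθ p D hp.symm hDpos hDp hmem hw2)
  · -- case 2
    have hcase := ray_case2 n hn p D r hDpos hDp.le hr hT hξ (hρR2.trans hR4)
    rw [← hTe] at hcase
    exact key _ hcase (far_case2 hn _ w θ p D hp.symm hDpos hDp hmem hw2 hξ)

end SC70
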